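import Pool.Agent.Helper15.QS.Kap

/-!
# Normal `p`-subgroups which are not elementary abelian
-/

open scoped Classical BigOperators
open Representation Pool.Agent.Helper884.IC Pool.Agent.Y63.AWC Pool.Agent.Helper15.AW

set_option linter.unusedSectionVars false
set_option linter.unusedVariables false
set_option linter.unusedSimpArgs false

attribute [-instance] MonoidHom.decidableMemKer

noncomputable section

namespace Pool.Agent.Helper15.QS

open Pool.Agent.Y63.KR (surfaceWord coords dg cod dg_spec cod_spec cod_pos DZ_iff)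

variable {Q A : Type} [Group Q] [Fintype Q] [Group A] {p : ℕ} [hp : Fact p.Prime]

lemma minimal_pow (V : Subgroup Q) [hVn : V.Normal] (hV : IsPGroup p V) (hV1 : V ≠ ⊥)
    (hcomm : ∀ x ∈ V, ∀ y ∈ V, x * y = y * x)
    (hmin : ∀ W : Subgroup Q, W.Normal → W ≤ V → W = ⊥ ∨ W = V) : ∀ x ∈ V, x ^ p = 1 := by
  let W : Subgroup Q :=
    { carrier := {x | x ∈ V ∧ x ^ p = 1}
      one_mem' := ⟨one_mem _, one_pow _⟩
      mul_mem' := by
        rintro x y ⟨hx, hx1⟩ ⟨hy, hy1⟩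
        have h1 : Commute x y := hcomm x hx y hy
        exact ⟨mul_mem hx hy, by rw [h1.mul_pow, hx1, hy1, one_mul]⟩
      inv_mem' := by
        rintro x ⟨hx, hx1⟩
        exact ⟨inv_mem hx, by rw [inv_pow, hx1, inv_one]⟩ }
  have hWn : W.Normal := by
    constructor
    rintro x ⟨hx, hx1⟩ y
    refine ⟨hVn.conj_mem x hx y, ?_⟩
    rw [conj_pow, hx1, mul_one, mul_inv_cancel]
  rcases hmin W hWn (fun x hx => hx.1) with h | h
  · exfalso
    have hnt : Nontrivial V := (Subgroup.nontrivial_iff_ne_bot V).2 hV1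
    have hdvd : p ∣ Nat.card V := by
      obtain ⟨k, hk⟩ := (IsPGroup.iff_card).1 hV
      rw [hk]
      refine dvd_pow_self p ?_
      rintro rfl
      rw [pow_zero] at hk
      exact (Finite.one_lt_card (α := V)).ne' hk
    obtain ⟨x, hx⟩ := exists_prime_orderOf_dvd_card' p hdvd
    have h1 : (x : Q) ∈ W := by
      refine ⟨x.2, ?_⟩
      have h2 := pow_orderOf_eq_one x
      rw [hx] at h2
      exact congrArg Subtype.val h2
    rw [h, Subgroup.mem_bot] at h1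
    have h2 : x = 1 := Subtype.ext h1
    rw [h2, orderOf_one] at hx
    exact hp.out.one_lt.ne hx
  · intro x hx
    rw [← h] at hx
    exact hx.2

lemma exists_bad (P : Subgroup Q) [hPn : P.Normal] (hP : IsPGroup p P)
    (hbad : ¬ ((∀ x ∈ P, ∀ y ∈ P, x * y = y * x) ∧ ∀ x ∈ P, x ^ p = 1)) :
    ∃ V : Subgroup Q, V.Normal ∧ V ≤ P ∧ V ≠ ⊥ ∧ (∀ x ∈ V, ∀ y ∈ V, x * y = y * x) ∧
      (∀ W : Subgroup Q, W.Normal → W ≤ V → W = ⊥ ∨ W = V) ∧ ncomp V = 0 := by
  set S : Set Q := {z | (∃ x ∈ P, ∃ y ∈ P, z = x * y * x⁻¹ * y⁻¹) ∨ ∃ x ∈ P, z = x ^ p} with hS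
  have hSP : S ⊆ P := by
    rintro z (⟨x, hx, y, hy, rfl⟩ | ⟨x, hx, rfl⟩)
    · exact mul_mem (mul_mem (mul_mem hx hy) (inv_mem hx)) (inv_mem hy)
    · exact pow_mem hx _
  have hRP : Subgroup.normalClosure S ≤ P := Subgroup.normalClosure_le_normal hSP
  have hR : Subgroup.normalClosure S ≠ ⊥ := by
    intro h
    apply hbad
    constructor
    · intro x hx y hy
      have h1 : x * y * x⁻¹ * y⁻¹ ∈ Subgroup.normalClosure S :=
        Subgroup.subset_normalClosure (Or.inl ⟨x, hx, y, hy, rfl⟩)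
      rw [h, Subgroup.mem_bot, mul_inv_eq_one, mul_inv_eq_iff_eq_mul] at h1
      exact h1
    · intro x hx
      have h1 : x ^ p ∈ Subgroup.normalClosure S :=
        Subgroup.subset_normalClosure (Or.inr ⟨x, hx, rfl⟩)
      rwa [h, Subgroup.mem_bot] at h1
  obtain ⟨V, hVn, hVR, hV1, hVc, hVm⟩ := exists_minimal (p := p) P hP _ hRP hR
  have hVP : V ≤ P := hVR.trans hRP
  have hcomm : ∀ x ∈ V, ∀ y ∈ V, x * y = y * x := fun x hx y hy => hVc x hx y (hVP hy)
  refine ⟨V, hVn, hVP, hV1, hcomm, hVm, ?_⟩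
  have hpow := minimal_pow V (hP.to_le hVP) hV1 hcomm hVm
  unfold ncomp
  rw [Nat.card_eq_zero]
  left
  constructor
  rintro ⟨D, hD1, hD2⟩
  have hdec : ∀ x ∈ P, ∃ d ∈ D ⊓ P, ∃ v ∈ V, x = d * v := by
    intro x hx
    have hx' : x ∈ D ⊔ V := by rw [hD2]; trivial
    rw [Subgroup.mem_sup_of_normal_right] at hx'
    obtain ⟨d, hd, v, hv, rfl⟩ := hx'
    refine ⟨d, Subgroup.mem_inf.2 ⟨hd, ?_⟩, v, hv, rfl⟩
    have := mul_mem hx (inv_mem (hVP hv))
    rwa [mul_inv_cancel_right] at this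
  have hnorm : (D ⊓ P).Normal := by
    constructor
    intro x hx y
    have hy : y ∈ D ⊔ V := by rw [hD2]; trivial
    rw [Subgroup.mem_sup_of_normal_right] at hy
    obtain ⟨d, hd, v, hv, rfl⟩ := hy
    obtain ⟨hx1, hx2⟩ := Subgroup.mem_inf.1 hx
    have h6 : d * v * x * (d * v)⁻¹ = d * x * d⁻¹ := by
      have h7 : v * x = x * v := hVc v hv x hx2
      calc d * v * x * (d * v)⁻¹ = d * (v * x) * v⁻¹ * d⁻¹ := by group
        _ = _ := by rw [h7]; group
    rw [h6]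
    exact Subgroup.mem_inf.2 ⟨mul_mem (mul_mem hd hx1) (inv_mem hd), hPn.conj_mem x hx2 d⟩
  have hle : Subgroup.normalClosure S ≤ D ⊓ P := by
    refine Subgroup.normalClosure_le_normal ?_
    rintro z (⟨x, hx, y, hy, rfl⟩ | ⟨x, hx, rfl⟩)
    · obtain ⟨d, hd, v, hv, rfl⟩ := hdec x hx
      obtain ⟨e, he, w, hw, rfl⟩ := hdec y hy
      have c1 : v * (e * w) = e * w * v := hVc v hv _ hy
      have c2 : w * d = d * w := hVc w hw _ (Subgroup.mem_inf.1 hd).2
      have h1 : d * v * (e * w) * (d * v)⁻¹ * (e * w)⁻¹ = d * e * d⁻¹ * e⁻¹ := by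
        calc d * v * (e * w) * (d * v)⁻¹ * (e * w)⁻¹ =
            d * (v * (e * w)) * v⁻¹ * d⁻¹ * w⁻¹ * e⁻¹ := by group
          _ = d * e * w * (w * d)⁻¹ * e⁻¹ := by rw [c1]; group
          _ = _ := by rw [c2]; group
      rw [h1]
      exact mul_mem (mul_mem (mul_mem hd he) (inv_mem hd)) (inv_mem he)
    · obtain ⟨d, hd, v, hv, rfl⟩ := hdec x hx
      have h1 : Commute d v := (hVc v hv _ (Subgroup.mem_inf.1 hd).2).symm
      change (d * v) ^ p ∈ D ⊓ P
      rw [h1.mul_pow, hpow v hv, mul_one]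
      exact pow_mem hd _
  apply hV1
  rw [eq_bot_iff, ← hD1]
  exact le_inf ((hVR.trans hle).trans inf_le_left) le_rfl

/-- if the normal `p`-subgroup is not elementary abelian then the numbers are small -/
theorem gl_bad [Finite A] (f : Q →* A) (hf : Function.Surjective f) (hP : IsPGroup p f.ker)
    (hbad : ¬ ((∀ x ∈ f.ker, ∀ y ∈ f.ker, x * y = y * x) ∧ ∀ x ∈ f.ker, x ^ p = 1))
    {n N : ℕ} (hn : 0 < n) (hd : p ^ N * (p - 1) ∣ n) (a : Fin (n + 1) → A × A) :
    (p : ℤ) ^ (N + 1) ∣ (gl f a : ℤ) := by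
  obtain ⟨V, hVn, hVR, hV1, hVc, hVm, h0⟩ := exists_bad f.ker hP hbad
  have h1 := gl_step V f hVR (hP.to_le hVR) hV1 hVc hVm hn hd a
  rw [h0, Nat.cast_zero, zero_mul, add_zero] at h1
  exact h1

end Pool.Agent.Helper15.QS
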