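import Pool.Agent.Helper15.QS.Homog

/-!
# The central extension which belongs to a nonvanishing sum
-/

open scoped Classical BigOperators IsMulCommutative
open Representation Pool.Agent.Helper884.IC Pool.Agent.Y63.AWC Pool.Agent.Helper15.AW

set_option linter.unusedSectionVars false
set_option linter.unusedVariables false
set_option linter.unusedSimpArgs false

attribute [-instance] MonoidHom.decidableMemKer

noncomputable section

namespace Pool.Agent.Helper15.QS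

open Pool.Agent.Y63.KR (surfaceWord coords dg cod dg_spec cod_spec cod_pos DZ_iff)

section

variable {B : Type} [Group B] [Finite B] {B1 : Subgroup B} {A : Type} [Group A] [Fintype A]
  {π : A →* B1} {H : Type} [Group H] [Fintype H] {K : Type} [Group K] [Finite K]

/-- the element of a power with one nontrivial coordinate -/
abbrev sg (B1 : Subgroup B) (i : B ⧸ B1) : K →* (B ⧸ B1 → K) := MonoidHom.mulSingle (fun _ => K) i

lemma sg_same (i : B ⧸ B1) (x : K) : sg B1 i x i = x :=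
  @Pi.mulSingle_eq_same _ (fun _ => K) _ _ i x

lemma sg_ne {i j : B ⧸ B1} (h : j ≠ i) (x : K) : sg B1 i x j = 1 :=
  @Pi.mulSingle_eq_of_ne _ (fun _ => K) _ _ i j h x

/-- the elements with all coordinates in `L` -/
abbrev HLa (Φ : H →* Ind π) (L : Subgroup A) : Subgroup H := (indL (π := π) L).comap Φ

/-- the projection -/
abbrev fLa (Φ : H →* Ind π) (L : Subgroup A) : HLa Φ L →* B :=
  ((Ind.fstHom π).comp Φ).comp (HLa Φ L).subtype

/-- a group which is an extension of an induced group by a central subgroup -/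
structure Dat (π : A →* B1) (Φ : H →* Ind π) (dl : K →* A) (φ : A →* MulAut K)
    (ψ : (B ⧸ B1 → K) →* H) : Prop where
  surj : Function.Surjective Φ
  central : Φ.ker ≤ Subgroup.center H
  d1 : ∀ a x, dl (φ a x) = a * dl x * a⁻¹
  d2 : ∀ x y, φ (dl x) y = x * y * x⁻¹
  perfect : commutator K = ⊤
  fst : ∀ k, (Φ (ψ k)).fst = 1
  snd : ∀ k i, (Φ (ψ k)).snd i = dl (k i)
  onto : ∀ h, (Φ h).fst = 1 → ∃ k, ψ k = h
  single : ∀ (x : K) (i : B ⧸ B1), dl x = 1 → ψ (sg B1 i x) = ψ (sg B1 (i0 B1) x)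
  conj : ∀ h, (Φ h).fst • i0 B1 = i0 B1 → ∀ x, h * ψ (sg B1 (i0 B1) x) * h⁻¹ =
    ψ (sg B1 (i0 B1) (φ ((Φ h).snd (i0 B1)) x))

variable {Φ : H →* Ind π} {dl : K →* A} {φ : A →* MulAut K} {ψ : (B ⧸ B1 → K) →* H}

lemma Dat.ker_psi (D : Dat π Φ dl φ ψ) {x : K} (hx : dl x = 1) (i : B ⧸ B1) :
    ψ (sg B1 i x) ∈ Φ.ker := by
  rw [MonoidHom.mem_ker]
  refine Ind.ext (D.fst _) (funext fun l => ?_)
  rw [D.snd, Ind.one_snd]
  by_cases h : l = i
  · subst h
    rw [sg_same, hx]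
  · rw [sg_ne h, map_one]

lemma Dat.cover (D : Dat π Φ dl φ ψ) (a : A) (ha : π a = 1) : ∃ k : K, dl k = a := by
  obtain ⟨h, hh⟩ := D.surj (Ind.inc π (fun i => if i = i0 B1 then ⟨a, ha⟩ else 1))
  obtain ⟨k, hk⟩ := D.onto h (by rw [hh]; rfl)
  refine ⟨k (i0 B1), ?_⟩
  rw [← D.snd, hk, hh]
  simp

theorem exists_gamma_of {p : ℕ} [hp : Fact p.Prime] (hπ : Function.Surjective π)
    (D : Dat π Φ dl φ ψ) (lam : Φ.ker →* ℂˣ)
    (hpr : ¬ p ∣ Nat.card Φ.ker) {n : ℕ} (r : Fin (n + 1) → B × B) (hr1 : surfaceWord r = 1)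
    (hr2 : Subgroup.closure (coords r) = ⊤) (h : EW π (WW Φ Φ.ker lam) ⊤ r ≠ 0) :
    ∃ (Γ : Type) (_ : Group Γ) (_ : Fintype Γ) (a : Γ →* A) (j : K →* Γ) (κ : a.ker →* ℂˣ),
      Function.Surjective a ∧ a.ker ≤ Subgroup.center Γ ∧ ¬ p ∣ Nat.card a.ker ∧
      (∀ x, a (j x) = dl x) ∧ ∀ (z : K) (hz : dl z = 1) (hz' : j z ∈ a.ker),
        κ ⟨_, hz'⟩ = lam ⟨_, D.ker_psi hz (i0 B1)⟩ := by
  obtain ⟨L, hLs, Theta, hT1, hT2, hT3⟩ := exists_over Φ D.surj Φ.ker D.central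
    (fun z hz => hz) lam r hr1 hr2 h
  have hTn : Theta 1 ≠ 0 := one_ne hT1
  have : Fintype (L.comap dl) := Fintype.ofFinite _
  have hmem : ∀ x : L.comap dl, ψ (sg B1 (i0 B1) (x : K)) ∈ HLa Φ L := by
    intro x i
    rw [D.snd]
    by_cases hi : i = i0 B1
    · rw [hi, sg_same]
      exact x.2
    · rw [sg_ne hi, map_one]
      exact one_mem _
  let j0 : (L.comap dl) →* (fLa Φ L).ker :=
    { toFun := fun x => ⟨⟨ψ (sg B1 (i0 B1) (x : K)), hmem x⟩, D.fst _⟩
      map_one' := by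
        apply Subtype.ext
        apply Subtype.ext
        change ψ (sg B1 (i0 B1) 1) = 1
        rw [map_one, map_one]
      map_mul' := by
        intro x y
        apply Subtype.ext
        apply Subtype.ext
        change ψ (sg B1 (i0 B1) ((x : K) * (y : K))) = ψ (sg B1 (i0 B1) (x : K)) *
          ψ (sg B1 (i0 B1) (y : K))
        rw [map_mul, map_mul] }
  have hj0 : ∀ x : L.comap dl, (((j0 x : (fLa Φ L).ker) : HLa Φ L) : H) =
    ψ (sg B1 (i0 B1) (x : K)) := fun x => rfl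
  obtain ⟨theta, ht1, ht2⟩ := homog j0 (by
    intro m
    obtain ⟨k, hk⟩ := D.onto ((m : HLa Φ L) : H) m.2
    have hkL : k (i0 B1) ∈ L.comap dl := by
      rw [Subgroup.mem_comap, ← D.snd, hk]
      exact (m : HLa Φ L).2 _
    refine ⟨⟨_, hkL⟩, (j0 ⟨_, hkL⟩)⁻¹ * m, (mul_inv_cancel_left _ _).symm, fun y => ?_⟩
    apply Subtype.ext
    apply Subtype.ext
    change (ψ (sg B1 (i0 B1) (k (i0 B1))))⁻¹ * ((m : HLa Φ L) : H) *
      ψ (sg B1 (i0 B1) (y : K)) =
      ψ (sg B1 (i0 B1) (y : K)) * ((ψ (sg B1 (i0 B1) (k (i0 B1))))⁻¹ * ((m : HLa Φ L) : H))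
    rw [← hk, ← map_inv, ← map_mul, ← map_mul, ← map_mul]
    congr 1
    funext i
    by_cases hi : i = i0 B1
    · subst hi
      simp only [Pi.mul_apply, Pi.inv_apply, sg_same, inv_mul_cancel, one_mul, mul_one]
    · simp only [Pi.mul_apply, Pi.inv_apply, sg_ne hi, inv_one, one_mul, mul_one]) hT1
  obtain ⟨V, _, _, _, rho, hr, rfl⟩ := ht1
  have htn : rho.character 1 ≠ 0 := one_ne ⟨V, _, _, ‹_›, rho, hr, rfl⟩
  obtain ⟨Γ, i1, i2, a, j, κ, ha1, ha2, ha3, ha4, ha5⟩ := exists_gamma (p := p) D.d1 D.d2 L (by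
    intro a
    obtain ⟨l, hl, hla⟩ := hLs a
    obtain ⟨k, hk⟩ := D.cover (a * l⁻¹) (by rw [map_mul, map_inv, hla, mul_inv_cancel])
    exact ⟨k, l, hl, by rw [hk, inv_mul_cancel_right]⟩) rho hr (by
    intro l hl y z hz
    -- an element of `HL` over `l`
    have hs : ∀ b : B1, (∃ γ : A, π γ = b) → ∃ l ∈ L, π l = b := by
      rintro b ⟨γ, rfl⟩
      exact hLs γ
    let b : B := (i0 B1).out * (π l : B) * ((i0 B1).out)⁻¹
    have ho : (((i0 B1).out : B) : B ⧸ B1) = i0 B1 := Quotient.out_eq _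
    have hb : b • i0 B1 = i0 B1 := by
      conv_lhs => rw [← ho]
      change ((b * (i0 B1).out : B) : B ⧸ B1) = _
      have : b * (i0 B1).out = (i0 B1).out * (π l : B) := inv_mul_cancel_right _ _
      rw [this, QuotientGroup.mk_mul_of_mem _ (π l).2, ho]
    have hkp : kp B1 b (i0 B1) = π l := by
      apply Subtype.ext
      rw [kp_coe, hb]
      change ((i0 B1).out)⁻¹ * ((i0 B1).out * (π l : B) * ((i0 B1).out)⁻¹) * (i0 B1).out = _
      group
    choose s hsL hsπ using hs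
    have hπ' : ∀ i, ∃ γ : A, π γ = kp B1 b i := fun i => hπ _
    let x0 : Ind π := ⟨b, fun i => if i = i0 B1 then l else s (kp B1 b i) (hπ' i), by
      intro i
      by_cases hi : i = i0 B1
      · rw [if_pos hi, hi, hkp]
      · rw [if_neg hi, hsπ]⟩
    obtain ⟨h0, hh0⟩ := D.surj x0
    have hh0L : h0 ∈ HLa Φ L := by
      intro i
      rw [hh0]
      change (if i = i0 B1 then l else s (kp B1 b i) (hπ' i)) ∈ L
      split_ifs
      · exact hl
      · exact hsL _ _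
    have hh1 : (Φ h0).snd (i0 B1) = l := by
      rw [hh0]
      exact if_pos rfl
    have h1 := D.conj h0 (by rw [hh0]; exact hb) (y : K)
    rw [hh1, ← hz] at h1
    have h2 := hT2 ⟨h0, hh0L⟩ (j0 y) (j0 z) (Subtype.ext h1.symm)
    apply mul_right_cancel₀ hTn
    rw [ht2, ht2, h2])
  refine ⟨Γ, i1, i2, a, j, κ, ha1, ha2, ha3, ha4, fun z hz hz' => ?_⟩
  have hzL : z ∈ L.comap dl := by
    rw [Subgroup.mem_comap, hz]
    exact one_mem _
  refine ha5 ⟨z, hzL⟩ hz' _ (Nat.card Φ.ker) ?_ ?_ hpr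
  · -- `rho z` is a scalar
    obtain ⟨c, hc⟩ := scalar_of_comm rho hr (rho ⟨z, hzL⟩) (by
      intro m
      rw [← map_mul, ← map_mul]
      congr 1
      apply Subtype.ext
      have h1 := D.d2 z (m : K)
      rw [hz, map_one] at h1
      change z * (m : K) = (m : K) * z
      rw [eq_mul_inv_iff_mul_eq] at h1
      exact h1.symm)
    have h1 := hT3 (j0 ⟨z, hzL⟩) (by
      rw [Subgroup.mem_subgroupOf]
      exact D.ker_psi hz _)
    have h2 := ht2 ⟨z, hzL⟩
    rw [h1] at h2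
    have h3 : rho.character ⟨z, hzL⟩ = c * rho.character 1 := by
      change LinearMap.trace ℂ V (rho ⟨z, hzL⟩) = c * LinearMap.trace ℂ V (rho 1)
      have e1 : rho 1 = 1 := map_one rho
      rw [hc, e1, map_smul, smul_eq_mul]
    rw [h3] at h2
    rw [hc]
    congr 1
    have h4 : (c - ((lam ⟨_, D.ker_psi hz (i0 B1)⟩ : ℂˣ) : ℂ)) * (rho.character 1 * Theta 1) = 0 := by
      rw [sub_mul, ← mul_assoc, h2]
      change ((lam ⟨_, D.ker_psi hz (i0 B1)⟩ : ℂˣ) : ℂ) * Theta 1 * rho.character 1 - _ = 0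
      ring
    rcases mul_eq_zero.1 h4 with h5 | h5
    · exact sub_eq_zero.1 h5
    · exact absurd h5 (mul_ne_zero htn hTn)
  · rw [← map_pow, pow_card_eq_one', map_one]

end

end Pool.Agent.Helper15.QS
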