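import Pool.Agent.Helper15.QS.Cas

/-!
# The character of the fibre product
-/

open scoped Classical BigOperators IsMulCommutative
open Representation Pool.Agent.Helper884.IC Pool.Agent.Y63.AWC Pool.Agent.Helper15.AW

set_option linter.unusedSectionVars false
set_option linter.unusedVariables false
set_option linter.unusedSimpArgs false

attribute [-instance] MonoidHom.decidableMemKer

noncomputable section

namespace Pool.Agent.Helper15.QS

open Pool.Agent.Y63.KR (surfaceWord coords dg cod dg_spec cod_spec cod_pos DZ_iff)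

section

variable {Γ : Type} [Group Γ] (C : Subgroup Γ) (κ : C →* ℂˣ)

/-- the extension of the values of a homomorphism by `1` -/
def k1 (x : Γ) : ℂˣ := if h : x ∈ C then κ ⟨x, h⟩ else 1

lemma k1_mem {x : Γ} (h : x ∈ C) : k1 C κ x = κ ⟨x, h⟩ := dif_pos h

lemma k1_mul {x y : Γ} (hx : x ∈ C) (hy : y ∈ C) : k1 C κ (x * y) = k1 C κ x * k1 C κ y := by
  rw [k1_mem C κ hx, k1_mem C κ hy, k1_mem C κ (mul_mem hx hy), ← map_mul]
  rfl

lemma k1_inv {x : Γ} (hx : x ∈ C) : k1 C κ x⁻¹ = (k1 C κ x)⁻¹ := by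
  rw [k1_mem C κ hx, k1_mem C κ (inv_mem hx), ← map_inv]
  rfl

lemma k1_one : k1 C κ 1 = 1 := by
  rw [k1_mem C κ (one_mem _)]
  exact map_one κ

lemma ext0_k1 [Fintype Γ] {x : Γ} (hx : x ∈ C) : ext0 C κ x = ((k1 C κ x : ℂˣ) : ℂ) := by
  rw [ext0_of_mem κ hx, k1_mem C κ hx]

end

section

variable {B : Type} [Group B] [Finite B] {B1 : Subgroup B} [Fintype (B ⧸ B1)]
  {A : Type} [Group A] [Fintype A]
  {π : A →* B1} {H : Type} [Group H] [Fintype H] {K : Type} [Group K] [Finite K]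
  {Φ : H →* Ind π} {dl : K →* A} {φ : A →* MulAut K} {ψ : (B ⧸ B1 → K) →* H}
  (D : Dat π Φ dl φ ψ)

include D in
/-- the product of the values -/
lemma Dat.prod_val (lam : Φ.ker →* ℂˣ) (f : K → ℂˣ)
    (hf : ∀ (z : K) (hz : dl z = 1), f z = lam ⟨_, D.ker_psi hz (i0 B1)⟩)
    (u : B ⧸ B1 → K) (hu : ∀ i, dl (u i) = 1) (hk : ψ u ∈ Φ.ker) :
    ∏ i, f (u i) = lam ⟨_, hk⟩ := by
  let cK : (B ⧸ B1 → dl.ker) →* (B ⧸ B1 → K) :=
    { toFun := fun v i => (v i : K)
      map_one' := rfl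
      map_mul' := fun _ _ => rfl }
  have hcK : ∀ v, (ψ.comp cK) v ∈ Φ.ker := by
    intro v
    rw [MonoidHom.mem_ker]
    refine Ind.ext (D.fst _) (funext fun l => ?_)
    rw [MonoidHom.comp_apply, D.snd, Ind.one_snd]
    exact (v l).2
  let ν : (B ⧸ B1 → dl.ker) →* ℂˣ := lam.comp ((ψ.comp cK).codRestrict Φ.ker hcK)
  have hsg : ∀ v : dl.ker, (ψ.comp (sg B1 (i0 B1))).comp dl.ker.subtype v ∈ Φ.ker := fun v =>
    D.ker_psi v.2 _
  let one : dl.ker →* ℂˣ :=
    lam.comp (((ψ.comp (sg B1 (i0 B1))).comp dl.ker.subtype).codRestrict Φ.ker hsg)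
  let μ : (B ⧸ B1 → dl.ker) →* ℂˣ :=
    ∏ i : B ⧸ B1, one.comp (Pi.evalMonoidHom (fun _ : B ⧸ B1 => dl.ker) i)
  have hμ : ∀ v, μ v = ∏ i, one (v i) := by
    intro v
    change (∏ i : B ⧸ B1, one.comp (Pi.evalMonoidHom (fun _ : B ⧸ B1 => dl.ker) i)) v = _
    rw [MonoidHom.finsetProd_apply]
    rfl
  have hone : ∀ v : dl.ker, one v = f v := fun v => (hf v v.2).symm
  have hμν : μ = ν := by
    refine MonoidHom.pi_ext fun i x => ?_
    rw [hμ]
    rw [Finset.prod_eq_single i]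
    · rw [Pi.mulSingle_eq_same]
      change lam ⟨_, _⟩ = lam ⟨_, _⟩
      congr 1
      apply Subtype.ext
      change ψ (sg B1 (i0 B1) (x : K)) = ψ (cK (Pi.mulSingle i x))
      rw [← D.single (x : K) i x.2]
      congr 1
      funext l
      by_cases hl : l = i
      · subst hl
        rw [sg_same]
        change (x : K) = (((Pi.mulSingle l x : B ⧸ B1 → dl.ker) l : dl.ker) : K)
        rw [Pi.mulSingle_eq_same]
      · rw [sg_ne hl]
        change (1 : K) = (((Pi.mulSingle i x : B ⧸ B1 → dl.ker) l : dl.ker) : K)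
        rw [Pi.mulSingle_eq_of_ne hl]
        rfl
    · intro l _ hl
      rw [Pi.mulSingle_eq_of_ne hl, map_one]
    · intro h
      exact absurd (Finset.mem_univ _) h
  have h1 := congrArg (fun F => F (fun i => (⟨u i, hu i⟩ : dl.ker))) hμν
  simp only [hμ, hone] at h1
  exact h1

variable {Γ : Type} [Group Γ] [Fintype Γ] (a : Γ →* A) (j : K →* Γ) (κ : a.ker →* ℂˣ)

/-- the projection of the induced groups -/
abbrev Psi (π : A →* B1) (a : Γ →* A) : Ind (π.comp a) →* Ind π := Ind.map a (fun _ => rfl)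

/-- the product of the values of `κ` at the differences -/
def dval (k : B ⧸ B1 → K) (y : Ind (π.comp a)) : ℂˣ :=
  ∏ i : B ⧸ B1, k1 a.ker κ ((y.snd i)⁻¹ * j (k i))

variable {a j κ}

include D in
lemma dval_congr (lam : Φ.ker →* ℂˣ) (haj : ∀ x, a (j x) = dl x)
    (hκ : ∀ (z : K) (hz : dl z = 1) (hz' : j z ∈ a.ker),
      κ ⟨_, hz'⟩ = lam ⟨_, D.ker_psi hz (i0 B1)⟩) (k k' : B ⧸ B1 → K) (y : Ind (π.comp a))
    (h1 : ψ k = ψ k') (h2 : ∀ i, a (y.snd i) = dl (k i)) :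
    dval a j κ k y = dval a j κ k' y := by
  set u := k⁻¹ * k' with hu
  have hk' : k' = k * u := (mul_inv_cancel_left _ _).symm
  have hψu : ψ u = 1 := by rw [hu, map_mul, map_inv, h1, inv_mul_cancel]
  have hdu : ∀ i, dl (u i) = 1 := by
    intro i
    rw [← D.snd, hψu, map_one, Ind.one_snd]
  have hju : ∀ i, j (u i) ∈ a.ker := fun i => by rw [MonoidHom.mem_ker, haj, hdu]
  have hm : ∀ i, (y.snd i)⁻¹ * j (k i) ∈ a.ker := by
    intro i
    rw [MonoidHom.mem_ker, map_mul, map_inv, haj, h2, inv_mul_cancel]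
  have hker : ψ u ∈ Φ.ker := by rw [hψu]; exact one_mem _
  have h3 := D.prod_val lam (fun z => k1 a.ker κ (j z)) (fun z hz => by
    have hz' : j z ∈ a.ker := by rw [MonoidHom.mem_ker, haj, hz]
    rw [k1_mem a.ker κ hz', hκ z hz hz']) u hdu hker
  have h4 : lam ⟨_, hker⟩ = 1 := by
    have : (⟨_, hker⟩ : Φ.ker) = 1 := Subtype.ext hψu
    rw [this, map_one]
  rw [h4] at h3
  unfold dval
  have h5 : ∀ i, k1 a.ker κ ((y.snd i)⁻¹ * j (k' i)) =
      k1 a.ker κ ((y.snd i)⁻¹ * j (k i)) * k1 a.ker κ (j (u i)) := by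
    intro i
    rw [← k1_mul a.ker κ (hm i) (hju i), hk', Pi.mul_apply, map_mul, mul_assoc]
  rw [Finset.prod_congr rfl fun i _ => h5 i, Finset.prod_mul_distrib, h3, mul_one]

lemma dval_mul (hac : a.ker ≤ Subgroup.center Γ) (haj : ∀ x, a (j x) = dl x)
    (k k' : B ⧸ B1 → K) (y y' : Ind (π.comp a)) (hy : y'.fst = 1)
    (h2 : ∀ i, a (y.snd i) = dl (k i)) (h2' : ∀ i, a (y'.snd i) = dl (k' i)) :
    dval a j κ (k * k') (y * y') = dval a j κ k y * dval a j κ k' y' := by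
  have hm : ∀ i, (y.snd i)⁻¹ * j (k i) ∈ a.ker := by
    intro i
    rw [MonoidHom.mem_ker, map_mul, map_inv, haj, h2, inv_mul_cancel]
  have hm' : ∀ i, (y'.snd i)⁻¹ * j (k' i) ∈ a.ker := by
    intro i
    rw [MonoidHom.mem_ker, map_mul, map_inv, haj, h2', inv_mul_cancel]
  unfold dval
  rw [← Finset.prod_mul_distrib]
  refine Finset.prod_congr rfl fun i _ => ?_
  rw [← k1_mul a.ker κ (hm i) (hm' i)]
  congr 1
  rw [Ind.mul_snd, hy, one_smul, mul_inv_rev, Pi.mul_apply, map_mul]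
  have h3 := Subgroup.mem_center_iff.1 (hac (hm i)) (y'.snd i)⁻¹
  calc (y'.snd i)⁻¹ * (y.snd i)⁻¹ * (j (k i) * j (k' i)) =
      (y'.snd i)⁻¹ * ((y.snd i)⁻¹ * j (k i)) * j (k' i) := by group
    _ = (y.snd i)⁻¹ * j (k i) * (y'.snd i)⁻¹ * j (k' i) := by rw [h3]
    _ = _ := by group

/-- the fibre product -/
abbrev G2 (Φ : H →* Ind π) (a : Γ →* A) : Type := F2 Φ (Psi π a)

/-- the projection of the fibre product -/
abbrev g2 (Φ : H →* Ind π) (a : Γ →* A) : G2 Φ a →* B :=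
  ((Ind.fstHom π).comp Φ).comp (f21 Φ (Psi π a))

include D in
lemma exists_sec (y : (g2 Φ a).ker) : ∃ k, ψ k = f21 Φ (Psi π a) (y : G2 Φ a) := D.onto _ y.2

lemma g2_snd (y : G2 Φ a) (i : B ⧸ B1) :
    a ((f22 Φ (Psi π a) y).snd i) = (Φ (f21 Φ (Psi π a) y)).snd i :=
  (congrFun (congrArg Ind.snd (f2_spec y)) i).symm

lemma g2_fst (y : (g2 Φ a).ker) : (f22 Φ (Psi π a) (y : G2 Φ a)).fst = 1 := by
  have h1 := congrArg Ind.fst (f2_spec (y : G2 Φ a))
  have h2 : (Φ (f21 Φ (Psi π a) (y : G2 Φ a))).fst = 1 := y.2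
  rw [h2] at h1
  exact h1.symm

/-- the character of the fibre product -/
def ch2 (D : Dat π Φ dl φ ψ) (lam : Φ.ker →* ℂˣ) (hac : a.ker ≤ Subgroup.center Γ)
    (haj : ∀ x, a (j x) = dl x) (hκ : ∀ (z : K) (hz : dl z = 1) (hz' : j z ∈ a.ker),
      κ ⟨_, hz'⟩ = lam ⟨_, D.ker_psi hz (i0 B1)⟩) : (g2 Φ a).ker →* ℂˣ :=
  MonoidHom.mk' (fun y => dval a j κ (Classical.choose (exists_sec D y))
    (f22 Φ (Psi π a) (y : G2 Φ a))) (by
    intro x y
    have hx := Classical.choose_spec (exists_sec D x)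
    have hy := Classical.choose_spec (exists_sec D y)
    have hxy := Classical.choose_spec (exists_sec D (x * y))
    set kx := Classical.choose (exists_sec D x)
    set ky := Classical.choose (exists_sec D y)
    set kxy := Classical.choose (exists_sec D (x * y))
    rw [← dval_mul hac haj kx ky _ _ (g2_fst y) (fun i => by rw [g2_snd, ← hx, D.snd])
      (fun i => by rw [g2_snd, ← hy, D.snd]), ← map_mul, ← Subgroup.coe_mul]
    refine dval_congr D lam haj hκ _ _ _ ?_ (fun i => by rw [g2_snd, ← hxy, D.snd])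
    rw [hxy, map_mul, hx, hy, ← map_mul, ← Subgroup.coe_mul])

section

variable (lam : Φ.ker →* ℂˣ) (hac : a.ker ≤ Subgroup.center Γ)
    (haj : ∀ x, a (j x) = dl x) (hκ : ∀ (z : K) (hz : dl z = 1) (hz' : j z ∈ a.ker),
      κ ⟨_, hz'⟩ = lam ⟨_, D.ker_psi hz (i0 B1)⟩)

lemma ch2_eq (y : (g2 Φ a).ker) (k : B ⧸ B1 → K) (hk : ψ k = f21 Φ (Psi π a) (y : G2 Φ a)) :
    ch2 D lam hac haj hκ y = dval a j κ k (f22 Φ (Psi π a) (y : G2 Φ a)) := by
  have hx := Classical.choose_spec (exists_sec D y)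
  refine dval_congr D lam haj hκ _ _ _ (hx.trans hk.symm) (fun i => ?_)
  rw [g2_snd, ← D.snd, hx]

/-- the elements given by `K` -/
def eta (D : Dat π Φ dl φ ψ) (haj : ∀ x, a (j x) = dl x) : (B ⧸ B1 → K) →* (g2 Φ a).ker where
  toFun k := ⟨⟨(ψ k, ⟨1, fun i => j (k i), fun i => by
    rw [kp_one, MonoidHom.comp_apply, haj, ← D.snd, (Φ (ψ k)).prop, D.fst, kp_one]⟩), by
      refine Ind.ext (D.fst k) (funext fun i => ?_)
      change (Φ (ψ k)).snd i = a (j (k i))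
      rw [D.snd, haj]⟩, D.fst k⟩
  map_one' := by
    apply Subtype.ext
    apply Subtype.ext
    refine Prod.ext (map_one ψ) (Ind.ext rfl (funext fun i => map_one j))
  map_mul' k k' := by
    apply Subtype.ext
    apply Subtype.ext
    refine Prod.ext (map_mul ψ k k') (Ind.ext (one_mul 1).symm (funext fun i => ?_))
    change j (k i * k' i) = j (k ((1 : B) • i)) * j (k' i)
    rw [one_smul, map_mul]

include D in
lemma perfect_triv {T : Type} [CommGroup T] (f : (B ⧸ B1 → K) →* T) : f = 1 := by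
  refine MonoidHom.pi_ext fun i x => ?_
  rw [MonoidHom.one_apply]
  have h1 : commutator K ≤ (f.comp (sg B1 i)).ker := Abelianization.commutator_subset_ker _
  rw [D.perfect] at h1
  exact h1 (Subgroup.mem_top x)

theorem ch2_inv : InvHom (g2 Φ a) (ch2 D lam hac haj hκ) := by
  intro y0 x
  set χ := ch2 D lam hac haj hκ with hχ
  let cj : (g2 Φ a).ker →* (g2 Φ a).ker := (MulAut.conjNormal y0 : MulAut (g2 Φ a).ker).toMonoidHom
  obtain ⟨k, hk⟩ := D.onto (f21 Φ (Psi π a) (x : G2 Φ a)) x.2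
  set c : (g2 Φ a).ker := (eta D haj k)⁻¹ * x with hc
  have hx : x = eta D haj k * c := (mul_inv_cancel_left _ _).symm
  have h1 : χ (cj (eta D haj k)) = χ (eta D haj k) := by
    have e1 := perfect_triv D ((χ.comp cj).comp (eta D haj))
    have e2 := perfect_triv D (χ.comp (eta D haj))
    have e3 := congrArg (fun F => F k) e1
    have e4 := congrArg (fun F => F k) e2
    exact e3.trans e4.symm
  -- the elements `(1, c)`
  have hc1 : f21 Φ (Psi π a) (c : G2 Φ a) = 1 := by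
    rw [hc, Subgroup.coe_mul, Subgroup.coe_inv, map_mul, map_inv]
    change (ψ k)⁻¹ * _ = 1
    rw [hk, inv_mul_cancel]
  have hcs : ∀ i, (f22 Φ (Psi π a) (c : G2 Φ a)).snd i ∈ a.ker := by
    intro i
    rw [MonoidHom.mem_ker, g2_snd, hc1, map_one, Ind.one_snd]
  have hc2 : χ c = ∏ i, k1 a.ker κ (((f22 Φ (Psi π a) (c : G2 Φ a)).snd i)⁻¹) := by
    rw [hχ, ch2_eq D lam hac haj hκ c 1 (by rw [map_one, hc1])]
    unfold dval
    simp only [Pi.one_apply, map_one, mul_one]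
  have hd1 : f21 Φ (Psi π a) ((cj c : (g2 Φ a).ker) : G2 Φ a) = 1 := by
    change f21 Φ (Psi π a) (((MulAut.conjNormal y0 c : (g2 Φ a).ker)) : G2 Φ a) = 1
    rw [MulAut.conjNormal_apply, map_mul, map_mul, hc1, mul_one, map_inv, mul_inv_cancel]
  have hd2 : χ (cj c) = ∏ i, k1 a.ker κ
      (((f22 Φ (Psi π a) ((cj c : (g2 Φ a).ker) : G2 Φ a)).snd i)⁻¹) := by
    rw [hχ, ch2_eq D lam hac haj hκ (cj c) 1 (by rw [map_one, hd1])]
    unfold dval
    simp only [Pi.one_apply, map_one, mul_one]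
  have h2 : χ (cj c) = χ c := by
    rw [hc2, hd2]
    symm
    refine Fintype.prod_equiv (MulAction.toPerm (f22 Φ (Psi π a) y0).fst) _ _ fun i => ?_
    congr 2
    rw [MulAction.toPerm_apply]
    have e1 : (f22 Φ (Psi π a) ((cj c : (g2 Φ a).ker) : G2 Φ a)) =
        f22 Φ (Psi π a) y0 * f22 Φ (Psi π a) (c : G2 Φ a) * (f22 Φ (Psi π a) y0)⁻¹ := by
      change f22 Φ (Psi π a) (((MulAut.conjNormal y0 c : (g2 Φ a).ker)) : G2 Φ a) = _
      rw [MulAut.conjNormal_apply, map_mul, map_mul, map_inv]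
    rw [e1, Ind.conj_snd _ _ (g2_fst c)]
    have e2 := Subgroup.mem_center_iff.1 (hac (hcs i)) ((f22 Φ (Psi π a) y0).snd i)
    rw [e2, mul_inv_cancel_right]
  calc χ (cj x) = χ (cj (eta D haj k * c)) := congrArg (fun t => χ (cj t)) hx
    _ = χ (eta D haj k * c) := by rw [map_mul cj, map_mul χ, h1, h2, ← map_mul χ]
    _ = χ x := (congrArg χ hx).symm

/-- the value at the words -/
theorem ch2_val (y : (g2 Φ a).ker) (h1 : f21 Φ (Psi π a) (y : G2 Φ a) ∈ Φ.ker) :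
    ext0 Φ.ker lam (f21 Φ (Psi π a) (y : G2 Φ a)) = ((ch2 D lam hac haj hκ y : ℂˣ) : ℂ) *
      wt a.ker κ (f22 Φ (Psi π a) (y : G2 Φ a)) := by
  obtain ⟨k, hk⟩ := D.onto (f21 Φ (Psi π a) (y : G2 Φ a)) y.2
  have hΦ1 : Φ (f21 Φ (Psi π a) (y : G2 Φ a)) = 1 := h1
  have hdk : ∀ i, dl (k i) = 1 := by
    intro i
    rw [← D.snd, hk, hΦ1, Ind.one_snd]
  have hys : ∀ i, (f22 Φ (Psi π a) (y : G2 Φ a)).snd i ∈ a.ker := by
    intro i
    rw [MonoidHom.mem_ker, g2_snd, hΦ1, Ind.one_snd]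
  have hjk : ∀ i, j (k i) ∈ a.ker := fun i => by rw [MonoidHom.mem_ker, haj, hdk]
  have hker : ψ k ∈ Φ.ker := by rw [hk]; exact h1
  have h3 := D.prod_val lam (fun z => k1 a.ker κ (j z)) (fun z hz => by
    have hz' : j z ∈ a.ker := by rw [MonoidHom.mem_ker, haj, hz]
    rw [k1_mem a.ker κ hz', hκ z hz hz']) k hdk hker
  rw [ext0_of_mem lam h1, ch2_eq D lam hac haj hκ y k hk, wt_eq]
  unfold dval
  have h4 : ∀ i, ext0 a.ker κ ((f22 Φ (Psi π a) (y : G2 Φ a)).snd i) =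
      ((k1 a.ker κ ((f22 Φ (Psi π a) (y : G2 Φ a)).snd i) : ℂˣ) : ℂ) := fun i =>
    ext0_k1 a.ker κ (hys i)
  rw [Finset.prod_congr rfl fun i _ => h4 i, ← Units.coe_prod, ← Units.val_mul,
    ← Finset.prod_mul_distrib]
  have h5 : ∀ i, k1 a.ker κ (((f22 Φ (Psi π a) (y : G2 Φ a)).snd i)⁻¹ * j (k i)) *
      k1 a.ker κ ((f22 Φ (Psi π a) (y : G2 Φ a)).snd i) = k1 a.ker κ (j (k i)) := by
    intro i
    rw [k1_mul a.ker κ (inv_mem (hys i)) (hjk i), k1_inv a.ker κ (hys i), mul_assoc, mul_comm,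
      mul_assoc, mul_inv_cancel, mul_one]
  rw [Finset.prod_congr rfl fun i _ => h5 i, h3]
  congr 2
  exact Subtype.ext hk.symm

/-- the order of the range -/
theorem ch2_range {p : ℕ} [hp : Fact p.Prime] (hap : ¬ p ∣ Nat.card a.ker) :
    ¬ p ∣ Nat.card (ch2 D lam hac haj hκ).range := by
  intro h
  have hfr : Finite (ch2 D lam hac haj hκ).range :=
    Finite.of_surjective _ (ch2 D lam hac haj hκ).rangeRestrict_surjective
  obtain ⟨x, hx⟩ := exists_prime_orderOf_dvd_card' p h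
  have h1 : x ^ (Nat.card a.ker) = 1 := by
    obtain ⟨y, hy⟩ := x.2
    apply Subtype.ext
    rw [Subgroup.coe_pow, ← hy]
    obtain ⟨k, hk⟩ := D.onto (f21 Φ (Psi π a) (y : G2 Φ a)) y.2
    rw [ch2_eq D lam hac haj hκ y k hk]
    unfold dval
    rw [← Finset.prod_pow]
    refine Finset.prod_eq_one fun i _ => ?_
    have hm : ((f22 Φ (Psi π a) (y : G2 Φ a)).snd i)⁻¹ * j (k i) ∈ a.ker := by
      rw [MonoidHom.mem_ker, map_mul, map_inv, haj, g2_snd, ← D.snd, hk, inv_mul_cancel]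
    rw [k1_mem a.ker κ hm, ← map_pow, pow_card_eq_one', map_one]
  exact hap (hx ▸ orderOf_dvd_of_pow_eq_one h1)

end

end

end Pool.Agent.Helper15.QS
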