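import Pool.Agent.Helper15.QS.Tens2

/-!
# The class of an invariant character of defect zero
-/

open scoped Classical BigOperators
open Representation Pool.Agent.Helper884.IC Pool.Agent.Y63.AWC Pool.Agent.Helper15.AW

set_option linter.unusedSectionVars false
set_option linter.unusedVariables false
set_option linter.unusedSimpArgs false

noncomputable section

namespace Pool.Agent.Helper15.QS

open Pool.Agent.Y63.KR (surfaceWord coords dg cod dg_spec cod_spec cod_pos DZ_iff)

section

variable {B : Type} [Group B] [Finite B] {B1 : Subgroup B} {Γ : Type} [Group Γ] [Fintype Γ]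
  {π : Γ →* B1}

/-- the extension `E` of `B₁` describes the class of the character `theta` -/
structure Describes (p : ℕ) (π : Γ →* B1) (theta : π.ker → ℂ) {E : Type} [Group E] [Fintype E]
    (pe : E →* B1) (kap : pe.ker →* ℂˣ) : Prop where
  surj : Function.Surjective pe
  central : pe.ker ≤ Subgroup.center E
  prime : ¬ p ∣ Nat.card pe.ker
  inj : Function.Injective kap
  res : ∀ (g : ℕ) (q : Fin g → Γ × Γ) (hw : surfaceWord q ∈ π.ker) (e : Fin g → E × E)
    (hwe : surfaceWord e ∈ pe.ker), mapT pe e = mapT π q →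
      zf q theta = ((kap ⟨_, hwe⟩ : ℂˣ) : ℂ)
  ind : ∀ (g : ℕ) (q : Fin g → Ind π × Ind π) (hw : surfaceWord q ∈ (Ind.fstHom π).ker)
    (e : Fin g → Ind pe × Ind pe) (hwe : surfaceWord e ∈ (Ind.fstHom pe).ker),
    mapT (Ind.fstHom pe) e = mapT (Ind.fstHom π) q →
      zf q (powChar theta) = ((dprod pe kap ⟨_, hwe⟩ : ℂˣ) : ℂ)

theorem exists_class {p : ℕ} [hp : Fact p.Prime] (hπ : Function.Surjective π) {theta : π.ker → ℂ}
    (ht : IsIrrChar theta) (hinv : Invariant theta) (hz : ¬ p ∣ cod theta) :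
    ∃ (E : Type) (_ : Group E) (_ : Fintype E) (pe : E →* B1) (kap : pe.ker →* ℂˣ),
      Describes p π theta pe kap := by
  obtain ⟨V, _, _, _, rho, hr, rfl⟩ := ht
  have : Fintype (B ⧸ B1) := Fintype.ofFinite _
  have hsurj := fstH_surj rho hr hinv
  obtain ⟨t, m, hm, ht1, ht2⟩ := exists_transfer (p := p) rho hr hz hsurj
  obtain ⟨E, _, _, j, kap, h1, h2, h3, h4, h5⟩ := exists_ext3 rho hr hsurj t m hm ht1 ht2
  let pe : E →* B1 := (pF hπ rho).comp j
  have hker : pe.ker = ((pihat rho).comp j).ker := by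
    ext x
    rw [MonoidHom.mem_ker, MonoidHom.mem_ker]
    exact pF_eq_one hπ rho (j x)
  let kap' : pe.ker →* ℂˣ := kap.comp (MulEquiv.subgroupCongr hker).toMonoidHom
  have hk : ∀ x : pe.ker, iota rho (kap' x) = (j x)⁻¹ := fun x => h5 _
  have hdel : ∀ (x : pe.ker) (hx : j x ∈ (pF hπ rho).ker), delta hπ rho hr ⟨j x, hx⟩ =
      (kap' x)⁻¹ := by
    intro x hx
    apply iota_inj rho hr
    rw [iota_delta, map_inv, hk, inv_inv]
  refine ⟨E, inferInstance, inferInstance, pe, kap', ⟨?_, ?_, ?_, ?_, ?_, ?_⟩⟩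
  · intro x
    obtain ⟨y, hy⟩ := (QuotientGroup.quotientKerEquivOfSurjective π hπ).surjective x
    obtain ⟨e, he⟩ := h1 y
    refine ⟨e, ?_⟩
    change (QuotientGroup.quotientKerEquivOfSurjective π hπ) (((pihat rho).comp j) e) = x
    rw [he, hy]
  · rw [hker]
    exact h2
  · rw [hker]
    exact h3
  · exact h4.comp (MulEquiv.injective _)
  · intro g q hw e hwe he
    have h6 : mapT (pihat rho) (mapT j e) = mapT (QuotientGroup.mk' π.ker) q := by
      funext i
      have h7 := congrFun he i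
      refine Prod.ext ?_ ?_
      · apply (QuotientGroup.quotientKerEquivOfSurjective π hπ).injective
        exact congrArg Prod.fst h7
      · apply (QuotientGroup.quotientKerEquivOfSurjective π hπ).injective
        exact congrArg Prod.snd h7
    obtain ⟨c, hc1, hc2⟩ := sum_hat rho hr hsurj q hw (mapT j e) h6
    have hirr : IsIrrChar rho.character := ⟨V, _, _, ‹_›, rho, hr, rfl⟩
    rw [zf_eq hw hirr _ hc2]
    have h7 : c = (kap' ⟨_, hwe⟩)⁻¹ := by
      apply iota_inj rho hr
      rw [← hc1, word_mapT, map_inv, hk, inv_inv]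
    rw [h7, Units.val_inv_eq_inv_val, inv_inv]
  · intro g q hw e hwe he
    let f : Ind pe →* Ind (pF hπ rho) := Ind.map j (fun _ => rfl)
    have h6 : mapT (Ind.fstHom (pF hπ rho)) (mapT f e) = mapT (Ind.fstHom π) q := by
      rw [← he]
      rfl
    have hwf : surfaceWord (mapT f e) ∈ (Ind.fstHom (pF hπ rho)).ker := by
      rw [word_mapT]
      exact hwe
    rw [pow_sum hπ rho hr hsurj q hw (mapT f e) h6 hwf, dprod_eq, dprod_eq,
      ← Units.val_inv_eq_inv_val]
    congr 1
    rw [← Finset.prod_inv_distrib]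
    refine Finset.prod_congr rfl fun i _ => ?_
    rw [inv_eq_iff_eq_inv, ← hdel]
    · congr 1
      apply Subtype.ext
      have h8 : ((((Ind.kerEquiv (pF hπ rho)).symm ⟨_, hwf⟩ i : (pF hπ rho).ker)) : Ehat rho) =
        (surfaceWord (mapT f e)).snd i := rfl
      rw [h8, word_mapT]
      rfl
    · exact ((Ind.kerEquiv pe).symm ⟨_, hwe⟩ i).2

end

end Pool.Agent.Helper15.QS
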