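import Pool.Agent.Helper15.QS.Bad

/-!
# Classes of tuples
-/

open scoped Classical BigOperators
open Representation Pool.Agent.Helper884.IC Pool.Agent.Y63.AWC Pool.Agent.Helper15.AW

set_option linter.unusedSectionVars false
set_option linter.unusedVariables false
set_option linter.unusedSimpArgs false

attribute [-instance] MonoidHom.decidableMemKer

noncomputable section

namespace Pool.Agent.Helper15.QS

open Pool.Agent.Y63.KR (surfaceWord coords dg cod dg_spec cod_spec cod_pos DZ_iff)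

section

variable {G Q T : Type} [Group G] [Group Q] [CommGroup T] (f : G →* Q) (χ : f.ker →* T)

/-- invariance under conjugation -/
def InvHom : Prop := ∀ (g : G) (x : f.ker), χ (MulAut.conjNormal g x) = χ x

/-- the kernel, as a subgroup of the group -/
def kd : Subgroup G := χ.ker.map f.ker.subtype

variable {f χ}

lemma mem_kd (x : f.ker) : (x : G) ∈ kd f χ ↔ χ x = 1 := by
  unfold kd
  rw [Subgroup.mem_map]
  constructor
  · rintro ⟨y, hy, hyx⟩
    have : y = x := Subtype.ext hyx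
    rw [← this]
    exact hy
  · intro h
    exact ⟨x, h, rfl⟩

lemma kd_le : kd f χ ≤ f.ker := Subgroup.map_subtype_le _

lemma kd_normal (h : InvHom f χ) : (kd f χ).Normal := by
  constructor
  rintro _ ⟨x, hx, rfl⟩ g
  have h1 : g * f.ker.subtype x * g⁻¹ = ((MulAut.conjNormal g x : f.ker) : G) := by
    rw [MulAut.conjNormal_apply]
    rfl
  rw [h1, mem_kd, h]
  exact hx

lemma kd_central (h : InvHom f χ) [(kd f χ).Normal] (x : f.ker) :
    (QuotientGroup.mk' (kd f χ)) (x : G) ∈ Subgroup.center (G ⧸ kd f χ) := by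
  rw [Subgroup.mem_center_iff]
  intro y
  obtain ⟨y, rfl⟩ := QuotientGroup.mk'_surjective _ y
  rw [← map_mul, ← map_mul]
  refine (QuotientGroup.eq.2 ?_).symm
  have h1 : ((x : G) * y)⁻¹ * (y * x) = ((MulAut.conjNormal y⁻¹ (x⁻¹ * MulAut.conjNormal y x) :
      f.ker) : G) := by
    rw [MulAut.conjNormal_apply, Subgroup.coe_mul, MulAut.conjNormal_apply, Subgroup.coe_inv]
    group
  rw [h1, mem_kd, h, map_mul, h, map_inv, inv_mul_cancel]

variable (f χ)

/-- the central extension -/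
def pq [(kd f χ).Normal] : G ⧸ kd f χ →* Q := QuotientGroup.lift (kd f χ) f kd_le

variable {f χ}

lemma pq_mk [(kd f χ).Normal] (x : G) : pq f χ (QuotientGroup.mk' (kd f χ) x) = f x := rfl

lemma pq_surj (hf : Function.Surjective f) [(kd f χ).Normal] : Function.Surjective (pq f χ) := by
  intro y
  obtain ⟨x, rfl⟩ := hf y
  exact ⟨QuotientGroup.mk' _ x, rfl⟩

lemma pq_ker [(kd f χ).Normal] {y : G ⧸ kd f χ} (hy : y ∈ (pq f χ).ker) :
    ∃ x : f.ker, QuotientGroup.mk' (kd f χ) (x : G) = y := by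
  obtain ⟨x, rfl⟩ := QuotientGroup.mk'_surjective _ y
  exact ⟨⟨x, hy⟩, rfl⟩

lemma pq_central (h : InvHom f χ) [(kd f χ).Normal] :
    (pq f χ).ker ≤ Subgroup.center (G ⧸ kd f χ) := by
  intro y hy
  obtain ⟨x, rfl⟩ := pq_ker hy
  exact kd_central h x

lemma mk_eq_iff [(kd f χ).Normal] (x y : f.ker) :
    QuotientGroup.mk' (kd f χ) (x : G) = QuotientGroup.mk' (kd f χ) (y : G) ↔ χ x = χ y := by
  have h1 : (QuotientGroup.mk' (kd f χ) (x : G) = QuotientGroup.mk' (kd f χ) (y : G)) ↔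
      ((x : G)⁻¹ * (y : G)) ∈ kd f χ := QuotientGroup.eq
  have h2 : ((x : G)⁻¹ * (y : G)) = ((x⁻¹ * y : f.ker) : G) := rfl
  rw [h1, h2, mem_kd, map_mul, map_inv, inv_mul_eq_one]

lemma pq_card [Finite G] [(kd f χ).Normal] : Nat.card (pq f χ).ker = Nat.card χ.range := by
  refine Nat.card_congr (Equiv.symm (Equiv.ofBijective
    (fun t : χ.range => (⟨QuotientGroup.mk' (kd f χ) ((Classical.choose t.2 : f.ker) : G),
      (Classical.choose t.2).2⟩ : (pq f χ).ker)) ⟨?_, ?_⟩))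
  · intro s t hst
    have h1 := congrArg Subtype.val hst
    have h2 := (mk_eq_iff (f := f) (χ := χ) _ _).1 h1
    rw [Classical.choose_spec s.2, Classical.choose_spec t.2] at h2
    exact Subtype.ext h2
  · rintro ⟨y, hy⟩
    obtain ⟨x, rfl⟩ := pq_ker hy
    refine ⟨⟨χ x, x, rfl⟩, Subtype.ext ?_⟩
    refine (mk_eq_iff (f := f) (χ := χ) _ _).2 ?_
    exact Classical.choose_spec (⟨x, rfl⟩ : χ x ∈ χ.range)

/-- words of lifts in a central extension -/
lemma word_lifts {E : Type} [Group E] (pe : E →* Q) (hc : pe.ker ≤ Subgroup.center E) {g : ℕ}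
    (e e' : Fin g → E × E) (h : mapT pe e = mapT pe e') : surfaceWord e = surfaceWord e' := by
  have h1 : ∀ i, (e' i).1⁻¹ * (e i).1 ∈ pe.ker ∧ (e' i).2⁻¹ * (e i).2 ∈ pe.ker := by
    intro i
    have h2 := congrFun h i
    have h3 : pe (e i).1 = pe (e' i).1 := congrArg Prod.fst h2
    have h4 : pe (e i).2 = pe (e' i).2 := congrArg Prod.snd h2
    constructor
    · rw [MonoidHom.mem_ker, map_mul, map_inv, h3, inv_mul_cancel]
    · rw [MonoidHom.mem_ker, map_mul, map_inv, h4, inv_mul_cancel]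
  have h2 : e = mulT e' (fun i => ((e' i).1⁻¹ * (e i).1, (e' i).2⁻¹ * (e i).2)) := by
    funext i
    unfold mulT
    exact Prod.ext (mul_inv_cancel_left _ _).symm (mul_inv_cancel_left _ _).symm
  rw [h2]
  exact word_central _ _ (fun i => ⟨hc (h1 i).1, hc (h1 i).2⟩)

/-- the value of an invariant homomorphism at the product of the commutators -/
lemma chi_lifts (h : InvHom f χ) {g : ℕ} (e e' : Fin g → G × G) (hee : mapT f e = mapT f e')
    (hw : surfaceWord e ∈ f.ker) (hw' : surfaceWord e' ∈ f.ker) : χ ⟨_, hw⟩ = χ ⟨_, hw'⟩ := by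
  have hn := kd_normal h
  rw [← mk_eq_iff (f := f) (χ := χ)]
  change QuotientGroup.mk' (kd f χ) (surfaceWord e) = QuotientGroup.mk' (kd f χ) (surfaceWord e')
  rw [← word_mapT, ← word_mapT]
  exact word_lifts (pq f χ) (pq_central h) _ _ hee

end

/-- the number of the generating tuples with class `c` -/
def nc {E Q : Type} [Group E] [Group Q] (pe : E →* Q) (g : ℕ) (c : E) : ℕ :=
  Nat.card {r : Fin g → Q × Q // (surfaceWord r = 1 ∧ Subgroup.closure (coords r) = ⊤) ∧
    ∀ e : Fin g → E × E, mapT pe e = r → surfaceWord e = c}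

section

variable {E Q : Type} [Group E] [Fintype E] [Group Q] [Fintype Q] {p : ℕ} [hp : Fact p.Prime]

lemma cw_nc (pe : E →* Q) (hpe : Function.Surjective pe) (hc : pe.ker ≤ Subgroup.center E)
    (g : ℕ) (c : pe.ker) : cw pe.ker g c = Nat.card pe.ker ^ (2 * g) * nc pe g c := by
  unfold cw nc
  rw [← card_fib pe hpe g (fun r => (surfaceWord r = 1 ∧ Subgroup.closure (coords r) = ⊤) ∧
    ∀ e : Fin g → E × E, mapT pe e = r → surfaceWord e = c)]
  refine Nat.card_congr (Equiv.subtypeEquivRight fun q => ?_)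
  constructor
  · rintro ⟨h1, h2⟩
    refine ⟨⟨?_, ?_⟩, ?_⟩
    · rw [word_mapT, h2]
      exact c.2
    · have h3 := congrArg (Subgroup.map pe) h1
      rw [Subgroup.map_sup, Subgroup.map_top_of_surjective _ hpe, ← closure_mapT] at h3
      have h4 : pe.ker.map pe = ⊥ := by rw [Subgroup.map_eq_bot_iff]
      rwa [h4, sup_bot_eq] at h3
    · intro e he
      rw [word_lifts pe hc e q he, h2]
  · rintro ⟨⟨h1, h2⟩, h3⟩
    exact ⟨gen_lift pe hpe q h2, h3 q rfl⟩

/-- the classes for groups of order prime to `p` -/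
theorem nc_prime (pe : E →* Q) (hpe : Function.Surjective pe) (hc : pe.ker ≤ Subgroup.center E)
    (hE : ¬ p ∣ Nat.card E) (c : pe.ker) {n N : ℕ} (hd : p ^ N * (p - 1) ∣ n) :
    (p : ℤ) ^ (N + 1) ∣ (nc pe (n + 1) c : ℤ) - (nc pe 1 c : ℤ) := by
  have hC : ¬ p ∣ Nat.card pe.ker := fun h => hE (h.trans (Subgroup.card_subgroup_dvd_card _))
  have h1 := cw_prime hE pe.ker hc c hd
  rw [cw_nc pe hpe hc, cw_nc pe hpe hc] at h1
  have h2 : PD p (N + 1) (((nc pe (n + 1) c : ℤ) - (nc pe 1 c : ℤ) : ℤ) : ℂ) := by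
    have hC2 : ¬ p ∣ Nat.card pe.ker ^ 2 := fun h => hC (hp.out.dvd_of_dvd_pow h)
    refine PD.of_mul hC2 (int_int _) ?_
    have h3 := PD.unit_pow (p := p) (N := N) (n := 2 * n) hC (hd.mul_left 2)
    have h4 : ((Nat.card pe.ker ^ 2 : ℕ) : ℂ) *
        (((nc pe (n + 1) c : ℤ) - (nc pe 1 c : ℤ) : ℤ) : ℂ) =
        ((((Nat.card pe.ker ^ (2 * (n + 1)) * nc pe (n + 1) c : ℕ) : ℂ) -
          ((Nat.card pe.ker ^ (2 * 1) * nc pe 1 c : ℕ) : ℂ))) -
        ((Nat.card pe.ker ^ 2 : ℕ) : ℂ) * (nc pe (n + 1) c : ℂ) *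
          (((Nat.card pe.ker : ℕ) : ℂ) ^ (2 * n) - 1) := by
      push_cast
      ring
    rw [h4]
    exact h1.sub (PD.mul_left (by
      rw [← Nat.cast_mul]
      exact int_nat _) h3)
  exact PD.dvd h2

end

end Pool.Agent.Helper15.QS
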