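import Pool.Agent.Helper15.QS.Eng2

/-!
# Generating pairs and maximal subgroups
-/

open scoped Classical BigOperators IsMulCommutative
open Representation Pool.Agent.Helper884.IC Pool.Agent.Y63.AWC Pool.Agent.Helper15.AW

set_option linter.unusedSectionVars false
set_option linter.unusedVariables false
set_option linter.unusedSimpArgs false

attribute [-instance] MonoidHom.decidableMemKer

noncomputable section

namespace Pool.Agent.Helper15.QS

open Pool.Agent.Y63.KR (surfaceWord coords dg cod dg_spec cod_spec cod_pos DZ_iff)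

lemma closure_pair_comm {G : Type} [Group G] {u t : G} (h : u * t = t * u) {w : G}
    (hw : w ∈ Subgroup.closure {u, t}) : ∃ i j : ℤ, w = u ^ i * t ^ j := by
  have hc : ∀ i j : ℤ, Commute (u ^ i) (t ^ j) := fun i j => Commute.zpow_zpow h i j
  induction hw using Subgroup.closure_induction with
  | mem x hx =>
    rcases hx with rfl | rfl
    · exact ⟨1, 0, by simp⟩
    · exact ⟨0, 1, by simp⟩
  | one => exact ⟨0, 0, by simp⟩
  | mul x y _ _ hx hy =>
    obtain ⟨i, j, rfl⟩ := hx
    obtain ⟨k, l, rfl⟩ := hy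
    refine ⟨i + k, j + l, ?_⟩
    rw [zpow_add, zpow_add]
    have h1 := (hc k j).eq
    calc u ^ i * t ^ j * (u ^ k * t ^ l) = u ^ i * (t ^ j * u ^ k) * t ^ l := by group
      _ = u ^ i * (u ^ k * t ^ j) * t ^ l := by rw [h1]
      _ = _ := by group
  | inv x _ hx =>
    obtain ⟨i, j, rfl⟩ := hx
    refine ⟨-i, -j, ?_⟩
    rw [mul_inv_rev, zpow_neg, zpow_neg]
    have h1 := ((hc i j).inv_inv).eq
    exact h1.symm

section

variable {B : Type} [Group B] [Fintype B] {B1 : Subgroup B} {E : Type} [Group E] [Fintype E]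

/-- the chain argument: `B₁` is normal and `t` generates `B` modulo `B₁` -/
theorem chain (hB1 : B1.Normal) (pe : E →* B1) (hc : pe.ker ≤ Subgroup.center E) (t u : Ind pe)
    (hu : u.fst ∈ B1) (ht : ∀ b : B, ∃ k : ℤ, t.fst ^ k * b ∈ B1)
    (hw : t * u * t⁻¹ * u⁻¹ ∈ (Ind.fstHom pe).ker) :
    ((dpr pe hc ⟨_, hw⟩ : pe.ker) : E) = (t ^ B1.index).snd (i0 B1) * u.snd (i0 B1) *
      ((t ^ B1.index).snd (i0 B1))⁻¹ * (u.snd (i0 B1))⁻¹ := by
  have : Fintype (B ⧸ B1) := Fintype.ofFinite _
  set z := t * u * t⁻¹ * u⁻¹ with hz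
  -- the action
  have hact : ∀ (b : B) (i : B ⧸ B1), b • i = (QuotientGroup.mk' B1 b) * i := by
    intro b i
    obtain ⟨i, rfl⟩ := QuotientGroup.mk'_surjective B1 i
    rfl
  have hu1 : ∀ i : B ⧸ B1, u.fst • i = i := by
    intro i
    rw [hact]
    have : (QuotientGroup.mk' B1) u.fst = 1 := (QuotientGroup.eq_one_iff _).2 hu
    rw [this, one_mul]
  have hz1 : z.fst = 1 := hw
  have hstep : ∀ j : B ⧸ B1, z.snd (t.fst • j) * u.snd (t.fst • j) =
      t.snd j * u.snd j * (t.snd j)⁻¹ := by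
    intro j
    have h1 : t * u = z * (u * t) := by
      rw [hz]
      group
    have h2 := congrArg (fun w : Ind pe => w.snd j) h1
    simp only [Ind.mul_snd, Ind.mul_fst, mul_smul, hu1] at h2
    rw [h2]
    group
  let ζ : B ⧸ B1 → pe.ker := fun i => (Ind.kerEquiv pe).symm ⟨z, hw⟩ i
  have hζ : ∀ i, ((ζ i : pe.ker) : E) = z.snd i := fun i => rfl
  let _ := cg pe.ker hc
  have hprod : ∀ k : ℕ, ((∏ m ∈ Finset.range k, ζ (t.fst ^ (m + 1) • i0 B1) : pe.ker) : E) *
      u.snd (t.fst ^ k • i0 B1) = (t ^ k).snd (i0 B1) * u.snd (i0 B1) *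
        ((t ^ k).snd (i0 B1))⁻¹ := by
    intro k
    induction k with
    | zero =>
      rw [Finset.prod_range_zero, pow_zero, pow_zero, one_smul, Ind.one_snd]
      simp
    | succ k ih =>
      rw [Finset.prod_range_succ]
      have h1 := hstep (t.fst ^ k • i0 B1)
      have h2 : t.fst • t.fst ^ k • i0 B1 = t.fst ^ (k + 1) • i0 B1 := by
        rw [smul_smul, ← pow_succ']
      rw [h2] at h1
      have h3 : (t ^ (k + 1)).snd (i0 B1) = t.snd (t.fst ^ k • i0 B1) * (t ^ k).snd (i0 B1) := by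
        rw [pow_succ', Ind.mul_snd]
        have : (t ^ k).fst = t.fst ^ k := map_pow (Ind.fstHom pe) t k
        rw [this]
      set W : pe.ker := ∏ m ∈ Finset.range k, ζ (t.fst ^ (m + 1) • i0 B1) with hWd
      change (W : E) * (ζ (t.fst ^ (k + 1) • i0 B1) : E) * u.snd (t.fst ^ (k + 1) • i0 B1) = _
      rw [hζ, mul_assoc, h1, h3]
      have h4 : ∀ y : E, (W : E) * y = y * (W : E) := fun y =>
        (Subgroup.mem_center_iff.1 (hc W.2) y).symm
      calc (W : E) * (t.snd (t.fst ^ k • i0 B1) * u.snd (t.fst ^ k • i0 B1) *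
            (t.snd (t.fst ^ k • i0 B1))⁻¹) =
          (W : E) * t.snd (t.fst ^ k • i0 B1) * u.snd (t.fst ^ k • i0 B1) *
            (t.snd (t.fst ^ k • i0 B1))⁻¹ := by group
        _ = t.snd (t.fst ^ k • i0 B1) * ((W : E) * u.snd (t.fst ^ k • i0 B1)) *
            (t.snd (t.fst ^ k • i0 B1))⁻¹ := by rw [h4]; group
        _ = _ := by rw [ih]; group
  -- the powers of `t` are representatives
  have hord : orderOf (QuotientGroup.mk' B1 t.fst) = B1.index := by
    have h1 : Subgroup.zpowers (QuotientGroup.mk' B1 t.fst) = ⊤ := by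
      rw [eq_top_iff]
      intro y _
      obtain ⟨b, rfl⟩ := QuotientGroup.mk'_surjective B1 y
      obtain ⟨k, hk⟩ := ht b
      rw [Subgroup.mem_zpowers_iff]
      refine ⟨-k, ?_⟩
      have h2 : (QuotientGroup.mk' B1) (t.fst ^ k * b) = 1 := (QuotientGroup.eq_one_iff _).2 hk
      rw [map_mul, map_zpow] at h2
      rw [zpow_neg, inv_eq_iff_mul_eq_one]
      exact h2
    rw [← Nat.card_zpowers, h1, Subgroup.card_top]
    rfl
  have hpow : ∀ m : ℕ, t.fst ^ m • i0 B1 = (QuotientGroup.mk' B1 t.fst) ^ m := by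
    intro m
    rw [hact, map_pow]
    exact mul_one _
  have hre : (∏ m ∈ Finset.range B1.index, ζ (t.fst ^ (m + 1) • i0 B1)) = ∏ i, ζ i := by
    refine Finset.prod_nbij (fun m => t.fst ^ (m + 1) • i0 B1) (fun _ _ => Finset.mem_univ _)
      ?_ ?_ (fun _ _ => rfl)
    · intro m hm m' hm' hmm
      simp only [hpow] at hmm
      rw [pow_succ, pow_succ] at hmm
      have h1 := mul_right_cancel hmm
      refine pow_injOn_Iio_orderOf ?_ ?_ h1
      · rw [hord]
        exact Finset.mem_range.1 hm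
      · rw [hord]
        exact Finset.mem_range.1 hm'
    · have hinj : Set.InjOn (fun m => t.fst ^ (m + 1) • i0 B1) (Finset.range B1.index : Set ℕ) := by
        intro m hm m' hm' hmm
        simp only [hpow] at hmm
        rw [pow_succ, pow_succ] at hmm
        have h1 := mul_right_cancel hmm
        refine pow_injOn_Iio_orderOf ?_ ?_ h1
        · rw [hord]
          exact Finset.mem_range.1 hm
        · rw [hord]
          exact Finset.mem_range.1 hm'
      refine Finset.surjOn_of_injOn_of_card_le _ (fun _ _ => Finset.mem_coe.2 (Finset.mem_univ _))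
        hinj ?_
      rw [Finset.card_univ, Finset.card_range, ← Nat.card_eq_fintype_card]
      rfl
  have h1 := hprod B1.index
  have h2 : t.fst ^ B1.index • i0 B1 = i0 B1 := by
    rw [hpow, ← hord, pow_orderOf_eq_one]
    rfl
  rw [h2] at h1
  have h3 : dpr pe hc ⟨z, hw⟩ = ∏ i, ζ i := by
    unfold dpr
    rw [@dprod_eq _ _ _ _ _ _ _ (cg pe.ker hc)]
    rfl
  rw [h3, ← hre, ← h1, mul_inv_cancel_right]

end

end Pool.Agent.Helper15.QS
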