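import Pool.Agent.Helper15.QS.Cov

/-!
# Generating pairs and maximal subgroups, II
-/

open scoped Classical BigOperators IsMulCommutative
open Representation Pool.Agent.Helper884.IC Pool.Agent.Y63.AWC Pool.Agent.Helper15.AW

set_option linter.unusedSectionVars false
set_option linter.unusedVariables false
set_option linter.unusedSimpArgs false

attribute [-instance] MonoidHom.decidableMemKer

noncomputable section

namespace Pool.Agent.Helper15.QS

open Pool.Agent.Y63.KR (surfaceWord coords dg cod dg_spec cod_spec cod_pos DZ_iff)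

section

variable {B : Type} [Group B] [Fintype B] {B1 : Subgroup B} {E : Type} [Group E] [Fintype E]
  {p : ℕ} [hp : Fact p.Prime]

/-- the case of a supplement `B₁` of the normal `p`-subgroup `P` -/
theorem power_formula (pe : E →* B1) (hpe : Function.Surjective pe)
    (hc : pe.ker ≤ Subgroup.center E) (hpr : ¬ p ∣ Nat.card pe.ker) (P : Subgroup B)
    [hPn : P.Normal] (hP : IsPGroup p P) (hPB : commutator B ≤ P) (hsup : P ⊔ B1 = ⊤)
    (x y : Ind pe) (x1 y1 : E) (hx : x.fst = (pe x1 : B)) (hy : y.fst = (pe y1 : B))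
    (hw : x * y * x⁻¹ * y⁻¹ ∈ (Ind.fstHom pe).ker) :
    ((dpr pe hc ⟨_, hw⟩ : pe.ker) : E) = (x1 * y1 * x1⁻¹ * y1⁻¹) ^ B1.index := by
  have hfin : Fintype (B ⧸ B1) := Fintype.ofFinite _
  have hP1 : IsPGroup p (P.subgroupOf B1) := by
    rw [Subgroup.subgroupOf]
    exact hP.comap_of_injective _ (Subgroup.subtype_injective _)
  set fA : B1 →* B1 ⧸ P.subgroupOf B1 := QuotientGroup.mk' (P.subgroupOf B1) with hfA
  have hk1 : fA.ker = P.subgroupOf B1 := QuotientGroup.ker_mk' _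
  obtain ⟨m, χ, h1, h2, h3⟩ := exists_pext (p := p) pe hpe hc hpr fA (by rw [hk1]; exact hP1)
  have hinv : InvHom (fA.comp pe) χ := by
    intro g x
    apply Subtype.ext
    rw [h1, h1, MulAut.conjNormal_apply, conj_pow]
    have h4 : g * (x : E) ^ m = (x : E) ^ m * g := Subgroup.mem_center_iff.1 (hc (h3 _ x.2)) g
    rw [h4, mul_inv_cancel_right]
  have hn := kd_normal hinv
  have hle : pe.ker ≤ (fA.comp pe).ker := by
    intro x hx
    rw [MonoidHom.mem_ker, MonoidHom.comp_apply, (MonoidHom.mem_ker).1 hx, map_one]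
  set ρ : E →* E ⧸ kd (fA.comp pe) χ := QuotientGroup.mk' _ with hρ
  set pa : E ⧸ kd (fA.comp pe) χ →* B1 ⧸ P.subgroupOf B1 := pq (fA.comp pe) χ with hpa
  have hpac : pa.ker ≤ Subgroup.center _ := pq_central hinv
  have hρinj : ∀ x ∈ pe.ker, ∀ y ∈ pe.ker, ρ x = ρ y → x = y := by
    intro x hx y hy hxy
    have h4 := (mk_eq_iff (f := fA.comp pe) (χ := χ) ⟨x, hle hx⟩ ⟨y, hle hy⟩).1 hxy
    have h5 := congrArg Subtype.val h4
    rw [h1, h1] at h5
    rw [← h2 x hx, ← h2 y hy]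
    exact h5
  -- representatives
  have hrep : ∀ i : B ⧸ B1, ∃ s : E, i.out * ((pe s : B1) : B)⁻¹ ∈ P := by
    intro i
    have hi : i.out ∈ P ⊔ B1 := by rw [hsup]; trivial
    rw [Subgroup.mem_sup_of_normal_left] at hi
    obtain ⟨u, hu, s, hs, hus⟩ := hi
    obtain ⟨s', hs'⟩ := hpe ⟨s, hs⟩
    refine ⟨s', ?_⟩
    rw [hs', ← hus, mul_inv_cancel_right]
    exact hu
  choose s hs using hrep
  -- the coordinates modulo the center
  have hcomm : ∀ a b : B, a * b * a⁻¹ * b⁻¹ ∈ P := fun a b =>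
    hPB (Subgroup.commutator_mem_commutator (Subgroup.mem_top a) (Subgroup.mem_top b))
  have hcoord : ∀ (w : Ind pe) (w1 : E), w.fst = (pe w1 : B) → ∀ i : B ⧸ B1,
      (ρ ((s (w.fst • i))⁻¹ * w1 * s i))⁻¹ * ρ (w.snd i) ∈ Subgroup.center _ := by
    intro w w1 hw i
    apply hpac
    rw [← map_inv, ← map_mul]
    change pa (ρ _) = 1
    change fA (pe _) = 1
    rw [← MonoidHom.mem_ker, hk1, Subgroup.mem_subgroupOf]
    rw [map_mul, map_inv, map_mul, map_mul, map_inv, w.prop]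
    rw [Subgroup.coe_mul, Subgroup.coe_inv, Subgroup.coe_mul, Subgroup.coe_mul, Subgroup.coe_inv,
      kp_coe, ← hw]
    set j := w.fst • i
    -- everything modulo `P`
    rw [← QuotientGroup.eq_one_iff]
    have e1 := hs i
    have e2 := hs j
    rw [← QuotientGroup.eq_one_iff] at e1 e2
    have hab : ∀ a b : B ⧸ P, a * b = b * a := by
      intro a b
      obtain ⟨a, rfl⟩ := QuotientGroup.mk_surjective a
      obtain ⟨b, rfl⟩ := QuotientGroup.mk_surjective b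
      have h4 : (a : B ⧸ P) * (b : B ⧸ P) * (a : B ⧸ P)⁻¹ * (b : B ⧸ P)⁻¹ = 1 :=
        (QuotientGroup.eq_one_iff _).2 (hcomm a b)
      rw [mul_inv_eq_one, mul_inv_eq_iff_eq_mul] at h4
      exact h4
    let _ : CommGroup (B ⧸ P) := { (inferInstance : Group (B ⧸ P)) with mul_comm := hab }
    have e1' : ((i.out : B) : B ⧸ P) = (((pe (s i) : B1) : B) : B ⧸ P) := by
      rw [QuotientGroup.mk_mul, QuotientGroup.mk_inv, mul_inv_eq_one] at e1
      exact e1
    have e2' : ((j.out : B) : B ⧸ P) = (((pe (s j) : B1) : B) : B ⧸ P) := by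
      rw [QuotientGroup.mk_mul, QuotientGroup.mk_inv, mul_inv_eq_one] at e2
      exact e2
    have e3 : ((((((pe (s j) : B1) : B))⁻¹ * w.fst * ((pe (s i) : B1) : B))⁻¹ *
        ((j.out : B)⁻¹ * w.fst * i.out) : B) : B ⧸ P) =
        (((((pe (s j) : B1) : B) : B ⧸ P))⁻¹ * (w.fst : B ⧸ P) *
          (((pe (s i) : B1) : B) : B ⧸ P))⁻¹ *
        (((j.out : B) : B ⧸ P)⁻¹ * (w.fst : B ⧸ P) * ((i.out : B) : B ⧸ P)) := rfl
    rw [e3, e1', e2', inv_mul_cancel]
  have hfst : x.fst * y.fst = y.fst * x.fst := by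
    have h4 : x.fst * y.fst * x.fst⁻¹ * y.fst⁻¹ = 1 := hw
    rw [mul_inv_eq_one, mul_inv_eq_iff_eq_mul] at h4
    exact h4
  set z := x * y * x⁻¹ * y⁻¹ with hz
  let γ : B ⧸ B1 → Subgroup.center (E ⧸ kd (fA.comp pe) χ) := fun i =>
    ⟨_, hcoord x x1 hx i⟩
  let δ : B ⧸ B1 → Subgroup.center (E ⧸ kd (fA.comp pe) χ) := fun i =>
    ⟨_, hcoord y y1 hy i⟩
  have hγ : ∀ i, ρ (x.snd i) = ρ ((s (x.fst • i))⁻¹ * x1 * s i) * (γ i : E ⧸ kd (fA.comp pe) χ) :=
    fun i => (mul_inv_cancel_left _ _).symm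
  have hδ : ∀ i, ρ (y.snd i) = ρ ((s (y.fst • i))⁻¹ * y1 * s i) * (δ i : E ⧸ kd (fA.comp pe) χ) :=
    fun i => (mul_inv_cancel_left _ _).symm
  have hαβ : x1 * y1 * x1⁻¹ * y1⁻¹ ∈ pe.ker := by
    rw [MonoidHom.mem_ker, map_mul, map_mul, map_mul, map_inv, map_inv]
    apply Subtype.ext
    rw [Subgroup.coe_mul, Subgroup.coe_mul, Subgroup.coe_mul, Subgroup.coe_inv, Subgroup.coe_inv,
      ← hx, ← hy]
    exact hw
  let ω : Subgroup.center (E ⧸ kd (fA.comp pe) χ) := ⟨ρ (x1 * y1 * x1⁻¹ * y1⁻¹), hpac (hle hαβ)⟩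
  let ζ : B ⧸ B1 → pe.ker := fun i => (Ind.kerEquiv pe).symm ⟨z, hw⟩ i
  have hζ : ∀ i, ((ζ i : pe.ker) : E) = z.snd i := fun i => rfl
  let ζ' : B ⧸ B1 → Subgroup.center (E ⧸ kd (fA.comp pe) χ) := fun i =>
    ⟨ρ (ζ i), hpac (hle (ζ i).2)⟩
  have hmain : ∀ j : B ⧸ B1, ζ' (y.fst • x.fst • j) * (γ j * δ (x.fst • j)) =
      ω * (γ (y.fst • j) * δ j) := by
    intro j
    apply Subtype.ext
    rw [Subgroup.coe_mul, Subgroup.coe_mul, Subgroup.coe_mul, Subgroup.coe_mul]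
    change ρ (z.snd (y.fst • x.fst • j)) * ((γ j : E ⧸ kd (fA.comp pe) χ) *
      (δ (x.fst • j) : E ⧸ kd (fA.comp pe) χ)) = ρ (x1 * y1 * x1⁻¹ * y1⁻¹) *
        ((γ (y.fst • j) : E ⧸ kd (fA.comp pe) χ) * (δ j : E ⧸ kd (fA.comp pe) χ))
    have h4 : x * y = z * (y * x) := by
      rw [hz]
      group
    have h5 := congrArg (fun w : Ind pe => ρ (w.snd j)) h4
    simp only [Ind.mul_snd, Ind.mul_fst, mul_smul, map_mul] at h5
    rw [hγ, hγ, hδ, hδ] at h5
    have hact : x.fst • y.fst • j = y.fst • x.fst • j := by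
      rw [smul_smul, smul_smul, hfst]
    rw [hact] at h5
    have hcen : ∀ (c : Subgroup.center (E ⧸ kd (fA.comp pe) χ)) (w : E ⧸ kd (fA.comp pe) χ),
        (c : E ⧸ kd (fA.comp pe) χ) * w = w * c := fun c w =>
      (Subgroup.mem_center_iff.1 c.2 w).symm
    have hω : ∀ w : E ⧸ kd (fA.comp pe) χ, ρ (x1 * y1 * x1⁻¹ * y1⁻¹) * w =
        w * ρ (x1 * y1 * x1⁻¹ * y1⁻¹) := fun w =>
      (Subgroup.mem_center_iff.1 (hpac (hle hαβ)) w).symm
    have hζc : ∀ w : E ⧸ kd (fA.comp pe) χ, ρ (z.snd (y.fst • x.fst • j)) * w =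
        w * ρ (z.snd (y.fst • x.fst • j)) := fun w =>
      (Subgroup.mem_center_iff.1 (hpac (hle (ζ (y.fst • x.fst • j)).2)) w).symm
    have key4 : ∀ a b c d : E ⧸ kd (fA.comp pe) χ, c * b = b * c →
        a * c * (b * d) = a * b * (c * d) := by
      intro a b c d h
      calc a * c * (b * d) = a * (c * b) * d := by group
        _ = a * (b * c) * d := by rw [h]
        _ = _ := by group
    set τ := y.fst • x.fst • j with hτ
    have hL : ρ ((s τ)⁻¹ * x1 * s (y.fst • j)) * (γ (y.fst • j) : E ⧸ kd (fA.comp pe) χ) *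
        (ρ ((s (y.fst • j))⁻¹ * y1 * s j) * (δ j : E ⧸ kd (fA.comp pe) χ)) =
        ρ ((s τ)⁻¹ * x1 * y1 * s j) * ((γ (y.fst • j) : E ⧸ kd (fA.comp pe) χ) *
          (δ j : E ⧸ kd (fA.comp pe) χ)) := by
      have h6 : (s τ)⁻¹ * x1 * y1 * s j = ((s τ)⁻¹ * x1 * s (y.fst • j)) *
          ((s (y.fst • j))⁻¹ * y1 * s j) := by group
      rw [h6, map_mul]
      exact key4 _ _ _ _ (hcen _ _)
    have hR : ρ ((s τ)⁻¹ * y1 * s (x.fst • j)) * (δ (x.fst • j) : E ⧸ kd (fA.comp pe) χ) *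
        (ρ ((s (x.fst • j))⁻¹ * x1 * s j) * (γ j : E ⧸ kd (fA.comp pe) χ)) =
        ρ ((s τ)⁻¹ * y1 * x1 * s j) * ((γ j : E ⧸ kd (fA.comp pe) χ) *
          (δ (x.fst • j) : E ⧸ kd (fA.comp pe) χ)) := by
      have h6 : (s τ)⁻¹ * y1 * x1 * s j = ((s τ)⁻¹ * y1 * s (x.fst • j)) *
          ((s (x.fst • j))⁻¹ * x1 * s j) := by group
      rw [h6, map_mul, hcen (γ j) (δ (x.fst • j))]
      exact key4 _ _ _ _ (hcen _ _)
    rw [hL, hR] at h5
    have h7 : (s τ)⁻¹ * x1 * y1 * s j = (s τ)⁻¹ * (x1 * y1 * x1⁻¹ * y1⁻¹) * (s τ) *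
        ((s τ)⁻¹ * y1 * x1 * s j) := by group
    have h8 : (s τ)⁻¹ * (x1 * y1 * x1⁻¹ * y1⁻¹) * (s τ) = x1 * y1 * x1⁻¹ * y1⁻¹ := by
      have h9 := Subgroup.mem_center_iff.1 (hc hαβ) (s τ)⁻¹
      rw [h9, inv_mul_cancel_right]
    rw [h8] at h7
    have key5 : ∀ W Z X g d : E ⧸ kd (fA.comp pe) χ, (∀ w, W * w = w * W) → (∀ w, Z * w = w * Z) →
        W * X * g = Z * (X * d) → Z * d = W * g := by
      intro W Z X g d hW hZ h
      have e1 : X * (W * g) = X * (Z * d) := by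
        calc X * (W * g) = X * W * g := by group
          _ = W * X * g := by rw [hW X]
          _ = Z * (X * d) := h
          _ = Z * X * d := by group
          _ = X * Z * d := by rw [hZ X]
          _ = _ := by group
      exact (mul_left_cancel e1).symm
    rw [h7, map_mul] at h5
    exact key5 _ _ _ _ _ hω hζc h5
  have hsum : ∏ i, ζ' i = ω ^ B1.index := by
    have h4 : ∏ j, (ζ' (y.fst • x.fst • j) * (γ j * δ (x.fst • j))) =
        ∏ j, (ω * (γ (y.fst • j) * δ j)) := Finset.prod_congr rfl fun j _ => hmain j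
    rw [Finset.prod_mul_distrib, Finset.prod_mul_distrib, Finset.prod_mul_distrib,
      Finset.prod_mul_distrib] at h4
    have h5 : ∏ j, δ (x.fst • j) = ∏ j, δ j := Equiv.prod_comp (MulAction.toPerm x.fst) δ
    have h6 : ∏ j, γ (y.fst • j) = ∏ j, γ j := Equiv.prod_comp (MulAction.toPerm y.fst) γ
    have h7 : ∏ j, ζ' (y.fst • x.fst • j) = ∏ j, ζ' j := by
      exact (Equiv.prod_comp (MulAction.toPerm x.fst) (fun j => ζ' (y.fst • j))).trans
        (Equiv.prod_comp (MulAction.toPerm y.fst) ζ')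
    rw [h5, h6, h7] at h4
    have h8 := mul_right_cancel h4
    rw [h8, Finset.prod_const, Finset.card_univ, ← Nat.card_eq_fintype_card]
    rfl
  refine hρinj _ (SetLike.coe_mem _) _ (pow_mem hαβ _) ?_
  have h4 : ρ ((dpr pe hc ⟨z, hw⟩ : pe.ker) : E) = ((∏ i, ζ' i :
      Subgroup.center (E ⧸ kd (fA.comp pe) χ)) : E ⧸ kd (fA.comp pe) χ) := by
    let θ : pe.ker →* Subgroup.center (E ⧸ kd (fA.comp pe) χ) :=
      { toFun := fun c => ⟨ρ c, hpac (hle c.2)⟩
        map_one' := Subtype.ext (map_one ρ)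
        map_mul' := fun a b => Subtype.ext (map_mul ρ _ _) }
    have h5 := dprod_dpr pe hc θ ⟨z, hw⟩
    rw [dprod_eq] at h5
    have h6 : ∏ i, ζ' i = θ (dpr pe hc ⟨z, hw⟩) := h5
    rw [h6]
    rfl
  rw [h4, hsum, map_pow, SubmonoidClass.coe_pow]

end

end Pool.Agent.Helper15.QS
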