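import Pool.Agent.Helper15.QS.Cov2

/-!
# Generating pairs and maximal subgroups, III
-/

open scoped Classical BigOperators IsMulCommutative
open Representation Pool.Agent.Helper884.IC Pool.Agent.Y63.AWC Pool.Agent.Helper15.AW

set_option linter.unusedSectionVars false
set_option linter.unusedVariables false
set_option linter.unusedSimpArgs false

attribute [-instance] MonoidHom.decidableMemKer

noncomputable section

namespace Pool.Agent.Helper15.QS

open Pool.Agent.Y63.KR (surfaceWord coords dg cod dg_spec cod_spec cod_pos DZ_iff)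

section

variable {B : Type} [Group B] [Fintype B] {B1 : Subgroup B} {E : Type} [Group E] [Fintype E]
  {p : ℕ} [hp : Fact p.Prime]

lemma PairCls.symm {Q : Type} [Group Q] {pe : E →* Q} {A' : Subgroup Q} {c : E}
    (h : PairCls pe A' c) : PairCls pe A' c⁻¹ := by
  obtain ⟨x, y, h1, h2⟩ := h
  refine ⟨y, x, by rw [Set.pair_comm]; exact h1, ?_⟩
  rw [← h2]
  group

lemma dpr_inv (pe : E →* B1) (hc : pe.ker ≤ Subgroup.center E) (x : (Ind.fstHom pe).ker) :
    dpr pe hc x⁻¹ = (dpr pe hc x)⁻¹ := by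
  exact map_inv (@dhom _ _ _ _ _ _ _ (cg pe.ker hc) pe (MonoidHom.id pe.ker)) x

/-- the case that `t` does not lie in `B₁` -/
theorem chain_pair (hB1 : B1.Normal) (hmax : IsCoatom B1) (A' : Subgroup B)
    (hAc : ∀ a ∈ A', ∀ b ∈ A', a * b = b * a) (pe : E →* B1) (hpe : Function.Surjective pe)
    (hc : pe.ker ≤ Subgroup.center E) (t y : Ind pe) (ht : t.fst ∉ B1)
    (hcl : Subgroup.closure {t.fst, y.fst} = A')
    (hw : t * y * t⁻¹ * y⁻¹ ∈ (Ind.fstHom pe).ker) :
    PairCls pe (A'.subgroupOf B1) ((dpr pe hc ⟨_, hw⟩ : pe.ker) : E) := by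
  -- `t` generates modulo `B₁`
  have hgen : ∀ b : B, ∃ k : ℤ, t.fst ^ k * b ∈ B1 := by
    have h1 : B1 ⊔ Subgroup.zpowers t.fst = ⊤ := by
      refine hmax.2 _ (lt_of_le_of_ne le_sup_left ?_)
      intro h
      exact ht (h.ge (Subgroup.mem_sup_right (Subgroup.mem_zpowers _)))
    intro b
    have h2 : b ∈ B1 ⊔ Subgroup.zpowers t.fst := by rw [h1]; trivial
    rw [Subgroup.mem_sup_of_normal_left] at h2
    obtain ⟨u, hu, w, hw, huw⟩ := h2
    obtain ⟨k, hk⟩ := Subgroup.mem_zpowers_iff.1 hw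
    refine ⟨-k, ?_⟩
    rw [← huw, ← hk, zpow_neg]
    have := hB1.conj_mem u hu (t.fst ^ k)⁻¹
    rw [inv_inv] at this
    rw [← mul_assoc]
    exact this
  obtain ⟨k, hk⟩ := hgen y.fst⁻¹
  have htA : t.fst ∈ A' := hcl ▸ Subgroup.subset_closure (Set.mem_insert _ _)
  have hyA : y.fst ∈ A' := hcl ▸ Subgroup.subset_closure (Set.mem_insert_of_mem _ rfl)
  set u := y * t ^ (-k) with hu
  have huf : u.fst = y.fst * t.fst ^ (-k) := by
    rw [hu, Ind.mul_fst]
    have : (t ^ (-k)).fst = t.fst ^ (-k) := map_zpow (Ind.fstHom pe) t (-k)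
    rw [this]
  have huA : u.fst ∈ A' := by
    rw [huf]
    exact mul_mem hyA (zpow_mem htA _)
  have htu : u.fst * t.fst = t.fst * u.fst := hAc _ huA _ htA
  have hm1 : u.fst ∈ Subgroup.closure {u.fst, t.fst} :=
    Subgroup.subset_closure (Set.mem_insert _ _)
  have hm2 : t.fst ∈ Subgroup.closure {u.fst, t.fst} :=
    Subgroup.subset_closure (Set.mem_insert_of_mem _ rfl)
  have hA'c : Subgroup.closure {u.fst, t.fst} = A' := by
    apply le_antisymm
    · rw [Subgroup.closure_le]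
      rintro w (rfl | rfl)
      · exact huA
      · exact htA
    · rw [← hcl, Subgroup.closure_le]
      rintro w (rfl | rfl)
      · exact hm2
      · have h1 : y.fst = u.fst * (t.fst ^ (-k))⁻¹ := by
          rw [huf, mul_inv_cancel_right]
        have h2 := mul_mem hm1 (inv_mem (zpow_mem hm2 (-k)))
        rw [← h1] at h2
        exact h2
  have huB : u.fst ∈ B1 := by
    rw [huf, zpow_neg]
    have := inv_mem hk
    rw [mul_inv_rev, inv_inv] at this
    exact this
  have hcomm : t * u * t⁻¹ * u⁻¹ = t * y * t⁻¹ * y⁻¹ := by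
    rw [hu, mul_inv_rev, zpow_neg, inv_inv]
    have h1 : (t ^ k)⁻¹ * t⁻¹ * t ^ k = t⁻¹ := by group
    calc t * (y * (t ^ k)⁻¹) * t⁻¹ * (t ^ k * y⁻¹) = t * y * ((t ^ k)⁻¹ * t⁻¹ * t ^ k) * y⁻¹ := by
          group
      _ = _ := by rw [h1]
  have hw2 : t * u * t⁻¹ * u⁻¹ ∈ (Ind.fstHom pe).ker := by
    rw [hcomm]
    exact hw
  have hch := chain hB1 pe hc t u huB hgen hw2
  have hdd : dpr pe hc ⟨_, hw2⟩ = dpr pe hc ⟨_, hw⟩ := by
    congr 1
    exact Subtype.ext hcomm
  rw [hdd] at hch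
  set τ := (t ^ B1.index).snd (i0 B1) with hτ
  set υ := u.snd (i0 B1) with hυ
  have hfx : ∀ b : B, b ∈ B1 → b • i0 B1 = i0 B1 := by
    intro b hb
    rw [i0]
    change ((b * 1 : B) : B ⧸ B1) = ((1 : B) : B ⧸ B1)
    rw [QuotientGroup.eq]
    rw [mul_one, mul_one]
    exact inv_mem hb
  have hs : (i0 B1).out ∈ B1 := by
    have h1 : (((i0 B1).out : B) : B ⧸ B1) = ((1 : B) : B ⧸ B1) := Quotient.out_eq _
    rw [QuotientGroup.eq] at h1
    rw [mul_one] at h1
    exact (inv_mem_iff).1 h1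
  obtain ⟨s', hs'⟩ := hpe ⟨_, hs⟩
  have htf : (t ^ B1.index).fst = t.fst ^ B1.index := map_pow (Ind.fstHom pe) t _
  have htB : t.fst ^ B1.index ∈ B1 := by
    have h1 := Subgroup.pow_index_mem B1 t.fst
    exact h1
  have hpeτ : pe τ = (pe s')⁻¹ * ⟨_, htB⟩ * pe s' := by
    rw [hτ, (t ^ B1.index).prop, hs']
    apply Subtype.ext
    rw [kp_coe, htf, hfx _ htB]
    rfl
  have hpeυ : pe υ = (pe s')⁻¹ * ⟨_, huB⟩ * pe s' := by
    rw [hυ, u.prop, hs']
    apply Subtype.ext
    rw [kp_coe, hfx _ huB]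
    rfl
  refine ⟨s' * τ * s'⁻¹, s' * υ * s'⁻¹, ?_, ?_⟩
  · rw [map_mul, map_mul, map_mul, map_mul, map_inv, hpeτ, hpeυ]
    have e1 : ∀ v w : B1, v * (v⁻¹ * w * v) * v⁻¹ = w := fun v w => by group
    rw [e1, e1]
    apply le_antisymm
    · rw [Subgroup.closure_le]
      rintro w (rfl | rfl)
      · exact pow_mem htA _
      · exact huA
    · intro w hw
      have h1 : (w : B) ∈ Subgroup.closure {u.fst, t.fst} := by
        rw [hA'c]
        exact hw
      obtain ⟨i, j, hij⟩ := closure_pair_comm htu h1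
      have htj : t.fst ^ j ∈ B1 := by
        have h2 : t.fst ^ j = (u.fst ^ i)⁻¹ * (w : B) := by rw [hij, inv_mul_cancel_left]
        rw [h2]
        exact mul_mem (inv_mem (zpow_mem huB i)) w.2
      have hord : orderOf (QuotientGroup.mk' B1 t.fst) = B1.index := by
        have h1 : Subgroup.zpowers (QuotientGroup.mk' B1 t.fst) = ⊤ := by
          rw [eq_top_iff]
          intro y _
          obtain ⟨b, rfl⟩ := QuotientGroup.mk'_surjective B1 y
          obtain ⟨k, hk⟩ := hgen b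
          rw [Subgroup.mem_zpowers_iff]
          refine ⟨-k, ?_⟩
          have h2 : (QuotientGroup.mk' B1) (t.fst ^ k * b) = 1 :=
            (QuotientGroup.eq_one_iff _).2 hk
          rw [map_mul, map_zpow] at h2
          rw [zpow_neg, inv_eq_iff_mul_eq_one]
          exact h2
        rw [← Nat.card_zpowers, h1, Subgroup.card_top]
        rfl
      have hdv : (B1.index : ℤ) ∣ j := by
        rw [← hord, orderOf_dvd_iff_zpow_eq_one, ← map_zpow]
        exact (QuotientGroup.eq_one_iff _).2 htj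
      obtain ⟨l, hl⟩ := hdv
      have h3 : w = (⟨_, huB⟩ : B1) ^ i * (⟨_, htB⟩ : B1) ^ l := by
        apply Subtype.ext
        rw [Subgroup.coe_mul, SubgroupClass.coe_zpow, SubgroupClass.coe_zpow, hij, hl, zpow_mul,
          zpow_natCast]
      have hn1 : (⟨_, huB⟩ : B1) ∈ Subgroup.closure {(⟨_, htB⟩ : B1), (⟨_, huB⟩ : B1)} :=
        Subgroup.subset_closure (Set.mem_insert_of_mem _ rfl)
      have hn2 : (⟨_, htB⟩ : B1) ∈ Subgroup.closure {(⟨_, htB⟩ : B1), (⟨_, huB⟩ : B1)} :=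
        Subgroup.subset_closure (Set.mem_insert _ _)
      rw [h3]
      exact mul_mem (zpow_mem hn1 i) (zpow_mem hn2 l)
  · rw [hch]
    have h1 : τ * υ * τ⁻¹ * υ⁻¹ ∈ Subgroup.center E := by
      rw [← hch]
      exact hc (SetLike.coe_mem _)
    have h2 := Subgroup.mem_center_iff.1 h1 s'
    calc s' * τ * s'⁻¹ * (s' * υ * s'⁻¹) * (s' * τ * s'⁻¹)⁻¹ * (s' * υ * s'⁻¹)⁻¹ =
        s' * (τ * υ * τ⁻¹ * υ⁻¹) * s'⁻¹ := by group
      _ = _ := by rw [h2, mul_inv_cancel_right]

/-- **The case `P ≤ B₁`.** -/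
theorem cover_normal (hB1 : B1.Normal) (hmax : IsCoatom B1) (A' : Subgroup B)
    (hAc : ∀ a ∈ A', ∀ b ∈ A', a * b = b * a) (hAB : ¬ A' ≤ B1) :
    Cover p B1 A' (A'.subgroupOf B1) := by
  intro E _ _ pe hpe hc hpr x y hcl hw
  by_cases hx : x.fst ∈ B1
  · have hy : y.fst ∉ B1 := by
      intro hy
      apply hAB
      rw [← hcl, Subgroup.closure_le]
      rintro w (rfl | rfl)
      · exact hx
      · exact hy
    have hw2 : y * x * y⁻¹ * x⁻¹ ∈ (Ind.fstHom pe).ker := by
      have := inv_mem hw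
      have e : (x * y * x⁻¹ * y⁻¹)⁻¹ = y * x * y⁻¹ * x⁻¹ := by group
      rwa [e] at this
    have h1 := chain_pair hB1 hmax A' hAc pe hpe hc y x hy (by rw [Set.pair_comm]; exact hcl) hw2
    have h2 : dpr pe hc ⟨_, hw⟩ = (dpr pe hc ⟨_, hw2⟩)⁻¹ := by
      rw [← dpr_inv]
      congr 1
      apply Subtype.ext
      change _ = (y * x * y⁻¹ * x⁻¹)⁻¹
      group
    rw [h2]
    exact h1.symm
  · exact chain_pair hB1 hmax A' hAc pe hpe hc x y hx hcl hw

/-- **The case `P ⊔ B₁ = ⊤`.** -/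
theorem cover_sup (P : Subgroup B) [hPn : P.Normal] (hP : IsPGroup p P) (hPB : commutator B ≤ P)
    (hPi : ¬ p ∣ P.index) (hsup : P ⊔ B1 = ⊤) (A1' : Subgroup B1)
    (hA1 : (P.subgroupOf B1).IsComplement' A1') :
    Cover p B1 (A1'.map B1.subtype) A1' := by
  intro E _ _ pe hpe hc hpr x y hcl hw
  -- the index is a power of `p`
  have hri : P.relIndex B1 = P.index := by
    rw [← Subgroup.relIndex_top_right, ← hsup, Subgroup.relIndex_sup_left]
  obtain ⟨k, hk⟩ : ∃ k, B1.index = p ^ k := by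
    obtain ⟨a, ha⟩ := (IsPGroup.iff_card).1 hP
    have h1 := Subgroup.card_mul_index (P.subgroupOf B1)
    have h2 := Subgroup.card_mul_index P
    have h3 := Subgroup.card_mul_index B1
    have h4 : (P.subgroupOf B1).index = P.index := hri
    have h5 : Nat.card (P.subgroupOf B1) * B1.index = p ^ a := by
      have hpos : 0 < P.index := Nat.pos_of_ne_zero P.index_ne_zero_of_finite
      apply Nat.eq_of_mul_eq_mul_right hpos
      rw [← ha, h2, ← h3, ← h1, h4]
      ring
    have h6 : B1.index ∣ p ^ a := ⟨_, by rw [mul_comm]; exact h5.symm⟩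
    obtain ⟨k, _, hk⟩ := (Nat.dvd_prime_pow hp.out).1 h6
    exact ⟨k, hk⟩
  have hx : x.fst ∈ A1'.map B1.subtype := hcl ▸ Subgroup.subset_closure (Set.mem_insert _ _)
  have hy : y.fst ∈ A1'.map B1.subtype :=
    hcl ▸ Subgroup.subset_closure (Set.mem_insert_of_mem _ rfl)
  obtain ⟨x2, hx2, hx2'⟩ := hx
  obtain ⟨y2, hy2, hy2'⟩ := hy
  obtain ⟨x1, rfl⟩ := hpe x2
  obtain ⟨y1, rfl⟩ := hpe y2
  have hpf := power_formula pe hpe hc hpr P hP hPB hsup x y x1 y1 hx2'.symm hy2'.symm hw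
  have hcl1 : Subgroup.closure {pe x1, pe y1} = A1' := by
    apply Subgroup.map_injective B1.subtype_injective
    rw [MonoidHom.map_closure, Set.image_pair, hx2', hy2', hcl]
  have hαβ : x1 * y1 * x1⁻¹ * y1⁻¹ ∈ pe.ker := by
    rw [MonoidHom.mem_ker, map_mul, map_mul, map_mul, map_inv, map_inv]
    apply Subtype.ext
    rw [Subgroup.coe_mul, Subgroup.coe_mul, Subgroup.coe_mul, Subgroup.coe_inv, Subgroup.coe_inv]
    change B1.subtype (pe x1) * B1.subtype (pe y1) * (B1.subtype (pe x1))⁻¹ *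
      (B1.subtype (pe y1))⁻¹ = 1
    rw [hx2', hy2']
    exact hw
  have hcard : ¬ p ∣ Nat.card A1' := by
    have h1 : Nat.card A1' = (P.subgroupOf B1).index := hA1.symm.index_eq_card.symm
    rw [h1]
    change ¬ p ∣ P.relIndex B1
    rw [hri]
    exact hPi
  have hpow : ∀ m : ℕ, x1 ^ m * y1 * (x1 ^ m)⁻¹ * y1⁻¹ = (x1 * y1 * x1⁻¹ * y1⁻¹) ^ m := by
    intro m
    induction m with
    | zero => simp
    | succ m ih =>
      have h2 := Subgroup.mem_center_iff.1 (hc hαβ) (x1 ^ m)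
      calc x1 ^ (m + 1) * y1 * (x1 ^ (m + 1))⁻¹ * y1⁻¹ =
          x1 ^ m * (x1 * y1 * x1⁻¹ * y1⁻¹) * y1 * (x1 ^ m)⁻¹ * y1⁻¹ := by
            rw [pow_succ]
            group
        _ = (x1 * y1 * x1⁻¹ * y1⁻¹) * (x1 ^ m * y1 * (x1 ^ m)⁻¹ * y1⁻¹) := by
            rw [h2]
            group
        _ = _ := by rw [ih, pow_succ']
  refine ⟨x1 ^ B1.index, y1, ?_, ?_⟩
  · rw [hk]
    obtain ⟨e, he⟩ := exists_expo A1' hcard k
    have hxA : pe x1 ∈ A1' := hcl1 ▸ Subgroup.subset_closure (Set.mem_insert _ _)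
    have hyA : pe y1 ∈ A1' := hcl1 ▸ Subgroup.subset_closure (Set.mem_insert_of_mem _ rfl)
    apply le_antisymm
    · rw [Subgroup.closure_le]
      rintro w (rfl | rfl)
      · rw [map_pow]
        exact pow_mem hxA _
      · exact hyA
    · conv_lhs => rw [← hcl1]
      rw [Subgroup.closure_le]
      rintro w (rfl | rfl)
      · have h1 := congrArg Subtype.val (he ⟨_, hxA⟩)
        have h2 : pe x1 = (pe (x1 ^ p ^ k)) ^ e := by
          rw [map_pow, ← pow_mul]
          exact h1.symm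
        rw [h2]
        exact pow_mem (Subgroup.subset_closure (Set.mem_insert _ _)) _
      · exact Subgroup.subset_closure (Set.mem_insert_of_mem _ rfl)
  · rw [hpow, hpf]

/-- **The covering.** -/
theorem exists_cover (hmax : IsCoatom B1) (P : Subgroup B) [hPn : P.Normal] (hP : IsPGroup p P)
    (hPB : commutator B ≤ P) (hPi : ¬ p ∣ P.index) :
    ∃ (A' : Subgroup B) (A1' : Subgroup B1), P.IsComplement' A' ∧
      (P.subgroupOf B1).IsComplement' A1' ∧ Cover p B1 A' A1' := by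
  have hcop : Nat.Coprime (Nat.card P) P.index := by
    obtain ⟨k, hk⟩ := (IsPGroup.iff_card).1 hP
    rw [hk]
    exact Nat.Coprime.pow_left _ ((Nat.Prime.coprime_iff_not_dvd hp.out).2 hPi)
  by_cases hPB1 : P ≤ B1
  · have hB1 : B1.Normal := by
      refine ⟨fun x hx g => ?_⟩
      have h1 : g * x * g⁻¹ * x⁻¹ ∈ commutator B := by
        rw [← commutatorElement_def]
        exact Subgroup.commutator_mem_commutator (Subgroup.mem_top g) (Subgroup.mem_top x)
      have h2 := mul_mem (hPB1 (hPB h1)) hx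
      rwa [inv_mul_cancel_right] at h2
    obtain ⟨A', hA'⟩ := Subgroup.exists_right_complement'_of_coprime hcop
    have hAB : ¬ A' ≤ B1 := by
      intro h
      apply hmax.1
      rw [eq_top_iff, ← hA'.sup_eq_top]
      exact sup_le hPB1 h
    have hAc : ∀ a ∈ A', ∀ b ∈ A', a * b = b * a := by
      intro a ha b hb
      have h1 : a * b * a⁻¹ * b⁻¹ ∈ P := by
        have := hPB (Subgroup.commutator_mem_commutator (Subgroup.mem_top a) (Subgroup.mem_top b))
        rw [commutatorElement_def] at this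
        exact this
      have h2 : a * b * a⁻¹ * b⁻¹ ∈ A' :=
        mul_mem (mul_mem (mul_mem ha hb) (inv_mem ha)) (inv_mem hb)
      have h3 : a * b * a⁻¹ * b⁻¹ ∈ P ⊓ A' := ⟨h1, h2⟩
      rw [hA'.disjoint.eq_bot, Subgroup.mem_bot, mul_inv_eq_one, mul_inv_eq_iff_eq_mul] at h3
      exact h3
    refine ⟨A', A'.subgroupOf B1, hA', ?_, cover_normal hB1 hmax A' hAc hAB⟩
    refine Subgroup.isComplement'_of_disjoint_and_mul_eq_univ ?_ ?_
    · rw [disjoint_iff, eq_bot_iff]
      rintro w ⟨h1, h2⟩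
      have h3 : (w : B) ∈ P ⊓ A' := ⟨h1, h2⟩
      rw [hA'.disjoint.eq_bot, Subgroup.mem_bot] at h3
      exact Subtype.ext h3
    · rw [Set.eq_univ_iff_forall]
      intro w
      have h1 : (w : B) ∈ P ⊔ A' := by rw [hA'.sup_eq_top]; trivial
      rw [Subgroup.mem_sup_of_normal_left] at h1
      obtain ⟨u, hu, v, hv, huv⟩ := h1
      have hvB : v ∈ B1 := by
        have : v = u⁻¹ * (w : B) := by rw [← huv, inv_mul_cancel_left]
        rw [this]
        exact mul_mem (inv_mem (hPB1 hu)) w.2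
      exact ⟨⟨u, hPB1 hu⟩, hu, ⟨v, hvB⟩, hv, Subtype.ext huv⟩
  · have hsup : P ⊔ B1 = ⊤ := hmax.2 _ (lt_of_le_of_ne le_sup_right (fun h =>
      hPB1 (h ▸ le_sup_left)))
    have hcop1 : Nat.Coprime (Nat.card (P.subgroupOf B1)) (P.subgroupOf B1).index := by
      have hP1 : IsPGroup p (P.subgroupOf B1) := by
        rw [Subgroup.subgroupOf]
        exact hP.comap_of_injective _ (Subgroup.subtype_injective _)
      obtain ⟨k, hk⟩ := (IsPGroup.iff_card).1 hP1
      rw [hk]
      refine Nat.Coprime.pow_left _ ((Nat.Prime.coprime_iff_not_dvd hp.out).2 fun h =>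
        hPi (h.trans (Subgroup.relIndex_dvd_index_of_normal P B1)))
    obtain ⟨A1', hA1'⟩ := Subgroup.exists_right_complement'_of_coprime hcop1
    refine ⟨A1'.map B1.subtype, A1', ?_, hA1', cover_sup P hP hPB hPi hsup A1' hA1'⟩
    refine Subgroup.isComplement'_of_disjoint_and_mul_eq_univ ?_ ?_
    · rw [disjoint_iff, eq_bot_iff]
      rintro w ⟨h1, w', h2, rfl⟩
      have h3 : w' ∈ (P.subgroupOf B1) ⊓ A1' := ⟨h1, h2⟩
      rw [hA1'.disjoint.eq_bot, Subgroup.mem_bot] at h3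
      rw [h3, map_one]
      rfl
    · rw [Set.eq_univ_iff_forall]
      intro w
      have h1 : w ∈ P ⊔ B1 := by rw [hsup]; trivial
      rw [Subgroup.mem_sup_of_normal_left] at h1
      obtain ⟨u, hu, v, hv, huv⟩ := h1
      have h2 : (⟨v, hv⟩ : B1) ∈ (P.subgroupOf B1) ⊔ A1' := by rw [hA1'.sup_eq_top]; trivial
      rw [Subgroup.mem_sup_of_normal_left] at h2
      obtain ⟨u', hu', v', hv', huv'⟩ := h2
      refine ⟨u * (u' : B), mul_mem hu hu', (v' : B), ⟨v', hv', rfl⟩, ?_⟩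
      change u * (u' : B) * (v' : B) = w
      have h3 := congrArg Subtype.val huv'
      change (u' : B) * (v' : B) = v at h3
      rw [mul_assoc, h3, huv]

end

end Pool.Agent.Helper15.QS
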