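import Pool.Agent.Helper15.QS.Kron

/-!
# The product of the coordinates of the product of commutators
-/

open scoped Classical BigOperators
open Representation Pool.Agent.Helper884.IC Pool.Agent.Y63.AWC Pool.Agent.Helper15.AW

set_option linter.unusedSectionVars false
set_option linter.unusedVariables false
set_option linter.unusedSimpArgs false

noncomputable section

namespace Pool.Agent.Helper15.QS

open Pool.Agent.Y63.KR (surfaceWord coords dg cod dg_spec cod_spec cod_pos DZ_iff)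

variable {B : Type} [Group B] [Finite B] {B1 : Subgroup B} {F : Type} [Group F] {T : Type}
  [CommGroup T]

/-- the product of the values at the coordinates of an element over `1` -/
def dprod (π : F →* B1) (δ : π.ker →* T) (x : (Ind.fstHom π).ker) : T :=
  haveI : Fintype (B ⧸ B1) := Fintype.ofFinite _
  ∏ i : B ⧸ B1, δ ((Ind.kerEquiv π).symm x i)

lemma dprod_eq (π : F →* B1) (δ : π.ker →* T) [Fintype (B ⧸ B1)] (x : (Ind.fstHom π).ker) :
    dprod π δ x = ∏ i : B ⧸ B1, δ ((Ind.kerEquiv π).symm x i) := by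
  unfold dprod
  congr
  exact Subsingleton.elim _ _

lemma dprod_mul (π : F →* B1) (δ : π.ker →* T) (x y : (Ind.fstHom π).ker) :
    dprod π δ (x * y) = dprod π δ x * dprod π δ y := by
  have : Fintype (B ⧸ B1) := Fintype.ofFinite _
  rw [dprod_eq, dprod_eq, dprod_eq, ← Finset.prod_mul_distrib]
  refine Finset.prod_congr rfl fun i _ => ?_
  rw [map_mul, Pi.mul_apply, map_mul]

/-- the product as a homomorphism -/
def dhom (π : F →* B1) (δ : π.ker →* T) : (Ind.fstHom π).ker →* T :=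
  MonoidHom.mk' (dprod π δ) (dprod_mul π δ)

lemma dhom_apply (π : F →* B1) (δ : π.ker →* T) (x : (Ind.fstHom π).ker) :
    dhom π δ x = dprod π δ x := rfl

lemma dprod_conj (π : F →* B1) (hc : π.ker ≤ Subgroup.center F) (δ : π.ker →* T) (h : Ind π)
    (x : (Ind.fstHom π).ker) : dprod π δ (MulAut.conjNormal h x) = dprod π δ x := by
  have : Fintype (B ⧸ B1) := Fintype.ofFinite _
  rw [dprod_eq, dprod_eq]
  refine Fintype.prod_equiv (MulAction.toPerm (h.fst⁻¹)) _ _ fun i => ?_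
  congr 1
  apply Subtype.ext
  have hx : (x : Ind π).fst = 1 := x.2
  have h1 : (((Ind.kerEquiv π).symm (MulAut.conjNormal h x) i : π.ker) : F) =
      (h * (x : Ind π) * h⁻¹).snd i := rfl
  rw [h1, Ind.conj_snd' h _ hx]
  have h2 : (((Ind.kerEquiv π).symm x (h.fst⁻¹ • i) : π.ker) : F) =
    (x : Ind π).snd (h.fst⁻¹ • i) := rfl
  change _ = (((Ind.kerEquiv π).symm x (h.fst⁻¹ • i) : π.ker) : F)
  rw [h2, Subgroup.mem_center_iff.1 (hc (Ind.snd_mem_ker hx _)), mul_inv_cancel_right]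

/-- the elements over `1` with trivial product -/
def D0 (π : F →* B1) (δ : π.ker →* T) : Subgroup (Ind π) :=
  (dhom π δ).ker.map (Ind.fstHom π).ker.subtype

lemma mem_D0 (π : F →* B1) (δ : π.ker →* T) (x : (Ind.fstHom π).ker) :
    (x : Ind π) ∈ D0 π δ ↔ dprod π δ x = 1 := by
  unfold D0
  rw [Subgroup.mem_map]
  constructor
  · rintro ⟨y, hy, hyx⟩
    have : y = x := Subtype.ext hyx
    rw [← this]
    exact hy
  · intro h
    exact ⟨x, h, rfl⟩

lemma D0_normal (π : F →* B1) (hc : π.ker ≤ Subgroup.center F) (δ : π.ker →* T) :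
    (D0 π δ).Normal := by
  constructor
  rintro _ ⟨x, hx, rfl⟩ h
  have h1 : h * (Ind.fstHom π).ker.subtype x * h⁻¹ = ((MulAut.conjNormal h x :
      (Ind.fstHom π).ker) : Ind π) := by
    rw [MulAut.conjNormal_apply]
    rfl
  rw [h1, mem_D0, dprod_conj π hc]
  exact hx

/-- modulo the elements over `1` with trivial product the elements over `1` are central -/
lemma D0_central (π : F →* B1) (hc : π.ker ≤ Subgroup.center F) (δ : π.ker →* T)
    [(D0 π δ).Normal] (x : (Ind.fstHom π).ker) :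
    (QuotientGroup.mk' (D0 π δ)) (x : Ind π) ∈ Subgroup.center (Ind π ⧸ D0 π δ) := by
  rw [Subgroup.mem_center_iff]
  intro y
  obtain ⟨y, rfl⟩ := QuotientGroup.mk'_surjective _ y
  rw [← map_mul, ← map_mul]
  refine (QuotientGroup.eq.2 ?_).symm
  have h1 : ((x : Ind π) * y)⁻¹ * (y * x) = ((MulAut.conjNormal y⁻¹ (x⁻¹ * MulAut.conjNormal y x) :
      (Ind.fstHom π).ker) : Ind π) := by
    rw [MulAut.conjNormal_apply, Subgroup.coe_mul, MulAut.conjNormal_apply, Subgroup.coe_inv]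
    group
  rw [h1, mem_D0, dprod_conj π hc, dprod_mul, dprod_conj π hc]
  have h2 : dprod π δ x⁻¹ = (dprod π δ x)⁻¹ := map_inv (dhom π δ) x
  rw [h2, inv_mul_cancel]

/-- the product does not depend on the lift -/
theorem dprod_lift (π : F →* B1) (hc : π.ker ≤ Subgroup.center F) (δ : π.ker →* T) {g : ℕ}
    (e e' : Fin g → Ind π × Ind π) (h : mapT (Ind.fstHom π) e = mapT (Ind.fstHom π) e')
    (hw : surfaceWord e ∈ (Ind.fstHom π).ker) (hw' : surfaceWord e' ∈ (Ind.fstHom π).ker) :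
    dprod π δ ⟨_, hw⟩ = dprod π δ ⟨_, hw'⟩ := by
  have hn := D0_normal π hc δ
  have h1 : ∀ i, (e' i).1⁻¹ * (e i).1 ∈ (Ind.fstHom π).ker ∧
      (e' i).2⁻¹ * (e i).2 ∈ (Ind.fstHom π).ker := by
    intro i
    have h2 := congrFun h i
    have h3 : (Ind.fstHom π) (e i).1 = (Ind.fstHom π) (e' i).1 := congrArg Prod.fst h2
    have h4 : (Ind.fstHom π) (e i).2 = (Ind.fstHom π) (e' i).2 := congrArg Prod.snd h2
    constructor
    · rw [MonoidHom.mem_ker, map_mul, map_inv, h3, inv_mul_cancel]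
    · rw [MonoidHom.mem_ker, map_mul, map_inv, h4, inv_mul_cancel]
  have h2 : mapT (QuotientGroup.mk' (D0 π δ)) e = mulT (mapT (QuotientGroup.mk' (D0 π δ)) e')
      (fun i => ((QuotientGroup.mk' (D0 π δ)) ((e' i).1⁻¹ * (e i).1),
        (QuotientGroup.mk' (D0 π δ)) ((e' i).2⁻¹ * (e i).2))) := by
    funext i
    unfold mapT mulT
    rw [← map_mul, ← map_mul, mul_inv_cancel_left, mul_inv_cancel_left]
  have h3 := congrArg surfaceWord h2
  rw [word_central _ _ (fun i => ⟨D0_central π hc δ ⟨_, (h1 i).1⟩,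
    D0_central π hc δ ⟨_, (h1 i).2⟩⟩), word_mapT, word_mapT] at h3
  have h4 : (surfaceWord e')⁻¹ * surfaceWord e ∈ D0 π δ := QuotientGroup.eq.1 h3.symm
  have h5 : (surfaceWord e')⁻¹ * surfaceWord e = (((⟨_, hw'⟩ : (Ind.fstHom π).ker)⁻¹ *
      ⟨_, hw⟩ : (Ind.fstHom π).ker) : Ind π) := rfl
  rw [h5, mem_D0, dprod_mul] at h4
  have h6 : dprod π δ (⟨_, hw'⟩ : (Ind.fstHom π).ker)⁻¹ = (dprod π δ ⟨_, hw'⟩)⁻¹ :=
    map_inv (dhom π δ) _
  rw [h6, inv_mul_eq_one] at h4
  exact h4.symm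

end Pool.Agent.Helper15.QS
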