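import Pool.Agent.Helper15.QS.Gam2

/-!
# The weighted double counting
-/

open scoped Classical BigOperators IsMulCommutative
open Representation Pool.Agent.Helper884.IC Pool.Agent.Y63.AWC Pool.Agent.Helper15.AW

set_option linter.unusedSectionVars false
set_option linter.unusedVariables false
set_option linter.unusedSimpArgs false

attribute [-instance] MonoidHom.decidableMemKer

noncomputable section

namespace Pool.Agent.Helper15.QS

open Pool.Agent.Y63.KR (surfaceWord coords dg cod dg_spec cod_spec cod_pos DZ_iff)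

section

variable {B : Type} [Group B] [Finite B] {B1 : Subgroup B} {A : Type} [Group A] [Fintype A]
  {π : A →* B1}

/-- the sum over the lifts of `r` whose stabilizer has image in `L` -/
def VW (π : A →* B1) {g : ℕ} (W : (Fin g → Ind π × Ind π) → ℂ) (L : Subgroup A)
    (r : Fin g → B × B) : ℂ := ∑ q : Fin g → Ind π × Ind π, if mapT (Ind.fstHom π) q = r ∧
      st (Subgroup.closure (coords q)) ≤ L then W q else 0

/-- the sum over the lifts of `r` whose stabilizer has image `L` -/
def EW (π : A →* B1) {g : ℕ} (W : (Fin g → Ind π × Ind π) → ℂ) (L : Subgroup A)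
    (r : Fin g → B × B) : ℂ := ∑ q : Fin g → Ind π × Ind π, if mapT (Ind.fstHom π) q = r ∧
      st (Subgroup.closure (coords q)) = L then W q else 0

/-- the double counting -/
theorem double_count_w {g : ℕ} (W : (Fin g → Ind π × Ind π) → ℂ)
    (L : Subgroup A) (hL : ∀ γ : A, ∃ l ∈ L, π l = π γ) (r : Fin g → B × B)
    (hr2 : Subgroup.closure (coords r) = ⊤)
    (hW : ∀ (s : B ⧸ B1 → π.ker) q, W (cjT (Ind.inc π s) q) = W q) :
    ((Nat.card (L ⊓ π.ker : Subgroup A) : ℂ) ^ (B1.index - 1)) * VW π W L r =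
    ((Nat.card π.ker : ℂ) ^ (B1.index - 1)) *
      ∑ q : Fin g → Ind π × Ind π, if mapT (Ind.fstHom π) q = r ∧
        coords q ⊆ (indL (π := π) L : Set (Ind π)) then W q else 0 := by
  unfold VW
  have h1 : ∀ q : Fin g → Ind π × Ind π,
      ((Nat.card (L ⊓ π.ker : Subgroup A) : ℂ) ^ (B1.index - 1)) *
      (if mapT (Ind.fstHom π) q = r ∧
        st (Subgroup.closure (coords q)) ≤ L then W q else 0) =
      ∑ s ∈ Sset π, if mapT (Ind.fstHom π) q = r ∧ (∀ x ∈ Subgroup.closure (coords q),
        Ind.inc π s * x * (Ind.inc π s)⁻¹ ∈ indL L) then W q else 0 := by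
    intro q
    by_cases hq : mapT (Ind.fstHom π) q = r
    · simp only [hq, true_and]
      by_cases hst : st (Subgroup.closure (coords q)) ≤ L
      · rw [if_pos hst, ← Finset.sum_filter, Finset.sum_const, nsmul_eq_mul,
          card_good hst hL]
        · push_cast
          rfl
        · intro i
          obtain ⟨b, rfl⟩ := QuotientGroup.mk_surjective i
          have h2 : (Subgroup.closure (coords q)).map (Ind.fstHom π) = ⊤ := by
            rw [← closure_mapT, hq, hr2]
          have h3 : b ∈ (Subgroup.closure (coords q)).map (Ind.fstHom π) := by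
            rw [h2]; trivial
          obtain ⟨y, hy, hyb⟩ := h3
          refine ⟨y, hy, ?_⟩
          have h4 : y.fst = b := hyb
          rw [h4]
          change ((b * 1 : B) : B ⧸ B1) = _
          rw [mul_one]
      · rw [if_neg hst, mul_zero]
        symm
        refine Finset.sum_eq_zero fun s hs => ?_
        rw [if_neg]
        intro h2
        exact hst (st_le_of_conj s (mem_Sset.1 hs) h2)
    · simp only [hq, false_and, if_false, mul_zero, Finset.sum_const_zero]
  rw [Finset.mul_sum, Finset.sum_congr rfl fun q _ => h1 q, Finset.sum_comm]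
  have h2 : ∀ s ∈ Sset π, (∑ q : Fin g → Ind π × Ind π, if mapT (Ind.fstHom π) q = r ∧
      (∀ x ∈ Subgroup.closure (coords q), Ind.inc π s * x * (Ind.inc π s)⁻¹ ∈ indL L)
        then W q else 0) =
      ∑ q : Fin g → Ind π × Ind π, if mapT (Ind.fstHom π) q = r ∧
        coords q ⊆ (indL (π := π) L : Set (Ind π)) then W q else 0 := by
    intro s _
    rw [← (cjT (g := g) (Ind.inc π s)).sum_comp (fun q : Fin g → Ind π × Ind π =>
      if mapT (Ind.fstHom π) q = r ∧ coords q ⊆ (indL (π := π) L : Set (Ind π)) then W q else 0)]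
    refine Finset.sum_congr rfl fun q _ => ?_
    have h3 : mapT (Ind.fstHom π) (cjT (Ind.inc π s) q) = mapT (Ind.fstHom π) q := by
      funext i
      refine Prod.ext ?_ ?_
      · change (Ind.inc π s * (q i).1 * (Ind.inc π s)⁻¹).fst = (q i).1.fst
        simp
      · change (Ind.inc π s * (q i).2 * (Ind.inc π s)⁻¹).fst = (q i).2.fst
        simp
    rw [h3, cjT_coords, hW]
    congr
  rw [Finset.sum_congr rfl h2, Finset.sum_const, nsmul_eq_mul, card_Sset]
  push_cast
  rfl

/-- if the sum over the generating tuples does not vanish, then one of the sums does not vanish -/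
theorem exists_VW {g : ℕ} (W : (Fin g → Ind π × Ind π) → ℂ) (r : Fin g → B × B)
    (h : EW π W ⊤ r ≠ 0) : ∃ L : Subgroup A, VW π W L r ≠ 0 := by
  by_contra hcon
  push Not at hcon
  have : Fintype (Subgroup A) := Fintype.ofFinite _
  apply h
  have key : ∀ L : Subgroup A, EW π W L r = 0 := by
    intro L
    induction L using WellFoundedLT.induction with
    | _ L ih =>
      have h3 := sum_le_split (fun q : Fin g → Ind π × Ind π =>
        mapT (Ind.fstHom π) q = r) (fun q => st (Subgroup.closure (coords q))) W L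
      have h4 : VW π W L r = EW π W L r +
          ∑ K ∈ Finset.univ.filter (fun K : Subgroup A => K < L), EW π W K r := by
        unfold VW EW
        refine Eq.trans (Finset.sum_congr rfl fun q _ => ?_) (h3.trans ?_)
        · congr!
        · congr!
      rw [hcon L, Finset.sum_eq_zero fun K hK => ih K (Finset.mem_filter.1 hK).2, add_zero] at h4
      exact h4.symm
  exact key ⊤

lemma VW_surj {g : ℕ} (W : (Fin g → Ind π × Ind π) → ℂ) (L : Subgroup A) (r : Fin g → B × B)
    (hr2 : Subgroup.closure (coords r) = ⊤) (h : VW π W L r ≠ 0) :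
    ∀ γ : A, ∃ l ∈ L, π l = π γ := by
  obtain ⟨q, _, hq⟩ := Finset.exists_ne_zero_of_sum_ne_zero h
  have h2 : mapT (Ind.fstHom π) q = r ∧ st (Subgroup.closure (coords q)) ≤ L := by
    by_contra hcon
    rw [if_neg hcon] at hq
    exact hq rfl
  intro γ
  obtain ⟨y, hy, hy1⟩ : ∃ y ∈ Subgroup.closure (coords q),
      y.fst = (i0 B1).out * (π γ : B) * ((i0 B1).out)⁻¹ := by
    have h4 : (Subgroup.closure (coords q)).map (Ind.fstHom π) = ⊤ := by
      rw [← closure_mapT, h2.1, hr2]
    have h5 : (i0 B1).out * (π γ : B) * ((i0 B1).out)⁻¹ ∈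
        (Subgroup.closure (coords q)).map (Ind.fstHom π) := by
      rw [h4]; trivial
    exact h5
  have ho : (((i0 B1).out : B) : B ⧸ B1) = i0 B1 := Quotient.out_eq _
  have h4 : y.fst • i0 B1 = i0 B1 := by
    conv_lhs => rw [← ho]
    change ((y.fst * (i0 B1).out : B) : B ⧸ B1) = _
    rw [hy1, inv_mul_cancel_right, QuotientGroup.mk_mul_of_mem _ (π γ).2, ho]
  refine ⟨y.snd (i0 B1), h2.2 ⟨y, hy, h4, rfl⟩, ?_⟩
  rw [y.prop]
  apply Subtype.ext
  rw [kp_coe, h4, hy1]
  group

variable {H : Type} [Group H] [Fintype H]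

/-- the sum over the lifts of a tuple -/
def WW (Φ : H →* Ind π) (Z : Subgroup H) (lam : Z →* ℂˣ) {g : ℕ} (q : Fin g → Ind π × Ind π) : ℂ :=
  ∑ x : Fin g → H × H, if mapT Φ x = q then ext0 Z lam (surfaceWord x) else 0

lemma cjT_map {H' : Type} [Group H'] (f : H →* H') (x : H) {g : ℕ} (q : Fin g → H × H) :
    mapT f (cjT x q) = cjT (f x) (mapT f q) := by
  funext i
  refine Prod.ext ?_ ?_
  · change f (x * (q i).1 * x⁻¹) = f x * f (q i).1 * (f x)⁻¹
    rw [map_mul, map_mul, map_inv]
  · change f (x * (q i).2 * x⁻¹) = f x * f (q i).2 * (f x)⁻¹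
    rw [map_mul, map_mul, map_inv]

lemma WW_conj (Φ : H →* Ind π) (hΦ : Function.Surjective Φ) (Z : Subgroup H)
    (hZ : Z ≤ Subgroup.center H) (lam : Z →* ℂˣ) {g : ℕ} (x : Ind π)
    (q : Fin g → Ind π × Ind π) : WW Φ Z lam (cjT x q) = WW Φ Z lam q := by
  obtain ⟨y, rfl⟩ := hΦ x
  unfold WW
  rw [← (cjT (g := g) y).sum_comp]
  refine Finset.sum_congr rfl fun u _ => ?_
  rw [cjT_map, cjT_word]
  by_cases h : mapT Φ u = q
  · rw [if_pos h, if_pos (congrArg _ h)]
    exact ext0_class Z hZ lam _ _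
  · rw [if_neg h, if_neg (fun h2 => h ((cjT (Φ y)).injective h2))]

/-- **Existence of an invariant character, if the sum does not vanish.** -/
theorem exists_over (Φ : H →* Ind π) (hΦ : Function.Surjective Φ) (Z : Subgroup H)
    (hZ : Z ≤ Subgroup.center H) (hZk : ∀ z ∈ Z, (Φ z) = 1) (lam : Z →* ℂˣ) {n : ℕ}
    (r : Fin (n + 1) → B × B) (hr1 : surfaceWord r = 1)
    (hr2 : Subgroup.closure (coords r) = ⊤) (h : EW π (WW Φ Z lam) ⊤ r ≠ 0) :
    ∃ L : Subgroup A, (∀ γ : A, ∃ l ∈ L, π l = π γ) ∧ ∃ theta :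
      (((Ind.fstHom π).comp Φ).comp ((indL (π := π) L).comap Φ).subtype).ker → ℂ,
      IsIrrChar theta ∧ Invariant theta ∧
      Over (Z.subgroupOf ((indL (π := π) L).comap Φ)) (rkap Z lam _) theta := by
  obtain ⟨L, hL⟩ := exists_VW _ r h
  have hLs := VW_surj _ L r hr2 hL
  refine ⟨L, hLs, ?_⟩
  have h1 := double_count_w (WW Φ Z lam) L hLs r hr2 (fun s q => WW_conj Φ hΦ Z hZ lam _ q)
  have h2 : (∑ q : Fin (n + 1) → Ind π × Ind π, if mapT (Ind.fstHom π) q = r ∧
      coords q ⊆ (indL (π := π) L : Set (Ind π)) then WW Φ Z lam q else 0) ≠ 0 := by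
    intro h3
    rw [h3, mul_zero] at h1
    rcases mul_eq_zero.1 h1 with h4 | h4
    · exact pow_ne_zero _ (by exact_mod_cast Nat.card_pos.ne') h4
    · exact hL h4
  set HL : Subgroup H := (indL (π := π) L).comap Φ with hHL
  set fL : HL →* B := ((Ind.fstHom π).comp Φ).comp HL.subtype with hfL
  -- the sum over the tuples of `HL`
  have h3 : (∑ q : Fin (n + 1) → Ind π × Ind π, if mapT (Ind.fstHom π) q = r ∧
      coords q ⊆ (indL (π := π) L : Set (Ind π)) then WW Φ Z lam q else 0) =
      ∑ x : Fin (n + 1) → H × H, if mapT ((Ind.fstHom π).comp Φ) x = r ∧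
        coords x ⊆ (HL : Set H) then ext0 Z lam (surfaceWord x) else 0 := by
    unfold WW
    have h4 : ∀ q : Fin (n + 1) → Ind π × Ind π, (if mapT (Ind.fstHom π) q = r ∧
        coords q ⊆ (indL (π := π) L : Set (Ind π)) then (∑ x : Fin (n + 1) → H × H,
          if mapT Φ x = q then ext0 Z lam (surfaceWord x) else 0) else 0) =
        ∑ x : Fin (n + 1) → H × H, if mapT Φ x = q then (if mapT (Ind.fstHom π) q = r ∧
          coords q ⊆ (indL (π := π) L : Set (Ind π)) then ext0 Z lam (surfaceWord x) else 0)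
            else 0 := by
      intro q
      split_ifs with h5
      · rfl
      · simp
    rw [Finset.sum_congr rfl fun q _ => h4 q, Finset.sum_comm]
    refine Finset.sum_congr rfl fun x _ => ?_
    rw [Finset.sum_ite_eq, if_pos (Finset.mem_univ _)]
    have h5 : mapT (Ind.fstHom π) (mapT Φ x) = mapT ((Ind.fstHom π).comp Φ) x := rfl
    have h6 : coords (mapT Φ x) ⊆ (indL (π := π) L : Set (Ind π)) ↔ coords x ⊆ (HL : Set H) := by
      rw [coords_mapT]
      constructor
      · intro h7 y hy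
        exact h7 ⟨y, hy, rfl⟩
      · rintro h7 _ ⟨y, hy, rfl⟩
        exact h7 hy
    rw [h5]
    simp only [h6]
  have h4 : (∑ x : Fin (n + 1) → H × H, if mapT ((Ind.fstHom π).comp Φ) x = r ∧
        coords x ⊆ (HL : Set H) then ext0 Z lam (surfaceWord x) else 0) =
      ∑ x : Fin (n + 1) → HL × HL, if mapT fL x = r then
        ext0 (Z.subgroupOf HL) (rkap Z lam HL) (surfaceWord x) else 0 := by
    rw [← Finset.sum_filter, ← Finset.sum_filter]
    symm
    refine Finset.sum_bij (fun q _ => mapT HL.subtype q) ?_ ?_ ?_ ?_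
    · intro q hq
      rw [Finset.mem_filter] at hq ⊢
      refine ⟨Finset.mem_univ _, hq.2, ?_⟩
      rw [coords_mapT]
      rintro _ ⟨x, _, rfl⟩
      exact x.2
    · intro q _ q' _ h
      funext i
      exact Prod.ext (Subtype.ext (congrArg Prod.fst (congrFun h i)))
        (Subtype.ext (congrArg Prod.snd (congrFun h i)))
    · intro q hq
      rw [Finset.mem_filter] at hq
      obtain ⟨_, h1, h2⟩ := hq
      refine ⟨fun i => (⟨(q i).1, h2 (Or.inl ⟨i, rfl⟩)⟩, ⟨(q i).2, h2 (Or.inr ⟨i, rfl⟩)⟩), ?_, rfl⟩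
      rw [Finset.mem_filter]
      exact ⟨Finset.mem_univ _, h1⟩
    · intro q _
      rw [ext0_rkap, word_mapT]
      rfl
  rw [h3, h4] at h2
  obtain ⟨q0, _, hq0⟩ := Finset.exists_ne_zero_of_sum_ne_zero h2
  have hq0r : mapT fL q0 = r := by
    by_contra hcon
    rw [if_neg hcon] at hq0
    exact hq0 rfl
  have hw : surfaceWord q0 ∈ fL.ker := by
    rw [MonoidHom.mem_ker, ← word_mapT, hq0r, hr1]
  have hfs : Function.Surjective fL := by
    rw [← MonoidHom.range_eq_top, eq_top_iff, ← hr2, Subgroup.closure_le, ← hq0r, coords_mapT]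
    rintro _ ⟨x, _, rfl⟩
    exact ⟨x, rfl⟩
  have hg : Subgroup.closure (coords q0) ⊔ fL.ker = ⊤ := gen_lift _ hfs q0 (by rw [hq0r, hr2])
  have hCc : Z.subgroupOf HL ≤ Subgroup.center HL := by
    intro x hx
    rw [Subgroup.mem_center_iff]
    intro y
    exact Subtype.ext (Subgroup.mem_center_iff.1 (hZ hx) y)
  have hCk : Z.subgroupOf HL ≤ fL.ker := by
    intro x hx
    rw [MonoidHom.mem_ker]
    exact congrArg Ind.fst (hZk _ hx)
  have h5 := R_sum (Z.subgroupOf HL) hCc hCk (rkap Z lam HL) q0 hw hg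
  have h6 := sum_fibre fL q0 (fun x => ext0 (Z.subgroupOf HL) (rkap Z lam HL) (surfaceWord x))
  rw [hq0r] at h6
  have h7 : (∑ theta ∈ DD (M := fL.ker) (Z.subgroupOf HL) (rkap Z lam HL),
      zf q0 theta * (cod theta : ℂ) ^ (2 * n)) ≠ 0 := by
    intro h8
    apply h2
    rw [h8, mul_zero] at h5
    refine Eq.trans ?_ (h6.trans h5)
    refine Finset.sum_congr rfl fun x _ => ?_
    congr
  obtain ⟨theta, ht, _⟩ := Finset.exists_ne_zero_of_sum_ne_zero h7
  obtain ⟨ht1, ht2, ht3⟩ := Finset.mem_filter.1 ht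
  exact ⟨theta, mem_Irr.1 ht1, ht2, ht3⟩

end

end Pool.Agent.Helper15.QS
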