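import Pool.Agent.Helper15.QS.Usm

/-!
# The sum over all generating tuples
-/

open scoped Classical BigOperators IsMulCommutative
open Representation Pool.Agent.Helper884.IC Pool.Agent.Y63.AWC Pool.Agent.Helper15.AW

set_option linter.unusedSectionVars false
set_option linter.unusedVariables false
set_option linter.unusedSimpArgs false

attribute [-instance] MonoidHom.decidableMemKer

noncomputable section

namespace Pool.Agent.Helper15.QS

open Pool.Agent.Y63.KR (surfaceWord coords dg cod dg_spec cod_spec cod_pos DZ_iff)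

lemma PD.of_mul_int {p : ℕ} [hp : Fact p.Prime] {m : ℤ} (hm : m ≠ 0) :
    ∃ v : ℕ, ∀ (M : ℕ) (x : ℂ), IsIntegral ℤ x → PD p (M + v) ((m : ℂ) * x) → PD p M x := by
  obtain ⟨v, m', hm', hmm⟩ := Nat.exists_eq_pow_mul_and_not_dvd (Int.natAbs_ne_zero.2 hm) p
    hp.out.one_lt.ne'
  refine ⟨v, fun M x hx h => ?_⟩
  have h1 : PD p (M + v) (((m.natAbs : ℕ) : ℂ) * x) := by
    rcases Int.natAbs_eq m with h2 | h2
    · have h3 : ((m.natAbs : ℕ) : ℂ) = (m : ℂ) := by
        conv_rhs => rw [h2, Int.cast_natCast]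
      rw [h3]
      exact h
    · have h3 : ((m.natAbs : ℕ) : ℂ) = -(m : ℂ) := by
        conv_rhs => rw [h2, Int.cast_neg, Int.cast_natCast, neg_neg]
      rw [h3, neg_mul]
      exact h.neg
  rw [hmm] at h1
  obtain ⟨y, hy, hxy⟩ := h1
  have hp0 : ((p : ℂ) ^ v) ≠ 0 := pow_ne_zero _ (by exact_mod_cast hp.out.ne_zero)
  refine PD.of_mul hm' hx ⟨y, hy, ?_⟩
  apply mul_left_cancel₀ hp0
  have h2 : (((p ^ v * m' : ℕ)) : ℂ) * x = (p : ℂ) ^ v * ((m' : ℂ) * x) := by
    push_cast
    ring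
  rw [← h2, hxy, pow_add]
  ring

section

variable {B : Type} [Group B] [Fintype B] {B1 : Subgroup B} {Γ : Type} [Group Γ] [Fintype Γ]
  {E : Type} [Group E] [Fintype E] {A : Type} [Group A] {p : ℕ} [hp : Fact p.Prime]

lemma ext0_integral (C : Subgroup Γ) (κ : C →* ℂˣ) (x : Γ) : IsIntegral ℤ (ext0 C κ x) := by
  by_cases h : x ∈ C
  · rw [ext0_of_mem κ h]
    exact unit_integral κ _
  · rw [ext0_of_not_mem κ h]
    exact isIntegral_zero

lemma wt_integral {π : Γ →* B1} (C : Subgroup Γ) (κ : C →* ℂˣ) (x : Ind π) :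
    IsIntegral ℤ (wt C κ x) := by
  have : Fintype (B ⧸ B1) := Fintype.ofFinite _
  rw [wt_eq]
  exact IsIntegral.prod _ fun i _ => ext0_integral C κ _

lemma VE_integral (π : Γ →* B1) (C : Subgroup Γ) (κ : C →* ℂˣ) (L : Subgroup Γ) {g : ℕ}
    (r : Fin g → B × B) : IsIntegral ℤ (VE π C κ L r) := by
  refine IsIntegral.sum _ fun q _ => ?_
  split_ifs
  · exact wt_integral C κ _
  · exact isIntegral_zero

/-- the comparison of the sums with given class -/
theorem VE_cls {π : Γ →* B1} (hπ : Function.Surjective π) (C : Subgroup Γ)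
    (hC : C ≤ Subgroup.center Γ) (hCπ : C ≤ π.ker) (κ : C →* ℂˣ) {pe : E →* B1}
    (hU : Univ p π pe) {n N : ℕ} (hn : 0 < n) (hd : p ^ N * (p - 1) ∣ n)
    (r : Fin (n + 1) → B × B) (hr1 : surfaceWord r = 1) (hr2 : Subgroup.closure (coords r) = ⊤)
    (e : Fin (n + 1) → Ind pe × Ind pe) (he : mapT (Ind.fstHom pe) e = r)
    (hw : surfaceWord e ∈ (Ind.fstHom pe).ker) :
    PD p (N + 1) ((nc pe (n + 1) ((dpr pe hU.central ⟨_, hw⟩ : pe.ker) : E) : ℂ) *
      VE π C κ ⊤ r - ((Nat.card π.ker : ℂ) * (Nat.card C : ℂ)) ^ (B1.index - 1) *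
        US π C κ pe (n + 1) ((dpr pe hU.central ⟨_, hw⟩ : pe.ker) : E)) := by
  set c : pe.ker := dpr pe hU.central ⟨_, hw⟩ with hcdef
  have h1 : (nc pe (n + 1) (c : E) : ℂ) * VE π C κ ⊤ r =
      ∑ s : Fin (n + 1) → B1 × B1, if (surfaceWord s = 1 ∧ Subgroup.closure (coords s) = ⊤) ∧
        (∀ e : Fin (n + 1) → E × E, mapT pe e = s → surfaceWord e = c) then VE π C κ ⊤ r
          else 0 := by
    rw [← Finset.sum_filter, Finset.sum_const, nsmul_eq_mul]
    congr 2
    unfold nc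
    rw [Nat.card_eq_fintype_card, Fintype.card_subtype]
  rw [h1]
  unfold US
  rw [Finset.mul_sum, ← Finset.sum_sub_distrib]
  refine PD.sum _ _ fun s _ => ?_
  split_ifs with hs
  · obtain ⟨e', he'⟩ := exists_liftT pe hU.surj s
    have hcomp : Compat p π r s := compat_of hU r s hr1 hs.1.1 e he e' he' hw (by
      rw [hs.2 e' he'])
    exact compare_gen hπ C hC hCπ κ hn hd r s hr1 hr2 hs.1.1 hs.1.2 hcomp ⊤
  · rw [mul_zero, sub_zero]
    exact PD.zero

/-- the classes of generating pairs of `B` come from generating pairs of `B₁` -/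
def Cover (p : ℕ) (B1 : Subgroup B) (A' : Subgroup B) (A1' : Subgroup B1) : Prop :=
  ∀ (E : Type) [Group E] [Fintype E] (pe : E →* B1) (_ : Function.Surjective pe)
    (hc : pe.ker ≤ Subgroup.center E), ¬ p ∣ Nat.card pe.ker → ∀ x y : Ind pe,
      Subgroup.closure {x.fst, y.fst} = A' →
      ∀ hw : x * y * x⁻¹ * y⁻¹ ∈ (Ind.fstHom pe).ker,
        PairCls pe A1' ((dpr pe hc ⟨_, hw⟩ : pe.ker) : E)

/-- the homomorphism on the kernel of the projection of the fibre product -/
def chat {G2 : Type} [Group G2] (pe : E →* B1) (hc : pe.ker ≤ Subgroup.center E) (f2 : G2 →* B)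
    (χ2 : f2.ker →* ℂˣ) :
    ((Ind.fstHom pe).comp (f21 (Ind.fstHom pe) f2)).ker →* (Subgroup.center E) × ℂˣ :=
  MonoidHom.prod
    ((dhom pe (Subgroup.inclusion hc)).comp
      ({ toFun := fun x => ⟨f21 (Ind.fstHom pe) f2 (x : F2 (Ind.fstHom pe) f2), x.2⟩
         map_one' := rfl
         map_mul' := fun _ _ => rfl } :
        ((Ind.fstHom pe).comp (f21 (Ind.fstHom pe) f2)).ker →* (Ind.fstHom pe).ker))
    (χ2.comp
      ({ toFun := fun x => ⟨f22 (Ind.fstHom pe) f2 (x : F2 (Ind.fstHom pe) f2), by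
          rw [MonoidHom.mem_ker, ← f2_spec]
          exact x.2⟩
         map_one' := rfl
         map_mul' := fun _ _ => rfl } :
        ((Ind.fstHom pe).comp (f21 (Ind.fstHom pe) f2)).ker →* f2.ker))

lemma chat_fst {G2 : Type} [Group G2] (pe : E →* B1) (hc : pe.ker ≤ Subgroup.center E)
    (f2 : G2 →* B) (χ2 : f2.ker →* ℂˣ)
    (x : ((Ind.fstHom pe).comp (f21 (Ind.fstHom pe) f2)).ker) :
    (((chat pe hc f2 χ2 x).1 : Subgroup.center E) : E) =
      ((dpr pe hc ⟨f21 (Ind.fstHom pe) f2 (x : F2 (Ind.fstHom pe) f2), x.2⟩ : pe.ker) : E) := by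
  change ((dprod pe (Subgroup.inclusion hc) _ : Subgroup.center E) : E) = _
  rw [dprod_dpr pe hc]
  rfl

lemma chat_snd {G2 : Type} [Group G2] (pe : E →* B1) (hc : pe.ker ≤ Subgroup.center E)
    (f2 : G2 →* B) (χ2 : f2.ker →* ℂˣ)
    (x : ((Ind.fstHom pe).comp (f21 (Ind.fstHom pe) f2)).ker)
    (hx : f22 (Ind.fstHom pe) f2 (x : F2 (Ind.fstHom pe) f2) ∈ f2.ker) :
    (chat pe hc f2 χ2 x).2 = χ2 ⟨_, hx⟩ := rfl

lemma chat_inv {G2 : Type} [Group G2] (pe : E →* B1) (hc : pe.ker ≤ Subgroup.center E)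
    (f2 : G2 →* B) (χ2 : f2.ker →* ℂˣ) (h2 : InvHom f2 χ2) :
    InvHom ((Ind.fstHom pe).comp (f21 (Ind.fstHom pe) f2)) (chat pe hc f2 χ2) := by
  intro g x
  refine Prod.ext ?_ ?_
  · have h1 := dprod_conj pe hc (Subgroup.inclusion hc) (f21 (Ind.fstHom pe) f2 g)
      ⟨f21 (Ind.fstHom pe) f2 (x : F2 (Ind.fstHom pe) f2), x.2⟩
    exact (congrArg (dprod pe (Subgroup.inclusion hc)) (Subtype.ext rfl)).trans h1
  · have h1 := h2 (f22 (Ind.fstHom pe) f2 g) ⟨f22 (Ind.fstHom pe) f2
      (x : F2 (Ind.fstHom pe) f2), by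
        rw [MonoidHom.mem_ker, ← f2_spec]
        exact x.2⟩
    exact (congrArg χ2 (Subtype.ext rfl)).trans h1

lemma chat_range {G2 : Type} [Group G2] [Finite G2] (pe : E →* B1)
    (hc : pe.ker ≤ Subgroup.center E) (hpr : ¬ p ∣ Nat.card pe.ker)
    (f2 : G2 →* B) (χ2 : f2.ker →* ℂˣ) (h2 : ¬ p ∣ Nat.card χ2.range) :
    ¬ p ∣ Nat.card (chat pe hc f2 χ2).range := by
  let j : (chat pe hc f2 χ2).range →* pe.ker × χ2.range :=
    { toFun := fun t => (⟨(((t : (Subgroup.center E) × ℂˣ).1 : Subgroup.center E) : E), by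
          obtain ⟨x, hx⟩ := t.2
          rw [← hx, chat_fst]
          exact SetLike.coe_mem _⟩, ⟨(t : (Subgroup.center E) × ℂˣ).2, by
          obtain ⟨x, hx⟩ := t.2
          rw [← hx]
          exact ⟨_, rfl⟩⟩)
      map_one' := rfl
      map_mul' := fun _ _ => rfl }
  have hj : Function.Injective j := by
    intro s t hst
    have h3 := congrArg Prod.fst hst
    have h4 := congrArg Prod.snd hst
    exact Subtype.ext (Prod.ext (Subtype.ext (congrArg (fun x : pe.ker => (x : E)) h3))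
      (congrArg (fun x : χ2.range => (x : ℂˣ)) h4))
  have : Finite χ2.range := Finite.of_surjective _ χ2.rangeRestrict_surjective
  intro h
  have h5 := h.trans (Subgroup.card_dvd_of_injective j hj)
  rw [Nat.card_prod] at h5
  rcases (Nat.Prime.dvd_mul hp.out).1 h5 with h6 | h6
  · exact hpr h6
  · exact h2 h6

/-- summation over the classes -/
theorem final_sum {Eh : Type} [Group Eh] [Fintype Eh] (ph : Eh →* B)
    (hph : Function.Surjective ph) (hc : ph.ker ≤ Subgroup.center Eh) {g n : ℕ}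
    (V b : (Fin g → B × B) → ℂ) (hV : ∀ r, IsIntegral ℤ (V r))
    (hb : ∀ r, surfaceWord r = 1 → Subgroup.closure (coords r) = ⊤ → IsIntegral ℤ (b r))
    (hbb : ∀ c : ph.ker, ∀ r r' : Fin g → B × B,
      ((surfaceWord r = 1 ∧ Subgroup.closure (coords r) = ⊤) ∧
        ∀ e : Fin g → Eh × Eh, mapT ph e = r → surfaceWord e = c) →
      ((surfaceWord r' = 1 ∧ Subgroup.closure (coords r') = ⊤) ∧
        ∀ e : Fin g → Eh × Eh, mapT ph e = r' → surfaceWord e = c) →
      b r = b r' ∧ PD p (n + 1) (V r - V r'))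
    (hcl : ∀ c : ph.ker, (∀ r : Fin g → B × B,
      ((surfaceWord r = 1 ∧ Subgroup.closure (coords r) = ⊤) ∧
        ∀ e : Fin g → Eh × Eh, mapT ph e = r → surfaceWord e = c) → PD p (n + 1) (V r)) ∨
      (p : ℤ) ^ (n + 1) ∣ (nc ph g c : ℤ)) :
    PD p (n + 1) (∑ r : Fin g → B × B,
      if surfaceWord r = 1 ∧ Subgroup.closure (coords r) = ⊤ then b r * V r else 0) := by
  have h1 : ∀ r : Fin g → B × B, (if surfaceWord r = 1 ∧ Subgroup.closure (coords r) = ⊤ then
      b r * V r else 0) = ∑ c : ph.ker, if (surfaceWord r = 1 ∧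
        Subgroup.closure (coords r) = ⊤) ∧ (∀ e : Fin g → Eh × Eh, mapT ph e = r →
          surfaceWord e = c) then b r * V r else 0 := by
    intro r
    split_ifs with hr
    · obtain ⟨e, he⟩ := exists_liftT ph hph r
      have hw : surfaceWord e ∈ ph.ker := by rw [MonoidHom.mem_ker, ← word_mapT, he, hr.1]
      rw [Finset.sum_eq_single (⟨surfaceWord e, hw⟩ : ph.ker)]
      · rw [if_pos]
        refine ⟨hr, fun e' he' => word_lifts ph hc _ _ (by rw [he, he'])⟩
      · intro c _ hne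
        rw [if_neg]
        rintro ⟨_, h2⟩
        exact hne (Subtype.ext (h2 e he).symm)
      · intro h
        exact absurd (Finset.mem_univ _) h
    · symm
      refine Finset.sum_eq_zero fun c _ => ?_
      rw [if_neg (fun h => hr h.1)]
  rw [Finset.sum_congr rfl fun r _ => h1 r, Finset.sum_comm]
  refine PD.sum _ _ fun c _ => ?_
  rcases hcl c with h2 | h2
  · refine PD.sum _ _ fun r _ => ?_
    split_ifs with hr
    · exact PD.mul_left (hb r hr.1.1 hr.1.2) (h2 r hr)
    · exact PD.zero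
  · by_cases hex : ∃ r0 : Fin g → B × B, (surfaceWord r0 = 1 ∧
        Subgroup.closure (coords r0) = ⊤) ∧ ∀ e : Fin g → Eh × Eh, mapT ph e = r0 →
          surfaceWord e = c
    · obtain ⟨r0, hr0⟩ := hex
      have h3 : (∑ r : Fin g → B × B, if (surfaceWord r = 1 ∧
          Subgroup.closure (coords r) = ⊤) ∧ (∀ e : Fin g → Eh × Eh, mapT ph e = r →
          surfaceWord e = c) then b r * V r else 0) =
          (∑ r : Fin g → B × B, if (surfaceWord r = 1 ∧
          Subgroup.closure (coords r) = ⊤) ∧ (∀ e : Fin g → Eh × Eh, mapT ph e = r →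
          surfaceWord e = c) then b r0 * (V r - V r0) else 0) +
          b r0 * V r0 * (nc ph g c : ℂ) := by
        have h4 : b r0 * V r0 * (nc ph g c : ℂ) = ∑ r : Fin g → B × B, if (surfaceWord r = 1 ∧
          Subgroup.closure (coords r) = ⊤) ∧ (∀ e : Fin g → Eh × Eh, mapT ph e = r →
          surfaceWord e = c) then b r0 * V r0 else 0 := by
          rw [← Finset.sum_filter, Finset.sum_const, nsmul_eq_mul, mul_comm]
          congr 2
          unfold nc
          rw [Nat.card_eq_fintype_card, Fintype.card_subtype]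
        rw [h4, ← Finset.sum_add_distrib]
        refine Finset.sum_congr rfl fun r _ => ?_
        split_ifs with hr
        · rw [(hbb c r r0 hr hr0).1]
          ring
        · rw [add_zero]
      rw [h3]
      have h5 : PD p (n + 1) (nc ph g c : ℂ) := by
        have := PD.of_dvd h2
        simpa using this
      refine PD.add (PD.sum _ _ fun r _ => ?_) (PD.mul_left ((hb r0 hr0.1.1 hr0.1.2).mul
        (hV r0)) h5)
      split_ifs with hr
      · exact PD.mul_left (hb r0 hr0.1.1 hr0.1.2) (hbb c r r0 hr hr0).2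
      · exact PD.zero
    · rw [Finset.sum_eq_zero]
      · exact PD.zero
      · intro r _
        rw [if_neg (fun h => hex ⟨r, h⟩)]

end

end Pool.Agent.Helper15.QS
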