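import Pool.Agent.Helper15.QS.Eng

/-!
# The sum over all generating tuples, II
-/

open scoped Classical BigOperators IsMulCommutative
open Representation Pool.Agent.Helper884.IC Pool.Agent.Y63.AWC Pool.Agent.Helper15.AW

set_option linter.unusedSectionVars false
set_option linter.unusedVariables false
set_option linter.unusedSimpArgs false

attribute [-instance] MonoidHom.decidableMemKer

noncomputable section

namespace Pool.Agent.Helper15.QS

open Pool.Agent.Y63.KR (surfaceWord coords dg cod dg_spec cod_spec cod_pos DZ_iff)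

section

variable {B : Type} [Group B] [Fintype B] {B1 : Subgroup B} {Γ : Type} [Group Γ] [Fintype Γ]
  {A : Type} [Group A] {p : ℕ} [hp : Fact p.Prime]

/-- **The engine.** -/
theorem engine (π : Γ →* B1) (hπ : Function.Surjective π) (a : Γ →* A)
    (ha : Function.Surjective a) (hac : a.ker ≤ Subgroup.center Γ) (haπ : a.ker ≤ π.ker)
    (hap : ¬ p ∣ Nat.card a.ker) (κ : a.ker →* ℂˣ)
    (P : Subgroup B) [hPn : P.Normal] (hP : IsPGroup p P) (hPi : ¬ p ∣ P.index)
    (hcov : (∀ x ∈ P, ∀ y ∈ P, x * y = y * x) → (∀ x ∈ P, x ^ p = 1) →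
      Small p A ∧ ∃ (A' : Subgroup B) (A1' : Subgroup B1), P.IsComplement' A' ∧
        (P.subgroupOf B1).IsComplement' A1' ∧ Cover p B1 A' A1')
    {G2 : Type} [Group G2] [Fintype G2] (f2 : G2 →* B) (hf2 : Function.Surjective f2)
    (χ2 : f2.ker →* ℂˣ) (hχ2 : InvHom f2 χ2) (hχp : ¬ p ∣ Nat.card χ2.range) (n : ℕ) :
    ∃ N0 : ℕ, ∀ n' : ℕ, 0 < n' → p ^ N0 * (p - 1) ∣ n' →
      ∀ b : (Fin (n' + 1) → B × B) → ℂ, (∀ r, surfaceWord r = 1 →
        ∀ q : Fin (n' + 1) → G2 × G2, mapT f2 q = r → ∀ hw : surfaceWord q ∈ f2.ker,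
          b r = ((χ2 ⟨_, hw⟩ : ℂˣ) : ℂ)) →
      PD p (n + 1) (∑ r : Fin (n' + 1) → B × B,
        if surfaceWord r = 1 ∧ Subgroup.closure (coords r) = ⊤ then
          b r * VE π a.ker κ ⊤ r else 0) := by
  obtain ⟨E, _, _, pe, hU⟩ := exists_univ (p := p) π
  obtain ⟨bb, hbb⟩ : ∃ bb, Small p A → ∀ n g : ℕ, 2 ≤ g → p ^ (n + bb) * (p - 1) ∣ g - 1 →
      ∀ c : pe.ker, PD p (n + 1) (US π a.ker κ pe g c) := by
    by_cases hS : Small p A
    · obtain ⟨bb, hbb⟩ := US_small π hπ a ha hac haπ hap κ pe hU.surj hU.central hU.prime hS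
      exact ⟨bb, fun _ => hbb⟩
    · exact ⟨0, fun h => absurd h hS⟩
  -- the central extension of `B`
  set fh : F2 (Ind.fstHom pe) f2 →* B := (Ind.fstHom pe).comp (f21 (Ind.fstHom pe) f2) with hfh
  set χh := chat pe hU.central f2 χ2 with hχh
  have hinv : InvHom fh χh := chat_inv pe hU.central f2 χ2 hχ2
  have hn := kd_normal hinv
  have hfhs : Function.Surjective fh := (Ind.fstHom_surj hU.surj).comp (f21_surj hf2)
  have : Fintype (F2 (Ind.fstHom pe) f2 ⧸ kd fh χh) := Fintype.ofFinite _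
  set ph : F2 (Ind.fstHom pe) f2 ⧸ kd fh χh →* B := pq fh χh with hph
  have hphs : Function.Surjective ph := pq_surj hfhs
  have hphc : ph.ker ≤ Subgroup.center _ := pq_central hinv
  have hphp : ¬ p ∣ Nat.card ph.ker := by
    rw [hph, pq_card]
    exact chat_range pe hU.central hU.prime f2 χ2 hχp
  set ρ : F2 (Ind.fstHom pe) f2 →* F2 (Ind.fstHom pe) f2 ⧸ kd fh χh := QuotientGroup.mk' _ with hρ
  -- the class of a tuple
  have hclass : ∀ (g : ℕ) (r : Fin g → B × B) (c : ph.ker), surfaceWord r = 1 →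
      (∀ e : Fin g → (F2 (Ind.fstHom pe) f2 ⧸ kd fh χh) × (F2 (Ind.fstHom pe) f2 ⧸ kd fh χh),
        mapT ph e = r → surfaceWord e = c) →
      ∀ (z : fh.ker), ρ z = c → ∀ (e : Fin g → Ind pe × Ind pe), mapT (Ind.fstHom pe) e = r →
      ∀ hw : surfaceWord e ∈ (Ind.fstHom pe).ker,
        dpr pe hU.central ⟨_, hw⟩ = dpr pe hU.central
          ⟨f21 (Ind.fstHom pe) f2 (z : F2 (Ind.fstHom pe) f2), z.2⟩ ∧
        ∀ (q : Fin g → G2 × G2) (hq : mapT f2 q = r) (hw : surfaceWord q ∈ f2.ker)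
          (hz : f22 (Ind.fstHom pe) f2 (z : F2 (Ind.fstHom pe) f2) ∈ f2.ker),
          χ2 ⟨_, hw⟩ = χ2 ⟨_, hz⟩ := by
    intro g r c hr hc z hz e he hw
    have key : ∀ (q : Fin g → G2 × G2) (hq : mapT f2 q = r) (hw' : surfaceWord q ∈ f2.ker),
        dpr pe hU.central ⟨_, hw⟩ = dpr pe hU.central
          ⟨f21 (Ind.fstHom pe) f2 (z : F2 (Ind.fstHom pe) f2), z.2⟩ ∧
        ∀ (hz : f22 (Ind.fstHom pe) f2 (z : F2 (Ind.fstHom pe) f2) ∈ f2.ker),
          χ2 ⟨_, hw'⟩ = χ2 ⟨_, hz⟩ := by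
      intro q hq hw'
      let u : Fin g → F2 (Ind.fstHom pe) f2 × F2 (Ind.fstHom pe) f2 := fun i =>
        (⟨((e i).1, (q i).1), congrArg Prod.fst (congrFun (he.trans hq.symm) i)⟩,
          ⟨((e i).2, (q i).2), congrArg Prod.snd (congrFun (he.trans hq.symm) i)⟩)
      have hu1 : mapT (f21 (Ind.fstHom pe) f2) u = e := rfl
      have hu2 : mapT (f22 (Ind.fstHom pe) f2) u = q := rfl
      have hufh : mapT fh u = r := he
      have huw : surfaceWord u ∈ fh.ker := by
        rw [MonoidHom.mem_ker, ← word_mapT, hufh, hr]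
      have h1 : ρ (surfaceWord u) = c := by
        rw [← word_mapT]
        exact hc _ hufh
      have h2 : χh ⟨_, huw⟩ = χh z := (mk_eq_iff (f := fh) (χ := χh) _ _).1 (h1.trans hz.symm)
      constructor
      · have h3 := congrArg (fun t : (Subgroup.center E) × ℂˣ => ((t.1 : Subgroup.center E) : E)) h2
        simp only [hχh] at h3
        rw [chat_fst, chat_fst] at h3
        have h4 := Subtype.ext h3
        rw [← h4]
        congr 1
        apply Subtype.ext
        change surfaceWord e = f21 (Ind.fstHom pe) f2 (surfaceWord u)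
        rw [← word_mapT, hu1]
      · intro hz'
        have h3 := congrArg Prod.snd h2
        rw [hχh, chat_snd pe hU.central f2 χ2 z hz'] at h3
        rw [← h3]
        have hx : f22 (Ind.fstHom pe) f2 (surfaceWord u) ∈ f2.ker := by
          rw [← word_mapT, hu2]
          exact hw'
        rw [chat_snd pe hU.central f2 χ2 ⟨_, huw⟩ hx]
        congr 1
        apply Subtype.ext
        change surfaceWord q = f22 (Ind.fstHom pe) f2 (surfaceWord u)
        rw [← word_mapT, hu2]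
    obtain ⟨q0, hq0⟩ := exists_liftT f2 hf2 r
    have hw0 : surfaceWord q0 ∈ f2.ker := by rw [MonoidHom.mem_ker, ← word_mapT, hq0, hr]
    exact ⟨(key q0 hq0 hw0).1, fun q hq hw' hz' => (key q hq hw').2 hz'⟩
  -- the valuations
  have hval : ∃ v : ℕ, (∀ c : ph.ker, ∀ n' : ℕ, 0 < n' →
      p ^ (n + v + bb) * (p - 1) ∣ n' → (∀ r : Fin (n' + 1) → B × B,
      ((surfaceWord r = 1 ∧ Subgroup.closure (coords r) = ⊤) ∧
        ∀ e : Fin (n' + 1) → (F2 (Ind.fstHom pe) f2 ⧸ kd fh χh) ×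
          (F2 (Ind.fstHom pe) f2 ⧸ kd fh χh), mapT ph e = r → surfaceWord e = c) →
        PD p (n + 1) (VE π a.ker κ ⊤ r)) ∨ (p : ℤ) ^ (n + 1) ∣ (nc ph (n' + 1) c : ℤ)) := by
    have hAcard : ∀ (H : Type) [Group H] [Fintype H] (R : Subgroup H) [R.Normal],
        Nat.card (H ⧸ R) = R.index := fun H _ _ R _ => rfl
    by_cases hel : (∀ x ∈ P, ∀ y ∈ P, x * y = y * x) ∧ ∀ x ∈ P, x ^ p = 1
    · obtain ⟨hS, A', A1', hA', hA1', hcover⟩ := hcov hel.1 hel.2
      have hk0 : (QuotientGroup.mk' P).ker = P := QuotientGroup.ker_mk' P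
      have hk1 : (QuotientGroup.mk' (P.subgroupOf B1)).ker = P.subgroupOf B1 :=
        QuotientGroup.ker_mk' _
      obtain ⟨κ0, hκ0, hκ0'⟩ := exists_kap (p := p) (B ⧸ P) (Nat.card B) B
        (QuotientGroup.mk' P) le_rfl (QuotientGroup.mk'_surjective P) (by rw [hk0]; exact hP)
      have hPB1 : IsPGroup p (P.subgroupOf B1) := by
        rw [Subgroup.subgroupOf]
        exact hP.comap_of_injective _ (Subgroup.subtype_injective _)
      obtain ⟨κ1, hκ1, hκ1'⟩ := exists_kap (p := p) (B1 ⧸ P.subgroupOf B1) (Nat.card B1) B1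
        (QuotientGroup.mk' (P.subgroupOf B1)) le_rfl (QuotientGroup.mk'_surjective _)
        (by rw [hk1]; exact hPB1)
      have hi1 : ¬ p ∣ (P.subgroupOf B1).index := fun h =>
        hPi (h.trans (Subgroup.relIndex_dvd_index_of_normal P B1))
      have hκ1n : κ1 ≠ 0 := hκ1' hi1 (by
        rw [hk1]
        intro x hx y hy
        exact Subtype.ext (hel.1 _ hx _ hy)) (by
        rw [hk1]
        intro x hx
        exact Subtype.ext (hel.2 _ hx))
      -- the valuations for the classes of `B₁`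
      have hc1 : ∀ c1 : pe.ker, ∃ v : ℕ, PairCls pe A1' c1 → ∀ M n' : ℕ, 0 < n' →
          p ^ (M + v) * (p - 1) ∣ n' → ∀ x : ℂ, IsIntegral ℤ x →
            PD p (M + v + 1) ((nc pe (n' + 1) c1 : ℂ) * x) → PD p (M + 1) x := by
        intro c1
        obtain ⟨ν, hν, hν2⟩ := nc_mod (p := p) pe hU.surj hU.central hU.prime
          (QuotientGroup.mk' (P.subgroupOf B1)) (QuotientGroup.mk'_surjective _)
          (by rw [hk1]; exact hPB1) hi1 A1' (by rw [hk1]; exact hA1') c1
        by_cases hpc : PairCls pe A1' c1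
        · have hm : κ1 * (ν : ℤ) ≠ 0 := mul_ne_zero hκ1n (Nat.cast_ne_zero.2 (hν.2 hpc))
          obtain ⟨v, hv⟩ := PD.of_mul_int (p := p) hm
          refine ⟨v, fun _ M n' h0 hd' x hx hPD => hv (M + 1) x hx ?_⟩
          have h1 := hν2 κ1 n' (M + v) hd' (fun a h2 h3 => hκ1 n' (M + v) h0 hd' a h2 h3)
          have h2 := PD.of_dvd h1
          push_cast at h2
          have h3 : ((κ1 * (ν : ℤ) : ℤ) : ℂ) * x = (nc pe (n' + 1) c1 : ℂ) * x -
              ((nc pe (n' + 1) c1 : ℂ) - (κ1 : ℂ) * (ν : ℂ)) * x := by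
            push_cast
            ring
          rw [h3]
          have e1 : M + 1 + v = M + v + 1 := by ring
          rw [e1]
          exact hPD.sub (PD.mul_right hx h2)
        · exact ⟨0, fun h => absurd h hpc⟩
      choose v hv using hc1
      refine ⟨∑ c1 : pe.ker, v c1, fun c n' h0 hd' => ?_⟩
      obtain ⟨ν, hν, hν2⟩ := nc_mod (p := p) ph hphs hphc hphp (QuotientGroup.mk' P)
        (QuotientGroup.mk'_surjective P) (by rw [hk0]; exact hP) hPi A' (by rw [hk0]; exact hA') c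
      by_cases hpc : PairCls ph A' c
      · left
        intro r hr
        obtain ⟨x, y, hxy, hxyc⟩ := hpc
        obtain ⟨x, rfl⟩ := QuotientGroup.mk'_surjective (kd fh χh) x
        obtain ⟨y, rfl⟩ := QuotientGroup.mk'_surjective (kd fh χh) y
        have hρz : ρ (x * y * x⁻¹ * y⁻¹) = c := by
          rw [← hxyc]
          simp only [map_mul, map_inv]
          rfl
        have hz : x * y * x⁻¹ * y⁻¹ ∈ fh.ker := by
          have h1 : ρ (x * y * x⁻¹ * y⁻¹) ∈ ph.ker := by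
            rw [hρz]
            exact c.2
          exact h1
        obtain ⟨e, he⟩ := exists_liftT (Ind.fstHom pe) (Ind.fstHom_surj hU.surj) r
        have hw : surfaceWord e ∈ (Ind.fstHom pe).ker := by
          rw [MonoidHom.mem_ker, ← word_mapT, he, hr.1.1]
        have h1 := (hclass _ r c hr.1.1 hr.2 ⟨_, hz⟩ hρz e he hw).1
        have hw2 : f21 (Ind.fstHom pe) f2 x * f21 (Ind.fstHom pe) f2 y *
            (f21 (Ind.fstHom pe) f2 x)⁻¹ * (f21 (Ind.fstHom pe) f2 y)⁻¹ ∈
              (Ind.fstHom pe).ker := by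
          rw [← map_inv, ← map_inv, ← map_mul, ← map_mul, ← map_mul]
          exact hz
        have h2 := hcover E pe hU.surj hU.central hU.prime (f21 (Ind.fstHom pe) f2 x)
          (f21 (Ind.fstHom pe) f2 y) hxy hw2
        have h3 : dpr pe hU.central ⟨_, hw2⟩ = dpr pe hU.central ⟨_, hw⟩ := by
          rw [h1]
          congr 1
        rw [h3] at h2
        set c1 := dpr pe hU.central ⟨_, hw⟩ with hc1def
        have hle : v c1 ≤ ∑ c1 : pe.ker, v c1 :=
          Finset.single_le_sum (f := v) (fun _ _ => Nat.zero_le _) (Finset.mem_univ c1)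
        set V := ∑ c1 : pe.ker, v c1 with hV
        have hdV : p ^ (n + V) * (p - 1) ∣ n' :=
          (Nat.mul_dvd_mul (Nat.pow_dvd_pow p (by omega)) dvd_rfl).trans hd'
        have hdv : p ^ (n + v c1) * (p - 1) ∣ n' :=
          (Nat.mul_dvd_mul (Nat.pow_dvd_pow p (by omega)) dvd_rfl).trans hd'
        have h4 := VE_cls (p := p) hπ a.ker hac haπ κ hU h0 hdV r hr.1.1 hr.1.2 e he hw
        have h5 := hbb hS (n + V) (n' + 1) (by omega) (by rw [Nat.add_sub_cancel]; exact hd') c1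
        have h6 : PD p (n + V + 1) ((nc pe (n' + 1) (c1 : E) : ℂ) * VE π a.ker κ ⊤ r) := by
          have h7 := h4.add (PD.mul_left (c := ((Nat.card π.ker : ℂ) *
            (Nat.card a.ker : ℂ)) ^ (B1.index - 1))
            (((int_nat _).mul (int_nat _)).pow _) h5)
          rwa [sub_add_cancel] at h7
        exact hv c1 h2 n n' h0 hdv _ (VE_integral _ _ _ _ _) (PD.mono (by omega) h6)
      · right
        have hν0 : ν = 0 := by
          by_contra h
          exact hpc (hν.1 h)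
        have hdn : p ^ n * (p - 1) ∣ n' :=
          (Nat.mul_dvd_mul (Nat.pow_dvd_pow p (by omega)) dvd_rfl).trans hd'
        have h1 := hν2 κ0 n' n hdn (fun a h2 h3 => hκ0 n' n h0 hdn a h2 h3)
        rw [hν0, Nat.cast_zero, mul_zero, sub_zero] at h1
        exact h1
    · have hk0 : (QuotientGroup.mk' P).ker = P := QuotientGroup.ker_mk' P
      have hcop : Nat.Coprime (Nat.card P) P.index := by
        obtain ⟨k, hk⟩ := (IsPGroup.iff_card).1 hP
        rw [hk]
        exact Nat.Coprime.pow_left _ ((Nat.Prime.coprime_iff_not_dvd hp.out).2 hPi)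
      obtain ⟨A', hA'⟩ := Subgroup.exists_right_complement'_of_coprime hcop
      refine ⟨0, fun c n' h0 hd' => Or.inr ?_⟩
      obtain ⟨ν, hν, hν2⟩ := nc_mod (p := p) ph hphs hphc hphp (QuotientGroup.mk' P)
        (QuotientGroup.mk'_surjective P) (by rw [hk0]; exact hP) hPi A' (by rw [hk0]; exact hA') c
      have hdn : p ^ n * (p - 1) ∣ n' :=
        (Nat.mul_dvd_mul (Nat.pow_dvd_pow p (by omega)) dvd_rfl).trans hd'
      have h1 := hν2 0 n' n hdn (fun a h2 h3 => by
        rw [sub_zero]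
        refine gl_bad (QuotientGroup.mk' P) (QuotientGroup.mk'_surjective P)
          (by rw [hk0]; exact hP) (by rw [hk0]; exact hel) h0 hdn a)
      rw [zero_mul, sub_zero] at h1
      exact h1
  obtain ⟨v, hv⟩ := hval
  refine ⟨n + v + bb, fun n' h0 hd' b hb => ?_⟩
  have hdn : p ^ n * (p - 1) ∣ n' :=
    (Nat.mul_dvd_mul (Nat.pow_dvd_pow p (by omega)) dvd_rfl).trans hd'
  refine final_sum ph hphs hphc (fun r => VE π a.ker κ ⊤ r) b
    (fun r => VE_integral _ _ _ _ _) ?_ ?_ (fun c => hv c n' h0 hd')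
  · intro r hr1 _
    obtain ⟨q, hq⟩ := exists_liftT f2 hf2 r
    have hw : surfaceWord q ∈ f2.ker := by rw [MonoidHom.mem_ker, ← word_mapT, hq, hr1]
    rw [hb r hr1 q hq hw]
    exact unit_integral χ2 _
  · intro c r r' hr hr'
    obtain ⟨z, hz⟩ := pq_ker c.2
    obtain ⟨e, he⟩ := exists_liftT (Ind.fstHom pe) (Ind.fstHom_surj hU.surj) r
    obtain ⟨e', he'⟩ := exists_liftT (Ind.fstHom pe) (Ind.fstHom_surj hU.surj) r'
    have hw : surfaceWord e ∈ (Ind.fstHom pe).ker := by
      rw [MonoidHom.mem_ker, ← word_mapT, he, hr.1.1]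
    have hw' : surfaceWord e' ∈ (Ind.fstHom pe).ker := by
      rw [MonoidHom.mem_ker, ← word_mapT, he', hr'.1.1]
    obtain ⟨h1, h2⟩ := hclass _ r c hr.1.1 hr.2 z hz e he hw
    obtain ⟨h3, h4⟩ := hclass _ r' c hr'.1.1 hr'.2 z hz e' he' hw'
    have hzk : f22 (Ind.fstHom pe) f2 (z : F2 (Ind.fstHom pe) f2) ∈ f2.ker := by
      rw [MonoidHom.mem_ker, ← f2_spec]
      exact z.2
    constructor
    · obtain ⟨q, hq⟩ := exists_liftT f2 hf2 r
      have hwq : surfaceWord q ∈ f2.ker := by rw [MonoidHom.mem_ker, ← word_mapT, hq, hr.1.1]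
      obtain ⟨q', hq'⟩ := exists_liftT f2 hf2 r'
      have hwq' : surfaceWord q' ∈ f2.ker := by rw [MonoidHom.mem_ker, ← word_mapT, hq', hr'.1.1]
      rw [hb r hr.1.1 q hq hwq, hb r' hr'.1.1 q' hq' hwq', h2 q hq hwq hzk, h4 q' hq' hwq' hzk]
    · exact compareQ_gen hπ a.ker hac haπ κ h0 hdn r r' hr.1.1 hr.1.2 hr'.1.1 hr'.1.2
        (compatQ_of hU r r' hr.1.1 hr'.1.1 e e' he he' hw hw' (h1.trans h3.symm)) ⊤

end

end Pool.Agent.Helper15.QS
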