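import Pool.Agent.Helper15.QS.Pext

/-!
# A central extension which describes the classes of all characters of defect zero
-/

open scoped Classical BigOperators
open Representation Pool.Agent.Helper884.IC Pool.Agent.Y63.AWC Pool.Agent.Helper15.AW

set_option linter.unusedSectionVars false
set_option linter.unusedVariables false
set_option linter.unusedSimpArgs false

attribute [-instance] MonoidHom.decidableMemKer

noncomputable section

namespace Pool.Agent.Helper15.QS

open Pool.Agent.Y63.KR (surfaceWord coords dg cod dg_spec cod_spec cod_pos DZ_iff)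

section

variable {B1 : Type} [Group B1] {ι : Type} (E : ι → Type) [∀ i, Group (E i)]
  (pe : ∀ i, E i →* B1)

/-- the fibre product -/
def FP : Subgroup (B1 × (∀ i, E i)) where
  carrier := {x | ∀ i, pe i (x.2 i) = x.1}
  one_mem' := fun i => map_one _
  mul_mem' := by
    intro x y hx hy i
    have h1 := hx i
    have h2 := hy i
    change pe i (x.2 i * y.2 i) = x.1 * y.1
    rw [map_mul, h1, h2]
  inv_mem' := by
    intro x hx i
    have h1 := hx i
    change pe i (x.2 i)⁻¹ = x.1⁻¹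
    rw [map_inv, h1]

/-- the projection to the base -/
def fp1 : FP E pe →* B1 := (MonoidHom.fst B1 (∀ i, E i)).comp (FP E pe).subtype

/-- the projection to a factor -/
def fpi (i : ι) : FP E pe →* E i :=
  (Pi.evalMonoidHom E i).comp ((MonoidHom.snd B1 (∀ i, E i)).comp (FP E pe).subtype)

variable {E pe}

lemma fpi_base (i : ι) (x : FP E pe) : pe i (fpi E pe i x) = fp1 E pe x := x.2 i

lemma fp_ext {x y : FP E pe} (h1 : fp1 E pe x = fp1 E pe y) (h2 : ∀ i, fpi E pe i x = fpi E pe i y) :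
    x = y := Subtype.ext (Prod.ext h1 (funext h2))

lemma fp1_surj (hs : ∀ i, Function.Surjective (pe i)) : Function.Surjective (fp1 E pe) := by
  intro b
  choose s hs' using fun i => hs i b
  exact ⟨⟨(b, s), hs'⟩, rfl⟩

lemma fp1_central (hc : ∀ i, (pe i).ker ≤ Subgroup.center (E i)) :
    (fp1 E pe).ker ≤ Subgroup.center (FP E pe) := by
  intro x hx
  rw [Subgroup.mem_center_iff]
  intro y
  refine fp_ext ?_ fun i => ?_
  · rw [map_mul, map_mul, (MonoidHom.mem_ker).1 hx, mul_one, one_mul]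
  · rw [map_mul, map_mul]
    refine Subgroup.mem_center_iff.1 (hc i ?_) _
    rw [MonoidHom.mem_ker, fpi_base, (MonoidHom.mem_ker).1 hx]

/-- the kernel of the projection -/
def fpKer : (fp1 E pe).ker ≃ ∀ i, (pe i).ker where
  toFun x := fun i => ⟨fpi E pe i x, by
    rw [MonoidHom.mem_ker, fpi_base, (MonoidHom.mem_ker).1 x.2]⟩
  invFun k := ⟨⟨(1, fun i => (k i : E i)), fun i => (k i).2⟩, rfl⟩
  left_inv x := Subtype.ext (fp_ext ((MonoidHom.mem_ker).1 x.2).symm fun i => rfl)
  right_inv k := rfl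

lemma fp1_prime [Fintype ι] {p : ℕ} [hp : Fact p.Prime]
    (hpr : ∀ i, ¬ p ∣ Nat.card (pe i).ker) : ¬ p ∣ Nat.card (fp1 E pe).ker := by
  rw [Nat.card_congr fpKer, Nat.card_pi]
  intro h
  obtain ⟨i, _, hi⟩ := (Prime.dvd_finsetProd_iff hp.out.prime _).1 h
  exact hpr i hi

end

section

variable {B : Type} [Group B] [Finite B] {B1 : Subgroup B} {Γ : Type} [Group Γ] [Fintype Γ]

/-- the extension `E` describes the classes of all characters of defect zero -/
structure Univ (p : ℕ) (π : Γ →* B1) {E : Type} [Group E] [Fintype E] (pe : E →* B1) : Prop where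
  surj : Function.Surjective pe
  central : pe.ker ≤ Subgroup.center E
  prime : ¬ p ∣ Nat.card pe.ker
  proj : ∀ L : Subgroup Γ, Function.Surjective (rpi π L) → ∀ theta : (rpi π L).ker → ℂ,
    IsIrrChar theta → Invariant theta → ¬ p ∣ cod theta →
      ∃ (E' : Type) (_ : Group E') (_ : Fintype E') (pe' : E' →* B1) (kap : pe'.ker →* ℂˣ)
        (φ : E →* E'), Describes p (rpi π L) theta pe' kap ∧ ∀ x, pe' (φ x) = pe x

theorem exists_univ {p : ℕ} [hp : Fact p.Prime] (π : Γ →* B1) :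
    ∃ (E : Type) (_ : Group E) (_ : Fintype E) (pe : E →* B1), Univ p π pe := by
  let J : Type := {x : (L : Subgroup Γ) × ((rpi π L).ker → ℂ) // Function.Surjective (rpi π x.1) ∧
    IsIrrChar x.2 ∧ Invariant x.2 ∧ ¬ p ∣ cod x.2}
  have hJ : Finite J := by
    let j : J → (L : Subgroup Γ) × (Irr (rpi π L).ker) := fun x => ⟨x.1.1, ⟨x.1.2, mem_Irr.2 x.2.2.1⟩⟩
    refine Finite.of_injective j ?_
    rintro ⟨⟨L, θ⟩, h⟩ ⟨⟨L', θ'⟩, h'⟩ hxy
    have h1 := Sigma.mk.inj_iff.1 hxy
    obtain ⟨h2, h3⟩ := h1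
    change L = L' at h2
    subst h2
    have h4 := eq_of_heq h3
    have h5 : θ = θ' := congrArg Subtype.val h4
    subst h5
    rfl
  have : Fintype J := Fintype.ofFinite J
  have key := fun j : J => exists_class (p := p) (π := rpi π j.1.1) j.2.1 j.2.2.1 j.2.2.2.1
    j.2.2.2.2
  choose E gE fE pe kap hD using key
  have hfin : Finite (B1 × (∀ j, E j)) := by
    have : ∀ j, Finite (E j) := fun j => Finite.of_fintype _
    infer_instance
  have : Fintype (FP E pe) := Fintype.ofFinite _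
  refine ⟨FP E pe, inferInstance, inferInstance, fp1 E pe, ⟨fp1_surj fun j => (hD j).surj,
    fp1_central fun j => (hD j).central, fp1_prime fun j => (hD j).prime, ?_⟩⟩
  intro L hL theta h1 h2 h3
  let j : J := ⟨⟨L, theta⟩, hL, h1, h2, h3⟩
  exact ⟨E j, gE j, fE j, pe j, kap j, fpi E pe j, hD j, fun x => fpi_base j x⟩

end

section

variable {B : Type} [Group B] [Finite B] {B1 : Subgroup B}

/-- the product of the coordinates -/
def dpr {F : Type} [Group F] (pe : F →* B1) (hc : pe.ker ≤ Subgroup.center F)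
    (x : (Ind.fstHom pe).ker) : pe.ker :=
  @dprod _ _ _ _ _ _ _ (cg pe.ker hc) pe (MonoidHom.id pe.ker) x

lemma dprod_dpr {F T : Type} [Group F] [CommGroup T] (pe : F →* B1)
    (hc : pe.ker ≤ Subgroup.center F) (h : pe.ker →* T) (x : (Ind.fstHom pe).ker) :
    dprod pe h x = h (dpr pe hc x) := by
  have : Fintype (B ⧸ B1) := Fintype.ofFinite _
  unfold dpr
  rw [dprod_eq, @dprod_eq _ _ _ _ _ _ _ (cg pe.ker hc)]
  let _ := cg pe.ker hc
  rw [map_prod]
  rfl

end

section

variable {B : Type} [Group B] [Finite B] {B1 : Subgroup B} {Γ : Type} [Group Γ] [Fintype Γ]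
  {E : Type} [Group E] [Fintype E]

/-- the map on the kernels -/
def kmap {E' : Type} [Group E'] {pe : E →* B1} {pe' : E' →* B1} (φ : E →* E')
    (hφ : ∀ x, pe' (φ x) = pe x) : pe.ker →* pe'.ker where
  toFun c := ⟨φ c, by rw [MonoidHom.mem_ker, hφ]; exact c.2⟩
  map_one' := Subtype.ext (map_one φ)
  map_mul' a b := Subtype.ext (map_mul φ _ _)

lemma dprod_map {E' T : Type} [Group E'] [CommGroup T] (pe : E →* B1) (pe' : E' →* B1)
    (φ : E →* E') (hφ : ∀ x, pe' (φ x) = pe x) (kap : pe'.ker →* T)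
    (x : (Ind.fstHom pe).ker) (hx : (Ind.map φ hφ) (x : Ind pe) ∈ (Ind.fstHom pe').ker) :
    dprod pe' kap ⟨_, hx⟩ = dprod pe (kap.comp (kmap φ hφ)) x := by
  have : Fintype (B ⧸ B1) := Fintype.ofFinite _
  rw [dprod_eq, dprod_eq]
  rfl

/-- the compatibility of a tuple of `B` and a tuple of `B₁` with the same class -/
theorem compat_of {p : ℕ} {π : Γ →* B1} {pe : E →* B1} (hU : Univ p π pe) {g : ℕ}
    (r : Fin g → B × B) (s : Fin g → B1 × B1) (hr : surfaceWord r = 1) (hs : surfaceWord s = 1)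
    (e : Fin g → Ind pe × Ind pe) (he : mapT (Ind.fstHom pe) e = r) (e' : Fin g → E × E)
    (he' : mapT pe e' = s) (hw : surfaceWord e ∈ (Ind.fstHom pe).ker)
    (h : ((dpr pe hU.central ⟨_, hw⟩ : pe.ker) : E) = surfaceWord e') : Compat p π r s := by
  intro L hL theta h1 h2 h3 q q' hq hq'
  obtain ⟨E', _, _, pe', kap, φ, hD, hφ⟩ := hU.proj L hL theta h1 h2 h3
  have hwq : surfaceWord q ∈ (Ind.fstHom (rpi π L)).ker := by
    rw [MonoidHom.mem_ker, ← word_mapT, hq, hr]
  have hwq' : surfaceWord q' ∈ (rpi π L).ker := by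
    rw [MonoidHom.mem_ker, ← word_mapT, hq', hs]
  have hx : (Ind.map φ hφ) (surfaceWord e) ∈ (Ind.fstHom pe').ker := hw
  have hx2 : surfaceWord (mapT (Ind.map φ hφ) e) ∈ (Ind.fstHom pe').ker := by
    rw [word_mapT]
    exact hx
  have hwe' : surfaceWord e' ∈ pe.ker := by
    rw [MonoidHom.mem_ker, ← word_mapT, he', hs]
  have hy : surfaceWord (mapT φ e') ∈ pe'.ker := by
    rw [word_mapT, MonoidHom.mem_ker, hφ]
    exact hwe'
  have h4 := hD.ind g q hwq (mapT (Ind.map φ hφ) e) hx2 (by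
    rw [hq, ← he]
    rfl)
  have h5 := hD.res g q' hwq' (mapT φ e') hy (by
    rw [hq', ← he']
    funext i
    exact Prod.ext (hφ _) (hφ _))
  rw [h4, h5]
  have h6 : dprod pe' kap ⟨_, hx2⟩ = dprod pe' kap ⟨_, hx⟩ := by
    congr 1
    exact Subtype.ext (word_mapT _ _)
  rw [h6, dprod_map pe pe' φ hφ kap ⟨_, hw⟩ hx, dprod_dpr pe hU.central]
  have h7 : kmap φ hφ (dpr pe hU.central ⟨_, hw⟩) = ⟨_, hy⟩ := by
    apply Subtype.ext
    change φ ((dpr pe hU.central ⟨_, hw⟩ : pe.ker) : E) = surfaceWord (mapT φ e')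
    rw [word_mapT, ← h]
  rw [MonoidHom.comp_apply, h7]

theorem compatQ_of {p : ℕ} {π : Γ →* B1} {pe : E →* B1} (hU : Univ p π pe) {g : ℕ}
    (r r' : Fin g → B × B) (hr : surfaceWord r = 1) (hr' : surfaceWord r' = 1)
    (e e' : Fin g → Ind pe × Ind pe) (he : mapT (Ind.fstHom pe) e = r)
    (he' : mapT (Ind.fstHom pe) e' = r') (hw : surfaceWord e ∈ (Ind.fstHom pe).ker)
    (hw' : surfaceWord e' ∈ (Ind.fstHom pe).ker)
    (h : dpr pe hU.central ⟨_, hw⟩ = dpr pe hU.central ⟨_, hw'⟩) : CompatQ p π r r' := by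
  intro L hL theta h1 h2 h3 q q' hq hq'
  obtain ⟨E', _, _, pe', kap, φ, hD, hφ⟩ := hU.proj L hL theta h1 h2 h3
  have key : ∀ (r : Fin g → B × B) (hr : surfaceWord r = 1) (q : Fin g → Ind (rpi π L) ×
      Ind (rpi π L)) (hq : mapT (Ind.fstHom (rpi π L)) q = r) (e : Fin g → Ind pe × Ind pe)
      (he : mapT (Ind.fstHom pe) e = r) (hw : surfaceWord e ∈ (Ind.fstHom pe).ker),
      zf q (powChar theta) = ((kap (kmap φ hφ (dpr pe hU.central ⟨_, hw⟩)) : ℂˣ) : ℂ) := by
    intro r hr q hq e he hw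
    have hwq : surfaceWord q ∈ (Ind.fstHom (rpi π L)).ker := by
      rw [MonoidHom.mem_ker, ← word_mapT, hq, hr]
    have hx : (Ind.map φ hφ) (surfaceWord e) ∈ (Ind.fstHom pe').ker := hw
    have hx2 : surfaceWord (mapT (Ind.map φ hφ) e) ∈ (Ind.fstHom pe').ker := by
      rw [word_mapT]
      exact hx
    have h4 := hD.ind g q hwq (mapT (Ind.map φ hφ) e) hx2 (by
      rw [hq, ← he]
      rfl)
    rw [h4]
    have h6 : dprod pe' kap ⟨_, hx2⟩ = dprod pe' kap ⟨_, hx⟩ := by
      congr 1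
      exact Subtype.ext (word_mapT _ _)
    rw [h6, dprod_map pe pe' φ hφ kap ⟨_, hw⟩ hx, dprod_dpr pe hU.central]
    rfl
  rw [key r hr q hq e he hw, key r' hr' q' hq' e' he' hw', h]

end

end Pool.Agent.Helper15.QS
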