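import Pool.Agent.Helper15.QS.Str4
import Pool.Agent.Helper15.AWC.DefsC

/-!
# The step of the induction
-/

open scoped Classical BigOperators IsMulCommutative
open Representation Pool.Agent.Helper884.IC Pool.Agent.Y63.AWC Pool.Agent.Helper15.AW

set_option linter.unusedSectionVars false
set_option linter.unusedVariables false
set_option linter.unusedSimpArgs false

attribute [-instance] MonoidHom.decidableMemKer

noncomputable section

namespace Pool.Agent.Helper15.QS

open Pool.Agent.Y63.KR (surfaceWord coords cod DZ_iff)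
open Pool.Agent.Y63.AWC (numWeights numRegularClasses)
open Pool.Agent.Y63.NV (Closed Reduced XP reduction' xp_closed pgroup_top)

lemma exists_index_p {G : Type} [Group G] [Finite G] (hcomm : ∀ a b : G, a * b = b * a) {p : ℕ}
    [hp : Fact p.Prime] (h : p ∣ Nat.card G) : ∃ N : Subgroup G, N.index = p := by
  let _ : CommGroup G := { (inferInstance : Group G) with mul_comm := hcomm }
  have h1 : Nat.card (G →* ℂˣ) = Nat.card G := CommGroup.card_monoidHom_of_hasEnoughRootsOfUnity G ℂ
  obtain ⟨χ, hχ⟩ := exists_prime_orderOf_dvd_card' (G := G →* ℂˣ) p (by rw [h1]; exact h)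
  refine ⟨χ.ker, ?_⟩
  rw [Subgroup.index_ker]
  have hpos : NeZero p := ⟨hp.out.ne_zero⟩
  have h2 : χ.range ≤ rootsOfUnity p ℂ := by
    rintro _ ⟨x, rfl⟩
    rw [mem_rootsOfUnity]
    have h3 : χ ^ p = 1 := by rw [← hχ, pow_orderOf_eq_one]
    exact congrArg (fun F => F x) h3
  have h3 : Nat.card (rootsOfUnity p ℂ) = p := by
    rw [Complex.card_rootsOfUnity]
  have h4 : Nat.card χ.range ∣ p := by
    conv_rhs => rw [← h3]
    exact Subgroup.card_dvd_of_le h2
  rcases (Nat.dvd_prime hp.out).1 h4 with h5 | h5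
  · exfalso
    have h6 : χ = 1 := by
      ext x
      have h7 : χ x ∈ χ.range := ⟨x, rfl⟩
      rw [Subgroup.card_eq_one.1 h5, Subgroup.mem_bot] at h7
      rw [h7]
      rfl
    rw [h6, orderOf_one] at hχ
    exact hp.out.one_lt.ne hχ
  · exact h5

lemma perfect_pgroup {G Q : Type} [Group G] [Group Q] [Finite Q] {p : ℕ} [hp : Fact p.Prime]
    (f : G →* Q) (hG : commutator G = ⊤)
    (h : ∀ y ∈ commutator Q, ∃ k : ℕ, y ^ p ^ k = 1) : f = 1 := by
  have h1 : f.range ≤ commutator Q := by
    rw [MonoidHom.range_eq_map, ← hG, commutator_def, Subgroup.map_commutator]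
    exact Subgroup.commutator_mono le_top le_top
  have hp1 : IsPGroup p f.range := by
    intro y
    obtain ⟨k, hk⟩ := h y (h1 y.2)
    exact ⟨k, Subtype.ext hk⟩
  by_contra hne
  have hnt : Nontrivial f.range := by
    rw [Subgroup.nontrivial_iff_ne_bot]
    intro hb
    apply hne
    ext x
    have : f x ∈ f.range := ⟨x, rfl⟩
    rw [hb, Subgroup.mem_bot] at this
    rw [this]
    rfl
  have hnil : Group.IsNilpotent f.range := hp1.isNilpotent
  have hs : Group.IsSolvable f.range := inferInstance
  have h2 := Group.IsSolvable.commutator_lt_top_of_nontrivial f.range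
  apply h2.ne
  rw [← map_commutator_surj f.rangeRestrict f.rangeRestrict_surjective, hG,
    Subgroup.map_top_of_surjective _ f.rangeRestrict_surjective]

section

variable {H : Type} [Group H] [Fintype H] {N R H1 : Subgroup H} (D : Hyp N R H1) {p : ℕ}
  [hp : Fact p.Prime] [hN : N.Normal]

include D in
/-- the commutator subgroup of `A` is not a `p`-group -/
lemma no_PC (h : ∀ y ∈ commutator (At R H1), ∃ k : ℕ, y ^ p ^ k = 1) : False := by
  have h1 := perfect_pgroup (dl1 R H1) (Kt_perfect D) h
  apply D.hR.nn.nonc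
  intro r hr
  have h2 : r ∈ K1 R H1 := by
    have := KK_mem (R := R) (T := (H1 : Set H)) H1.one_mem hr
    simpa using this
  have h3 := dl1_ker D (x := (⟨⟨r, D.N_le (D.K1_le h2)⟩, h2⟩ : Kt R H1)) (by
    rw [h1]
    rfl)
  exact h3

lemma PA2.comm {K : Type} [Group K] (h : PA2 p K) : ∀ y ∈ commutator K, ∃ k : ℕ, y ^ p ^ k = 1 := by
  obtain ⟨Q, _, hQ, hc, _⟩ := h
  intro y hy
  obtain ⟨k, hk⟩ := hQ ⟨y, hc hy⟩
  exact ⟨k, congrArg Subtype.val hk⟩

include D in
lemma not_PA2_At : ¬ PA2 p (At R H1) := fun h => no_PC D (PA2.comm h)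

include D in
/-- the quotients of the subgroups which cover `A` -/
lemma not_PA2_sub (L : Subgroup H) (hst : st (L.map (Phi1 D)) = ⊤)
    (h : PA2 p (L ⧸ (Phi1 D).ker.subgroupOf L)) : False := by
  apply no_PC (p := p) D
  -- the stabilizer
  let T : Subgroup L :=
    { carrier := {x | (Phi1 D (x : H)).fst • i0 (B1t N H1) = i0 (B1t N H1)}
      one_mem' := by
        change (Phi1 D ((1 : L) : H)).fst • i0 (B1t N H1) = i0 (B1t N H1)
        rw [OneMemClass.coe_one, map_one, Ind.one_fst, one_smul]
      mul_mem' := by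
        intro a b ha hb
        have ha' : (Phi1 D (a : H)).fst • i0 (B1t N H1) = i0 (B1t N H1) := ha
        have hb' : (Phi1 D (b : H)).fst • i0 (B1t N H1) = i0 (B1t N H1) := hb
        change (Phi1 D ((a * b : L) : H)).fst • i0 (B1t N H1) = i0 (B1t N H1)
        rw [Subgroup.coe_mul, map_mul, Ind.mul_fst, mul_smul, hb', ha']
      inv_mem' := by
        intro a ha
        have ha' : (Phi1 D (a : H)).fst • i0 (B1t N H1) = i0 (B1t N H1) := ha
        change (Phi1 D ((a⁻¹ : L) : H)).fst • i0 (B1t N H1) = i0 (B1t N H1)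
        rw [Subgroup.coe_inv, map_inv, Ind.inv_fst, inv_smul_eq_iff, ha'] }
  let f : T →* At R H1 :=
    { toFun := fun x => (Phi1 D ((x : L) : H)).snd (i0 (B1t N H1))
      map_one' := by
        change (Phi1 D (((1 : T) : L) : H)).snd (i0 (B1t N H1)) = 1
        rw [OneMemClass.coe_one, OneMemClass.coe_one, map_one, Ind.one_snd]
      map_mul' := by
        intro a b
        have hb' : (Phi1 D ((b : L) : H)).fst • i0 (B1t N H1) = i0 (B1t N H1) := b.2
        change (Phi1 D (((a * b : T) : L) : H)).snd (i0 (B1t N H1)) = _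
        rw [Subgroup.coe_mul, Subgroup.coe_mul, map_mul, Ind.mul_snd, hb'] }
  have hf : Function.Surjective f := by
    intro γ
    have h1 : γ ∈ st (L.map (Phi1 D)) := by rw [hst]; trivial
    obtain ⟨_, ⟨x, hx, rfl⟩, h2, h3⟩ := h1
    exact ⟨⟨⟨x, hx⟩, h2⟩, h3⟩
  intro y hy
  rw [← map_commutator_surj f hf] at hy
  obtain ⟨x, hx, rfl⟩ := hy
  -- the image in the quotient
  have h1 : QuotientGroup.mk' ((Phi1 D).ker.subgroupOf L) (x : L) ∈
      commutator (L ⧸ (Phi1 D).ker.subgroupOf L) := by
    rw [← map_commutator_surj _ (QuotientGroup.mk'_surjective _)]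
    refine ⟨(x : L), ?_, rfl⟩
    have h2 : (commutator T).map T.subtype ≤ commutator L := by
      rw [commutator_def, Subgroup.map_commutator]
      exact Subgroup.commutator_mono le_top le_top
    exact h2 ⟨x, hx, rfl⟩
  obtain ⟨k, hk⟩ := PA2.comm h _ h1
  refine ⟨k, ?_⟩
  rw [← map_pow] at hk ⊢
  have h2 : (x : L) ^ p ^ k ∈ (Phi1 D).ker.subgroupOf L := (QuotientGroup.eq_one_iff _).1 hk
  change (Phi1 D (((x ^ p ^ k : T) : L) : H)).snd (i0 (B1t N H1)) = 1
  have h3 : Phi1 D (((x ^ p ^ k : T) : L) : H) = 1 := h2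
  rw [h3]
  rfl

lemma card_At_lt (hH1 : H1 ≠ ⊤) (D : Hyp N R H1) :
    Nat.card (At R H1) < (Subgroup.center H).index := by
  have h1 : Nat.card (At R H1) ∣ (Subgroup.center H).relIndex H1 :=
    Subgroup.relIndex_dvd_of_le_left H1 (le_sup_right : Subgroup.center H ≤ U2 R H1)
  have hc : Subgroup.center H ≤ H1 := D.S.cent.trans D.N_le
  have h2 := Subgroup.relIndex_mul_index hc
  have h3 : 1 < H1.index := by
    have h4 : H1.index ≠ 0 := H1.index_ne_zero_of_finite
    have h5 : H1.index ≠ 1 := fun h => hH1 (Subgroup.index_eq_one.1 h)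
    omega
  have h4 : 0 < (Subgroup.center H).relIndex H1 := by
    apply Nat.pos_of_ne_zero
    intro h
    rw [h, zero_mul] at h2
    exact (Subgroup.center H).index_ne_zero_of_finite h2.symm
  have h5 := Nat.le_of_dvd h4 h1
  calc Nat.card (At R H1) ≤ (Subgroup.center H).relIndex H1 := h5
    _ < (Subgroup.center H).relIndex H1 * H1.index := by nlinarith
    _ = _ := h2

/-- the groups with small quotient -/
lemma small_of {Xc : ∀ (H : Type) [Group H], Prop} (hX : ClosedC p Xc)
    (hsmall : ∀ (L : Type) [Group L] [Finite L], Xc L → Smaller L H →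
      numRegularClasses p L = numWeights p L) (A : Type) [Group A] [Finite A] (hA : Xc A)
    (hcard : Nat.card A < (Subgroup.center H).index) (hn : ¬ PA2 p A) : Small p A := by
  intro E _ _ f hf hc hpr M g hg hd
  have hXE : Xc E := by
    refine hX.central E f.ker hc hpr ?_
    exact hX.iso _ _ hA ⟨(QuotientGroup.quotientKerEquivOfSurjective f hf).symm⟩
  have hidx : (Subgroup.center E).index ≤ Nat.card A := by
    have h1 : (Subgroup.center E).index ∣ f.ker.index := Subgroup.index_dvd_of_le hc
    have h2 : f.ker.index = Nat.card A := by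
      rw [Subgroup.index_ker, MonoidHom.range_eq_top.2 hf, Subgroup.card_top]
    rw [h2] at h1
    exact Nat.le_of_dvd Nat.card_pos h1
  refine section_zero (p := p) (X := Xc) hX.closed E (Nat.card E + 1)
    (fun L _ _ hL hLi hLn => hsmall L hL (Or.inl (by omega))) hg hd E hXE le_rfl
    (Nat.lt_succ_self _) ?_
  intro h
  exact hn (h.image f hf)

/-- **The step.** -/
theorem comp_step {Xc : ∀ (H : Type) [Group H], Prop} (hX : ClosedC p Xc) (hH : Xc H)
    (hR : Reduced p H) (hsmall : ∀ (L : Type) [Group L] [Finite L], Xc L → Smaller L H →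
      numRegularClasses p L = numWeights p L) (hst : Subgroup.center H ≤ commutator H)
    (S : Sett N) (hq : PA2 p (H ⧸ N))
    (hnot : ¬ ((∀ M : Subgroup N, M.Normal → M ≤ Subgroup.center N ∨ M = ⊤) ∧ PE2 p (H ⧸ N)))
    (n : ℕ) : ∃ g : ℕ, 2 ≤ g ∧ p ^ n * (p - 1) ∣ g - 1 ∧ (p : ℤ) ^ (n + 1) ∣ (numSurj g H : ℤ) := by
  obtain ⟨R, hRn, hRm⟩ := S.exists_min
  have hM : Mn N R := ⟨hRn, hRm⟩
  obtain ⟨P, hPn, hPp, hPc, a, b, hab⟩ := hq
  -- the center
  have hpZ : ¬ p ∣ Nat.card (Subgroup.center H) := by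
    refine nilp_prime hR.radical _ ?_
    let _ : CommGroup (Subgroup.center H) :=
      { (inferInstance : Group (Subgroup.center H)) with
        mul_comm := fun a b => Subtype.ext (Subgroup.mem_center_iff.1 b.2 a) }
    exact (inferInstance : Group.IsNilpotent (Subgroup.center H))
  -- the index of `P`
  have hPi : ¬ p ∣ P.index := by
    intro h
    have hcomm : ∀ x y : (H ⧸ N) ⧸ P, x * y = y * x := by
      intro x y
      obtain ⟨x, rfl⟩ := QuotientGroup.mk'_surjective P x
      obtain ⟨y, rfl⟩ := QuotientGroup.mk'_surjective P y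
      have h1 : x * y * x⁻¹ * y⁻¹ ∈ P := by
        have := hPc (Subgroup.commutator_mem_commutator (Subgroup.mem_top x) (Subgroup.mem_top y))
        rw [commutatorElement_def] at this
        exact this
      have h2 : QuotientGroup.mk' P (x * y * x⁻¹ * y⁻¹) = 1 := (QuotientGroup.eq_one_iff _).2 h1
      rw [map_mul, map_mul, map_mul, map_inv, map_inv, mul_inv_eq_one,
        mul_inv_eq_iff_eq_mul] at h2
      exact h2
    obtain ⟨T, hT⟩ := exists_index_p (p := p) hcomm h
    have hTn : T.Normal := by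
      refine ⟨fun x hx g => ?_⟩
      rw [hcomm g x, mul_inv_cancel_right]
      exact hx
    let q : H →* (H ⧸ N) ⧸ P := (QuotientGroup.mk' P).comp (QuotientGroup.mk' N)
    have hqs : Function.Surjective q :=
      (QuotientGroup.mk'_surjective P).comp (QuotientGroup.mk'_surjective N)
    refine hR.perfect (T.comap q) inferInstance ?_
    rw [Subgroup.index_comap_of_surjective T hqs, hT]
  have hPE : (∀ x ∈ P, ∀ y ∈ P, x * y = y * x) → (∀ x ∈ P, x ^ p = 1) → PE2 p (H ⧸ N) :=
    fun h1 h2 => ⟨P, hPn, h2, h1, hPi, hPc, a, b, hab⟩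
  -- the conclusion from the data
  have key : ∀ (H1 : Subgroup H) (D : Hyp N R H1), (∀ [Fintype ((H ⧸ N) ⧸ B1t N H1)],
      (∀ x ∈ P, ∀ y ∈ P, x * y = y * x) → (∀ x ∈ P, x ^ p = 1) →
      Small p (At R H1) ∧ ∃ (A' : Subgroup (H ⧸ N)) (A1' : Subgroup (B1t N H1)),
        P.IsComplement' A' ∧ (P.subgroupOf (B1t N H1)).IsComplement' A1' ∧
          Cover p (B1t N H1) A' A1') →
      ∃ g : ℕ, 2 ≤ g ∧ p ^ n * (p - 1) ∣ g - 1 ∧ (p : ℤ) ^ (n + 1) ∣ (numSurj g H : ℤ) := by
    intro H1 D hcov
    have : Fintype ((H ⧸ N) ⧸ B1t N H1) := Fintype.ofFinite _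
    have : Fintype (At R H1) := Fintype.ofFinite _
    have hk := Phi1_ker D
    have hcard : Nat.card (Phi1 D).ker = Nat.card (Subgroup.center H) :=
      Nat.card_congr (MulEquiv.subgroupCongr hk).toEquiv
    refine main_surj (p := p) (pi1_surj D) (dat1 D) (by rw [hcard]; exact hpZ)
      (hk.le.trans hst) P hPp hPi hcov ?_ n
    intro L hZL hLt _ hstL
    have hcL : (Phi1 D).ker.subgroupOf L ≤ Subgroup.center L := by
      intro x hx
      rw [Subgroup.mem_center_iff]
      intro y
      exact Subtype.ext (Subgroup.mem_center_iff.1 (hk.le hx) y)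
    refine small_of hX hsmall _ (hX.quot L (hX.sub H hH L) _) ?_
      (fun h => not_PA2_sub (p := p) D L hstL h)
    have h2 := Subgroup.relIndex_mul_index hZL
    have h3 : 1 < L.index := by
      have h4 : L.index ≠ 0 := L.index_ne_zero_of_finite
      have h5 : L.index ≠ 1 := fun h => hLt (Subgroup.index_eq_one.1 h)
      omega
    have h4 : 0 < (Phi1 D).ker.relIndex L := by
      apply Nat.pos_of_ne_zero
      intro h
      rw [h, zero_mul] at h2
      exact (Phi1 D).ker.index_ne_zero_of_finite h2.symm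
    have h5 : (Subgroup.center H).index = (Phi1 D).ker.index := by rw [hk]
    rw [h5, ← h2]
    change (Phi1 D).ker.relIndex L < _
    nlinarith
  by_cases hs : stR R = ⊤
  · -- one component
    have hRN := eq_of_stR_top S hM hs
    have hquasi : ∀ M : Subgroup N, M.Normal → M ≤ Subgroup.center N ∨ M = ⊤ := by
      intro M hMn
      by_cases hc : M.map N.subtype ≤ Subgroup.center H
      · left
        intro x hx
        rw [Subgroup.mem_center_iff]
        intro y
        exact Subtype.ext (Subgroup.mem_center_iff.1 (hc ⟨x, hx, rfl⟩) y)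
      · right
        have h1 : Nn N (M.map N.subtype) := by
          refine ⟨Subgroup.map_subtype_le M, ?_, hc⟩
          rintro m hm _ ⟨x, hx, rfl⟩
          exact ⟨⟨m, hm⟩ * x * ⟨m, hm⟩⁻¹, hMn.conj_mem x hx _, rfl⟩
        have h2 := hM.min (M.map N.subtype) (by
          rw [hRN]
          exact Subgroup.map_subtype_le M) h1
        rw [hRN] at h2
        apply Subgroup.map_injective N.subtype_injective
        rw [h2, ← MonoidHom.range_eq_map, Subgroup.range_subtype]
    refine key ⊤ ⟨S, hM, le_top⟩ ?_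
    intro _ h1 h2
    exact absurd ⟨hquasi, hPE h1 h2⟩ hnot
  · obtain ⟨H1, hH1, hle⟩ := (eq_top_or_exists_le_coatom (stR R)).resolve_left hs
    have D : Hyp N R H1 := ⟨S, hM, hle⟩
    refine key H1 D ?_
    intro _ h1 h2
    refine ⟨small_of hX hsmall _ (hX.quot H1 (hX.sub H hH H1) _) (card_At_lt hH1.1 D)
      (not_PA2_At (p := p) D), ?_⟩
    refine exists_cover ?_ P hPp hPc hPi
    -- the image of a maximal subgroup
    have hcm : (B1t N H1).comap (QuotientGroup.mk' N) = H1 := by
      apply le_antisymm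
      · intro x hx
        exact mem_of_map D hx
      · exact Subgroup.le_comap_map _ _
    constructor
    · intro h
      apply hH1.1
      rw [← hcm, h, Subgroup.comap_top]
    · intro C hC
      have h3 : H1 < C.comap (QuotientGroup.mk' N) := by
        refine lt_of_le_of_ne ?_ ?_
        · rw [← hcm]
          exact Subgroup.comap_mono hC.le
        · intro h
          apply hC.ne
          have h4 : C.comap (QuotientGroup.mk' N) = (B1t N H1).comap (QuotientGroup.mk' N) := by
            rw [← h, hcm]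
          exact (Subgroup.comap_injective (QuotientGroup.mk'_surjective N) h4).symm
      have h4 := hH1.2 _ h3
      apply Subgroup.comap_injective (QuotientGroup.mk'_surjective N)
      rw [h4, Subgroup.comap_top]

end

end Pool.Agent.Helper15.QS
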