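import Pool.Agent.Helper15.QS.Mob

/-!
# Tuples with a given product of commutators
-/

open scoped Classical BigOperators
open Representation Pool.Agent.Helper884.IC Pool.Agent.Y63.AWC Pool.Agent.Helper15.AW

set_option linter.unusedSectionVars false
set_option linter.unusedVariables false
set_option linter.unusedSimpArgs false

attribute [-instance] MonoidHom.decidableMemKer

noncomputable section

namespace Pool.Agent.Helper15.QS

open Pool.Agent.Y63.KR (surfaceWord coords dg cod dg_spec cod_spec cod_pos DZ_iff)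

section

variable {E : Type} [Group E] [Fintype E]

/-- the number of the tuples which generate modulo `C` with product of commutators `c` -/
def cw (C : Subgroup E) (g : ℕ) (c : E) : ℕ :=
  Nat.card {q : Fin g → E × E // Subgroup.closure (coords q) ⊔ C = ⊤ ∧ surfaceWord q = c}

/-- the commutative group structure of a central subgroup -/
abbrev cg (C : Subgroup E) (hC : C ≤ Subgroup.center E) : CommGroup C :=
  { (inferInstance : Group C) with
    mul_comm := fun a b => Subtype.ext (Subgroup.mem_center_iff.1 (hC b.2) a) }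

lemma sum_chars (C : Subgroup E) (hC : C ≤ Subgroup.center E) [Fintype (C →* ℂˣ)] (x : C) :
    ∑ kap : C →* ℂˣ, ((kap x : ℂˣ) : ℂ) = if x = 1 then (Nat.card C : ℂ) else 0 := by
  let _ := cg C hC
  by_cases hx : x = 1
  · rw [if_pos hx, hx]
    simp only [map_one, Units.val_one, Finset.sum_const, Finset.card_univ, nsmul_eq_mul, mul_one]
    have h1 := CommGroup.card_monoidHom_of_hasEnoughRootsOfUnity C ℂ
    rw [← h1, Nat.card_eq_fintype_card]
  · rw [if_neg hx]
    obtain ⟨φ, hφ⟩ := CommGroup.exists_apply_ne_one_of_hasEnoughRootsOfUnity C ℂ hx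
    have h1 : ∑ kap : C →* ℂˣ, ((kap x : ℂˣ) : ℂ) =
        ((φ x : ℂˣ) : ℂ) * ∑ kap : C →* ℂˣ, ((kap x : ℂˣ) : ℂ) := by
      conv_lhs => rw [← Equiv.sum_comp (Equiv.mulLeft φ)]
      rw [Finset.mul_sum]
      refine Finset.sum_congr rfl fun kap _ => ?_
      rw [Equiv.coe_mulLeft, MonoidHom.mul_apply, Units.val_mul]
    have h2 : (1 - ((φ x : ℂˣ) : ℂ)) * ∑ kap : C →* ℂˣ, ((kap x : ℂˣ) : ℂ) = 0 := by
      rw [sub_mul, one_mul, ← h1, sub_self]
    rcases mul_eq_zero.1 h2 with h3 | h3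
    · exfalso
      apply hφ
      apply Units.ext
      rw [Units.val_one]
      exact (sub_eq_zero.1 h3).symm
    · exact h3

/-- the inversion formula -/
lemma cw_eq (C : Subgroup E) (hC : C ≤ Subgroup.center E) [Fintype (C →* ℂˣ)] (g : ℕ) (c : C) :
    (Nat.card C : ℂ) * (cw C g c : ℂ) =
      ∑ kap : C →* ℂˣ, (((kap c)⁻¹ : ℂˣ) : ℂ) * sumGen C kap g ⊤ := by
  unfold sumGen
  have h1 : ∀ kap : C →* ℂˣ, (((kap c)⁻¹ : ℂˣ) : ℂ) * (∑ q : Fin g → E × E,
      if Subgroup.closure (coords q) ⊔ C = ⊤ then ext0 C kap (surfaceWord q) else 0) =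
      ∑ q : Fin g → E × E, if Subgroup.closure (coords q) ⊔ C = ⊤ then
        (((kap c)⁻¹ : ℂˣ) : ℂ) * ext0 C kap (surfaceWord q) else 0 := by
    intro kap
    rw [Finset.mul_sum]
    refine Finset.sum_congr rfl fun q _ => ?_
    split_ifs
    · rfl
    · rw [mul_zero]
  rw [Finset.sum_congr rfl fun kap _ => h1 kap, Finset.sum_comm]
  have h2 : ∀ q : Fin g → E × E, (∑ kap : C →* ℂˣ, if Subgroup.closure (coords q) ⊔ C = ⊤ then
      (((kap c)⁻¹ : ℂˣ) : ℂ) * ext0 C kap (surfaceWord q) else 0) =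
      if Subgroup.closure (coords q) ⊔ C = ⊤ ∧ surfaceWord q = c then (Nat.card C : ℂ) else 0 := by
    intro q
    by_cases h3 : Subgroup.closure (coords q) ⊔ C = ⊤
    · simp only [h3, true_and, if_true]
      by_cases h4 : surfaceWord q ∈ C
      · have h5 := sum_chars C hC (c⁻¹ * ⟨surfaceWord q, h4⟩)
        have h6 : ∀ kap : C →* ℂˣ, (((kap c)⁻¹ : ℂˣ) : ℂ) * ext0 C kap (surfaceWord q) =
            ((kap (c⁻¹ * ⟨surfaceWord q, h4⟩) : ℂˣ) : ℂ) := by
          intro kap
          rw [ext0_of_mem kap h4, map_mul, map_inv, Units.val_mul]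
        rw [Finset.sum_congr rfl fun kap _ => h6 kap, h5]
        have h7 : c⁻¹ * ⟨surfaceWord q, h4⟩ = 1 ↔ surfaceWord q = c := by
          rw [inv_mul_eq_one]
          constructor
          · intro h
            exact (congrArg Subtype.val h).symm
          · intro h
            exact Subtype.ext h.symm
        simp only [h7]
      · have h5 : ∀ kap : C →* ℂˣ, (((kap c)⁻¹ : ℂˣ) : ℂ) * ext0 C kap (surfaceWord q) = 0 := by
          intro kap
          rw [ext0_of_not_mem kap h4, mul_zero]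
        rw [Finset.sum_congr rfl fun kap _ => h5 kap, Finset.sum_const_zero, if_neg]
        rintro h6
        exact h4 (h6 ▸ c.2)
    · simp only [h3, false_and, if_false, Finset.sum_const_zero]
  rw [Finset.sum_congr rfl fun q _ => h2 q, ← Finset.sum_filter, Finset.sum_const, nsmul_eq_mul,
    mul_comm]
  congr 1
  unfold cw
  rw [Nat.card_eq_fintype_card, Fintype.card_subtype]

/-- the tuples with product of commutators in a subgroup of `C` -/
theorem cnt_sub_dvd (C : Subgroup E) (hC : C ≤ Subgroup.center E) (g : ℕ) (D : ℤ)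
    (h : ∀ K : Subgroup E, K ⊔ C = ⊤ → ∀ A : Subgroup E, A ≤ C → A ≤ K →
      ∀ _ : (A.subgroupOf K).Normal, D ∣ (numSurj g (K ⧸ A.subgroupOf K) : ℤ)) (A : Subgroup E)
    (hA : A ≤ C) : D ∣ (Nat.card {q : Fin g → E × E //
      Subgroup.closure (coords q) ⊔ C = ⊤ ∧ surfaceWord q ∈ A} : ℤ) := by
  have : Fintype (Subgroup E) := Fintype.ofFinite _
  rw [← fiber_sum (fun q : Fin g → E × E => Subgroup.closure (coords q) ⊔ C = ⊤ ∧
    surfaceWord q ∈ A) (fun q => Subgroup.closure (coords q) ⊔ A), Nat.cast_sum]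
  refine Finset.dvd_sum fun K _ => ?_
  by_cases hK : K ⊔ C = ⊤ ∧ A ≤ K
  · have hn := normal_of_central (hA.trans hC) K
    have h2 := numSurj_quot (G := E) g hK.2
    have h3 : Nat.card {q : Fin g → E × E // (Subgroup.closure (coords q) ⊔ C = ⊤ ∧
        surfaceWord q ∈ A) ∧ Subgroup.closure (coords q) ⊔ A = K} =
        Nat.card {q : Fin g → E × E // coords q ⊆ K ∧
        (surfaceWord q ∈ A ∧ Subgroup.closure (coords q) ⊔ A = K)} := by
      refine Nat.card_congr (Equiv.subtypeEquivRight fun q => ?_)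
      constructor
      · rintro ⟨⟨_, h4⟩, h5⟩
        refine ⟨?_, h4, h5⟩
        rw [← h5]
        exact Subgroup.subset_closure.trans
          (le_sup_left (a := Subgroup.closure (coords q)) (b := A))
      · rintro ⟨_, h4, h5⟩
        refine ⟨⟨?_, h4⟩, h5⟩
        rw [← hK.1, ← h5, sup_assoc, sup_eq_right.2 hA]
    rw [h3, ← h2]
    push_cast
    exact Dvd.dvd.mul_left (h K hK.1 _ hA hK.2 hn) _
  · have h3 : Nat.card {q : Fin g → E × E // (Subgroup.closure (coords q) ⊔ C = ⊤ ∧
        surfaceWord q ∈ A) ∧ Subgroup.closure (coords q) ⊔ A = K} = 0 := by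
      rw [Nat.card_eq_zero]
      left
      constructor
      rintro ⟨q, ⟨h4, _⟩, h5⟩
      apply hK
      rw [← h5, sup_assoc, sup_eq_right.2 hA]
      exact ⟨h4, le_sup_right⟩
    rw [h3]
    simp

/-- the divisibility of the sum of an arbitrary character of a central subgroup -/
theorem twisted_dvd' (C : Subgroup E) (hC : C ≤ Subgroup.center E) (kap : C →* ℂˣ) (g : ℕ) (D : ℤ)
    (h : ∀ K : Subgroup E, K ⊔ C = ⊤ → ∀ A : Subgroup E, A ≤ C → A ≤ K →
      ∀ _ : (A.subgroupOf K).Normal, D ∣ (numSurj g (K ⧸ A.subgroupOf K) : ℤ)) :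
    ∃ s : ℤ, sumGen C kap g ⊤ = (s : ℂ) ∧ D ∣ (Nat.totient (Nat.card kap.range) : ℤ) * s := by
  have h1 : sumGen C kap g ⊤ = pw kap.range.subtype
      (fun q : GT C g => kap.rangeRestrict (gw (C := C) (g := g) q)) 1 := by
    unfold sumGen pw
    simp only [pow_one]
    have h2 : ∀ q : Fin g → E × E, (if Subgroup.closure (coords q) ⊔ C = ⊤ then
        ext0 C kap (surfaceWord q) else 0) = if Subgroup.closure (coords q) ⊔ C = ⊤ ∧
        surfaceWord q ∈ C then ext0 C kap (surfaceWord q) else 0 := by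
      intro q
      by_cases h3 : surfaceWord q ∈ C
      · simp only [h3, and_true]
      · simp only [h3, and_false, if_false]
        unfold ext0
        rw [dif_neg h3, ite_self]
    rw [Finset.sum_congr rfl fun q _ => h2 q, ← Finset.sum_filter]
    rw [Finset.sum_subtype (p := fun q : Fin g → E × E => Subgroup.closure (coords q) ⊔ C = ⊤ ∧
        surfaceWord q ∈ C) (F := inferInstance) _ (fun q => by simp)]
    refine Finset.sum_congr rfl fun q _ => ?_
    exact ext0_coe C kap (gw q)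
  have hr := rat_gen C hC kap g ⊤
  rw [h1] at hr
  rw [h1]
  refine galois_dvd kap.range.subtype _ (Subgroup.subtype_injective _) hr D fun e _ => ?_
  let A : Subgroup E := (MonoidHom.ker ((powMonoidHom e).comp kap)).map C.subtype
  have hA : A ≤ C := Subgroup.map_subtype_le _
  have h2 := cnt_sub_dvd C hC g D h A hA
  have h3 : kn (fun q : GT C g => kap.rangeRestrict (gw (C := C) (g := g) q)) e =
      Nat.card {q : Fin g → E × E // Subgroup.closure (coords q) ⊔ C = ⊤ ∧ surfaceWord q ∈ A} := by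
    unfold kn
    have key : ∀ x : C, kap.rangeRestrict x ^ e = 1 ↔ (x : E) ∈ A := by
      intro x
      constructor
      · intro hx
        refine ⟨x, ?_, rfl⟩
        change kap x ^ e = 1
        exact congrArg Subtype.val hx
      · rintro ⟨y, hy, hyx⟩
        have : y = x := Subtype.ext hyx
        rw [← this]
        apply Subtype.ext
        exact hy
    refine Nat.card_congr
      { toFun := fun q => ⟨q.1.1, q.1.2.1, (key _).1 q.2⟩
        invFun := fun q => ⟨⟨q.1, q.2.1, hA q.2.2⟩, (key _).2 q.2.2⟩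
        left_inv := fun q => rfl
        right_inv := fun q => rfl }
  rw [h3]
  exact h2

end

/-- the numbers of surjections onto the central extensions of `A` by groups of order prime to `p` are
small -/
def Small (p : ℕ) (A : Type) [Group A] : Prop :=
  ∀ (E : Type) [Group E] [Finite E] (f : E →* A), Function.Surjective f →
    f.ker ≤ Subgroup.center E → ¬ p ∣ Nat.card f.ker → ∀ N g : ℕ, 2 ≤ g →
      p ^ N * (p - 1) ∣ g - 1 → (p : ℤ) ^ (N + 1) ∣ (numSurj g E : ℤ)

section

variable {E A : Type} [Group E] [Fintype E] [Group A] {p : ℕ} [hp : Fact p.Prime]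

lemma small_sections (f : E →* A) (hf : Function.Surjective f) (hc : f.ker ≤ Subgroup.center E)
    (hpr : ¬ p ∣ Nat.card f.ker) (hS : Small p A) {N g : ℕ} (hg : 2 ≤ g)
    (hd : p ^ N * (p - 1) ∣ g - 1) (K : Subgroup E) (hK : K ⊔ f.ker = ⊤) (D : Subgroup E)
    (hD : D ≤ f.ker) (hDK : D ≤ K) (hn : (D.subgroupOf K).Normal) :
    (p : ℤ) ^ (N + 1) ∣ (numSurj g (K ⧸ D.subgroupOf K) : ℤ) := by
  let f' : (K ⧸ D.subgroupOf K) →* A := QuotientGroup.lift (D.subgroupOf K) (f.comp K.subtype)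
    (fun x hx => hD hx)
  have hker : ∀ y : K ⧸ D.subgroupOf K, y ∈ f'.ker →
      ∃ x : K, (x : E) ∈ f.ker ∧ QuotientGroup.mk' (D.subgroupOf K) x = y := by
    intro y hy
    obtain ⟨x, rfl⟩ := QuotientGroup.mk'_surjective _ y
    exact ⟨x, hy, rfl⟩
  refine hS (K ⧸ D.subgroupOf K) f' ?_ ?_ ?_ N g hg hd
  · intro y
    obtain ⟨x, rfl⟩ := hf y
    have hx : x ∈ K ⊔ f.ker := by rw [hK]; trivial
    rw [Subgroup.mem_sup_of_normal_right] at hx
    obtain ⟨k, hk, m, hm, rfl⟩ := hx
    refine ⟨QuotientGroup.mk' _ ⟨k, hk⟩, ?_⟩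
    change f k = _
    rw [map_mul, (MonoidHom.mem_ker).1 hm, mul_one]
  · intro y hy
    obtain ⟨x, hx, rfl⟩ := hker y hy
    rw [Subgroup.mem_center_iff]
    intro z
    obtain ⟨z, rfl⟩ := QuotientGroup.mk'_surjective _ z
    rw [← map_mul, ← map_mul]
    congr 1
    exact Subtype.ext (Subgroup.mem_center_iff.1 (hc hx) z)
  · intro h
    apply hpr
    refine h.trans ?_
    let j : (f.ker.subgroupOf K) →* f'.ker :=
      { toFun := fun x => ⟨QuotientGroup.mk' (D.subgroupOf K) (x : K), x.2⟩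
        map_one' := rfl
        map_mul' := fun x y => rfl }
    have hj : Function.Surjective j := by
      rintro ⟨y, hy⟩
      obtain ⟨x, hx, rfl⟩ := hker y hy
      exact ⟨⟨x, hx⟩, rfl⟩
    refine (Subgroup.card_dvd_of_surjective j hj).trans ?_
    exact Subgroup.card_comap_dvd_of_injective f.ker K.subtype K.subtype_injective

lemma totient_lt {C : Type} [Group C] [Finite C] (kap : C →* ℂˣ) {B : ℕ} (hB : Nat.card C < p ^ B) :
    Nat.totient (Nat.card kap.range) < p ^ B :=
  lt_of_le_of_lt ((Nat.totient_le _).trans (Nat.le_of_dvd Nat.card_pos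
    (Subgroup.card_range_dvd kap))) hB

/-- the sums of the characters of the kernel are small -/
theorem sumGen_small (f : E →* A) (hf : Function.Surjective f) (hc : f.ker ≤ Subgroup.center E)
    (hpr : ¬ p ∣ Nat.card f.ker) (hS : Small p A) {n g B : ℕ} (hB : Nat.card f.ker < p ^ B)
    (hg : 2 ≤ g) (hd : p ^ (n + B) * (p - 1) ∣ g - 1) (kap : f.ker →* ℂˣ) :
    PD p (n + 1) (sumGen f.ker kap g ⊤) := by
  obtain ⟨s, hs, hs2⟩ := twisted_dvd' f.ker hc kap g ((p : ℤ) ^ (n + B + 1))
    (fun K hK D hD hDK hn => small_sections f hf hc hpr hS hg hd K hK D hD hDK hn)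
  have hfin : Finite kap.range := Finite.of_surjective _ kap.rangeRestrict_surjective
  have e : n + B + 1 = (n + 1) + B := by ring
  rw [e] at hs2
  rw [hs]
  exact PD.of_dvd (dvd_of_small (Nat.totient_pos.2 Nat.card_pos) (totient_lt kap hB) hs2)

lemma PD.of_mul {N c : ℕ} (hc : ¬ p ∣ c) {x : ℂ} (hx : IsIntegral ℤ x)
    (h : PD p N ((c : ℂ) * x)) : PD p N x := by
  obtain ⟨y, hy, hxy⟩ := h
  have hcop : IsCoprime (c : ℤ) ((p : ℤ) ^ N) := by
    refine IsCoprime.pow_right ?_
    rw [Nat.isCoprime_iff_coprime]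
    exact ((Nat.Prime.coprime_iff_not_dvd hp.out).2 hc).symm
  obtain ⟨u, v, huv⟩ := hcop
  have huv' : (u : ℂ) * (c : ℂ) + (v : ℂ) * (p : ℂ) ^ N = 1 := by exact_mod_cast huv
  refine ⟨(u : ℂ) * y + (v : ℂ) * x, ((int_int u).mul hy).add ((int_int v).mul hx), ?_⟩
  calc x = ((u : ℂ) * (c : ℂ) + (v : ℂ) * (p : ℂ) ^ N) * x := by rw [huv', one_mul]
    _ = (u : ℂ) * ((c : ℂ) * x) + (v : ℂ) * (p : ℂ) ^ N * x := by ring
    _ = _ := by rw [hxy]; ring

lemma PD.dvd {N : ℕ} {n : ℤ} (h : PD p (N + 1) (n : ℂ)) : (p : ℤ) ^ (N + 1) ∣ n := by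
  obtain ⟨y, hy, hxy⟩ := h
  exact dvd_of_integral N n y hy hxy

lemma unit_integral {C : Type} [Group C] [Finite C] (kap : C →* ℂˣ) (x : C) :
    IsIntegral ℤ ((kap x : ℂˣ) : ℂ) := by
  refine IsIntegral.of_pow Nat.card_pos (n := Nat.card C) ?_
  rw [← Units.val_pow_eq_pow_val, ← map_pow, pow_card_eq_one', map_one, Units.val_one]
  exact isIntegral_one

/-- the number of the tuples with given product of commutators is small -/
theorem cw_small (f : E →* A) (hf : Function.Surjective f) (hc : f.ker ≤ Subgroup.center E)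
    (hpr : ¬ p ∣ Nat.card f.ker) (hS : Small p A) {n g B : ℕ} (hB : Nat.card f.ker < p ^ B)
    (hg : 2 ≤ g) (hd : p ^ (n + B) * (p - 1) ∣ g - 1) (c : f.ker) :
    PD p (n + 1) ((cw f.ker g c : ℕ) : ℂ) := by
  have : Fintype (f.ker →* ℂˣ) := Fintype.ofFinite _
  refine PD.of_mul hpr (int_nat _) ?_
  rw [cw_eq f.ker hc]
  refine PD.sum _ _ fun kap _ => PD.mul_left ?_ (sumGen_small f hf hc hpr hS hB hg hd kap)
  have h1 := unit_integral kap c⁻¹
  rwa [map_inv] at h1

end

end Pool.Agent.Helper15.QS
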