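import Pool.Agent.Helper15.QS.Cov3

/-!
# A central extension from an invariant representation
-/

open scoped Classical BigOperators IsMulCommutative
open Representation Pool.Agent.Helper884.IC Pool.Agent.Y63.AWC Pool.Agent.Helper15.AW

set_option linter.unusedSectionVars false
set_option linter.unusedVariables false
set_option linter.unusedSimpArgs false

attribute [-instance] MonoidHom.decidableMemKer

noncomputable section

namespace Pool.Agent.Helper15.QS

open Pool.Agent.Y63.KR (surfaceWord coords dg cod dg_spec cod_spec cod_pos DZ_iff)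

section

variable {A K : Type} [Group A] [Finite A] [Group K] [Finite K] (dl : K →* A) (φ : A →* MulAut K)
  (hd1 : ∀ a x, dl (φ a x) = a * dl x * a⁻¹) (hd2 : ∀ x y, φ (dl x) y = x * y * x⁻¹)
  (L : Subgroup A)
  {V : Type} [AddCommGroup V] [Module ℂ V] [FiniteDimensional ℂ V]
  (rho : Representation ℂ (L.comap dl) V)

include hd1 in
lemma act_mem {l : A} (hl : l ∈ L) (y : L.comap dl) : φ l (y : K) ∈ L.comap dl := by
  rw [Subgroup.mem_comap, hd1]
  exact mul_mem (mul_mem hl y.2) (inv_mem hl)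

/-- the group of the pairs of an element of `L` and an intertwining operator -/
def LT : Subgroup (A × (Module.End ℂ V)ˣ) where
  carrier := {x | x.1 ∈ L ∧ LinearMap.det ((x.2 : (Module.End ℂ V)ˣ) : Module.End ℂ V) ^
    (Nat.card K) = 1 ∧ ∀ y z : L.comap dl, (z : K) = φ x.1 (y : K) →
      ((x.2 : (Module.End ℂ V)ˣ) : Module.End ℂ V) * rho y = rho z * x.2}
  one_mem' := by
    refine ⟨one_mem _, ?_, ?_⟩
    · simp
    · intro y z hz
      have : z = y := by
        apply Subtype.ext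
        rw [hz]
        simp
      rw [this]
      simp
  mul_mem' := by
    rintro x x' ⟨h1, h2, h3⟩ ⟨h1', h2', h3'⟩
    refine ⟨mul_mem h1 h1', ?_, ?_⟩
    · rw [Prod.snd_mul, Units.val_mul, map_mul, mul_pow, h2, h2', one_mul]
    · intro y z hz
      have e1 := h3' y ⟨_, act_mem dl φ hd1 L h1' y⟩ rfl
      have e2 := h3 ⟨_, act_mem dl φ hd1 L h1' y⟩ z (by
        rw [hz, Prod.fst_mul, map_mul]
        rfl)
      rw [Prod.snd_mul, Units.val_mul, mul_assoc, e1, ← mul_assoc, e2, mul_assoc]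
  inv_mem' := by
    rintro x ⟨h1, h2, h3⟩
    refine ⟨inv_mem h1, ?_, ?_⟩
    · have e1 : ((x.2 : (Module.End ℂ V)ˣ) : Module.End ℂ V) *
          (((x⁻¹).2 : (Module.End ℂ V)ˣ) : Module.End ℂ V) = 1 := by
        rw [Prod.snd_inv, Units.mul_inv]
      have e2 := congrArg (fun T => (LinearMap.det T) ^ (Nat.card K)) e1
      simp only [map_mul, mul_pow, map_one, one_pow] at e2
      rwa [h2, one_mul] at e2
    · intro y z hz
      have e1 := h3 z y (by
        rw [hz, Prod.fst_inv, map_inv]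
        simp)
      have e2 : (((x.2)⁻¹ : (Module.End ℂ V)ˣ) : Module.End ℂ V) *
          (((x.2 : (Module.End ℂ V)ˣ) : Module.End ℂ V) * rho z) * ((x.2)⁻¹ : (Module.End ℂ V)ˣ) =
          ((x.2)⁻¹ : (Module.End ℂ V)ˣ) * (rho y * x.2) * ((x.2)⁻¹ : (Module.End ℂ V)ˣ) := by
        rw [e1]
      rw [← mul_assoc, Units.inv_mul, one_mul, mul_assoc, mul_assoc, Units.mul_inv, mul_one] at e2
      exact e2.symm

variable {dl φ L rho}

/-- scaling -/
lemma exists_scaled (hr : rho.IsIrreducible) (v : (Module.End ℂ V)ˣ) :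
    ∃ c : ℂˣ, LinearMap.det (((c : ℂ) • (v : Module.End ℂ V))) = 1 := by
  have hnt := irr_nontrivial rho hr
  have hd : 0 < Module.finrank ℂ V := Module.finrank_pos
  have hdet : LinearMap.det (v : Module.End ℂ V) ≠ 0 := by
    intro h
    have h1 := congrArg LinearMap.det v.mul_inv
    rw [map_mul, h, zero_mul, map_one] at h1
    exact zero_ne_one h1
  obtain ⟨z, hz⟩ := IsAlgClosed.exists_pow_nat_eq ((LinearMap.det (v : Module.End ℂ V))⁻¹) hd
  have hz0 : z ≠ 0 := by
    rintro rfl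
    rw [zero_pow hd.ne'] at hz
    exact inv_ne_zero hdet hz.symm
  refine ⟨Units.mk0 z hz0, ?_⟩
  rw [LinearMap.det_smul, Units.val_mk0, hz, inv_mul_cancel₀ hdet]

/-- the lifts of the elements of `L` -/
lemma exists_LT (hr : rho.IsIrreducible) (hinv : ∀ l ∈ L, ∀ y z : L.comap dl, (z : K) = φ l (y : K) →
    rho.character z = rho.character y) {l : A} (hl : l ∈ L) :
    ∃ x ∈ LT dl φ hd1 L rho, x.1 = l := by
  have : Fintype (L.comap dl) := Fintype.ofFinite _
  -- the conjugate representation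
  let τ : (L.comap dl) →* (L.comap dl) :=
    { toFun := fun y => ⟨_, act_mem dl φ hd1 L hl y⟩
      map_one' := Subtype.ext (map_one (φ l))
      map_mul' := fun y z => Subtype.ext (map_mul (φ l) _ _) }
  obtain ⟨P, hP⟩ := exists_equiv rho (rho.comp τ) hr (by
    funext y
    exact (hinv l hl y (τ y) rfl).symm)
  obtain ⟨c, hc⟩ := exists_scaled hr P
  refine ⟨(l, Units.mk ((c : ℂ) • (P : Module.End ℂ V))
    (((c⁻¹ : ℂˣ) : ℂ) • ((P⁻¹ : (Module.End ℂ V)ˣ) : Module.End ℂ V)) ?_ ?_), ⟨hl, ?_, ?_⟩, rfl⟩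
  · rw [smul_mul_smul_comm, Units.mul_inv, Units.mul_inv, one_smul]
  · rw [smul_mul_smul_comm, Units.inv_mul, Units.inv_mul, one_smul]
  · change LinearMap.det ((c : ℂ) • (P : Module.End ℂ V)) ^ _ = 1
    rw [hc, one_pow]
  · intro y z hz
    change ((c : ℂ) • (P : Module.End ℂ V)) * rho y = rho z * ((c : ℂ) • (P : Module.End ℂ V))
    have h1 : z = τ y := Subtype.ext hz
    rw [smul_mul_assoc, mul_smul_comm, hP y, h1]
    rfl

lemma rho_ne (hr : rho.IsIrreducible) (y : L.comap dl) : rho y ≠ 0 := by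
  have hnt := irr_nontrivial rho hr
  intro h
  have h1 : rho y * rho y⁻¹ = 1 := by rw [← map_mul, mul_inv_cancel, map_one]
  rw [h, zero_mul] at h1
  exact zero_ne_one h1

lemma smul_rho_inj (hr : rho.IsIrreducible) (y : L.comap dl) {c c' : ℂˣ}
    (h : (c : ℂ) • rho y = (c' : ℂ) • rho y) : c = c' := by
  have h1 : ((c : ℂ) - (c' : ℂ)) • rho y = 0 := by rw [sub_smul, h, sub_self]
  rcases smul_eq_zero.1 h1 with h2 | h2
  · exact Units.ext (sub_eq_zero.1 h2)
  · exact absurd h2 (rho_ne hr y)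

/-- the operators over the image of an element of `K` -/
lemma exists_cval (hd2 : ∀ x y, φ (dl x) y = x * y * x⁻¹) (hr : rho.IsIrreducible)
    {x : A × (Module.End ℂ V)ˣ} (hx : x ∈ LT dl φ hd1 L rho)
    (y : L.comap dl) (hy : x.1 = dl (y : K)) :
    ∃ c : ℂˣ, ((x.2 : (Module.End ℂ V)ˣ) : Module.End ℂ V) = (c : ℂ) • rho y := by
  have : Fintype (L.comap dl) := Fintype.ofFinite _
  have hnt := irr_nontrivial rho hr
  obtain ⟨h1, h2, h3⟩ := hx
  obtain ⟨c, hc⟩ := scalar_of_comm rho hr (rho y⁻¹ * ((x.2 : (Module.End ℂ V)ˣ) : Module.End ℂ V)) (by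
    intro m
    have h4 := h3 m (y * m * y⁻¹) (by
      rw [hy, hd2]
      rfl)
    rw [mul_assoc, h4, ← mul_assoc, ← mul_assoc, ← map_mul, ← map_mul]
    congr 2
    group)
  have hc2 : ((x.2 : (Module.End ℂ V)ˣ) : Module.End ℂ V) = c • rho y := by
    have h4 := congrArg (fun T => rho y * T) hc
    simp only [mul_smul_comm, mul_one] at h4
    rw [← h4, ← mul_assoc, ← map_mul, mul_inv_cancel, map_one, one_mul]
  have hc0 : c ≠ 0 := by
    rintro rfl
    rw [zero_smul] at hc2
    have h4 := x.2.mul_inv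
    rw [hc2, zero_mul] at h4
    exact zero_ne_one h4
  exact ⟨Units.mk0 c hc0, hc2⟩

lemma LT_finite (hd2 : ∀ x y, φ (dl x) y = x * y * x⁻¹) (hr : rho.IsIrreducible) :
    Finite (LT dl φ hd1 L rho) := by
  have hnt := irr_nontrivial rho hr
  let f : LT dl φ hd1 L rho →* A := (MonoidHom.fst _ _).comp (LT dl φ hd1 L rho).subtype
  have hfk : Finite f.ker := by
    have h1 : ∀ x : f.ker, ∃ c : ℂˣ, (((x : LT dl φ hd1 L rho) : A × (Module.End ℂ V)ˣ).2 :
        Module.End ℂ V) = (c : ℂ) • 1 ∧ c ^ (Module.finrank ℂ V * Nat.card K) = 1 := by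
      intro x
      obtain ⟨c, hc⟩ := exists_cval hd1 hd2 hr (x : LT dl φ hd1 L rho).2 1 (by
        rw [OneMemClass.coe_one, map_one]
        exact x.2)
      rw [map_one] at hc
      refine ⟨c, hc, ?_⟩
      have h2 := (x : LT dl φ hd1 L rho).2.2.1
      rw [hc, LinearMap.det_smul, map_one, mul_one, ← pow_mul] at h2
      apply Units.ext
      rw [Units.val_pow_eq_pow_val, h2, Units.val_one]
    choose c hc1 hc2 using h1
    have : NeZero (Module.finrank ℂ V * Nat.card K) :=
      ⟨(Nat.mul_pos Module.finrank_pos Nat.card_pos).ne'⟩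
    refine Finite.of_injective (fun x : f.ker => (⟨c x, hc2 x⟩ :
      rootsOfUnity (Module.finrank ℂ V * Nat.card K) ℂ)) (fun x y h => ?_)
    have h2 : c x = c y := congrArg Subtype.val h
    apply Subtype.ext
    apply Subtype.ext
    refine Prod.ext ?_ ?_
    · exact (x.2 : f x = 1).trans (y.2 : f y = 1).symm
    · apply Units.ext
      rw [hc1, hc1, h2]
  have hq : Finite (LT dl φ hd1 L rho ⧸ f.ker) :=
    Finite.of_injective _ (QuotientGroup.kerLift_injective f)
  exact Finite.of_equiv _ (Subgroup.groupEquivQuotientProdSubgroup (s := f.ker)).symm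

end

end Pool.Agent.Helper15.QS
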