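import Pool.Agent.Helper15.QS.Gam

/-!
# A central extension from an invariant representation, II
-/

open scoped Classical BigOperators IsMulCommutative
open Representation Pool.Agent.Helper884.IC Pool.Agent.Y63.AWC Pool.Agent.Helper15.AW

set_option linter.unusedSectionVars false
set_option linter.unusedVariables false
set_option linter.unusedSimpArgs false

attribute [-instance] MonoidHom.decidableMemKer

noncomputable section

namespace Pool.Agent.Helper15.QS

open Pool.Agent.Y63.KR (surfaceWord coords dg cod dg_spec cod_spec cod_pos DZ_iff)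

section

variable {G Q : Type} [Group G] [Finite G] [Group Q] {f : G →* Q} {χ : f.ker →* ℂˣ}

/-- the character of the kernel of the central extension -/
def pqk (h : InvHom f χ) [(kd f χ).Normal] : (pq f χ).ker →* ℂˣ :=
  MonoidHom.mk' (fun y => χ (Classical.choose (pq_ker y.2))) (by
    intro x y
    rw [← map_mul, ← mk_eq_iff (f := f) (χ := χ), Classical.choose_spec (pq_ker (x * y).2),
      Subgroup.coe_mul, Subgroup.coe_mul, map_mul, Classical.choose_spec (pq_ker x.2),
      Classical.choose_spec (pq_ker y.2)])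

lemma pqk_mk (h : InvHom f χ) [(kd f χ).Normal] (x : f.ker)
    (hx : QuotientGroup.mk' (kd f χ) (x : G) ∈ (pq f χ).ker) : pqk h ⟨_, hx⟩ = χ x := by
  change χ (Classical.choose (pq_ker hx)) = χ x
  rw [← mk_eq_iff (f := f) (χ := χ), Classical.choose_spec (pq_ker hx)]

end

/-- an exponent which kills the `p`-part -/
lemma exists_exp2 {p : ℕ} [hp : Fact p.Prime] (M : ℕ) (hM : M ≠ 0) : ∃ e m' : ℕ, ¬ p ∣ m' ∧
    (∀ c : ℂˣ, c ^ M = 1 → (c ^ e) ^ m' = 1) ∧
    ∀ (c : ℂˣ) (k : ℕ), c ^ M = 1 → c ^ k = 1 → ¬ p ∣ k → c ^ e = c := by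
  obtain ⟨a, m', hm', rfl⟩ := Nat.exists_eq_pow_mul_and_not_dvd hM p hp.out.ne_one
  have hcop : Nat.Coprime (p ^ a) m' :=
    Nat.Coprime.pow_left _ ((Nat.Prime.coprime_iff_not_dvd hp.out).2 hm')
  obtain ⟨e, he1, he2⟩ := Nat.chineseRemainder hcop 0 1
  have hpe : p ^ a ∣ e := (Nat.modEq_zero_iff_dvd).1 he1
  refine ⟨e, m', hm', ?_, ?_⟩
  · intro c hc
    obtain ⟨t, rfl⟩ := hpe
    rw [← pow_mul]
    have : p ^ a * t * m' = (p ^ a * m') * t := by ring
    rw [this, pow_mul, hc, one_pow]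
  · intro c k hc hk hpk
    have h1 : c ^ m' = 1 := by
      have h2 : orderOf c ∣ p ^ a * m' := orderOf_dvd_of_pow_eq_one hc
      have h3 : orderOf c ∣ k := orderOf_dvd_of_pow_eq_one hk
      have h4 : Nat.Coprime (orderOf c) (p ^ a) := by
        refine Nat.Coprime.pow_right _ (Nat.Coprime.symm ((Nat.Prime.coprime_iff_not_dvd hp.out).2 ?_))
        exact fun h => hpk (h.trans h3)
      exact orderOf_dvd_iff_pow_eq_one.1 (h4.dvd_of_dvd_mul_left h2)
    have h2 : c ^ e = c ^ 1 := by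
      rw [pow_eq_pow_iff_modEq]
      exact he2.of_dvd (orderOf_dvd_of_pow_eq_one h1)
    rw [h2, pow_one]

section

variable {A K : Type} [Group A] [Finite A] [Group K] [Finite K] {dl : K →* A} {φ : A →* MulAut K}
  (hd1 : ∀ a x, dl (φ a x) = a * dl x * a⁻¹) (hd2 : ∀ x y, φ (dl x) y = x * y * x⁻¹)
  (L : Subgroup A)
  {V : Type} [AddCommGroup V] [Module ℂ V] [FiniteDimensional ℂ V]
  (rho : Representation ℂ (L.comap dl) V)

/-- the action of the pairs -/
abbrev actL : LT dl φ hd1 L rho →* MulAut K :=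
  φ.comp ((MonoidHom.fst A (Module.End ℂ V)ˣ).comp (LT dl φ hd1 L rho).subtype)

/-- the semidirect product -/
abbrev SDP : Type := SemidirectProduct K (LT dl φ hd1 L rho) (actL hd1 L rho)

/-- the projection -/
def sda : SDP hd1 L rho →* A :=
  SemidirectProduct.lift dl ((MonoidHom.fst A (Module.End ℂ V)ˣ).comp (LT dl φ hd1 L rho).subtype)
    (by
      intro g
      ext x
      exact hd1 _ _)

lemma sda_apply (x : SDP hd1 L rho) : sda hd1 L rho x =
    dl x.left * (x.right : A × (Module.End ℂ V)ˣ).1 := rfl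

/-- the element of `K` -/
def yy (x : (sda hd1 L rho).ker) : L.comap dl := ⟨(x : SDP hd1 L rho).left⁻¹, by
  have h1 : dl (x : SDP hd1 L rho).left * ((x : SDP hd1 L rho).right : A × (Module.End ℂ V)ˣ).1
    = 1 := x.2
  rw [Subgroup.mem_comap, map_inv, ← eq_inv_of_mul_eq_one_right h1]
  exact (x : SDP hd1 L rho).right.2.1⟩

lemma yy_fst (x : (sda hd1 L rho).ker) :
    ((x : SDP hd1 L rho).right : A × (Module.End ℂ V)ˣ).1 = dl (yy hd1 L rho x : K) := by
  have h1 : dl (x : SDP hd1 L rho).left * ((x : SDP hd1 L rho).right : A × (Module.End ℂ V)ˣ).1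
    = 1 := x.2
  rw [eq_inv_of_mul_eq_one_right h1]
  exact (map_inv dl _).symm

include hd2 in
lemma exists_cv (hr : rho.IsIrreducible) (x : (sda hd1 L rho).ker) : ∃ c : ℂˣ,
    ((((x : SDP hd1 L rho).right : A × (Module.End ℂ V)ˣ).2 : (Module.End ℂ V)ˣ) :
      Module.End ℂ V) = (c : ℂ) • rho (yy hd1 L rho x) :=
  exists_cval hd1 hd2 hr (x : SDP hd1 L rho).right.2 _ (yy_fst hd1 L rho x)

lemma yy_mul (hd2 : ∀ x y, φ (dl x) y = x * y * x⁻¹) (x y : (sda hd1 L rho).ker) :
    yy hd1 L rho (x * y) = yy hd1 L rho x * yy hd1 L rho y := by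
  apply Subtype.ext
  change ((x : SDP hd1 L rho).left * φ (((x : SDP hd1 L rho).right : A × (Module.End ℂ V)ˣ).1)
    (y : SDP hd1 L rho).left)⁻¹ = _
  rw [yy_fst, hd2]
  change ((x : SDP hd1 L rho).left * ((x : SDP hd1 L rho).left⁻¹ * (y : SDP hd1 L rho).left *
    (x : SDP hd1 L rho).left⁻¹⁻¹))⁻¹ = (x : SDP hd1 L rho).left⁻¹ * (y : SDP hd1 L rho).left⁻¹
  group

/-- the scalars -/
def cch (hd2 : ∀ x y, φ (dl x) y = x * y * x⁻¹) (hr : rho.IsIrreducible) :
    (sda hd1 L rho).ker →* ℂˣ :=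
  MonoidHom.mk' (fun x => Classical.choose (exists_cv hd1 hd2 L rho hr x)) (by
    intro x y
    apply smul_rho_inj hr (yy hd1 L rho (x * y))
    refine (Classical.choose_spec (exists_cv hd1 hd2 L rho hr (x * y))).symm.trans ?_
    have h1 : ((((((x * y : (sda hd1 L rho).ker) : SDP hd1 L rho).right :
        A × (Module.End ℂ V)ˣ)).2 : (Module.End ℂ V)ˣ) : Module.End ℂ V) =
        ((((x : SDP hd1 L rho).right : A × (Module.End ℂ V)ˣ).2 : (Module.End ℂ V)ˣ) :
          Module.End ℂ V) * ((((y : SDP hd1 L rho).right : A × (Module.End ℂ V)ˣ).2 :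
            (Module.End ℂ V)ˣ) : Module.End ℂ V) := rfl
    refine (h1.trans (congrArg₂ (fun S T => S * T)
      (Classical.choose_spec (exists_cv hd1 hd2 L rho hr x))
      (Classical.choose_spec (exists_cv hd1 hd2 L rho hr y)))).trans ?_
    rw [yy_mul hd1 L rho hd2, map_mul, smul_mul_smul_comm, Units.val_mul])

lemma cch_spec (hr : rho.IsIrreducible) (x : (sda hd1 L rho).ker) :
    ((((x : SDP hd1 L rho).right : A × (Module.End ℂ V)ˣ).2 : (Module.End ℂ V)ˣ) :
      Module.End ℂ V) = ((cch hd1 L rho hd2 hr x : ℂˣ) : ℂ) • rho (yy hd1 L rho x) :=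
  Classical.choose_spec (exists_cv hd1 hd2 L rho hr x)

lemma cch_uniq (hr : rho.IsIrreducible) (x : (sda hd1 L rho).ker) (y : L.comap dl)
    (hy : (y : K) = (x : SDP hd1 L rho).left⁻¹) (c : ℂˣ)
    (h : ((((x : SDP hd1 L rho).right : A × (Module.End ℂ V)ˣ).2 : (Module.End ℂ V)ˣ) :
      Module.End ℂ V) = (c : ℂ) • rho y) : cch hd1 L rho hd2 hr x = c := by
  have h1 : y = yy hd1 L rho x := Subtype.ext hy
  apply smul_rho_inj hr (yy hd1 L rho x)
  rw [← cch_spec hd1 hd2, h, h1]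

lemma cch_inv (hr : rho.IsIrreducible) : InvHom (sda hd1 L rho) (cch hd1 L rho hd2 hr) := by
  -- the generators
  have h1 : ∀ (k : K) (x : (sda hd1 L rho).ker), cch hd1 L rho hd2 hr
      (MulAut.conjNormal (SemidirectProduct.inl k : SDP hd1 L rho) x) =
      cch hd1 L rho hd2 hr x := by
    intro k x
    congr 1
    apply Subtype.ext
    rw [MulAut.conjNormal_apply]
    have hy := yy_fst hd1 L rho x
    refine SemidirectProduct.ext ?_ ?_
    · rw [SemidirectProduct.mul_left, SemidirectProduct.mul_left, SemidirectProduct.left_inl,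
        SemidirectProduct.right_inl, map_one, MulAut.one_apply, ← map_inv,
        SemidirectProduct.left_inl, SemidirectProduct.mul_right, SemidirectProduct.right_inl,
        one_mul]
      change k * (x : SDP hd1 L rho).left *
        φ (((x : SDP hd1 L rho).right : A × (Module.End ℂ V)ˣ).1) k⁻¹ = _
      rw [hy, hd2]
      change k * (x : SDP hd1 L rho).left * ((x : SDP hd1 L rho).left⁻¹ * k⁻¹ *
        (x : SDP hd1 L rho).left⁻¹⁻¹) = _
      group
    · rw [SemidirectProduct.mul_right, SemidirectProduct.mul_right, SemidirectProduct.right_inl,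
        ← map_inv, SemidirectProduct.right_inl, one_mul, mul_one]
  have h2 : ∀ (t : LT dl φ hd1 L rho) (x : (sda hd1 L rho).ker), cch hd1 L rho hd2 hr
      (MulAut.conjNormal (SemidirectProduct.inr t : SDP hd1 L rho) x) =
      cch hd1 L rho hd2 hr x := by
    intro t x
    have ht := t.2
    have hl : (MulAut.conjNormal (SemidirectProduct.inr t : SDP hd1 L rho) x :
        SDP hd1 L rho).left = φ (t : A × (Module.End ℂ V)ˣ).1 (x : SDP hd1 L rho).left := by
      rw [MulAut.conjNormal_apply]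
      simp
    refine cch_uniq hd1 hd2 L rho hr _ ⟨_, act_mem dl φ hd1 L ht.1 (yy hd1 L rho x)⟩ ?_ _ ?_
    · rw [hl]
      change φ (t : A × (Module.End ℂ V)ˣ).1 ((x : SDP hd1 L rho).left⁻¹) = _
      rw [map_inv]
    · have h3 : ((((((MulAut.conjNormal (SemidirectProduct.inr t : SDP hd1 L rho) x :
          (sda hd1 L rho).ker) : SDP hd1 L rho).right :
          A × (Module.End ℂ V)ˣ)).2 : (Module.End ℂ V)ˣ) : Module.End ℂ V) =
          ((t : A × (Module.End ℂ V)ˣ).2 : Module.End ℂ V) *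
          ((((x : SDP hd1 L rho).right : A × (Module.End ℂ V)ˣ).2 : (Module.End ℂ V)ˣ) :
            Module.End ℂ V) * ((((t : A × (Module.End ℂ V)ˣ).2)⁻¹ : (Module.End ℂ V)ˣ) :
              Module.End ℂ V) := by
        rw [MulAut.conjNormal_apply]
        rfl
      rw [h3, cch_spec hd1 hd2 L rho hr x, mul_smul_comm, smul_mul_assoc]
      congr 1
      have h4 := ht.2.2 (yy hd1 L rho x) ⟨_, act_mem dl φ hd1 L ht.1 (yy hd1 L rho x)⟩ rfl
      rw [h4, mul_assoc, Units.mul_inv, mul_one]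
  intro g x
  have h3 : MulAut.conjNormal g x = MulAut.conjNormal
      (SemidirectProduct.inl g.left : SDP hd1 L rho) (MulAut.conjNormal
        (SemidirectProduct.inr g.right : SDP hd1 L rho) x) := by
    rw [← MulAut.mul_apply, ← map_mul, SemidirectProduct.inl_left_mul_inr_right]
  rw [h3, h1, h2]

/-- **The central extension.** -/
theorem exists_gamma {p : ℕ} [hp : Fact p.Prime]
    (hd1 : ∀ a x, dl (φ a x) = a * dl x * a⁻¹) (hd2 : ∀ x y, φ (dl x) y = x * y * x⁻¹)
    (L : Subgroup A) (hL : ∀ a : A, ∃ (k : K), ∃ l ∈ L, a = dl k * l)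
    (rho : Representation ℂ (L.comap dl) V) (hr : rho.IsIrreducible)
    (hinv : ∀ l ∈ L, ∀ y z : L.comap dl, (z : K) = φ l (y : K) →
      rho.character z = rho.character y) :
    ∃ (Γ : Type) (_ : Group Γ) (_ : Fintype Γ) (a : Γ →* A) (j : K →* Γ) (κ : a.ker →* ℂˣ),
      Function.Surjective a ∧ a.ker ≤ Subgroup.center Γ ∧ ¬ p ∣ Nat.card a.ker ∧
      (∀ x, a (j x) = dl x) ∧ ∀ (z : L.comap dl) (hz : j (z : K) ∈ a.ker) (w : ℂˣ) (k : ℕ),
        rho z = (w : ℂ) • 1 → w ^ k = 1 → ¬ p ∣ k → κ ⟨_, hz⟩ = w := by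
  have hfin := LT_finite (rho := rho) (L := L) hd1 hd2 hr
  have hfG : Finite (SDP hd1 L rho) :=
    Finite.of_equiv _ (SemidirectProduct.equivProd (φ := actL hd1 L rho)).symm
  have hG0 : Nat.card (SDP hd1 L rho) ≠ 0 := Nat.card_pos.ne'
  obtain ⟨e, m', hm', he1, he2⟩ := exists_exp2 (p := p) (Nat.card (SDP hd1 L rho)) hG0
  have hcM : ∀ x : (sda hd1 L rho).ker, cch hd1 L rho hd2 hr x ^ (Nat.card (SDP hd1 L rho)) = 1 := by
    intro x
    rw [← map_pow]
    have : x ^ (Nat.card (SDP hd1 L rho)) = 1 := by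
      apply Subtype.ext
      rw [Subgroup.coe_pow, pow_card_eq_one']
      rfl
    rw [this, map_one]
  set χ : (sda hd1 L rho).ker →* ℂˣ := (cch hd1 L rho hd2 hr) ^ e with hχ
  have hχa : ∀ x, χ x = (cch hd1 L rho hd2 hr x) ^ e := fun x => rfl
  have hinvχ : InvHom (sda hd1 L rho) χ := by
    intro g x
    rw [hχa, hχa, cch_inv hd1 hd2 L rho hr]
  have hn := kd_normal hinvχ
  have hsurj : Function.Surjective (sda hd1 L rho) := by
    intro a
    obtain ⟨k, l, hl, rfl⟩ := hL a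
    obtain ⟨t, ht, htl⟩ := exists_LT hd1 hr hinv hl
    refine ⟨⟨k, ⟨t, ht⟩⟩, ?_⟩
    rw [sda_apply]
    change dl k * t.1 = _
    rw [htl]
  refine ⟨SDP hd1 L rho ⧸ kd (sda hd1 L rho) χ, inferInstance, Fintype.ofFinite _,
    pq (sda hd1 L rho) χ, (QuotientGroup.mk' (kd (sda hd1 L rho) χ)).comp SemidirectProduct.inl,
    pqk hinvχ, pq_surj hsurj, pq_central hinvχ, ?_, ?_, ?_⟩
  · rw [pq_card]
    intro h
    have hfr : Finite χ.range := Finite.of_surjective _ χ.rangeRestrict_surjective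
    obtain ⟨x, hx⟩ := exists_prime_orderOf_dvd_card' p h
    have h1 : x ^ m' = 1 := by
      obtain ⟨y, hy⟩ := x.2
      apply Subtype.ext
      rw [Subgroup.coe_pow, ← hy, hχa, he1 _ (hcM y)]
      rfl
    exact hm' (hx ▸ orderOf_dvd_of_pow_eq_one h1)
  · intro x
    change pq (sda hd1 L rho) χ (QuotientGroup.mk' (kd (sda hd1 L rho) χ)
      (SemidirectProduct.inl x)) = _
    rw [pq_mk, sda_apply]
    simp
  · intro z hz w k hw hwk hpk
    have hz1 : dl (z : K) = 1 := by
      have h1 : pq (sda hd1 L rho) χ (QuotientGroup.mk' (kd (sda hd1 L rho) χ)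
        (SemidirectProduct.inl (z : K))) = 1 := hz
      rw [pq_mk, sda_apply] at h1
      simpa using h1
    have hz2 : (SemidirectProduct.inl (z : K) : SDP hd1 L rho) ∈ (sda hd1 L rho).ker := by
      rw [MonoidHom.mem_ker, sda_apply]
      simpa using hz1
    have h2 : pqk hinvχ ⟨_, hz⟩ = χ ⟨_, hz2⟩ := pqk_mk hinvχ ⟨_, hz2⟩ hz
    rw [h2, hχa]
    have h3 : cch hd1 L rho hd2 hr ⟨_, hz2⟩ = w := by
      refine cch_uniq hd1 hd2 L rho hr _ z⁻¹ rfl w ?_
      have h4 : rho z⁻¹ = ((w⁻¹ : ℂˣ) : ℂ) • 1 := by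
        have h5 : rho z * rho z⁻¹ = 1 := by rw [← map_mul, mul_inv_cancel, map_one]
        rw [hw, smul_mul_assoc, one_mul] at h5
        rw [← h5, smul_smul, Units.inv_mul, one_smul]
      rw [h4, smul_smul, Units.mul_inv, one_smul]
      change ((((1 : LT dl φ hd1 L rho) : A × (Module.End ℂ V)ˣ).2 : (Module.End ℂ V)ˣ) :
        Module.End ℂ V) = 1
      simp
    rw [h3]
    refine he2 w k ?_ hwk hpk
    rw [← h3]
    exact hcM _

end

end Pool.Agent.Helper15.QS
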