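import Pool.Agent.Helper15.QS.Dbl

/-!
# Homogeneous restrictions
-/

open scoped Classical BigOperators IsMulCommutative
open Representation Pool.Agent.Helper884.IC Pool.Agent.Y63.AWC Pool.Agent.Helper15.AW

set_option linter.unusedSectionVars false
set_option linter.unusedVariables false
set_option linter.unusedSimpArgs false

attribute [-instance] MonoidHom.decidableMemKer

noncomputable section

namespace Pool.Agent.Helper15.QS

open Pool.Agent.Y63.KR (surfaceWord coords dg cod dg_spec cod_spec cod_pos DZ_iff)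

lemma char_mul {G : Type} [Group G] [Fintype G] {theta : G → ℂ} (ht : IsIrrChar theta) (x z : G) :
    ∑ y : G, theta (y * x * y⁻¹ * z) = (Nat.card G : ℂ) / theta 1 * theta x * theta z := by
  obtain ⟨V, _, _, _, rho, hr, rfl⟩ := ht
  have h1 := congrArg (fun T => LinearMap.trace ℂ V (T * rho z)) (avg_scalar rho hr (rho x))
  simp only [Finset.sum_mul, map_sum, smul_mul_assoc, one_mul, map_smul, smul_eq_mul,
    ← map_mul] at h1
  exact h1

theorem homog {M L0 : Type} [Group M] [Fintype M] [Group L0] [Fintype L0] (j : L0 →* M)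
    (hcov : ∀ m : M, ∃ (x : L0) (c : M), m = j x * c ∧ ∀ y, c * j y = j y * c) {Theta : M → ℂ}
    (hT : IsIrrChar Theta) : ∃ theta : L0 → ℂ, IsIrrChar theta ∧
      ∀ x, theta x * Theta 1 = Theta (j x) * theta 1 := by
  have hT1 : Theta 1 ≠ 0 := one_ne hT
  obtain ⟨W, _, _, _, R, hR, rfl⟩ := hT
  set f : L0 → ℂ := fun x => R.character (j x) with hf
  have hfc : IsClass f := by
    intro g y
    simp only [hf, map_mul, map_inv]
    exact R.char_conj _ _
  have hf1 : f 1 = R.character 1 := by simp only [hf, map_one]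
  -- the scalars
  have hsc : ∀ x : L0, ∃ w : ℂ, ∀ z, ∑ y : L0, f (y * x * y⁻¹ * z) = w * f z := by
    intro x
    obtain ⟨w, hw⟩ := scalar_of_comm R hR (∑ y : L0, R (j (y * x * y⁻¹))) (by
      intro m
      obtain ⟨a, c, rfl, hc⟩ := hcov m
      have h1 : (∑ y : L0, R (j (y * x * y⁻¹))) * R (j a) =
          R (j a) * ∑ y : L0, R (j (y * x * y⁻¹)) := by
        rw [Finset.sum_mul, Finset.mul_sum]
        refine Fintype.sum_equiv (Equiv.mulLeft a⁻¹) _ _ fun y => ?_
        rw [Equiv.coe_mulLeft, ← map_mul, ← map_mul, ← map_mul, ← map_mul]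
        congr 2
        group
      have h2 : (∑ y : L0, R (j (y * x * y⁻¹))) * R c =
          R c * ∑ y : L0, R (j (y * x * y⁻¹)) := by
        rw [Finset.sum_mul, Finset.mul_sum]
        refine Finset.sum_congr rfl fun y _ => ?_
        rw [← map_mul, ← map_mul, hc]
      rw [map_mul, ← mul_assoc, h1, mul_assoc, h2, mul_assoc])
    refine ⟨w, fun z => ?_⟩
    have h1 := congrArg (fun T => LinearMap.trace ℂ W (T * R (j z))) hw
    simp only [Finset.sum_mul, map_sum, smul_mul_assoc, one_mul, map_smul, smul_eq_mul,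
      ← map_mul] at h1
    exact h1
  choose w hw using hsc
  have hw1 : ∀ x, (Nat.card L0 : ℂ) * f x = w x * f 1 := by
    intro x
    rw [← hw x 1]
    simp only [mul_one]
    rw [Finset.sum_congr rfl fun y _ => hfc x y, Finset.sum_const, Finset.card_univ, nsmul_eq_mul,
      Nat.card_eq_fintype_card]
  -- a constituent
  obtain ⟨theta, ht, hne⟩ : ∃ theta ∈ Irr L0, B f theta ≠ 0 := by
    by_contra hcon
    push Not at hcon
    have h1 := expand f hfc
    have h2 := congrFun h1 1
    rw [Finset.sum_apply, Finset.sum_eq_zero] at h2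
    · rw [hf1] at h2
      exact hT1 h2
    · intro chi hchi
      rw [Pi.smul_apply, hcon chi hchi, zero_smul]
  have hti := mem_Irr.1 ht
  refine ⟨theta, hti, fun x => ?_⟩
  have hn : theta 1 ≠ 0 := one_ne hti
  -- comparison of the scalars
  have h1 : ∀ chi ∈ Irr L0, ∀ z, ∑ y : L0, chi (y * x * y⁻¹ * z) =
      ((Nat.card L0 : ℂ) / chi 1 * chi x) * chi z := fun chi hchi z => char_mul (mem_Irr.1 hchi) x z
  have h2 : (∑ chi ∈ Irr L0, (B f chi * ((Nat.card L0 : ℂ) / chi 1 * chi x)) • chi) =
      (w x) • f := by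
    funext z
    rw [Finset.sum_apply, Pi.smul_apply, smul_eq_mul, ← hw x z]
    have h3 : ∀ y : L0, f (y * x * y⁻¹ * z) = ∑ chi ∈ Irr L0, B f chi * chi (y * x * y⁻¹ * z) := by
      intro y
      have h4 := congrFun (expand f hfc) (y * x * y⁻¹ * z)
      rw [Finset.sum_apply] at h4
      exact h4
    rw [Finset.sum_congr rfl fun y _ => h3 y, Finset.sum_comm]
    refine Finset.sum_congr rfl fun chi hchi => ?_
    rw [← Finset.mul_sum, h1 chi hchi z, Pi.smul_apply, smul_eq_mul]
    ring
  have h3 := congrArg (fun F => B F theta) h2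
  simp only [B_sum_left, B_smul_left] at h3
  rw [Finset.sum_eq_single_of_mem theta ht] at h3
  · rw [B_irr hti hti, if_pos rfl, mul_one, mul_comm (w x)] at h3
    have h4 := mul_left_cancel₀ hne h3
    have h5 := hw1 x
    rw [← h4] at h5
    have hc : (Nat.card L0 : ℂ) ≠ 0 := cardG_ne
    rw [← hf1]
    change theta x * f 1 = f x * theta 1
    field_simp at h5
    rw [h5]
  · intro chi hchi hne2
    rw [B_irr (mem_Irr.1 hchi) hti, if_neg hne2, mul_zero]

end Pool.Agent.Helper15.QS
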