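import Pool.Agent.Helper15.AWC.Nav

/-!
# Induced extensions

Let `B₁` be a subgroup of `B` and `π : Γ → B₁` a homomorphism. The group `Ind π` consists of the pairs
`(b, f)` with `b ∈ B` and `f : B/B₁ → Γ` such that `π (f i)` is the element of `B₁` which belongs to
the action of `b` on the coset `i`.
-/

open scoped Classical BigOperators

set_option linter.unusedSectionVars false
set_option linter.unusedVariables false
set_option linter.unusedSimpArgs false

noncomputable section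

namespace Pool.Agent.Helper15.QS

variable {B : Type} [Group B] {B1 : Subgroup B} {Γ : Type} [Group Γ]

lemma kp_mem (B1 : Subgroup B) (b : B) (i : B ⧸ B1) : ((b • i).out)⁻¹ * b * i.out ∈ B1 := by
  rw [mul_assoc, ← QuotientGroup.eq]
  have h1 : (((b • i).out : B) : B ⧸ B1) = b • i := Quotient.out_eq _
  have h2 : ((i.out : B) : B ⧸ B1) = i := Quotient.out_eq _
  rw [h1]
  change b • i = b • ((i.out : B) : B ⧸ B1)
  rw [h2]

/-- the cocycle of the transversal -/
def kp (B1 : Subgroup B) (b : B) (i : B ⧸ B1) : B1 := ⟨((b • i).out)⁻¹ * b * i.out, kp_mem B1 b i⟩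

lemma kp_coe (b : B) (i : B ⧸ B1) : (kp B1 b i : B) = ((b • i).out)⁻¹ * b * i.out := rfl

lemma kp_mul (b c : B) (i : B ⧸ B1) : kp B1 (b * c) i = kp B1 b (c • i) * kp B1 c i := by
  apply Subtype.ext
  rw [Subgroup.coe_mul, kp_coe, kp_coe, kp_coe, mul_smul]
  group

lemma kp_one (i : B ⧸ B1) : kp B1 1 i = 1 := by
  apply Subtype.ext
  rw [kp_coe, one_smul]
  simp

lemma kp_inv (b : B) (i : B ⧸ B1) : (kp B1 b (b⁻¹ • i))⁻¹ = kp B1 b⁻¹ i := by
  rw [inv_eq_iff_mul_eq_one, ← kp_mul, mul_inv_cancel, kp_one]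

/-- the induced extension -/
@[ext]
structure Ind (π : Γ →* B1) where
  fst : B
  snd : B ⧸ B1 → Γ
  prop : ∀ i, π (snd i) = kp B1 fst i

namespace Ind

variable {π : Γ →* B1}

instance : Mul (Ind π) := ⟨fun x y => ⟨x.fst * y.fst, fun i => x.snd (y.fst • i) * y.snd i, by
  intro i
  rw [map_mul, x.prop, y.prop, kp_mul]⟩⟩

instance : One (Ind π) := ⟨⟨1, 1, by
  intro i
  rw [Pi.one_apply, map_one, kp_one]⟩⟩

instance : Inv (Ind π) := ⟨fun x => ⟨x.fst⁻¹, fun i => (x.snd (x.fst⁻¹ • i))⁻¹, by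
  intro i
  rw [map_inv, x.prop, kp_inv]⟩⟩

@[simp] lemma mul_fst (x y : Ind π) : (x * y).fst = x.fst * y.fst := rfl
@[simp] lemma mul_snd (x y : Ind π) (i : B ⧸ B1) :
    (x * y).snd i = x.snd (y.fst • i) * y.snd i := rfl
@[simp] lemma one_fst : (1 : Ind π).fst = 1 := rfl
@[simp] lemma one_snd (i : B ⧸ B1) : (1 : Ind π).snd i = 1 := rfl
@[simp] lemma inv_fst (x : Ind π) : (x⁻¹).fst = x.fst⁻¹ := rfl
@[simp] lemma inv_snd (x : Ind π) (i : B ⧸ B1) : (x⁻¹).snd i = (x.snd (x.fst⁻¹ • i))⁻¹ := rfl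

instance : Group (Ind π) := Group.ofLeftAxioms
  (by
    intro x y z
    refine Ind.ext (mul_assoc _ _ _) (funext fun i => ?_)
    simp only [mul_snd, mul_fst, mul_smul, mul_assoc])
  (by
    intro x
    refine Ind.ext (one_mul _) (funext fun i => ?_)
    simp only [mul_snd, one_snd, one_mul])
  (by
    intro x
    refine Ind.ext (inv_mul_cancel _) (funext fun i => ?_)
    simp only [mul_snd, inv_snd, inv_smul_smul, inv_mul_cancel, one_snd])

/-- the projection to `B` -/
def fstHom (π : Γ →* B1) : Ind π →* B where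
  toFun := Ind.fst
  map_one' := rfl
  map_mul' _ _ := rfl

@[simp] lemma fstHom_apply (x : Ind π) : fstHom π x = x.fst := rfl

lemma fstHom_surj (hπ : Function.Surjective π) : Function.Surjective (fstHom π) := by
  intro b
  choose s hs using hπ
  exact ⟨⟨b, fun i => s (kp B1 b i), fun i => hs _⟩, rfl⟩

instance [Finite B] [Finite Γ] : Finite (Ind π) :=
  Finite.of_injective (fun x : Ind π => (x.fst, x.snd)) (by
    intro x y h
    exact Ind.ext (congrArg Prod.fst h) (congrArg Prod.snd h))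

instance [Finite B] [Finite Γ] : Fintype (Ind π) := Fintype.ofFinite _

/-- functoriality -/
def map {Γ' : Type} [Group Γ'] {π' : Γ' →* B1} (φ : Γ →* Γ') (h : ∀ x, π' (φ x) = π x) :
    Ind π →* Ind π' where
  toFun x := ⟨x.fst, fun i => φ (x.snd i), fun i => by rw [h, x.prop]⟩
  map_one' := Ind.ext rfl (funext fun _ => map_one φ)
  map_mul' _ _ := Ind.ext rfl (funext fun _ => map_mul φ _ _)

@[simp] lemma map_fst {Γ' : Type} [Group Γ'] {π' : Γ' →* B1} (φ : Γ →* Γ')
    (h : ∀ x, π' (φ x) = π x) (x : Ind π) : (map φ h x).fst = x.fst := rfl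

@[simp] lemma map_snd {Γ' : Type} [Group Γ'] {π' : Γ' →* B1} (φ : Γ →* Γ')
    (h : ∀ x, π' (φ x) = π x) (x : Ind π) (i : B ⧸ B1) : (map φ h x).snd i = φ (x.snd i) := rfl

/-- the elements over `1` -/
def inc (π : Γ →* B1) : (B ⧸ B1 → π.ker) →* Ind π where
  toFun k := ⟨1, fun i => k i, fun i => by rw [kp_one]; exact (k i).2⟩
  map_one' := rfl
  map_mul' k l := Ind.ext (one_mul _).symm (funext fun i => by
    simp only [mul_snd, one_smul]
    rfl)

@[simp] lemma inc_fst (k : B ⧸ B1 → π.ker) : (inc π k).fst = 1 := rfl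
@[simp] lemma inc_snd (k : B ⧸ B1 → π.ker) (i : B ⧸ B1) : (inc π k).snd i = k i := rfl

lemma snd_mem_ker {x : Ind π} (hx : x.fst = 1) (i : B ⧸ B1) : x.snd i ∈ π.ker := by
  rw [MonoidHom.mem_ker, x.prop, hx, kp_one]

/-- the kernel of the projection is a power -/
def kerEquiv (π : Γ →* B1) : (B ⧸ B1 → π.ker) ≃* (fstHom π).ker where
  toFun k := ⟨inc π k, rfl⟩
  invFun x := fun i => ⟨(x : Ind π).snd i, snd_mem_ker x.2 i⟩
  left_inv k := funext fun i => Subtype.ext rfl
  right_inv x := Subtype.ext (Ind.ext (x.2.symm) (funext fun i => rfl))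
  map_mul' k l := Subtype.ext (map_mul _ _ _)

lemma kerEquiv_snd (k : B ⧸ B1 → π.ker) (i : B ⧸ B1) : (kerEquiv π k : Ind π).snd i = k i := rfl

lemma kerEquiv_symm (x : (fstHom π).ker) (i : B ⧸ B1) :
    (((kerEquiv π).symm x i : π.ker) : Γ) = (x : Ind π).snd i := rfl

/-- the conjugate of an element over `1` -/
lemma conj_snd (h x : Ind π) (hx : x.fst = 1) (i : B ⧸ B1) :
    (h * x * h⁻¹).snd (h.fst • i) = h.snd i * x.snd i * (h.snd i)⁻¹ := by
  simp only [mul_snd, inv_snd, mul_fst, inv_fst, hx, mul_one, one_smul, inv_smul_smul]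

lemma conj_snd' (h x : Ind π) (hx : x.fst = 1) (i : B ⧸ B1) :
    (h * x * h⁻¹).snd i = h.snd (h.fst⁻¹ • i) * x.snd (h.fst⁻¹ • i) * (h.snd (h.fst⁻¹ • i))⁻¹ := by
  simp only [mul_snd, inv_snd, inv_fst, hx, one_smul]

lemma conj_fst (h x : Ind π) (hx : x.fst = 1) : (h * x * h⁻¹).fst = 1 := by
  simp [hx]

end Ind

end Pool.Agent.Helper15.QS
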