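import Pool.Agent.Helper15.QS.Msk

/-!
# The number of the generating lifts through a normal `p`-subgroup
-/

open scoped Classical BigOperators
open Representation Pool.Agent.Helper884.IC Pool.Agent.Y63.AWC Pool.Agent.Helper15.AW

set_option linter.unusedSectionVars false
set_option linter.unusedVariables false
set_option linter.unusedSimpArgs false

attribute [-instance] MonoidHom.decidableMemKer

noncomputable section

namespace Pool.Agent.Helper15.QS

open Pool.Agent.Y63.KR (surfaceWord coords dg cod dg_spec cod_spec cod_pos DZ_iff)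

/-- the number of the generating lifts -/
def gl {Q A : Type} [Group Q] [Group A] (f : Q →* A) {g : ℕ} (a : Fin g → A × A) : ℕ :=
  Nat.card {q : Fin g → Q × Q // (surfaceWord q = 1 ∧ Subgroup.closure (coords q) = ⊤) ∧
    mapT f q = a}

lemma mapT_comp {g : ℕ} {X Y Z : Type} (f : X → Y) (h : Y → Z) (q : Fin g → X × X) :
    mapT h (mapT f q) = mapT (fun x => h (f x)) q := rfl

section

variable {Q A : Type} [Group Q] [Fintype Q] [Group A] {p : ℕ} [hp : Fact p.Prime]

/-- the map on the quotient -/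
def fbar (V : Subgroup Q) [V.Normal] (f : Q →* A) (hVf : V ≤ f.ker) : Q ⧸ V →* A :=
  QuotientGroup.lift V f hVf

lemma fbar_mk (V : Subgroup Q) [V.Normal] (f : Q →* A) (hVf : V ≤ f.ker) (x : Q) :
    fbar V f hVf (QuotientGroup.mk' V x) = f x := rfl

theorem gl_step (V : Subgroup Q) [V.Normal] (f : Q →* A) (hVf : V ≤ f.ker)
    (hV : IsPGroup p V) (hV1 : V ≠ ⊥) (hcomm : ∀ x ∈ V, ∀ y ∈ V, x * y = y * x)
    (hmin : ∀ W : Subgroup Q, W.Normal → W ≤ V → W = ⊥ ∨ W = V) {n N : ℕ} (hn : 0 < n)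
    (hd : p ^ N * (p - 1) ∣ n) (a : Fin (n + 1) → A × A) :
    (p : ℤ) ^ (N + 1) ∣ (gl f a : ℤ) + (ncomp V : ℤ) * (gl (fbar V f hVf) a : ℤ) := by
  have h1 : gl f a = ∑ r : Fin (n + 1) → (Q ⧸ V) × (Q ⧸ V), Nat.card {q : Fin (n + 1) → Q × Q //
      ((surfaceWord q = 1 ∧ Subgroup.closure (coords q) = ⊤) ∧ mapT f q = a) ∧
        mapT (QuotientGroup.mk' V) q = r} := by
    unfold gl
    rw [← fiber_sum (fun q : Fin (n + 1) → Q × Q =>
      (surfaceWord q = 1 ∧ Subgroup.closure (coords q) = ⊤) ∧ mapT f q = a)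
      (fun q => mapT (QuotientGroup.mk' V) q)]
  have h2 : (ncomp V : ℤ) * (gl (fbar V f hVf) a : ℤ) =
      ∑ r : Fin (n + 1) → (Q ⧸ V) × (Q ⧸ V),
        if (surfaceWord r = 1 ∧ Subgroup.closure (coords r) = ⊤) ∧ mapT (fbar V f hVf) r = a then
          (ncomp V : ℤ) else 0 := by
    rw [← Finset.sum_filter, Finset.sum_const, nsmul_eq_mul, mul_comm]
    congr 2
    unfold gl
    rw [Nat.card_eq_fintype_card, Fintype.card_subtype]
  rw [h2, h1, Nat.cast_sum, ← Finset.sum_add_distrib]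
  refine Finset.dvd_sum fun r _ => ?_
  by_cases hr : (surfaceWord r = 1 ∧ Subgroup.closure (coords r) = ⊤) ∧
      mapT (fbar V f hVf) r = a
  · rw [if_pos hr]
    have h3 := gen_lifts V hV hV1 hcomm hmin hn hd r hr.1.1 hr.1.2
    have h4 : Nat.card {q : Fin (n + 1) → Q × Q //
        ((surfaceWord q = 1 ∧ Subgroup.closure (coords q) = ⊤) ∧ mapT f q = a) ∧
        mapT (QuotientGroup.mk' V) q = r} = Nat.card {q : Fin (n + 1) → Q × Q //
        (surfaceWord q = 1 ∧ Subgroup.closure (coords q) = ⊤) ∧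
        mapT (QuotientGroup.mk' V) q = r} := by
      refine Nat.card_congr (Equiv.subtypeEquivRight fun q => ?_)
      constructor
      · rintro ⟨⟨h5, _⟩, h6⟩
        exact ⟨h5, h6⟩
      · rintro ⟨h5, h6⟩
        refine ⟨⟨h5, ?_⟩, h6⟩
        rw [← hr.2, ← h6]
        rfl
    rw [h4]
    exact h3
  · rw [if_neg hr, add_zero]
    have h4 : Nat.card {q : Fin (n + 1) → Q × Q //
        ((surfaceWord q = 1 ∧ Subgroup.closure (coords q) = ⊤) ∧ mapT f q = a) ∧
        mapT (QuotientGroup.mk' V) q = r} = 0 := by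
      rw [Nat.card_eq_zero]
      left
      constructor
      rintro ⟨q, ⟨⟨h5, h6⟩, h7⟩, h8⟩
      apply hr
      refine ⟨⟨?_, ?_⟩, ?_⟩
      · rw [← h8, word_mapT, h5, map_one]
      · rw [← h8, closure_mapT, h6, Subgroup.map_top_of_surjective _
          (QuotientGroup.mk'_surjective V)]
      · rw [← h8, ← h7]
        rfl
    rw [h4]
    simp

lemma gl_one (f : Q →* A) (hf : Function.Bijective f) {g : ℕ} (a : Fin g → A × A)
    (ha1 : surfaceWord a = 1) (ha2 : Subgroup.closure (coords a) = ⊤) : gl f a = 1 := by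
  unfold gl
  rw [Nat.card_eq_one_iff_unique]
  obtain ⟨q, hq⟩ := exists_liftT f hf.2 a
  constructor
  · constructor
    rintro ⟨q, _, h1⟩ ⟨q', _, h2⟩
    apply Subtype.ext
    funext i
    have h3 := congrFun (h1.trans h2.symm) i
    exact Prod.ext (hf.1 (congrArg Prod.fst h3)) (hf.1 (congrArg Prod.snd h3))
  · refine ⟨⟨q, ⟨?_, ?_⟩, hq⟩⟩
    · apply hf.1
      rw [← word_mapT, hq, ha1, map_one]
    · have h1 := gen_lift f hf.2 q (by rw [hq, ha2])
      rwa [(MonoidHom.ker_eq_bot_iff f).2 hf.1, sup_bot_eq] at h1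

/-- minimal normal subgroups in the center of a normal `p`-subgroup -/
lemma exists_minimal (P : Subgroup Q) [hPn : P.Normal] (hP : IsPGroup p P) (R : Subgroup Q)
    [hRn : R.Normal] (hRP : R ≤ P) (hR : R ≠ ⊥) :
    ∃ V : Subgroup Q, V.Normal ∧ V ≤ R ∧ V ≠ ⊥ ∧ (∀ x ∈ V, ∀ y ∈ P, x * y = y * x) ∧
      ∀ W : Subgroup Q, W.Normal → W ≤ V → W = ⊥ ∨ W = V := by
  -- the intersection with the centralizer is nontrivial
  have h1 : R ⊓ Subgroup.centralizer (P : Set Q) ≠ ⊥ := by
    have hnt : Nontrivial R := (Subgroup.nontrivial_iff_ne_bot R).2 hR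
    let act : MulAction P R := MulAction.compHom R
      ((MulAut.conjNormal : Q →* MulAut R).comp P.subtype)
    have hRp : IsPGroup p R := hP.to_le hRP
    have hdvd : p ∣ Nat.card R := by
      obtain ⟨k, hk⟩ := (IsPGroup.iff_card).1 hRp
      rw [hk]
      refine dvd_pow_self p ?_
      rintro rfl
      rw [pow_zero] at hk
      exact (Finite.one_lt_card (α := R)).ne' hk
    have hsm : ∀ (x : P) (y : R), ((x • y : R) : Q) = x * y * (x : Q)⁻¹ := fun x y =>
      MulAut.conjNormal_apply _ _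
    obtain ⟨b, hb, hb1⟩ := hP.exists_fixed_point_of_prime_dvd_card_of_fixed_point R hdvd
      (a := (1 : R)) (by
        intro x
        apply Subtype.ext
        rw [hsm]
        simp)
    intro h2
    have h3 : (b : Q) ∈ R ⊓ Subgroup.centralizer (P : Set Q) := by
      refine Subgroup.mem_inf.2 ⟨b.2, ?_⟩
      rw [Subgroup.mem_centralizer_iff]
      intro x hx
      have h4 := congrArg Subtype.val (hb ⟨x, hx⟩)
      rw [hsm] at h4
      change x * (b : Q) * x⁻¹ = b at h4
      calc x * (b : Q) = (x * b * x⁻¹) * x := by group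
        _ = b * x := by rw [h4]
    rw [h2, Subgroup.mem_bot] at h3
    exact hb1 (Subtype.ext h3.symm)
  have hn : (R ⊓ Subgroup.centralizer (P : Set Q)).Normal := by
    have : (Subgroup.centralizer (P : Set Q)).Normal := by
      constructor
      intro x hx y
      rw [Subgroup.mem_centralizer_iff] at hx ⊢
      intro z hz
      have h2 := hx (y⁻¹ * z * y) (by
        have := hPn.conj_mem z hz y⁻¹
        rwa [inv_inv] at this)
      calc z * (y * x * y⁻¹) = y * ((y⁻¹ * z * y) * x) * y⁻¹ := by group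
        _ = y * (x * (y⁻¹ * z * y)) * y⁻¹ := by rw [h2]
        _ = _ := by group
    infer_instance
  obtain ⟨V, ⟨hVn, hVR, hV1⟩, hmin⟩ := WellFounded.has_min (wellFounded_lt (α := Subgroup Q))
    {V | V.Normal ∧ V ≤ R ⊓ Subgroup.centralizer (P : Set Q) ∧ V ≠ ⊥}
    ⟨R ⊓ Subgroup.centralizer (P : Set Q), hn, le_rfl, h1⟩
  refine ⟨V, hVn, hVR.trans inf_le_left, hV1, fun x hx y hy => ?_, fun W hW hWV => ?_⟩
  · exact (Subgroup.mem_centralizer_iff.1 (hVR.trans inf_le_right hx) y hy).symm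
  · by_contra hcon
    push Not at hcon
    exact hmin W ⟨hW, hWV.trans hVR, hcon.1⟩ (lt_of_le_of_ne hWV hcon.2)

end

/-- **The number of the generating lifts is constant modulo a power of `p`.** -/
theorem exists_kap {p : ℕ} [hp : Fact p.Prime] (A : Type) [Group A] [Finite A] (m : ℕ) :
    ∀ (Q : Type) [Group Q] [Fintype Q] (f : Q →* A), Nat.card Q ≤ m → Function.Surjective f →
      IsPGroup p f.ker → ∃ κ : ℤ, (∀ n N : ℕ, 0 < n → p ^ N * (p - 1) ∣ n →
        ∀ a : Fin (n + 1) → A × A, surfaceWord a = 1 → Subgroup.closure (coords a) = ⊤ →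
          (p : ℤ) ^ (N + 1) ∣ (gl f a : ℤ) - κ) ∧
        (¬ p ∣ Nat.card A → (∀ x ∈ f.ker, ∀ y ∈ f.ker, x * y = y * x) →
          (∀ x ∈ f.ker, x ^ p = 1) → κ ≠ 0) := by
  induction m with
  | zero =>
    intro Q _ _ f h
    have h0 : 0 < Nat.card Q := Nat.card_pos
    omega
  | succ m ih =>
    intro Q _ _ f hm hf hP
    by_cases hker : f.ker = ⊥
    · refine ⟨1, ?_, fun _ _ _ => one_ne_zero⟩
      intro n N hn hd a ha1 ha2
      rw [gl_one f ⟨(MonoidHom.ker_eq_bot_iff f).1 hker, hf⟩ a ha1 ha2]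
      simp
    · obtain ⟨V, hVn, hVR, hV1, hVc, hVm⟩ := exists_minimal (p := p) f.ker hP f.ker le_rfl hker
      have hVp : IsPGroup p V := hP.to_le hVR
      have hcard : Nat.card (Q ⧸ V) ≤ m := by
        have := card_quot_lt V hV1
        omega
      have hfs : Function.Surjective (fbar V f hVR) := by
        intro a
        obtain ⟨x, rfl⟩ := hf a
        exact ⟨QuotientGroup.mk' V x, rfl⟩
      have hkerb : ∀ y ∈ (fbar V f hVR).ker, ∃ x ∈ f.ker, QuotientGroup.mk' V x = y := by
        intro y hy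
        obtain ⟨x, rfl⟩ := QuotientGroup.mk'_surjective V y
        exact ⟨x, hy, rfl⟩
      have hPb : IsPGroup p (fbar V f hVR).ker := by
        rintro ⟨y, hy⟩
        obtain ⟨x, hx, rfl⟩ := hkerb y hy
        obtain ⟨k, hk⟩ := hP ⟨x, hx⟩
        refine ⟨k, Subtype.ext ?_⟩
        have h1 : x ^ p ^ k = 1 := congrArg Subtype.val hk
        change (QuotientGroup.mk' V x) ^ p ^ k = 1
        rw [← map_pow, h1, map_one]
      obtain ⟨κ, h1, h2⟩ := ih (Q ⧸ V) (fbar V f hVR) hcard hfs hPb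
      refine ⟨-(ncomp V : ℤ) * κ, ?_, ?_⟩
      · intro n N hn hd a ha1 ha2
        have h3 := gl_step V f hVR hVp hV1 (fun x hx y hy => hVc x hx y (hVR hy)) hVm hn hd a
        have h4 := h1 n N hn hd a ha1 ha2
        have h5 : (gl f a : ℤ) - -(ncomp V : ℤ) * κ =
            ((gl f a : ℤ) + (ncomp V : ℤ) * (gl (fbar V f hVR) a : ℤ)) -
            (ncomp V : ℤ) * ((gl (fbar V f hVR) a : ℤ) - κ) := by ring
        rw [h5]
        exact dvd_sub h3 (Dvd.dvd.mul_left h4 _)
      · intro hA hc he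
        refine mul_ne_zero ?_ (h2 hA ?_ ?_)
        · rw [neg_ne_zero, Nat.cast_ne_zero]
          have hidx : f.ker.index = Nat.card A := by
            rw [Subgroup.index_ker, MonoidHom.range_eq_top_of_surjective f hf, Subgroup.card_top]
          have hcop : Nat.Coprime (Nat.card f.ker) f.ker.index := by
            rw [hidx]
            obtain ⟨k, hk⟩ := (IsPGroup.iff_card).1 hP
            rw [hk]
            exact Nat.Coprime.pow_left _ ((Nat.Prime.coprime_iff_not_dvd hp.out).2 hA)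
          obtain ⟨A', hA'⟩ := Subgroup.exists_right_complement'_of_coprime hcop
          have hA'c : ¬ p ∣ Nat.card A' := by
            rw [← hA'.symm.index_eq_card, hidx]
            exact hA
          obtain ⟨D, hD1, hD2⟩ := exists_compl (p := p) f.ker hc he A' hA'c hA' V hVR
          unfold ncomp
          have : Nonempty {D : Subgroup Q // D ⊓ V = ⊥ ∧ D ⊔ V = ⊤} := ⟨⟨D, hD1, hD2⟩⟩
          exact Nat.card_pos.ne'
        · intro x hx y hy
          obtain ⟨x, hx', rfl⟩ := hkerb x hx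
          obtain ⟨y, hy', rfl⟩ := hkerb y hy
          rw [← map_mul, ← map_mul, hc x hx' y hy']
        · intro x hx
          obtain ⟨x, hx', rfl⟩ := hkerb x hx
          rw [← map_pow, he x hx', map_one]

end Pool.Agent.Helper15.QS
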