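import Pool.Agent.Helper15.QS.Ind

/-!
# External tensor products of irreducible characters
-/

open scoped Classical BigOperators
open Representation Pool.Agent.Helper884.IC Pool.Agent.Y63.AWC Pool.Agent.Helper15.AW

set_option linter.unusedSectionVars false
set_option linter.unusedVariables false
set_option linter.unusedSimpArgs false

noncomputable section

namespace Pool.Agent.Helper15.QS

/-- a representation whose character has norm one is irreducible -/
theorem irr_of_norm {P : Type} [Group P] [Fintype P] {V : Type} [AddCommGroup V] [Module ℂ V]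
    [FiniteDimensional ℂ V] (σ : Representation ℂ P V)
    (h : ∑ x : P, σ.character x * σ.character x⁻¹ = (Nat.card P : ℂ)) : σ.IsIrreducible := by
  have hinv : Invertible (Nat.card P : ℂ) := invertibleOfNonzero cardG_ne
  have h1 := card_inv_mul_sum_char_mul_char_eq_finrank σ σ
  rw [h, inv_mul_cancel₀ cardG_ne] at h1
  have h2 : Module.finrank ℂ (IntertwiningMap σ σ) = 1 := by exact_mod_cast h1.symm
  have hnt : Nontrivial V := by
    by_contra hn
    rw [not_nontrivial_iff_subsingleton] at hn
    have h3 : ∀ x : P, σ.character x = 0 := by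
      intro x
      have : σ x = 0 := by
        ext v
        exact Subsingleton.elim _ _
      change LinearMap.trace ℂ V (σ x) = 0
      rw [this, map_zero]
    simp only [h3, zero_mul, Finset.sum_const_zero] at h
    exact cardG_ne h.symm
  have hid : (IntertwiningMap.id σ) ≠ 0 := by
    intro h0
    obtain ⟨v, hv⟩ := exists_ne (0 : V)
    apply hv
    exact congrArg (fun S : IntertwiningMap σ σ => S v) h0
  have hsc : ∀ T : Module.End ℂ V, (∀ m : P, T * σ m = σ m * T) →
      ∃ c : ℂ, T = c • (1 : Module.End ℂ V) := by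
    intro T hT
    let T' : IntertwiningMap σ σ := T.intertwiningMap_of_isIntertwiningMap σ σ
      (fun g v => congrArg (fun S : Module.End ℂ V => S v) (hT g))
    obtain ⟨c, hc⟩ := (finrank_eq_one_iff_of_nonzero' _ hid).mp h2 T'
    refine ⟨c, ?_⟩
    ext v
    exact (congrArg (fun S : IntertwiningMap σ σ => S v) hc).symm
  refine { exists_pair_ne := ⟨⊥, ⊤, ?_⟩, eq_bot_or_eq_top := ?_ }
  · intro h0
    obtain ⟨v, hv⟩ := exists_ne (0 : V)
    have h3 : v ∈ (⊤ : Subrepresentation σ) := Submodule.mem_top
    rw [← h0] at h3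
    exact hv ((Submodule.mem_bot ℂ).1 h3)
  · intro S
    by_cases hS : S.toSubmodule = ⊥
    · left
      exact Subrepresentation.toSubmodule_injective hS
    · right
      apply Subrepresentation.toSubmodule_injective
      obtain ⟨f, hf⟩ := LinearMap.exists_leftInverse_of_injective S.toSubmodule.subtype
        (Submodule.ker_subtype _)
      obtain ⟨s, hs, hs0⟩ := (Submodule.ne_bot_iff _).1 hS
      let p : Module.End ℂ V := S.toSubmodule.subtype ∘ₗ f
      have hp1 : ∀ v, p v ∈ S.toSubmodule := fun v => (f v).2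
      have hp2 : ∀ v ∈ S.toSubmodule, p v = v := by
        intro v hv
        have := congrArg (fun T => T ⟨v, hv⟩) hf
        exact congrArg Subtype.val this
      obtain ⟨c, hc⟩ := hsc (∑ x : P, σ x * p * σ x⁻¹) (by
        intro m
        rw [Finset.sum_mul, Finset.mul_sum]
        refine Fintype.sum_equiv (Equiv.mulLeft m⁻¹) _ _ fun x => ?_
        rw [Equiv.coe_mulLeft, mul_inv_rev, inv_inv]
        have e1 : σ m * (σ (m⁻¹ * x) * p * σ (x⁻¹ * m)) = σ (m * (m⁻¹ * x)) * p * σ (x⁻¹ * m) := by
          rw [map_mul σ m (m⁻¹ * x)]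
          simp only [mul_assoc]
        rw [e1, mul_inv_cancel_left, map_mul σ x⁻¹ m]
        simp only [mul_assoc])
      have h3 : ∀ v, (∑ x : P, σ x * p * σ x⁻¹) v ∈ S.toSubmodule := by
        intro v
        rw [LinearMap.sum_apply]
        refine Submodule.sum_mem _ fun x _ => ?_
        exact S.apply_mem_toSubmodule x (hp1 _)
      have h4 : (∑ x : P, σ x * p * σ x⁻¹) s = (Nat.card P : ℂ) • s := by
        rw [LinearMap.sum_apply]
        have h5 : ∀ x : P, (σ x * p * σ x⁻¹) s = s := by
          intro x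
          change σ x (p (σ x⁻¹ s)) = s
          rw [hp2 _ (S.apply_mem_toSubmodule x⁻¹ hs)]
          rw [← Module.End.mul_apply, ← map_mul, mul_inv_cancel, map_one]
          rfl
        rw [Finset.sum_congr rfl fun x _ => h5 x, Finset.sum_const, Finset.card_univ,
          ← Nat.card_eq_fintype_card, Nat.cast_smul_eq_nsmul]
      have hc0 : c ≠ 0 := by
        rintro rfl
        rw [hc, zero_smul, LinearMap.zero_apply] at h4
        rcases smul_eq_zero.1 h4.symm with h5 | h5
        · exact cardG_ne h5
        · exact hs0 h5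
      change S.toSubmodule = (⊤ : Submodule ℂ V)
      rw [eq_top_iff]
      intro v _
      have h5 := h3 (c⁻¹ • v)
      rw [hc, LinearMap.smul_apply, Module.End.one_apply, smul_smul, mul_inv_cancel₀ hc0,
        one_smul] at h5
      exact h5

section kron

variable {ι : Type} [Fintype ι] {n : ι → ℕ}

/-- the Kronecker product -/
def kron (T : ∀ i, Matrix (Fin (n i)) (Fin (n i)) ℂ) :
    Matrix (∀ i, Fin (n i)) (∀ i, Fin (n i)) ℂ := fun a b => ∏ i, T i (a i) (b i)

lemma kron_mul (T U : ∀ i, Matrix (Fin (n i)) (Fin (n i)) ℂ) :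
    kron T * kron U = kron fun i => T i * U i := by
  ext a b
  rw [Matrix.mul_apply]
  unfold kron
  simp only [Matrix.mul_apply]
  rw [Fintype.prod_sum]
  refine Finset.sum_congr rfl fun c _ => ?_
  rw [Finset.prod_mul_distrib]

lemma kron_one : kron (fun i => (1 : Matrix (Fin (n i)) (Fin (n i)) ℂ)) = 1 := by
  ext a b
  unfold kron
  by_cases h : a = b
  · subst h
    simp
  · rw [Matrix.one_apply_ne h]
    obtain ⟨i, hi⟩ := Function.ne_iff.1 h
    refine Finset.prod_eq_zero (Finset.mem_univ i) ?_
    change (1 : Matrix _ _ ℂ) (a i) (b i) = 0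
    exact Matrix.one_apply_ne hi

lemma trace_kron (T : ∀ i, Matrix (Fin (n i)) (Fin (n i)) ℂ) :
    (kron T).trace = ∏ i, (T i).trace := by
  unfold Matrix.trace kron
  simp only [Matrix.diag_apply]
  rw [Fintype.prod_sum]
  try rfl

end kron

/-- the representation defined by a homomorphism to matrices -/
def mrep {P : Type} [Group P] {m : Type} [Fintype m] [DecidableEq m] (R : P →* Matrix m m ℂ) :
    Representation ℂ P (m → ℂ) :=
  (Matrix.toLinAlgEquiv' : Matrix m m ℂ ≃ₐ[ℂ] _).toAlgHom.toRingHom.toMonoidHom.comp R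

lemma mrep_char {P : Type} [Group P] {m : Type} [Fintype m] [DecidableEq m] (R : P →* Matrix m m ℂ)
    (x : P) : (mrep R).character x = (R x).trace := by
  change LinearMap.trace ℂ _ (Matrix.toLin' (R x)) = _
  rw [Matrix.trace_toLin'_eq]

/-- matrices for a character -/
lemma exists_matrix {P : Type} [Group P] {chi : P → ℂ} (h : IsIrrChar chi) :
    ∃ (n : ℕ) (R : P →* Matrix (Fin n) (Fin n) ℂ), ∀ x, (R x).trace = chi x := by
  obtain ⟨V, _, _, _, rho, hr, rfl⟩ := h
  let b := Module.finBasis ℂ V
  refine ⟨Module.finrank ℂ V,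
    (LinearMap.toMatrixAlgEquiv b).toAlgHom.toRingHom.toMonoidHom.comp rho, fun x => ?_⟩
  exact (LinearMap.trace_eq_matrix_trace ℂ b (rho x)).symm

/-- the external tensor product of irreducible characters is irreducible -/
theorem irr_prod {K P : Type} [Group K] [Fintype K] [Group P] [Fintype P] {ι : Type} [Fintype ι]
    (e : (ι → K) ≃* P) (θ : ι → K → ℂ) (h : ∀ i, IsIrrChar (θ i)) :
    IsIrrChar fun x : P => ∏ i, θ i (e.symm x i) := by
  choose n R hR using fun i => exists_matrix (h i)
  let R' : P →* Matrix (∀ i, Fin (n i)) (∀ i, Fin (n i)) ℂ :=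
    { toFun := fun x => kron fun i => R i (e.symm x i)
      map_one' := by
        simp only [map_one, Pi.one_apply]
        exact kron_one
      map_mul' := fun x y => by
        rw [kron_mul]
        simp only [map_mul, Pi.mul_apply] }
  have hchar : (mrep R').character = fun x : P => ∏ i, θ i (e.symm x i) := by
    funext x
    rw [mrep_char]
    change (kron fun i => R i (e.symm x i)).trace = _
    rw [trace_kron]
    exact Finset.prod_congr rfl fun i _ => hR i _
  refine ⟨_, _, _, inferInstance, mrep R', irr_of_norm _ ?_, hchar.symm⟩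
  rw [hchar]
  rw [← e.toEquiv.sum_comp]
  have h1 : ∀ k : ι → K, (∏ i, θ i (e.symm (e.toEquiv k) i)) *
      ∏ i, θ i (e.symm (e.toEquiv k)⁻¹ i) = ∏ i, θ i (k i) * θ i (k i)⁻¹ := by
    intro k
    rw [← Finset.prod_mul_distrib]
    refine Finset.prod_congr rfl fun i _ => ?_
    rw [map_inv]
    change θ i (e.symm (e k) i) * θ i ((e.symm (e k))⁻¹ i) = _
    rw [MulEquiv.symm_apply_apply]
    rfl
  rw [Finset.sum_congr rfl fun k _ => h1 k]
  have h2 := Fintype.prod_sum (fun (i : ι) (k : K) => θ i k * θ i k⁻¹)
  rw [← h2]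
  have h3 : ∀ i, ∑ k : K, θ i k * θ i k⁻¹ = (Nat.card K : ℂ) := by
    intro i
    exact Pool.Agent.Y63.KR.sum_char_inv (h i)
  rw [Finset.prod_congr rfl fun i _ => h3 i, Finset.prod_const, Finset.card_univ,
    ← Nat.card_congr e.toEquiv, Nat.card_fun]
  push_cast
  rw [← Nat.card_eq_fintype_card]

end Pool.Agent.Helper15.QS
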