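import Pool.Agent.Helper15.QS.Ppr

/-!
# Generating lifts through an abelian normal `p`-subgroup
-/

open scoped Classical BigOperators
open Representation Pool.Agent.Helper884.IC Pool.Agent.Y63.AWC Pool.Agent.Helper15.AW

set_option linter.unusedSectionVars false
set_option linter.unusedVariables false
set_option linter.unusedSimpArgs false

attribute [-instance] MonoidHom.decidableMemKer

noncomputable section

namespace Pool.Agent.Helper15.QS

open Pool.Agent.Y63.KR (surfaceWord coords dg cod dg_spec cod_spec cod_pos DZ_iff)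

lemma cod_pgroup {p : ℕ} [hp : Fact p.Prime] {M : Type} [Group M] [Fintype M] (hM : IsPGroup p M)
    (hn : Nontrivial M) {theta : M → ℂ} (ht : IsIrrChar theta) : p ∣ cod theta := by
  by_contra hc
  have h1 : ∀ u : M, u ≠ 1 → theta u = 0 := fun u hu => vanish ht hc (hM u) hu
  have h2 := B_irr ht ht
  rw [if_pos rfl] at h2
  unfold Pool.Agent.Helper884.IC.B at h2
  rw [Finset.sum_eq_single (1 : M) (fun x _ hx => by rw [h1 x hx, zero_mul])
    (fun h => absurd (Finset.mem_univ _) h), inv_one] at h2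
  obtain ⟨h3, h4⟩ := dg_spec ht
  have h5 := cod_spec ht
  rw [h3] at h2
  have h6 : (Nat.card M : ℂ) ≠ 0 := cardG_ne
  have h7 : (dg theta : ℂ) * dg theta = (dg theta : ℂ) * cod theta := by
    have h8 : (dg theta : ℂ) * cod theta = (Nat.card M : ℂ) := by exact_mod_cast h5
    rw [h8]
    field_simp at h2
    first
      | exact h2
      | (rw [← sq]; exact h2)
      | linear_combination h2
  have h8 : dg theta * dg theta = dg theta * cod theta := by exact_mod_cast h7
  have h9 : dg theta = cod theta := Nat.eq_of_mul_eq_mul_left h4 h8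
  rw [h9] at h5
  have h10 : p ∣ Nat.card M := by
    obtain ⟨k, hk⟩ := (IsPGroup.iff_card).1 hM
    rw [hk]
    refine dvd_pow_self p ?_
    rintro rfl
    rw [pow_zero] at hk
    exact (Finite.one_lt_card (α := M)).ne' hk
  rw [← h5] at h10
  rcases (Nat.Prime.dvd_mul hp.out).1 h10 with h | h <;> exact hc h

section

variable {Q : Type} [Group Q] [Fintype Q] {p : ℕ} [hp : Fact p.Prime] (V : Subgroup Q) [V.Normal]

/-- the number of all the lifts is small -/
lemma lifts_small (hV : IsPGroup p V) (hV1 : V ≠ ⊥) {n N : ℕ} (hn : 0 < n)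
    (hd : p ^ N * (p - 1) ∣ n) (r : Fin (n + 1) → (Q ⧸ V) × (Q ⧸ V)) (hr1 : surfaceWord r = 1)
    (hr2 : Subgroup.closure (coords r) = ⊤) :
    (p : ℤ) ^ (N + 1) ∣ (Nat.card {q : Fin (n + 1) → Q × Q //
      (surfaceWord q = 1 ∧ Subgroup.closure (coords q) ⊔ V = ⊤) ∧
        mapT (QuotientGroup.mk' V) q = r} : ℤ) := by
  have hnt : Nontrivial V := (Subgroup.nontrivial_iff_ne_bot V).2 hV1
  have hno : ∀ theta : V → ℂ, IsIrrChar theta → ¬ DZ p theta := by
    intro theta ht hz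
    exact (DZ_iff ht).1 hz (cod_pgroup hV hnt ht)
  rw [card_fibre, if_pos ⟨hr1, hr2⟩]
  have h1 := card_lifts (p := p) (M := V) hn.ne' hd (fun theta ht hz => absurd hz (hno theta ht))
    (liftT r) (liftT_word hr1) (liftT_gen hr2)
  have h2 : numInv p V = 0 := by
    unfold numInv
    rw [Nat.card_eq_zero]
    left
    constructor
    rintro ⟨theta, h3, h4, _⟩
    exact hno theta h3 h4
  rw [h2, Nat.cast_zero, mul_zero, sub_zero] at h1
  exact h1

/-- the complements -/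
def ncomp : ℕ := Nat.card {D : Subgroup Q // D ⊓ V = ⊥ ∧ D ⊔ V = ⊤}

lemma comp_unique (D : Subgroup Q) (h1 : D ⊓ V = ⊥) (h2 : D ⊔ V = ⊤) {g : ℕ}
    (r : Fin g → (Q ⧸ V) × (Q ⧸ V)) (hr1 : surfaceWord r = 1)
    (hr2 : Subgroup.closure (coords r) = ⊤) :
    Nat.card {q : Fin g → Q × Q // ((surfaceWord q = 1 ∧ Subgroup.closure (coords q) ⊔ V = ⊤) ∧
        mapT (QuotientGroup.mk' V) q = r) ∧ Subgroup.closure (coords q) = D} = 1 := by
  have hex : ∀ y : Q ⧸ V, ∃ d ∈ D, QuotientGroup.mk' V d = y := by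
    intro y
    obtain ⟨x, rfl⟩ := QuotientGroup.mk'_surjective V y
    have hx : x ∈ D ⊔ V := by rw [h2]; trivial
    rw [Subgroup.mem_sup_of_normal_right] at hx
    obtain ⟨d, hd, v, hv, rfl⟩ := hx
    refine ⟨d, hd, ?_⟩
    rw [map_mul]
    have : (QuotientGroup.mk' V) v = 1 := (QuotientGroup.eq_one_iff _).2 hv
    rw [this, mul_one]
  have huniq : ∀ a ∈ D, ∀ b ∈ D, QuotientGroup.mk' V a = QuotientGroup.mk' V b → a = b := by
    intro a ha b hb hab
    have h3 : a⁻¹ * b ∈ D ⊓ V := Subgroup.mem_inf.2 ⟨mul_mem (inv_mem ha) hb,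
      QuotientGroup.eq.1 hab⟩
    rw [h1, Subgroup.mem_bot, inv_mul_eq_one] at h3
    exact h3
  choose s hs hs1 using hex
  rw [Nat.card_eq_one_iff_unique]
  constructor
  · constructor
    rintro ⟨q, ⟨_, h4⟩, h5⟩ ⟨q', ⟨_, h6⟩, h7⟩
    apply Subtype.ext
    funext i
    have h8 := congrFun (h4.trans h6.symm) i
    have hq : coords q ⊆ D := h5 ▸ Subgroup.subset_closure
    have hq' : coords q' ⊆ D := h7 ▸ Subgroup.subset_closure
    exact Prod.ext (huniq _ (hq (Or.inl ⟨i, rfl⟩)) _ (hq' (Or.inl ⟨i, rfl⟩))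
      (congrArg Prod.fst h8)) (huniq _ (hq (Or.inr ⟨i, rfl⟩)) _ (hq' (Or.inr ⟨i, rfl⟩))
      (congrArg Prod.snd h8))
  · let q : Fin g → Q × Q := mapT s r
    have hm : mapT (QuotientGroup.mk' V) q = r := by
      funext i
      exact Prod.ext (hs1 _) (hs1 _)
    have hq : coords q ⊆ D := by
      rw [coords_mapT]
      rintro _ ⟨y, _, rfl⟩
      exact hs y
    have hqc : Subgroup.closure (coords q) ≤ D := (Subgroup.closure_le _).2 hq
    have hg : Subgroup.closure (coords q) ⊔ V = ⊤ := by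
      rw [← quot_sup_iff, ← closure_mapT, hm, hr2]
    have hwD : surfaceWord q ∈ D := by
      have h3 := word_mapT D.subtype (fun i => ((⟨(q i).1, hq (Or.inl ⟨i, rfl⟩)⟩ : D),
        (⟨(q i).2, hq (Or.inr ⟨i, rfl⟩)⟩ : D)))
      have h4 : mapT D.subtype (fun i => ((⟨(q i).1, hq (Or.inl ⟨i, rfl⟩)⟩ : D),
        (⟨(q i).2, hq (Or.inr ⟨i, rfl⟩)⟩ : D))) = q := rfl
      rw [h4] at h3
      rw [h3]
      exact SetLike.coe_mem _
    refine ⟨⟨q, ⟨⟨?_, hg⟩, hm⟩, ?_⟩⟩
    · apply huniq _ hwD _ (one_mem _)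
      rw [← word_mapT, hm, hr1, map_one]
    · refine le_antisymm hqc fun d hd => ?_
      have hd' : d ∈ Subgroup.closure (coords q) ⊔ V := by rw [hg]; trivial
      rw [Subgroup.mem_sup_of_normal_right] at hd'
      obtain ⟨c, hc, v, hv, rfl⟩ := hd'
      have h3 : v ∈ D ⊓ V := Subgroup.mem_inf.2 ⟨by
        have := mul_mem (inv_mem (hqc hc)) hd
        rwa [inv_mul_cancel_left] at this, hv⟩
      rw [h1, Subgroup.mem_bot] at h3
      rw [h3, mul_one]
      exact hc

/-- **The generating lifts.** -/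
theorem gen_lifts (hV : IsPGroup p V) (hV1 : V ≠ ⊥) (hcomm : ∀ x ∈ V, ∀ y ∈ V, x * y = y * x)
    (hmin : ∀ W : Subgroup Q, W.Normal → W ≤ V → W = ⊥ ∨ W = V) {n N : ℕ} (hn : 0 < n)
    (hd : p ^ N * (p - 1) ∣ n) (r : Fin (n + 1) → (Q ⧸ V) × (Q ⧸ V)) (hr1 : surfaceWord r = 1)
    (hr2 : Subgroup.closure (coords r) = ⊤) :
    (p : ℤ) ^ (N + 1) ∣ (Nat.card {q : Fin (n + 1) → Q × Q //
      (surfaceWord q = 1 ∧ Subgroup.closure (coords q) = ⊤) ∧
        mapT (QuotientGroup.mk' V) q = r} : ℤ) + (ncomp V : ℤ) := by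
  have : Fintype (Subgroup Q) := Fintype.ofFinite _
  have h1 := lifts_small V hV hV1 hn hd r hr1 hr2
  rw [← fiber_sum (fun q : Fin (n + 1) → Q × Q =>
      (surfaceWord q = 1 ∧ Subgroup.closure (coords q) ⊔ V = ⊤) ∧
        mapT (QuotientGroup.mk' V) q = r) (fun q => Subgroup.closure (coords q)),
    ← Finset.add_sum_erase _ _ (Finset.mem_univ (⊤ : Subgroup Q))] at h1
  have h2 : Nat.card {q : Fin (n + 1) → Q × Q //
      ((surfaceWord q = 1 ∧ Subgroup.closure (coords q) ⊔ V = ⊤) ∧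
        mapT (QuotientGroup.mk' V) q = r) ∧ Subgroup.closure (coords q) = ⊤} =
      Nat.card {q : Fin (n + 1) → Q × Q //
      (surfaceWord q = 1 ∧ Subgroup.closure (coords q) = ⊤) ∧
        mapT (QuotientGroup.mk' V) q = r} := by
    refine Nat.card_congr (Equiv.subtypeEquivRight fun q => ?_)
    constructor
    · rintro ⟨⟨⟨h3, _⟩, h4⟩, h5⟩
      exact ⟨⟨h3, h5⟩, h4⟩
    · rintro ⟨⟨h3, h5⟩, h4⟩
      exact ⟨⟨⟨h3, by rw [h5, top_sup_eq]⟩, h4⟩, h5⟩
  have h3 : ∀ D ∈ Finset.univ.erase (⊤ : Subgroup Q), Nat.card {q : Fin (n + 1) → Q × Q //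
      ((surfaceWord q = 1 ∧ Subgroup.closure (coords q) ⊔ V = ⊤) ∧
        mapT (QuotientGroup.mk' V) q = r) ∧ Subgroup.closure (coords q) = D} =
      if D ⊓ V = ⊥ ∧ D ⊔ V = ⊤ then 1 else 0 := by
    intro D hD
    by_cases hc : D ⊓ V = ⊥ ∧ D ⊔ V = ⊤
    · rw [if_pos hc, comp_unique V D hc.1 hc.2 r hr1 hr2]
    · rw [if_neg hc, Nat.card_eq_zero]
      left
      constructor
      rintro ⟨q, ⟨⟨_, h4⟩, _⟩, h5⟩
      rw [h5] at h4
      have hnorm : (D ⊓ V).Normal := by
        constructor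
        intro x hx y
        have hy : y ∈ D ⊔ V := by rw [h4]; trivial
        rw [Subgroup.mem_sup_of_normal_right] at hy
        obtain ⟨d, hd, v, hv, rfl⟩ := hy
        obtain ⟨hx1, hx2⟩ := Subgroup.mem_inf.1 hx
        have h6 : d * v * x * (d * v)⁻¹ = d * x * d⁻¹ := by
          have h7 : v * x = x * v := hcomm v hv x hx2
          calc d * v * x * (d * v)⁻¹ = d * (v * x) * v⁻¹ * d⁻¹ := by group
            _ = _ := by rw [h7]; group
        rw [h6]
        exact Subgroup.mem_inf.2 ⟨mul_mem (mul_mem hd hx1) (inv_mem hd),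
          (inferInstance : V.Normal).conj_mem x hx2 d⟩
      rcases hmin _ hnorm inf_le_right with h6 | h6
      · exact hc ⟨h6, h4⟩
      · have h7 : V ≤ D := inf_eq_right.1 h6
        rw [sup_eq_left.2 h7] at h4
        exact Finset.ne_of_mem_erase hD h4
  rw [Finset.sum_congr rfl h3, h2] at h1
  have h4 : (∑ D ∈ Finset.univ.erase (⊤ : Subgroup Q), if D ⊓ V = ⊥ ∧ D ⊔ V = ⊤ then 1 else 0) =
      ncomp V := by
    unfold ncomp
    rw [Nat.card_eq_fintype_card, Fintype.card_subtype, Finset.card_filter,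
      ← Finset.add_sum_erase _ _ (Finset.mem_univ (⊤ : Subgroup Q)), if_neg, zero_add]
    rintro ⟨h5, _⟩
    rw [top_inf_eq] at h5
    exact hV1 h5
  rw [h4] at h1
  push_cast at h1
  exact h1

end

end Pool.Agent.Helper15.QS
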