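import Pool.Agent.Helper15.QS.Fin

/-!
# Minimal counterexamples: groups with a quasisimple normal subgroup
-/

open scoped Classical BigOperators

set_option linter.unusedSectionVars false
set_option linter.unusedVariables false

noncomputable section

namespace Pool.Agent.Helper15.QS

open Pool.Agent.Y63.KR (surfaceWord coords cod DZ_iff)
open Pool.Agent.Y63.AWC (numWeights numRegularClasses)
open Pool.Agent.Y63.NV (Closed Reduced XP NavarroSum navarroSum_top free_form free_strong
  reduction' xp_closed pgroup_top)
open Pool.Agent.Helper15.AW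

variable {p : ℕ} [hp : Fact p.Prime]

/-- the property of the groups which are not covered by the step -/
lemma almost_of {H : Type} [Group H] [Finite H] (hd : p ∣ Nat.card H) (hR : Reduced p H)
    (hcyc : IsCyclic (Subgroup.center H)) (hst : Subgroup.center H ≤ commutator H)
    {N : Subgroup H} [hN : N.Normal] (S : Sett N)
    (h1 : ∀ M : Subgroup N, M.Normal → M ≤ Subgroup.center N ∨ M = ⊤) (h2 : PE2 p (H ⧸ N)) :
    AlmostSimple p H := by
  have hnab : ¬ N ≤ Subgroup.centralizer (N : Set H) := by
    intro h
    have h3 : ⁅N, N⁆ = ⊥ := (Subgroup.commutator_eq_bot_iff_le_centralizer).2 h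
    rw [S.perf] at h3
    apply S.nonc
    rw [h3]
    exact bot_le
  refine ⟨hd, hR, hcyc, hst, N, hN, ⟨?_, ?_⟩, S.cent, ?_, h2⟩
  · apply Subgroup.map_injective N.subtype_injective
    rw [commutator_def, Subgroup.map_commutator, ← MonoidHom.range_eq_map, Subgroup.range_subtype]
    exact S.perf
  · have hnt : Nontrivial (N ⧸ Subgroup.center N) := by
      rw [← not_subsingleton_iff_nontrivial]
      intro hss
      apply hnab
      have h3 : Subgroup.center N = ⊤ := by
        rw [eq_top_iff]
        intro x _
        exact (QuotientGroup.eq_one_iff x).1 (Subsingleton.elim _ _)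
      intro x hx
      rw [Subgroup.mem_centralizer_iff]
      intro y hy
      have h4 : (⟨x, hx⟩ : N) ∈ Subgroup.center N := by rw [h3]; trivial
      exact congrArg Subtype.val (Subgroup.mem_center_iff.1 h4 ⟨y, hy⟩)
    refine { eq_bot_or_eq_top_of_normal := fun T hT => ?_ }
    rcases h1 (T.comap (QuotientGroup.mk' (Subgroup.center N))) inferInstance with h3 | h3
    · left
      rw [eq_bot_iff]
      intro y hy
      obtain ⟨x, rfl⟩ := QuotientGroup.mk'_surjective _ y
      exact (QuotientGroup.eq_one_iff x).2 (h3 hy)
    · right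
      rw [eq_top_iff]
      intro y _
      obtain ⟨x, rfl⟩ := QuotientGroup.mk'_surjective _ y
      have : x ∈ T.comap (QuotientGroup.mk' (Subgroup.center N)) := by rw [h3]; trivial
      exact this
  · apply le_antisymm
    · rcases S.small (Subgroup.centralizer (N : Set H)) inferInstance with h3 | h3
      · exact h3
      · exact absurd h3 hnab
    · exact Subgroup.center_le_centralizer _

/-- a minimal group which is not solvable and not almost simple -/
lemma minimal_step {X : ∀ (H : Type) [Group H], Prop} (hX : ClosedC p X) (H : Type) [Group H]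
    [Finite H] (hH : X H) (hR : Reduced p H)
    (hsm : ∀ (L : Type) [Group L] [Finite L], X L → Smaller L H →
      numRegularClasses p L = numWeights p L)
    (hmin : Minimal p H) (hns : ¬ Group.IsSolvable H) (hna : ¬ AlmostSimple p H) (M : ℕ) :
    ∃ g : ℕ, 2 ≤ g ∧ p ^ M * (p - 1) ∣ g - 1 ∧ (p : ℤ) ^ (M + 1) ∣ (numSurj g H : ℤ) := by
  obtain ⟨hd, _, hcyc, hst, N, hN, hNc, hs, hq, hps⟩ := hmin
  have hperf : ⁅N, N⁆ = N := hps.resolve_right hns
  -- the center is contained in `N`
  have hpZ : ¬ p ∣ Nat.card (Subgroup.center H) := by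
    refine nilp_prime hR.radical _ ?_
    let _ : CommGroup (Subgroup.center H) :=
      { (inferInstance : Group (Subgroup.center H)) with
        mul_comm := fun a b => Subtype.ext (Subgroup.mem_center_iff.1 b.2 a) }
    exact (inferInstance : Group.IsNilpotent (Subgroup.center H))
  have hcN : Subgroup.center H ≤ N := by
    intro z hz
    obtain ⟨k, hk⟩ := PA2.pow hq (hst hz)
    obtain ⟨e, he⟩ := exists_expo (p := p) (Subgroup.center H) hpZ k
    have h1 := congrArg Subtype.val (he ⟨z, hz⟩)
    have h2 : z ^ (p ^ k * e) = z := h1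
    rw [← h2, pow_mul]
    exact pow_mem hk e
  have S : Sett N := ⟨hN, hNc, hs, hperf, hcN⟩
  have hcase : ¬ ((∀ M : Subgroup N, M.Normal → M ≤ Subgroup.center N ∨ M = ⊤) ∧
      PE2 p (H ⧸ N)) := fun hcase => hna (almost_of hd hR hcyc hst S hcase.1 hcase.2)
  have : Fintype H := Fintype.ofFinite H
  exact comp_step (p := p) hX hH hR hsm hst S hq hcase M

/-- a group with the property on all smaller groups satisfies the conjecture, unless it is
solvable or almost simple modulo its center -/
theorem awc_of_almost {X : ∀ (H : Type) [Group H], Prop} (hX : ClosedC p X)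
    (hsol : ∀ (H : Type) [Group H] [Finite H], X H → Group.IsSolvable H →
      numRegularClasses p H = numWeights p H)
    (h : ∀ (H : Type) [Group H] [Finite H], X H → AlmostSimple p H →
      (∀ (L : Type) [Group L] [Finite L], X L → Smaller L H →
        numRegularClasses p L = numWeights p L) → numRegularClasses p H = numWeights p H) :
    ∀ (n : ℕ) (Γ : Type) [Group Γ] [Finite Γ], XP p (Xz X n) Γ →
      numRegularClasses p Γ = numWeights p Γ := by
  intro n
  induction n with
  | zero =>
    rintro Γ _ _ ⟨G, _, ⟨_, _, hG⟩, _⟩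
    exact absurd (Nat.le_zero.1 hG) Subgroup.FiniteIndex.index_ne_zero
  | succ n ih =>
    have hXz := xz_closed hX.closed (n + 1)
    have key := reduction' p (Xz X (n + 1)) hXz (fun H _ _ hH hR hsmall => by
      have hsm : ∀ (L : Type) [Group L] [Finite L], X L → Smaller L H →
          numRegularClasses p L = numWeights p L := by
        intro L _ _ hL hLH
        have hHn := hH.2.2
        rcases hLH with h1 | ⟨h1, h2⟩
        · refine ih L ⟨⊤, inferInstance, (xz_closed hX.closed n).iso L _ ⟨hL, inferInstance, ?_⟩
            ⟨Subgroup.topEquiv.symm⟩, pgroup_top p L⟩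
          omega
        · refine hsmall L ⟨⊤, inferInstance, hXz.iso L _ ⟨hL, inferInstance, ?_⟩
            ⟨Subgroup.topEquiv.symm⟩, pgroup_top p L⟩ h2
          omega
      by_cases hns : Group.IsSolvable H
      · exact hsol H hH.1 hns
      by_cases hna : AlmostSimple p H
      · exact h H hH.1 hna hsm
      · refine awc_step (Xz X (n + 1)) hXz H hH hR hsmall fun N => ?_
        have : Fintype H := Fintype.ofFinite H
        by_cases hd : p ∣ Nat.card H
        · have hab : ∃ a b : H, a * b ≠ b * a := by
            by_contra hcon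
            push Not at hcon
            let _ : CommGroup H := { (inferInstance : Group H) with mul_comm := hcon }
            have hN3 : Group.IsNilpotent (⊤ : Subgroup H) := inferInstance
            have h3 := nilp_prime hR.radical ⊤ hN3
            rw [Subgroup.card_top] at h3
            exact h3 hd
          rw [numSurj_one_zero hab]
          have hex : ∃ g : ℕ, 2 ≤ g ∧ p ^ N * (p - 1) ∣ g - 1 ∧
              (p : ℤ) ^ (N + 1) ∣ (numSurj g H : ℤ) := by
            by_cases hZ : IsCyclic (Subgroup.center H) ∧ Subgroup.center H ≤ commutator H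
            · by_cases hn : ∀ (M : Subgroup H) [M.Normal], ¬ M ≤ Subgroup.center H →
                  PA2 p (H ⧸ M)
              · exact minimal_step hX H hH.1 hR hsm
                  ⟨hd, hR, hZ.1, hZ.2, exists_smallest hR.radical hd hab hn⟩ hns hna N
              · push Not at hn
                obtain ⟨M, hMn, hM1, hM2⟩ := hn
                exact step_noncentral hX H hH.1 hsm M hM1 hM2 N
            · exact step_central hX H hH.1 hR.radical hsm hZ hd N
          obtain ⟨g, hg, hdg, h1⟩ := hex
          exact ⟨g, hg, hdg, by simpa using h1⟩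
        · obtain ⟨g, hg, hdg⟩ := exists_genus (p := p) N
          exact ⟨g, hg, hdg, cont_prime hd hg hdg⟩)
    intro Γ _ _ hΓ
    exact key (Nat.card Γ) Γ le_rfl hΓ

theorem navarro_of_almost (p : ℕ) [Fact p.Prime] (F : Type) [Field F] [IsAlgClosed F]
    [CharP F p] (X : ∀ (H : Type) [Group H], Prop) (hX : ClosedC p X)
    (hsol : ∀ (H : Type) [Group H] [Finite H], X H → Group.IsSolvable H →
      NavarroSum p F (⊤ : Subgroup H))
    (h : ∀ (H : Type) [Group H] [Finite H], X H → AlmostSimple p H →
      (∀ (Γ : Type) [Group Γ] [Finite Γ] (G : Subgroup Γ) [G.Normal], X G → IsPGroup p (Γ ⧸ G) →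
        Smaller G H → NavarroSum p F G) → NavarroSum p F (⊤ : Subgroup H))
    (Γ : Type) [Group Γ] [Finite Γ] (N G : Subgroup Γ) [N.Normal] [G.Normal] (hNG : N ≤ G)
    (hN : X N) (hp : IsPGroup p (Γ ⧸ N)) : NavarroSum p F G := by
  refine (free_strong p F X hX.closed).1 (fun H _ _ hH _ => ?_) Γ N G hNG hN hp
  rw [navarroSum_top]
  refine awc_of_almost hX (fun K _ _ hK hs => ?_) (fun K _ _ hK hmin hsmall => ?_)
    (Subgroup.center H).index H
    ⟨⊤, inferInstance, (xz_closed hX.closed _).iso H _ ⟨hH, inferInstance, le_rfl⟩
      ⟨Subgroup.topEquiv.symm⟩, pgroup_top p H⟩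
  · rw [← navarroSum_top p F K]
    exact hsol K hK hs
  · rw [← navarroSum_top p F K]
    refine h K hK hmin fun Γ _ _ G _ hG hpG hGK => ?_
    have : Finite G := inferInstance
    exact (free_form p F (fun L _ => Low X K L) (low_closed hX.closed K)).1
      (fun L _ _ hL => (navarroSum_top p F L).2 (hsmall L hL.1 (smaller_of_low hL))) Γ G
      (low_of_smaller hG hGK) hpG

end Pool.Agent.Helper15.QS
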