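import Pool.Agent.Helper15.QS.Restr

/-!
# The comparison of the sums over the generating lifts
-/

open scoped Classical BigOperators
open Representation Pool.Agent.Helper884.IC Pool.Agent.Y63.AWC Pool.Agent.Helper15.AW

set_option linter.unusedSectionVars false
set_option linter.unusedVariables false
set_option linter.unusedSimpArgs false

attribute [-instance] MonoidHom.decidableMemKer

noncomputable section

namespace Pool.Agent.Helper15.QS

open Pool.Agent.Y63.KR (surfaceWord coords dg cod dg_spec cod_spec cod_pos DZ_iff unit_pow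
  two_mul_ge)

/-- splitting a sum by the values of a function to the subgroups -/
lemma sum_le_split {G ι : Type} [Group G] [Fintype ι] [Fintype (Subgroup G)]
    (P : ι → Prop) (F : ι → Subgroup G) (f : ι → ℂ) (L : Subgroup G) :
    (∑ q : ι, if P q ∧ F q ≤ L then f q else 0) =
      (∑ q : ι, if P q ∧ F q = L then f q else 0) +
      ∑ K ∈ Finset.univ.filter (fun K : Subgroup G => K < L),
        ∑ q : ι, if P q ∧ F q = K then f q else 0 := by
  rw [Finset.sum_comm, ← Finset.sum_add_distrib]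
  refine Finset.sum_congr rfl fun q _ => ?_
  by_cases hP : P q
  · simp only [hP, true_and]
    rw [Finset.sum_ite_eq (Finset.univ.filter (fun K : Subgroup G => K < L)) (F q)]
    by_cases h : F q = L
    · rw [if_pos h, if_pos h.le, if_neg, add_zero]
      rw [h]
      simp
    · rw [if_neg h, zero_add]
      by_cases h' : F q ≤ L
      · rw [if_pos h', if_pos]
        simp [lt_of_le_of_ne h' h]
      · rw [if_neg h', if_neg]
        simp only [Finset.mem_filter, Finset.mem_univ, true_and]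
        exact fun h2 => h' h2.le
  · simp [hP]

section

variable {B : Type} [Group B] [Finite B] {B1 : Subgroup B} {Γ : Type} [Group Γ] [Fintype Γ]
  {π : Γ →* B1}

/-- the sum over the lifts of `r` whose stabilizer has image `L` modulo `C` -/
def VE (π : Γ →* B1) (C : Subgroup Γ) (κ : C →* ℂˣ) (L : Subgroup Γ) {g : ℕ} (r : Fin g → B × B) :
    ℂ := ∑ q : Fin g → Ind π × Ind π, if mapT (Ind.fstHom π) q = r ∧
      st (Subgroup.closure (coords q)) ⊔ C = L then wt C κ (surfaceWord q) else 0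

/-- the sum over the lifts of `r` which generate `L` modulo `C` -/
def UE (π : Γ →* B1) (C : Subgroup Γ) (κ : C →* ℂˣ) (L : Subgroup Γ) {g : ℕ}
    (r : Fin g → B1 × B1) : ℂ := ∑ q : Fin g → Γ × Γ, if mapT π q = r ∧
      Subgroup.closure (coords q) ⊔ C = L then ext0 C κ (surfaceWord q) else 0

lemma VE_sum [Fintype (Subgroup Γ)] (C : Subgroup Γ) (κ : C →* ℂˣ) (L : Subgroup Γ) (hCL : C ≤ L)
    {g : ℕ} (r : Fin g → B × B) : VV π C κ L r = VE π C κ L r +
      ∑ K ∈ Finset.univ.filter (fun K : Subgroup Γ => K < L), VE π C κ K r := by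
  have h3 := sum_le_split (fun q : Fin g → Ind π × Ind π =>
    mapT (Ind.fstHom π) q = r) (fun q => st (Subgroup.closure (coords q)) ⊔ C)
    (fun q => wt C κ (surfaceWord q)) L
  unfold VV VE
  refine Eq.trans (Finset.sum_congr rfl fun q _ => ?_) (h3.trans ?_)
  · simp only [sup_le_iff, hCL, and_true]
  · congr!

lemma UE_sum [Fintype (Subgroup Γ)] (C : Subgroup Γ) (κ : C →* ℂˣ) (L : Subgroup Γ) (hCL : C ≤ L)
    {g : ℕ} (s : Fin g → B1 × B1) : UU π C κ L s = UE π C κ L s +
      ∑ K ∈ Finset.univ.filter (fun K : Subgroup Γ => K < L), UE π C κ K s := by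
  have h3 := sum_le_split (fun q : Fin g → Γ × Γ =>
    mapT π q = s) (fun q => Subgroup.closure (coords q) ⊔ C)
    (fun q => ext0 C κ (surfaceWord q)) L
  unfold UU UE
  refine Eq.trans (Finset.sum_congr rfl fun q _ => ?_) (h3.trans ?_)
  · simp only [sup_le_iff, hCL, and_true, Subgroup.closure_le]
    try congr!
  · congr!

lemma VE_zero (C : Subgroup Γ) (κ : C →* ℂˣ) (L : Subgroup Γ) (hCL : ¬ C ≤ L)
    {g : ℕ} (r : Fin g → B × B) : VE π C κ L r = 0 := by
  refine Finset.sum_eq_zero fun q _ => ?_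
  rw [if_neg]
  rintro ⟨_, h2⟩
  exact hCL (h2 ▸ le_sup_right)

lemma UE_zero (C : Subgroup Γ) (κ : C →* ℂˣ) (L : Subgroup Γ) (hCL : ¬ C ≤ L)
    {g : ℕ} (s : Fin g → B1 × B1) : UE π C κ L s = 0 := by
  refine Finset.sum_eq_zero fun q _ => ?_
  rw [if_neg]
  rintro ⟨_, h2⟩
  exact hCL (h2 ▸ le_sup_right)

/-- the inversion -/
lemma mob_PD {p N : ℕ} [Fintype (Subgroup Γ)] (C : Subgroup Γ) (A A' D D' : Subgroup Γ → ℂ)
    (h1 : ∀ L, C ≤ L → A L = A' L +
      ∑ K ∈ Finset.univ.filter (fun K : Subgroup Γ => K < L), A' K)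
    (h2 : ∀ L, C ≤ L → D L = D' L +
      ∑ K ∈ Finset.univ.filter (fun K : Subgroup Γ => K < L), D' K)
    (h3 : ∀ L, C ≤ L → PD p N (A L - D L)) (h4 : ∀ L, ¬ C ≤ L → A' L = 0)
    (h5 : ∀ L, ¬ C ≤ L → D' L = 0) (L : Subgroup Γ) : PD p N (A' L - D' L) := by
  induction L using WellFoundedLT.induction with
  | _ L ih =>
    by_cases hCL : C ≤ L
    · have h6 : A' L - D' L = (A L - D L) -
          ∑ K ∈ Finset.univ.filter (fun K : Subgroup Γ => K < L), (A' K - D' K) := by
        rw [h1 L hCL, h2 L hCL, Finset.sum_sub_distrib]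
        ring
      rw [h6]
      exact (h3 L hCL).sub (PD.sum _ _ fun K hK => ih K (Finset.mem_filter.1 hK).2)
    · rw [h4 L hCL, h5 L hCL, sub_zero]
      exact PD.zero

/-- **The comparison of the sums over the generating lifts.** -/
theorem compare_gen {p : ℕ} [hp : Fact p.Prime] (hπ : Function.Surjective π) (C : Subgroup Γ)
    (hC : C ≤ Subgroup.center Γ) (hCM : C ≤ π.ker) (κ : C →* ℂˣ)
    {n N : ℕ} (hn : 0 < n) (hd : p ^ N * (p - 1) ∣ n) (r : Fin (n + 1) → B × B)
    (s : Fin (n + 1) → B1 × B1) (hr1 : surfaceWord r = 1)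
    (hr2 : Subgroup.closure (coords r) = ⊤) (hs1 : surfaceWord s = 1)
    (hs2 : Subgroup.closure (coords s) = ⊤) (hc : Compat p π r s) (L : Subgroup Γ) :
    PD p (N + 1) (VE π C κ L r -
      ((Nat.card π.ker : ℂ) * (Nat.card C : ℂ)) ^ (B1.index - 1) * UE π C κ L s) := by
  have : Fintype (Subgroup Γ) := Fintype.ofFinite _
  refine mob_PD C (fun L => VV π C κ L r) (fun L => VE π C κ L r)
    (fun L => ((Nat.card π.ker : ℂ) * (Nat.card C : ℂ)) ^ (B1.index - 1) * UU π C κ L s)
    (fun L => ((Nat.card π.ker : ℂ) * (Nat.card C : ℂ)) ^ (B1.index - 1) * UE π C κ L s)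
    (fun L hL => VE_sum C κ L hL r) (fun L hL => ?_)
    (fun L hL => compare hπ C hC hCM κ L hL hn hd r s hr1 hr2 hs1 hs2 hc)
    (fun L hL => VE_zero C κ L hL r) (fun L hL => ?_) L
  · rw [UE_sum C κ L hL s, mul_add, Finset.mul_sum]
  · rw [UE_zero C κ L hL s, mul_zero]

theorem compareQ_gen {p : ℕ} [hp : Fact p.Prime] (hπ : Function.Surjective π) (C : Subgroup Γ)
    (hC : C ≤ Subgroup.center Γ) (hCM : C ≤ π.ker) (κ : C →* ℂˣ)
    {n N : ℕ} (hn : 0 < n) (hd : p ^ N * (p - 1) ∣ n) (r r' : Fin (n + 1) → B × B)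
    (hr1 : surfaceWord r = 1) (hr2 : Subgroup.closure (coords r) = ⊤)
    (hr1' : surfaceWord r' = 1) (hr2' : Subgroup.closure (coords r') = ⊤)
    (hc : CompatQ p π r r') (L : Subgroup Γ) :
    PD p (N + 1) (VE π C κ L r - VE π C κ L r') := by
  have : Fintype (Subgroup Γ) := Fintype.ofFinite _
  exact mob_PD C (fun L => VV π C κ L r) (fun L => VE π C κ L r) (fun L => VV π C κ L r')
    (fun L => VE π C κ L r') (fun L hL => VE_sum C κ L hL r) (fun L hL => VE_sum C κ L hL r')
    (fun L hL => compareQ hπ C hC hCM κ L hL hn hd r r' hr1 hr2 hr1' hr2' hc)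
    (fun L hL => VE_zero C κ L hL r) (fun L hL => VE_zero C κ L hL r') L

end

end Pool.Agent.Helper15.QS
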