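import Pool.Agent.Helper15.QS.Lft

/-!
# Complements of normal subgroups in elementary abelian groups
-/

open scoped Classical BigOperators
open Representation Pool.Agent.Helper884.IC Pool.Agent.Y63.AWC Pool.Agent.Helper15.AW

set_option linter.unusedSectionVars false
set_option linter.unusedVariables false
set_option linter.unusedSimpArgs false

attribute [-instance] MonoidHom.decidableMemKer

noncomputable section

namespace Pool.Agent.Helper15.QS

lemma maschke_add {p : ℕ} [hp : Fact p.Prime] {M : Type} [AddCommGroup M] [Module (ZMod p) M]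
    {A : Type} [Group A] [Finite A] (hA : ¬ p ∣ Nat.card A) (ρ : Representation (ZMod p) A M)
    (S : Submodule (ZMod p) M) (hS : ∀ (a : A) (x : M), x ∈ S → ρ a x ∈ S) :
    ∃ T : Submodule (ZMod p) M, S ⊓ T = ⊥ ∧ S ⊔ T = ⊤ ∧ ∀ (a : A) (x : M), x ∈ T → ρ a x ∈ T := by
  have hne : NeZero (Nat.card A : ZMod p) := ⟨by
    intro h
    exact hA ((ZMod.natCast_eq_zero_iff _ _).1 h)⟩
  have hss : ComplementedLattice (Subrepresentation ρ) :=
    (inferInstance : IsSemisimpleRepresentation ρ)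
  obtain ⟨T, hT⟩ := exists_isCompl (⟨S, fun a x hx => hS a x hx⟩ : Subrepresentation ρ)
  refine ⟨T.toSubmodule, ?_, ?_, fun a x hx => T.apply_mem_toSubmodule a hx⟩
  · exact congrArg Subrepresentation.toSubmodule hT.inf_eq_bot
  · exact congrArg Subrepresentation.toSubmodule hT.sup_eq_top

lemma maschke_mul' {p : ℕ} [hp : Fact p.Prime] {P : Type} [CommGroup P]
    [Module (ZMod p) (Additive P)] {A : Type} [Group A] [Finite A] (hA : ¬ p ∣ Nat.card A) (φ : A →* MulAut P) (V : Subgroup P)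
    (hV : ∀ (a : A) (v : P), v ∈ V → φ a v ∈ V) :
    ∃ W : Subgroup P, (∀ x, x ∈ W → x ∈ V → x = 1) ∧ (∀ x, ∃ v ∈ V, ∃ w ∈ W, x = v * w) ∧
      ∀ (a : A) (w : P), w ∈ W → φ a w ∈ W := by
  let ρ : Representation (ZMod p) A (Additive P) :=
    { toFun := fun a => AddMonoidHom.toZModLinearMap p (MonoidHom.toAdditive (φ a).toMonoidHom)
      map_one' := by
        refine LinearMap.ext fun x => ?_
        change Additive.ofMul (φ 1 (Additive.toMul x)) = x
        rw [map_one]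
        rfl
      map_mul' := by
        intro a b
        refine LinearMap.ext fun x => ?_
        change Additive.ofMul (φ (a * b) (Additive.toMul x)) =
          Additive.ofMul (φ a (φ b (Additive.toMul x)))
        rw [map_mul]
        rfl }
  obtain ⟨T, hT1, hT2, hT3⟩ := maschke_add hA ρ
    (AddSubgroup.toZModSubmodule p (Subgroup.toAddSubgroup V)) (fun a x hx => hV a _ hx)
  let W : Subgroup P :=
    { carrier := {x | Additive.ofMul x ∈ T}
      one_mem' := T.zero_mem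
      mul_mem' := fun hx hy => T.add_mem hx hy
      inv_mem' := fun hx => T.neg_mem hx }
  refine ⟨W, ?_, ?_, fun a w hw => hT3 a _ hw⟩
  · intro x hx1 hx2
    have h1 : Additive.ofMul x ∈ AddSubgroup.toZModSubmodule p (Subgroup.toAddSubgroup V) ⊓ T :=
      ⟨hx2, hx1⟩
    rw [hT1] at h1
    exact h1
  · intro x
    have h1 : Additive.ofMul x ∈ AddSubgroup.toZModSubmodule p (Subgroup.toAddSubgroup V) ⊔ T := by
      rw [hT2]
      trivial
    rw [Submodule.mem_sup] at h1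
    obtain ⟨v, hv, w, hw, hvw⟩ := h1
    exact ⟨Additive.toMul v, hv, Additive.toMul w, hw, hvw.symm⟩

lemma maschke_mul {p : ℕ} [hp : Fact p.Prime] {P : Type} [CommGroup P] (he : ∀ x : P, x ^ p = 1)
    {A : Type} [Group A] [Finite A] (hA : ¬ p ∣ Nat.card A) (φ : A →* MulAut P) (V : Subgroup P)
    (hV : ∀ (a : A) (v : P), v ∈ V → φ a v ∈ V) :
    ∃ W : Subgroup P, (∀ x, x ∈ W → x ∈ V → x = 1) ∧ (∀ x, ∃ v ∈ V, ∃ w ∈ W, x = v * w) ∧
      ∀ (a : A) (w : P), w ∈ W → φ a w ∈ W := by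
  have hz : ∀ x : Additive P, p • x = 0 := by
    intro x
    apply Additive.toMul.injective
    rw [toMul_nsmul, toMul_zero]
    exact he _
  let _ : Module (ZMod p) (Additive P) := AddCommGroup.zmodModule hz
  exact maschke_mul' hA φ V hV

section

variable {Q : Type} [Group Q] [Finite Q] {p : ℕ} [hp : Fact p.Prime] (P : Subgroup Q) [P.Normal]

/-- Maschke's theorem for normal subgroups -/
theorem exists_inv_compl (hc : ∀ x ∈ P, ∀ y ∈ P, x * y = y * x) (he : ∀ x ∈ P, x ^ p = 1)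
    (A : Subgroup Q) (hA : ¬ p ∣ Nat.card A) (V : Subgroup Q) [hV : V.Normal] (hVP : V ≤ P) :
    ∃ W : Subgroup Q, W ≤ P ∧ W ⊓ V = ⊥ ∧ (∀ x ∈ P, ∃ v ∈ V, ∃ w ∈ W, x = v * w) ∧
      ∀ a ∈ A, ∀ w ∈ W, a * w * a⁻¹ ∈ W := by
  let _ : CommGroup P := { (inferInstance : Group P) with
    mul_comm := fun a b => Subtype.ext (hc _ a.2 _ b.2) }
  obtain ⟨W, hW1, hW2, hW3⟩ := maschke_mul (p := p) (fun x : P => Subtype.ext (he _ x.2)) hA
    ((MulAut.conjNormal : Q →* MulAut P).comp A.subtype) (V.subgroupOf P) (by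
      intro a v hv
      change ((MulAut.conjNormal (a : Q) v : P) : Q) ∈ V
      rw [MulAut.conjNormal_apply]
      exact hV.conj_mem _ hv _)
  refine ⟨W.map P.subtype, Subgroup.map_subtype_le _, ?_, ?_, ?_⟩
  · rw [eq_bot_iff]
    rintro _ ⟨⟨x, hx, rfl⟩, hx2⟩
    rw [hW1 x hx hx2]
    exact one_mem _
  · intro x hx
    obtain ⟨v, hv, w, hw, hvw⟩ := hW2 ⟨x, hx⟩
    exact ⟨v, hv, w, ⟨w, hw, rfl⟩, congrArg Subtype.val hvw⟩
  · rintro a ha _ ⟨w, hw, rfl⟩
    have h1 := hW3 ⟨a, ha⟩ w hw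
    refine ⟨_, h1, ?_⟩
    exact MulAut.conjNormal_apply _ _

/-- normal subgroups have complements -/
theorem exists_compl (hc : ∀ x ∈ P, ∀ y ∈ P, x * y = y * x) (he : ∀ x ∈ P, x ^ p = 1)
    (A : Subgroup Q) (hA : ¬ p ∣ Nat.card A) (hPA : P.IsComplement' A) (V : Subgroup Q)
    [hV : V.Normal] (hVP : V ≤ P) : ∃ D : Subgroup Q, D ⊓ V = ⊥ ∧ D ⊔ V = ⊤ := by
  obtain ⟨W, hW1, hW2, hW3, hW4⟩ := exists_inv_compl P hc he A hA V hVP
  let D : Subgroup Q :=
    { carrier := {x | ∃ w ∈ W, ∃ a ∈ A, x = w * a}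
      one_mem' := ⟨1, one_mem _, 1, one_mem _, by simp⟩
      mul_mem' := by
        rintro _ _ ⟨w, hw, a, ha, rfl⟩ ⟨w', hw', a', ha', rfl⟩
        refine ⟨w * (a * w' * a⁻¹), mul_mem hw (hW4 a ha w' hw'), a * a', mul_mem ha ha', ?_⟩
        group
      inv_mem' := by
        rintro _ ⟨w, hw, a, ha, rfl⟩
        refine ⟨a⁻¹ * w⁻¹ * (a⁻¹)⁻¹, hW4 _ (inv_mem ha) _ (inv_mem hw), a⁻¹, inv_mem ha, ?_⟩
        group }
  refine ⟨D, ?_, ?_⟩
  · rw [eq_bot_iff]
    rintro _ ⟨⟨w, hw, a, ha, rfl⟩, hx2⟩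
    have h1 : a ∈ P := by
      have h2 := mul_mem (inv_mem (hW1 hw)) (hVP hx2)
      rwa [inv_mul_cancel_left] at h2
    have h2 : a = 1 := by
      have h3 := hPA.disjoint
      rw [Subgroup.disjoint_def] at h3
      exact h3 h1 ha
    rw [h2, mul_one] at hx2 ⊢
    have h3 : w ∈ W ⊓ V := Subgroup.mem_inf.2 ⟨hw, hx2⟩
    rwa [hW2] at h3
  · rw [eq_top_iff]
    intro x _
    obtain ⟨⟨u, a⟩, hua⟩ := hPA.2 x
    obtain ⟨v, hv, w, hw, hvw⟩ := hW3 u u.2
    have h1 : x = v * (w * a) := by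
      rw [← hua, ← mul_assoc, ← hvw]
    rw [h1]
    have h2 : w * (a : Q) ∈ D := ⟨w, hw, a, a.2, rfl⟩
    exact mul_mem (Subgroup.mem_sup_right hv) (Subgroup.mem_sup_left h2)

end

end Pool.Agent.Helper15.QS
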