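import Pool.Agent.Helper15.QS.Cls

/-!
# Central extensions of extensions of `p`-groups
-/

open scoped Classical BigOperators IsMulCommutative
open Representation Pool.Agent.Helper884.IC Pool.Agent.Y63.AWC Pool.Agent.Helper15.AW

set_option linter.unusedSectionVars false
set_option linter.unusedVariables false
set_option linter.unusedSimpArgs false

attribute [-instance] MonoidHom.decidableMemKer

noncomputable section

namespace Pool.Agent.Helper15.QS

open Pool.Agent.Y63.KR (surfaceWord coords dg cod dg_spec cod_spec cod_pos DZ_iff)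

section

variable {E Q A : Type} [Group E] [Fintype E] [Group Q] [Fintype Q] [Group A] [Fintype A] {p : ℕ}
  [hp : Fact p.Prime]

lemma exists_expo (C : Type) [Group C] [Finite C] (hC : ¬ p ∣ Nat.card C) (k : ℕ) :
    ∃ e : ℕ, ∀ x : C, x ^ (p ^ k * e) = x := by
  rcases Nat.lt_or_ge 1 (Nat.card C) with h | h
  · have hcop : Nat.Coprime (p ^ k) (Nat.card C) :=
      Nat.Coprime.pow_left _ ((Nat.Prime.coprime_iff_not_dvd hp.out).2 hC)
    obtain ⟨e, he⟩ := Nat.exists_mul_mod_eq_one_of_coprime hcop h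
    refine ⟨e, fun x => ?_⟩
    rw [← pow_mod_natCard, he.2, pow_one]
  · have h1 : Nat.card C = 1 := le_antisymm h Nat.card_pos
    have h2 : Subsingleton C := (Nat.card_eq_one_iff_unique.1 h1).1
    exact ⟨1, fun x => Subsingleton.elim _ _⟩

theorem exists_pext (pe : E →* Q) (hpe : Function.Surjective pe)
    (hc : pe.ker ≤ Subgroup.center E) (hC : ¬ p ∣ Nat.card pe.ker) (fA : Q →* A)
    (hP : IsPGroup p fA.ker) :
    ∃ (m : ℕ) (χ : (fA.comp pe).ker →* Subgroup.center E),
      (∀ x, ((χ x : Subgroup.center E) : E) = (x : E) ^ m) ∧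
      (∀ x ∈ pe.ker, x ^ m = x) ∧ (∀ x ∈ (fA.comp pe).ker, x ^ m ∈ pe.ker) := by
  set K : Subgroup E := (fA.comp pe).ker with hK
  have hle : pe.ker ≤ K := by
    intro x hx
    rw [hK, MonoidHom.mem_ker, MonoidHom.comp_apply, (MonoidHom.mem_ker).1 hx, map_one]
  set H : Subgroup K := pe.ker.subgroupOf K with hH
  let φ : H →* Subgroup.center E :=
    { toFun := fun x => ⟨((x : K) : E), hc x.2⟩
      map_one' := rfl
      map_mul' := fun _ _ => rfl }
  -- the index is a power of `p`
  obtain ⟨k, hk⟩ : ∃ k, H.index = p ^ k := by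
    obtain ⟨k, hk⟩ := (IsPGroup.iff_card).1 hP
    refine ⟨k, ?_⟩
    rw [← hk]
    let pK : K →* fA.ker :=
      { toFun := fun x => ⟨pe (x : E), x.2⟩
        map_one' := Subtype.ext (map_one pe)
        map_mul' := fun x y => Subtype.ext (map_mul pe _ _) }
    have hpK : Function.Surjective pK := by
      rintro ⟨y, hy⟩
      obtain ⟨x, rfl⟩ := hpe y
      exact ⟨⟨x, hy⟩, rfl⟩
    have hker : pK.ker = H := by
      ext x
      constructor
      · intro hx
        exact congrArg Subtype.val hx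
      · intro hx
        exact Subtype.ext hx
    rw [← hker, Subgroup.index_ker, MonoidHom.range_eq_top_of_surjective _ hpK, Subgroup.card_top]
  have hcen : ∀ x ∈ H, ∀ y : K, y * x = x * y := by
    intro x hx y
    exact Subtype.ext (Subgroup.mem_center_iff.1 (hc hx) (y : E))
  have hkey : ∀ (x : K) (j : ℕ) (g₀ : K), g₀⁻¹ * x ^ j * g₀ ∈ H → g₀⁻¹ * x ^ j * g₀ = x ^ j := by
    intro x j g₀ hx
    have h1 := hcen _ hx g₀
    have h2 : g₀ * (g₀⁻¹ * x ^ j * g₀) = x ^ j * g₀ := by group
    rw [h2] at h1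
    exact (mul_right_cancel h1).symm
  have hmem : ∀ x : K, x ^ H.index ∈ H := fun x => MonoidHom.transfer_eq_pow_aux x (hkey x)
  obtain ⟨e, he⟩ := exists_expo (p := p) pe.ker hC k
  refine ⟨p ^ k * e, (powMonoidHom e).comp (φ.transfer), ?_, ?_, ?_⟩
  · intro x
    have h1 := MonoidHom.transfer_eq_pow φ x (hkey x)
    rw [MonoidHom.comp_apply, h1, powMonoidHom_apply, SubmonoidClass.coe_pow]
    change ((x : E) ^ H.index) ^ e = _
    rw [hk, ← pow_mul]
  · intro x hx
    exact congrArg Subtype.val (he ⟨x, hx⟩)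
  · intro x hx
    rw [pow_mul]
    refine pow_mem ?_ _
    rw [← hk]
    exact hmem ⟨x, hx⟩

/-- classes given by generating pairs -/
def PairCls (pe : E →* Q) (A' : Subgroup Q) (c : E) : Prop :=
  ∃ x y : E, Subgroup.closure {pe x, pe y} = A' ∧ x * y * x⁻¹ * y⁻¹ = c

/-- **The number of the generating tuples with a given class.** -/
theorem nc_mod (pe : E →* Q) (hpe : Function.Surjective pe) (hc : pe.ker ≤ Subgroup.center E)
    (hC : ¬ p ∣ Nat.card pe.ker) (fA : Q →* A) (hfA : Function.Surjective fA)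
    (hP : IsPGroup p fA.ker) (hA : ¬ p ∣ Nat.card A) (A' : Subgroup Q)
    (hA' : fA.ker.IsComplement' A') (c : pe.ker) :
    ∃ ν : ℕ, (ν ≠ 0 ↔ PairCls pe A' c) ∧ ∀ κ : ℤ, ∀ n N : ℕ,
      p ^ N * (p - 1) ∣ n → (∀ a : Fin (n + 1) → A × A, surfaceWord a = 1 →
        Subgroup.closure (coords a) = ⊤ → (p : ℤ) ^ (N + 1) ∣ (gl fA a : ℤ) - κ) →
      (p : ℤ) ^ (N + 1) ∣ (nc pe (n + 1) c : ℤ) - κ * ν := by
  obtain ⟨m, χ, h1, h2, h3⟩ := exists_pext pe hpe hc hC fA hP
  have hinv : InvHom (fA.comp pe) χ := by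
    intro g x
    apply Subtype.ext
    rw [h1, h1, MulAut.conjNormal_apply, conj_pow]
    have h4 : g * (x : E) ^ m = (x : E) ^ m * g := Subgroup.mem_center_iff.1 (hc (h3 _ x.2)) g
    rw [h4, mul_inv_cancel_right]
  have hn := kd_normal hinv
  have hle : pe.ker ≤ (fA.comp pe).ker := by
    intro x hx
    rw [MonoidHom.mem_ker, MonoidHom.comp_apply, (MonoidHom.mem_ker).1 hx, map_one]
  set ρ : E →* E ⧸ kd (fA.comp pe) χ := QuotientGroup.mk' _ with hρ
  set pa : E ⧸ kd (fA.comp pe) χ →* A := pq (fA.comp pe) χ with hpa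
  have hpac : pa.ker ≤ Subgroup.center _ := pq_central hinv
  have hpas : Function.Surjective pa := by
    intro a
    obtain ⟨y, rfl⟩ := hfA a
    obtain ⟨x, rfl⟩ := hpe y
    exact ⟨ρ x, rfl⟩
  have hρinj : ∀ x ∈ pe.ker, ∀ y ∈ pe.ker, ρ x = ρ y → x = y := by
    intro x hx y hy hxy
    have h4 := (mk_eq_iff (f := fA.comp pe) (χ := χ) ⟨x, hle hx⟩ ⟨y, hle hy⟩).1 hxy
    have h5 := congrArg Subtype.val h4
    rw [h1, h1] at h5
    rw [← h2 x hx, ← h2 y hy]
    exact h5
  have hρc : ρ c ∈ pa.ker := hle c.2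
  have hcardr : ¬ p ∣ Nat.card χ.range := by
    intro h
    apply hC
    refine h.trans ?_
    let j : χ.range →* pe.ker :=
      { toFun := fun t => ⟨((t : Subgroup.center E) : E), by
          obtain ⟨x, hx⟩ := t.2
          rw [← hx, h1]
          exact h3 _ x.2⟩
        map_one' := rfl
        map_mul' := fun _ _ => rfl }
    refine Subgroup.card_dvd_of_injective j ?_
    intro s t hst
    exact Subtype.ext (Subtype.ext (congrArg (fun x : pe.ker => (x : E)) hst))
  have hEA : ¬ p ∣ Nat.card (E ⧸ kd (fA.comp pe) χ) := by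
    rw [Subgroup.card_eq_card_quotient_mul_card_subgroup pa.ker,
      Nat.card_congr (QuotientGroup.quotientKerEquivOfSurjective pa hpas).toEquiv, hpa, pq_card]
    intro h
    rcases (Nat.Prime.dvd_mul hp.out).1 h with h | h
    · exact hA h
    · exact hcardr h
  have hword : ∀ (g : ℕ) (r : Fin g → Q × Q), surfaceWord r = 1 →
      ((∀ e : Fin g → E × E, mapT pe e = r → surfaceWord e = c) ↔
      ∀ e : Fin g → (E ⧸ kd (fA.comp pe) χ) × (E ⧸ kd (fA.comp pe) χ), mapT pa e = mapT fA r →
        surfaceWord e = ρ c) := by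
    intro g r hr
    constructor
    · intro h e he
      obtain ⟨e0, he0⟩ := exists_liftT pe hpe r
      have h4 : mapT pa (mapT ρ e0) = mapT pa e := by
        rw [he, ← he0]
        rfl
      rw [← word_lifts pa hpac _ _ h4, word_mapT, h e0 he0]
    · intro h e he
      have h4 := h (mapT ρ e) (by rw [← he]; rfl)
      rw [word_mapT] at h4
      refine hρinj _ ?_ _ c.2 h4
      rw [MonoidHom.mem_ker, ← word_mapT, he, hr]
  refine ⟨nc pa 1 (ρ c), ?_, ?_⟩
  · constructor
    · intro h
      have hne : Nonempty {r : Fin 1 → A × A // (surfaceWord r = 1 ∧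
          Subgroup.closure (coords r) = ⊤) ∧ ∀ e : Fin 1 → (E ⧸ kd (fA.comp pe) χ) ×
            (E ⧸ kd (fA.comp pe) χ), mapT pa e = r → surfaceWord e = ρ c} := by
        by_contra hcon
        rw [not_nonempty_iff] at hcon
        exact h (Nat.card_of_isEmpty)
      obtain ⟨r, ⟨hr1, hr2⟩, hr3⟩ := hne
      have hex : ∀ a : A, ∃ s ∈ A', fA s = a := by
        intro a
        obtain ⟨y, rfl⟩ := hfA a
        obtain ⟨⟨u, s⟩, hus⟩ := hA'.2 y
        refine ⟨s, s.2, ?_⟩
        rw [← hus]
        change _ = fA ((u : Q) * (s : Q))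
        rw [map_mul, (MonoidHom.mem_ker).1 u.2, one_mul]
      obtain ⟨s1, hs1, hs1'⟩ := hex (r 0).1
      obtain ⟨s2, hs2, hs2'⟩ := hex (r 0).2
      obtain ⟨x, rfl⟩ := hpe s1
      obtain ⟨y, rfl⟩ := hpe s2
      have hdis : ∀ z ∈ A', fA z = 1 → z = 1 := by
        intro z hz hz1
        have h3 := hA'.disjoint
        rw [Subgroup.disjoint_def] at h3
        exact h3 hz1 hz
      have hcl : Subgroup.closure {pe x, pe y} ≤ A' := by
        rw [Subgroup.closure_le]
        rintro z (rfl | rfl)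
        · exact hs1
        · exact hs2
      rw [coords_one] at hr2
      refine ⟨x, y, le_antisymm hcl ?_, ?_⟩
      · intro z hz
        have h4 : (Subgroup.closure {pe x, pe y}).map fA = ⊤ := by
          rw [MonoidHom.map_closure, Set.image_pair, hs1', hs2', hr2]
        have h5 : fA z ∈ (Subgroup.closure {pe x, pe y}).map fA := by rw [h4]; trivial
        obtain ⟨w, hw, hwz⟩ := h5
        have h6 : w⁻¹ * z = 1 := hdis _ (mul_mem (inv_mem (hcl hw)) hz) (by
          rw [map_mul, map_inv, hwz, inv_mul_cancel])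
        rw [inv_mul_eq_one] at h6
        rw [← h6]
        exact hw
      · have h4 := hr3 (fun _ => (ρ x, ρ y)) (by
          funext i
          rw [Subsingleton.elim i 0]
          exact Prod.ext hs1' hs2')
        rw [word_one] at h4
        have h5 : ρ (x * y * x⁻¹ * y⁻¹) = ρ c := by
          rw [← h4]
          simp only [map_mul, map_inv]
        refine hρinj _ ?_ _ c.2 h5
        rw [MonoidHom.mem_ker]
        refine hdis _ ?_ ?_
        · simp only [map_mul, map_inv]
          exact mul_mem (mul_mem (mul_mem hs1 hs2) (inv_mem hs1)) (inv_mem hs2)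
        · simp only [map_mul, map_inv]
          rw [hs1', hs2', ← word_one, hr1]
    · rintro ⟨x, y, h4, h5⟩
      have hne : Nonempty {r : Fin 1 → A × A // (surfaceWord r = 1 ∧
          Subgroup.closure (coords r) = ⊤) ∧ ∀ e : Fin 1 → (E ⧸ kd (fA.comp pe) χ) ×
            (E ⧸ kd (fA.comp pe) χ), mapT pa e = r → surfaceWord e = ρ c} := by
        refine ⟨⟨fun _ => (fA (pe x), fA (pe y)), ⟨?_, ?_⟩, ?_⟩⟩
        · rw [word_one]
          change fA (pe x) * fA (pe y) * (fA (pe x))⁻¹ * (fA (pe y))⁻¹ = 1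
          have h6 := congrArg (fun z => fA (pe z)) h5
          simp only [map_mul, map_inv] at h6
          rw [h6, (MonoidHom.mem_ker).1 c.2, map_one]
        · rw [coords_one]
          change Subgroup.closure {fA (pe x), fA (pe y)} = ⊤
          rw [← Set.image_pair, ← MonoidHom.map_closure, h4]
          rw [eq_top_iff]
          intro a _
          obtain ⟨z, rfl⟩ := hfA a
          obtain ⟨⟨u, s⟩, hus⟩ := hA'.2 z
          refine ⟨s, s.2, ?_⟩
          rw [← hus]
          change _ = fA ((u : Q) * (s : Q))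
          rw [map_mul, (MonoidHom.mem_ker).1 u.2, one_mul]
        · intro e he
          have h6 : mapT pa e = mapT pa (fun _ : Fin 1 => (ρ x, ρ y)) := by
            rw [he]
            rfl
          rw [word_lifts pa hpac _ _ h6, word_one]
          change ρ x * ρ y * (ρ x)⁻¹ * (ρ y)⁻¹ = ρ c
          rw [← h5]
          simp only [map_mul, map_inv]
      unfold nc
      exact Nat.card_pos.ne'
  · intro κ n N hd hκ
    have h4 := nc_prime pa hpas hpac hEA ⟨ρ c, hρc⟩ hd
    have h5 : (nc pe (n + 1) c : ℤ) = ∑ a : Fin (n + 1) → A × A,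
        if (surfaceWord a = 1 ∧ Subgroup.closure (coords a) = ⊤) ∧
          (∀ e : Fin (n + 1) → (E ⧸ kd (fA.comp pe) χ) × (E ⧸ kd (fA.comp pe) χ), mapT pa e = a →
            surfaceWord e = ρ c) then (gl fA a : ℤ) else 0 := by
      unfold nc
      rw [← fiber_sum (fun r : Fin (n + 1) → Q × Q => (surfaceWord r = 1 ∧
        Subgroup.closure (coords r) = ⊤) ∧ ∀ e : Fin (n + 1) → E × E, mapT pe e = r →
          surfaceWord e = c) (fun r => mapT fA r), Nat.cast_sum]
      refine Finset.sum_congr rfl fun a _ => ?_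
      split_ifs with ha
      · unfold gl
        congr 1
        refine Nat.card_congr (Equiv.subtypeEquivRight fun r => ?_)
        constructor
        · rintro ⟨⟨h6, _⟩, h7⟩
          exact ⟨h6, h7⟩
        · rintro ⟨h6, h7⟩
          refine ⟨⟨h6, (hword _ r h6.1).2 ?_⟩, h7⟩
          rw [h7]
          exact ha.2
      · rw [Nat.cast_eq_zero, Nat.card_eq_zero]
        left
        constructor
        rintro ⟨r, ⟨⟨h6, h7⟩, h8⟩, h9⟩
        apply ha
        refine ⟨⟨?_, ?_⟩, ?_⟩
        · rw [← h9, word_mapT, h6, map_one]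
        · rw [← h9, closure_mapT, h7, Subgroup.map_top_of_surjective _ hfA]
        · have h10 := (hword _ r h6).1 h8
          rwa [h9] at h10
    have h6 : κ * (nc pa (n + 1) (ρ c) : ℤ) = ∑ a : Fin (n + 1) → A × A,
        if (surfaceWord a = 1 ∧ Subgroup.closure (coords a) = ⊤) ∧
          (∀ e : Fin (n + 1) → (E ⧸ kd (fA.comp pe) χ) × (E ⧸ kd (fA.comp pe) χ), mapT pa e = a →
            surfaceWord e = ρ c) then κ else 0 := by
      rw [← Finset.sum_filter, Finset.sum_const, nsmul_eq_mul, mul_comm]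
      congr 2
      unfold nc
      rw [Nat.card_eq_fintype_card, Fintype.card_subtype]
    have h7 : (p : ℤ) ^ (N + 1) ∣ (nc pe (n + 1) c : ℤ) - κ * (nc pa (n + 1) (ρ c) : ℤ) := by
      rw [h5, h6, ← Finset.sum_sub_distrib]
      refine Finset.dvd_sum fun a _ => ?_
      split_ifs with ha
      · exact hκ a ha.1.1 ha.1.2
      · simp
    have h8 : (nc pe (n + 1) c : ℤ) - κ * (nc pa 1 (ρ c) : ℤ) =
        ((nc pe (n + 1) c : ℤ) - κ * (nc pa (n + 1) (ρ c) : ℤ)) +
        κ * ((nc pa (n + 1) (ρ c) : ℤ) - (nc pa 1 (ρ c) : ℤ)) := by ring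
    rw [h8]
    exact dvd_add h7 (Dvd.dvd.mul_left h4 _)

end

end Pool.Agent.Helper15.QS
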