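import Pool.Agent.Helper15.QS.Four

/-!
# Groups of order prime to `p`
-/

open scoped Classical BigOperators
open Representation Pool.Agent.Helper884.IC Pool.Agent.Y63.AWC Pool.Agent.Helper15.AW

set_option linter.unusedSectionVars false
set_option linter.unusedVariables false
set_option linter.unusedSimpArgs false

attribute [-instance] MonoidHom.decidableMemKer

noncomputable section

namespace Pool.Agent.Helper15.QS

open Pool.Agent.Y63.KR (surfaceWord coords dg cod dg_spec cod_spec cod_pos DZ_iff)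

section

variable {E : Type} [Group E] [Fintype E]

/-- tuples of elements of the whole group -/
def topT (g : ℕ) : (Fin g → (⊤ : Subgroup E) × (⊤ : Subgroup E)) ≃ (Fin g → E × E) where
  toFun := mapT (⊤ : Subgroup E).subtype
  invFun q := fun i => (⟨(q i).1, trivial⟩, ⟨(q i).2, trivial⟩)
  left_inv _ := rfl
  right_inv _ := rfl

/-- the trivial tuple -/
def oneT (E : Type) [Group E] (g : ℕ) : Fin g → E × E := fun _ => (1, 1)

lemma mulT_oneT {g : ℕ} (m : Fin g → E × E) : mulT (oneT E g) m = m := by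
  funext i
  exact Prod.ext (one_mul _) (one_mul _)

lemma word_oneT {g : ℕ} : surfaceWord (oneT E g) = 1 := by
  have h1 := word_mapT (1 : E →* E) (oneT E g)
  rw [MonoidHom.one_apply] at h1
  rw [← h1]
  rfl

lemma all_sum (C : Subgroup E) (hC : C ≤ Subgroup.center E) (kap : C →* ℂˣ) (n : ℕ) :
    ∑ q : Fin (n + 1) → E × E, ext0 C kap (surfaceWord q) =
      (Nat.card C : ℂ) * (Nat.card (⊤ : Subgroup E) : ℂ) *
        ∑ theta ∈ DD (M := (⊤ : Subgroup E)) C kap, (cod theta : ℂ) ^ (2 * n) := by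
  have hw : surfaceWord (oneT E (n + 1)) ∈ (⊤ : Subgroup E) := trivial
  have h1 := R_sum (M := (⊤ : Subgroup E)) C hC le_top kap (oneT E (n + 1)) hw (by
    rw [sup_top_eq])
  have h2 : ∀ theta ∈ DD (M := (⊤ : Subgroup E)) C kap,
      zf (oneT E (n + 1)) theta * (cod theta : ℂ) ^ (2 * n) = (cod theta : ℂ) ^ (2 * n) := by
    intro theta ht
    have hirr := mem_Irr.1 (Finset.mem_filter.1 ht).1
    rw [zf_eq hw hirr 1, one_mul]
    have h3 := sum_word_char hirr (n + 1)
    rw [pow_mul] at h3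
    rw [one_mul, ← h3]
    refine Finset.sum_congr rfl fun m _ => ?_
    congr 1
    apply Subtype.ext
    change surfaceWord (mulT (oneT E (n + 1)) (mapT (⊤ : Subgroup E).subtype m)) = _
    rw [mulT_oneT, word_mapT]
    rfl
  rw [Finset.sum_congr rfl h2] at h1
  rw [← h1, ← (topT (E := E) (n + 1)).sum_comp (fun q => ext0 C kap (surfaceWord q))]
  refine Finset.sum_congr rfl fun m _ => ?_
  rw [mulT_oneT]
  rfl

/-- the sum over the tuples in a subgroup -/
def leSum (C : Subgroup E) (kap : C →* ℂˣ) (g : ℕ) (L : Subgroup E) : ℂ :=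
  ∑ q : Fin g → E × E, if True ∧ Subgroup.closure (coords q) ⊔ C ≤ L then
    ext0 C kap (surfaceWord q) else 0

lemma leSum_split [Fintype (Subgroup E)] (C : Subgroup E) (kap : C →* ℂˣ) (g : ℕ)
    (L : Subgroup E) : leSum C kap g L = sumGen C kap g L +
      ∑ K ∈ Finset.univ.filter (fun K : Subgroup E => K < L), sumGen C kap g K := by
  have h3 := sum_le_split (fun q : Fin g → E × E => True)
    (fun q => Subgroup.closure (coords q) ⊔ C) (fun q => ext0 C kap (surfaceWord q)) L
  unfold leSum sumGen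
  simp only [true_and] at h3 ⊢
  exact h3

lemma leSum_eq (C : Subgroup E) (kap : C →* ℂˣ) (g : ℕ) (L : Subgroup E) (hL : C ≤ L) :
    leSum C kap g L = ∑ q : Fin g → L × L, ext0 (C.subgroupOf L) (rkap C kap L)
      (surfaceWord q) := by
  unfold leSum
  simp only [true_and]
  rw [← Finset.sum_filter]
  symm
  refine Finset.sum_bij (fun q _ => mapT L.subtype q) ?_ ?_ ?_ ?_
  · intro q _
    rw [Finset.mem_filter]
    refine ⟨Finset.mem_univ _, sup_le ?_ hL⟩
    rw [Subgroup.closure_le, coords_mapT]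
    rintro _ ⟨x, _, rfl⟩
    exact x.2
  · intro q _ q' _ h
    funext i
    exact Prod.ext (Subtype.ext (congrArg Prod.fst (congrFun h i)))
      (Subtype.ext (congrArg Prod.snd (congrFun h i)))
  · intro q hq
    rw [Finset.mem_filter, sup_le_iff, Subgroup.closure_le] at hq
    obtain ⟨_, h2, _⟩ := hq
    exact ⟨fun i => (⟨(q i).1, h2 (Or.inl ⟨i, rfl⟩)⟩, ⟨(q i).2, h2 (Or.inr ⟨i, rfl⟩)⟩),
      Finset.mem_univ _, rfl⟩
  · intro q _
    rw [ext0_rkap, word_mapT]
    rfl

lemma sumGen_zero (C : Subgroup E) (kap : C →* ℂˣ) (g : ℕ) (L : Subgroup E) (hL : ¬ C ≤ L) :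
    sumGen C kap g L = 0 := by
  refine Finset.sum_eq_zero fun q _ => ?_
  rw [if_neg]
  intro h
  exact hL (h ▸ le_sup_right)

theorem sumGen_prime {p : ℕ} [hp : Fact p.Prime] (hE : ¬ p ∣ Nat.card E) (C : Subgroup E)
    (hC : C ≤ Subgroup.center E) (kap : C →* ℂˣ) {n N : ℕ} (hd : p ^ N * (p - 1) ∣ n)
    (L : Subgroup E) : PD p (N + 1) (sumGen C kap (n + 1) L - sumGen C kap 1 L) := by
  have : Fintype (Subgroup E) := Fintype.ofFinite _
  refine mob_PD C (fun L => leSum C kap (n + 1) L) (fun L => sumGen C kap (n + 1) L)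
    (fun L => leSum C kap 1 L) (fun L => sumGen C kap 1 L)
    (fun L _ => leSum_split C kap _ L) (fun L _ => leSum_split C kap _ L) (fun L hL => ?_)
    (fun L hL => sumGen_zero C kap _ L hL) (fun L hL => sumGen_zero C kap _ L hL) L
  have hC' : C.subgroupOf L ≤ Subgroup.center L := by
    intro x hx
    rw [Subgroup.mem_center_iff]
    intro y
    exact Subtype.ext (Subgroup.mem_center_iff.1 (hC hx) y)
  have h0 := all_sum (C.subgroupOf L) hC' (rkap C kap L) 0
  have hn := all_sum (C.subgroupOf L) hC' (rkap C kap L) n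
  rw [zero_add] at h0
  rw [leSum_eq C kap _ L hL, leSum_eq C kap _ L hL, h0, hn, ← mul_sub, ← Finset.sum_sub_distrib]
  refine PD.mul_left ((int_nat _).mul (int_nat _)) (PD.sum _ _ fun theta ht => ?_)
  have hirr := mem_Irr.1 (Finset.mem_filter.1 ht).1
  rw [mul_zero, pow_zero]
  refine PD.unit_pow ?_ (hd.mul_left 2)
  intro h
  apply hE
  have h1 : cod theta ∣ Nat.card (⊤ : Subgroup L) := by
    rw [← cod_spec hirr]
    first
      | exact Dvd.intro _ rfl
      | exact Dvd.intro_left _ rfl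
  refine h.trans (h1.trans ?_)
  rw [Subgroup.card_top]
  exact Subgroup.card_subgroup_dvd_card L

/-- the numbers of the tuples with given product of commutators -/
theorem cw_prime {p : ℕ} [hp : Fact p.Prime] (hE : ¬ p ∣ Nat.card E) (C : Subgroup E)
    (hC : C ≤ Subgroup.center E) (c : C) {n N : ℕ} (hd : p ^ N * (p - 1) ∣ n) :
    PD p (N + 1) ((cw C (n + 1) c : ℂ) - (cw C 1 c : ℂ)) := by
  have : Fintype (C →* ℂˣ) := Fintype.ofFinite _
  have hC1 : ¬ p ∣ Nat.card C := fun h => hE (h.trans (Subgroup.card_subgroup_dvd_card C))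
  refine PD.of_mul hC1 ((int_nat _).sub (int_nat _)) ?_
  rw [mul_sub, cw_eq C hC, cw_eq C hC, ← Finset.sum_sub_distrib]
  refine PD.sum _ _ fun kap _ => ?_
  rw [← mul_sub]
  refine PD.mul_left ?_ (sumGen_prime hE C hC kap hd ⊤)
  have h1 := unit_integral kap c⁻¹
  rwa [map_inv] at h1

end

end Pool.Agent.Helper15.QS
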