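import Pool.Agent.Helper15.QS.Chi

/-!
# The sums over the tuples of a central extension of an induced group
-/

open scoped Classical BigOperators IsMulCommutative
open Representation Pool.Agent.Helper884.IC Pool.Agent.Y63.AWC Pool.Agent.Helper15.AW

set_option linter.unusedSectionVars false
set_option linter.unusedVariables false
set_option linter.unusedSimpArgs false

attribute [-instance] MonoidHom.decidableMemKer

noncomputable section

namespace Pool.Agent.Helper15.QS

open Pool.Agent.Y63.KR (surfaceWord coords dg cod dg_spec cod_spec cod_pos DZ_iff)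

lemma card_tuples (Z : Type) [Fintype Z] (g : ℕ) :
    (Fintype.card (Fin g → Z × Z) : ℂ) = (Nat.card Z : ℂ) ^ (2 * g) := by
  rw [Fintype.card_fun, Fintype.card_prod, Fintype.card_fin, ← Nat.card_eq_fintype_card]
  push_cast
  rw [← pow_two, ← pow_mul]

section

variable {B : Type} [Group B] [Fintype B] {B1 : Subgroup B} [Fintype (B ⧸ B1)]
  {A : Type} [Group A] [Fintype A]
  {π : A →* B1} {H : Type} [Group H] [Fintype H] {K : Type} [Group K] [Finite K]
  {Φ : H →* Ind π} {dl : K →* A} {φ : A →* MulAut K} {ψ : (B ⧸ B1 → K) →* H}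

lemma WW_val (hc : Φ.ker ≤ Subgroup.center H) (lam : Φ.ker →* ℂˣ) {g : ℕ} (x : Fin g → H × H) :
    WW Φ Φ.ker lam (mapT Φ x) =
      (Nat.card Φ.ker : ℂ) ^ (2 * g) * ext0 Φ.ker lam (surfaceWord x) := by
  unfold WW
  have h1 := sum_fibre Φ x (fun y => ext0 Φ.ker lam (surfaceWord y))
  have h2 : ∀ m : Fin g → Φ.ker × Φ.ker,
      ext0 Φ.ker lam (surfaceWord (mulT x (mapT Φ.ker.subtype m))) =
      ext0 Φ.ker lam (surfaceWord x) := by
    intro m
    rw [word_central x (mapT Φ.ker.subtype m) (fun i => ⟨hc (m i).1.2, hc (m i).2.2⟩)]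
  rw [Finset.sum_congr rfl fun m _ => h2 m, Finset.sum_const, Finset.card_univ, nsmul_eq_mul,
    card_tuples] at h1
  rw [← h1]

variable {Γ : Type} [Group Γ] [Fintype Γ] {a : Γ →* A} {κ : a.ker →* ℂˣ}

/-- the sum over the lifts to the induced group of `Γ` -/
def WG (π : A →* B1) (a : Γ →* A) (κ : a.ker →* ℂˣ) {g : ℕ} (q : Fin g → Ind π × Ind π) : ℂ :=
  ∑ x : Fin g → Ind (π.comp a) × Ind (π.comp a), if mapT (Psi π a) x = q then
    wt a.ker κ (surfaceWord x) else 0

/-- the homomorphism given by `κ` -/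
def wth (π : A →* B1) (a : Γ →* A) (κ : a.ker →* ℂˣ) : (Psi π a).ker →* ℂˣ :=
  MonoidHom.mk' (fun x => ∏ i, k1 a.ker κ ((x : Ind (π.comp a)).snd i)) (by
    intro x y
    rw [← Finset.prod_mul_distrib]
    refine Finset.prod_congr rfl fun i _ => ?_
    have hx : ∀ i, (x : Ind (π.comp a)).snd i ∈ a.ker := fun i =>
      congrFun (congrArg Ind.snd (x.2 : Psi π a x = 1)) i
    have hy : ∀ i, (y : Ind (π.comp a)).snd i ∈ a.ker := fun i =>
      congrFun (congrArg Ind.snd (y.2 : Psi π a y = 1)) i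
    have hy1 : (y : Ind (π.comp a)).fst = 1 := congrArg Ind.fst (y.2 : Psi π a y = 1)
    rw [← k1_mul a.ker κ (hx i) (hy i), Subgroup.coe_mul, Ind.mul_snd, hy1, one_smul])

lemma psi_snd (x : (Psi π a).ker) (i : B ⧸ B1) : (x : Ind (π.comp a)).snd i ∈ a.ker :=
  congrFun (congrArg Ind.snd (x.2 : Psi π a x = 1)) i

lemma psi_fst (x : (Psi π a).ker) : (x : Ind (π.comp a)).fst = 1 :=
  congrArg Ind.fst (x.2 : Psi π a x = 1)

lemma wth_inv (hac : a.ker ≤ Subgroup.center Γ) : InvHom (Psi π a) (wth π a κ) := by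
  intro y x
  symm
  refine Fintype.prod_equiv (MulAction.toPerm y.fst) _ _ fun i => ?_
  rw [MulAction.toPerm_apply]
  congr 1
  have e1 : (MulAut.conjNormal y x : Ind (π.comp a)) = y * (x : Ind (π.comp a)) * y⁻¹ :=
    MulAut.conjNormal_apply _ _
  rw [e1, Ind.conj_snd _ _ (psi_fst x), Subgroup.mem_center_iff.1 (hac (psi_snd x i)),
    mul_inv_cancel_right]

lemma wt_wth (x : (Psi π a).ker) :
    wt a.ker κ (x : Ind (π.comp a)) = ((wth π a κ x : ℂˣ) : ℂ) := by
  rw [wt_eq]
  change _ = (((∏ i, k1 a.ker κ ((x : Ind (π.comp a)).snd i) : ℂˣ)) : ℂ)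
  rw [Units.coe_prod]
  exact Finset.prod_congr rfl fun i _ => ext0_k1 a.ker κ (psi_snd x i)

lemma wt_zero (x : Ind (π.comp a)) (h1 : x.fst = 1) (h2 : x ∉ (Psi π a).ker) :
    wt a.ker κ x = 0 := by
  rw [wt_eq]
  have h3 : ∃ i, x.snd i ∉ a.ker := by
    by_contra hcon
    push Not at hcon
    exact h2 (Ind.ext h1 (funext fun i => hcon i))
  obtain ⟨i, hi⟩ := h3
  exact Finset.prod_eq_zero (Finset.mem_univ i) (ext0_of_not_mem κ hi)

lemma WG_val (hac : a.ker ≤ Subgroup.center Γ) {g : ℕ}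
    (x : Fin g → Ind (π.comp a) × Ind (π.comp a)) (hx : (surfaceWord x).fst = 1) :
    WG π a κ (mapT (Psi π a) x) =
      (Nat.card (Psi π a).ker : ℂ) ^ (2 * g) * wt a.ker κ (surfaceWord x) := by
  unfold WG
  have h1 := sum_fibre (Psi π a) x (fun y => wt a.ker κ (surfaceWord y))
  have h2 : ∀ m : Fin g → (Psi π a).ker × (Psi π a).ker,
      wt a.ker κ (surfaceWord (mulT x (mapT (Psi π a).ker.subtype m))) =
      wt a.ker κ (surfaceWord x) := by
    intro m
    set y := mulT x (mapT (Psi π a).ker.subtype m) with hy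
    have h3 : mapT (Psi π a) y = mapT (Psi π a) x := by
      rw [hy, mapT_mulT]
      funext i
      refine Prod.ext ?_ ?_
      · change Psi π a (x i).1 * Psi π a ((m i).1 : Ind (π.comp a)) = _
        rw [(MonoidHom.mem_ker).1 (m i).1.2, mul_one]
        rfl
      · change Psi π a (x i).2 * Psi π a ((m i).2 : Ind (π.comp a)) = _
        rw [(MonoidHom.mem_ker).1 (m i).2.2, mul_one]
        rfl
    have h4 : Psi π a (surfaceWord y) = Psi π a (surfaceWord x) := by
      rw [← word_mapT, ← word_mapT, h3]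
    have h5 : (surfaceWord y).fst = 1 := by
      have : (Psi π a (surfaceWord y)).fst = (Psi π a (surfaceWord x)).fst := by rw [h4]
      exact this.trans hx
    by_cases h6 : surfaceWord x ∈ (Psi π a).ker
    · have h7 : surfaceWord y ∈ (Psi π a).ker := by
        rw [MonoidHom.mem_ker, h4]
        exact h6
      have h8 := chi_lifts (wth_inv (κ := κ) hac) y x h3 h7 h6
      rw [wt_wth ⟨_, h7⟩, wt_wth ⟨_, h6⟩, h8]
    · have h7 : surfaceWord y ∉ (Psi π a).ker := by
        rw [MonoidHom.mem_ker, h4]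
        exact h6
      rw [wt_zero _ h5 h7, wt_zero _ hx h6]
  rw [Finset.sum_congr rfl fun m _ => h2 m, Finset.sum_const, Finset.card_univ, nsmul_eq_mul,
    card_tuples] at h1
  rw [← h1]

lemma st_map (D : Subgroup (Ind (π.comp a))) : st (D.map (Psi π a)) = (st D).map a := by
  ext γ
  constructor
  · rintro ⟨_, ⟨h, hh, rfl⟩, h1, h2⟩
    exact ⟨h.snd (i0 B1), ⟨h, hh, h1, rfl⟩, h2⟩
  · rintro ⟨_, ⟨h, hh, h1, rfl⟩, h2⟩
    exact ⟨_, ⟨h, hh, rfl⟩, h1, h2⟩

lemma map_top_iff (ha : Function.Surjective a) (S : Subgroup Γ) :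
    S.map a = ⊤ ↔ S ⊔ a.ker = ⊤ := by
  constructor
  · intro h
    rw [← Subgroup.comap_map_eq, h, Subgroup.comap_top]
  · intro h
    have h1 := congrArg (Subgroup.map a) h
    rw [Subgroup.map_sup, (Subgroup.map_eq_bot_iff _).2 le_rfl, sup_bot_eq,
      Subgroup.map_top_of_surjective a ha] at h1
    exact h1

lemma EW_WG (ha : Function.Surjective a) {g : ℕ} (r : Fin g → B × B) :
    EW π (WG π a κ) ⊤ r = VE (π.comp a) a.ker κ ⊤ r := by
  unfold EW VE WG
  have h4 : ∀ q : Fin g → Ind π × Ind π, (if mapT (Ind.fstHom π) q = r ∧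
      st (Subgroup.closure (coords q)) = ⊤ then (∑ x : Fin g → Ind (π.comp a) × Ind (π.comp a),
        if mapT (Psi π a) x = q then wt a.ker κ (surfaceWord x) else 0) else 0) =
      ∑ x : Fin g → Ind (π.comp a) × Ind (π.comp a), if mapT (Psi π a) x = q then
        (if mapT (Ind.fstHom π) q = r ∧ st (Subgroup.closure (coords q)) = ⊤ then
          wt a.ker κ (surfaceWord x) else 0) else 0 := by
    intro q
    split_ifs with h5
    · rfl
    · simp
  rw [Finset.sum_congr rfl fun q _ => h4 q, Finset.sum_comm]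
  refine Finset.sum_congr rfl fun x _ => ?_
  rw [Finset.sum_ite_eq, if_pos (Finset.mem_univ _)]
  have h5 : mapT (Ind.fstHom π) (mapT (Psi π a) x) = mapT (Ind.fstHom (π.comp a)) x := rfl
  have h6 : st (Subgroup.closure (coords (mapT (Psi π a) x))) = ⊤ ↔
      st (Subgroup.closure (coords x)) ⊔ a.ker = ⊤ := by
    rw [closure_mapT, st_map, map_top_iff ha]
  rw [h5]
  simp only [h6]

lemma psi_surj (ha : Function.Surjective a) : Function.Surjective (Psi π a) := by
  intro x
  choose s hs using ha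
  exact ⟨⟨x.fst, fun i => s (x.snd i), fun i => by
    rw [MonoidHom.comp_apply, hs]
    exact x.prop i⟩, Ind.ext rfl (funext fun i => hs _)⟩

lemma card_psi : Nat.card (Psi π a).ker = Nat.card a.ker ^ B1.index := by
  have h1 : Nat.card (B ⧸ B1 → a.ker) = Nat.card a.ker ^ B1.index := by
    rw [Nat.card_fun]
    rfl
  rw [← h1]
  refine Nat.card_congr
    { toFun := fun x i => ⟨_, psi_snd x i⟩
      invFun := fun k => ⟨⟨1, fun i => k i, fun i => ?_⟩, ?_⟩
      left_inv := fun x => ?_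
      right_inv := fun k => rfl }
  · rw [MonoidHom.comp_apply, (MonoidHom.mem_ker).1 (k i).2, map_one, kp_one]
  · exact Ind.ext rfl (funext fun i => (k i).2)
  · exact Subtype.ext (Ind.ext (psi_fst x).symm rfl)

/-- **The relation between the sums.** -/
theorem EW_rel (D : Dat π Φ dl φ ψ) (lam : Φ.ker →* ℂˣ) (ha : Function.Surjective a)
    (hac : a.ker ≤ Subgroup.center Γ) {j : K →* Γ}
    (haj : ∀ x, a (j x) = dl x) (hκ : ∀ (z : K) (hz : dl z = 1) (hz' : j z ∈ a.ker),
      κ ⟨_, hz'⟩ = lam ⟨_, D.ker_psi hz (i0 B1)⟩) {g : ℕ} (r : Fin g → B × B)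
    (hr : surfaceWord r = 1) (b : ℂ) (hb : ∀ q : Fin g → G2 Φ a × G2 Φ a, mapT (g2 Φ a) q = r →
      ∀ hw : surfaceWord q ∈ (g2 Φ a).ker, b = ((ch2 D lam hac haj hκ ⟨_, hw⟩ : ℂˣ) : ℂ)) :
    (Nat.card (Psi π a).ker : ℂ) ^ (2 * g) * EW π (WW Φ Φ.ker lam) ⊤ r =
      (Nat.card Φ.ker : ℂ) ^ (2 * g) * (b * VE (π.comp a) a.ker κ ⊤ r) := by
  rw [← EW_WG ha]
  unfold EW
  rw [Finset.mul_sum, Finset.mul_sum, Finset.mul_sum]
  refine Finset.sum_congr rfl fun q _ => ?_
  by_cases hq : mapT (Ind.fstHom π) q = r ∧ st (Subgroup.closure (coords q)) = ⊤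
  · rw [if_pos hq, if_pos hq]
    obtain ⟨x, hx⟩ := exists_liftT Φ D.surj q
    obtain ⟨y, hy⟩ := exists_liftT (Psi π a) (psi_surj ha) q
    let u : Fin g → G2 Φ a × G2 Φ a := fun i =>
      (⟨((x i).1, (y i).1), congrArg Prod.fst (congrFun (hx.trans hy.symm) i)⟩,
        ⟨((x i).2, (y i).2), congrArg Prod.snd (congrFun (hx.trans hy.symm) i)⟩)
    have hu1 : mapT (f21 Φ (Psi π a)) u = x := rfl
    have hu2 : mapT (f22 Φ (Psi π a)) u = y := rfl
    have hur : mapT (g2 Φ a) u = r := by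
      rw [← hq.1, ← hx]
      rfl
    have huw : surfaceWord u ∈ (g2 Φ a).ker := by
      rw [MonoidHom.mem_ker, ← word_mapT, hur, hr]
    have hyw : (surfaceWord y).fst = 1 := by
      have h1 := word_mapT (Ind.fstHom (π.comp a)) y
      have h2 : mapT (Ind.fstHom (π.comp a)) y = r := by
        rw [← hq.1, ← hy]
        rfl
      rw [h2, hr] at h1
      exact h1.symm
    have h1 : WW Φ Φ.ker lam q = (Nat.card Φ.ker : ℂ) ^ (2 * g) *
        ext0 Φ.ker lam (surfaceWord x) := by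
      rw [← hx]
      exact WW_val D.central lam x
    have h2 : WG π a κ q = (Nat.card (Psi π a).ker : ℂ) ^ (2 * g) *
        wt a.ker κ (surfaceWord y) := by
      rw [← hy]
      exact WG_val hac y hyw
    have h3 : ext0 Φ.ker lam (surfaceWord x) = b * wt a.ker κ (surfaceWord y) := by
      have e1 : f21 Φ (Psi π a) (surfaceWord u) = surfaceWord x := by rw [← word_mapT, hu1]
      have e2 : f22 Φ (Psi π a) (surfaceWord u) = surfaceWord y := by rw [← word_mapT, hu2]
      have e3 : Φ (surfaceWord x) = Psi π a (surfaceWord y) := by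
        rw [← e1, ← e2]
        exact f2_spec _
      by_cases hk : surfaceWord x ∈ Φ.ker
      · have h4 := ch2_val D lam hac haj hκ ⟨_, huw⟩ (by
          rw [e1]
          exact hk)
        rw [hb u hur huw]
        rw [e1, e2] at h4
        exact h4
      · have hk2 : surfaceWord y ∉ (Psi π a).ker := by
          intro h
          apply hk
          rw [MonoidHom.mem_ker, e3]
          exact h
        rw [ext0_of_not_mem lam hk, wt_zero _ hyw hk2, mul_zero]
    rw [h1, h2, h3]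
    ring
  · rw [if_neg hq, if_neg hq]
    ring

lemma WW_integral (lam : Φ.ker →* ℂˣ) {g : ℕ} (q : Fin g → Ind π × Ind π) :
    IsIntegral ℤ (WW Φ Φ.ker lam q) := by
  refine IsIntegral.sum _ fun x _ => ?_
  split_ifs
  · exact ext0_integral _ _ _
  · exact isIntegral_zero

lemma EW_integral (lam : Φ.ker →* ℂˣ) {g : ℕ} (L : Subgroup A) (r : Fin g → B × B) :
    IsIntegral ℤ (EW π (WW Φ Φ.ker lam) L r) := by
  refine IsIntegral.sum _ fun x _ => ?_
  split_ifs
  · exact WW_integral _ _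
  · exact isIntegral_zero

/-- **The sum over all generating tuples.** -/
theorem main_sum {p : ℕ} [hp : Fact p.Prime] (hπ : Function.Surjective π)
    (D : Dat π Φ dl φ ψ) (hpr : ¬ p ∣ Nat.card Φ.ker) (lam : Φ.ker →* ℂˣ)
    (P : Subgroup B) [hPn : P.Normal] (hP : IsPGroup p P) (hPi : ¬ p ∣ P.index)
    (hcov : (∀ x ∈ P, ∀ y ∈ P, x * y = y * x) → (∀ x ∈ P, x ^ p = 1) →
      Small p A ∧ ∃ (A' : Subgroup B) (A1' : Subgroup B1), P.IsComplement' A' ∧
        (P.subgroupOf B1).IsComplement' A1' ∧ Cover p B1 A' A1') (n : ℕ) :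
    ∃ N0 : ℕ, ∀ n' : ℕ, 0 < n' → p ^ N0 * (p - 1) ∣ n' →
      PD p (n + 1) (∑ r : Fin (n' + 1) → B × B,
        if surfaceWord r = 1 ∧ Subgroup.closure (coords r) = ⊤ then
          EW π (WW Φ Φ.ker lam) ⊤ r else 0) := by
  by_cases hex : ∃ (n1 : ℕ) (r : Fin (n1 + 1) → B × B), surfaceWord r = 1 ∧
      Subgroup.closure (coords r) = ⊤ ∧ EW π (WW Φ Φ.ker lam) ⊤ r ≠ 0
  · obtain ⟨n1, r1, hr1, hr2, hr3⟩ := hex
    obtain ⟨Γ, i1, i2, a, j, κ, ha, hac, hap, haj, hκ⟩ :=
      exists_gamma_of hπ D lam hpr r1 hr1 hr2 hr3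
    have hg2 : Function.Surjective (g2 Φ a) :=
      ((Ind.fstHom_surj hπ).comp D.surj).comp (f21_surj (psi_surj ha))
    obtain ⟨N0, hN0⟩ := engine (p := p) (π.comp a) (hπ.comp ha) a ha hac
      (fun x hx => by
        rw [MonoidHom.mem_ker, MonoidHom.comp_apply, (MonoidHom.mem_ker).1 hx, map_one]) hap κ
      P hP hPi hcov (g2 Φ a) hg2 (ch2 D lam hac haj hκ) (ch2_inv D lam hac haj hκ)
      (ch2_range D lam hac haj hκ hap) n
    refine ⟨N0, fun n' h0 hd => ?_⟩
    -- the values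
    have hbe : ∀ r : Fin (n' + 1) → B × B, ∃ b : ℂ, surfaceWord r = 1 →
        ∀ q : Fin (n' + 1) → G2 Φ a × G2 Φ a, mapT (g2 Φ a) q = r →
        ∀ hw : surfaceWord q ∈ (g2 Φ a).ker, b = ((ch2 D lam hac haj hκ ⟨_, hw⟩ : ℂˣ) : ℂ) := by
      intro r
      obtain ⟨q0, hq0⟩ := exists_liftT (g2 Φ a) hg2 r
      by_cases hr : surfaceWord r = 1
      · have hw0 : surfaceWord q0 ∈ (g2 Φ a).ker := by
          rw [MonoidHom.mem_ker, ← word_mapT, hq0, hr]
        refine ⟨((ch2 D lam hac haj hκ ⟨_, hw0⟩ : ℂˣ) : ℂ), fun _ q hq hw => ?_⟩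
        rw [chi_lifts (ch2_inv D lam hac haj hκ) q0 q (hq0.trans hq.symm) hw0 hw]
      · exact ⟨0, fun h => absurd h hr⟩
    choose b hb using hbe
    have h1 := hN0 n' h0 hd b hb
    set c : ℂ := (Nat.card (Psi π a).ker : ℂ) ^ (2 * (n' + 1)) with hc
    have h2 : ((Nat.card (Psi π a).ker ^ (2 * (n' + 1)) : ℕ) : ℂ) *
        (∑ r : Fin (n' + 1) → B × B,
        if surfaceWord r = 1 ∧ Subgroup.closure (coords r) = ⊤ then
          EW π (WW Φ Φ.ker lam) ⊤ r else 0) = (Nat.card Φ.ker : ℂ) ^ (2 * (n' + 1)) *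
        (∑ r : Fin (n' + 1) → B × B,
        if surfaceWord r = 1 ∧ Subgroup.closure (coords r) = ⊤ then
          b r * VE (π.comp a) a.ker κ ⊤ r else 0) := by
      push_cast
      rw [Finset.mul_sum, Finset.mul_sum]
      refine Finset.sum_congr rfl fun r _ => ?_
      by_cases hr : surfaceWord r = 1 ∧ Subgroup.closure (coords r) = ⊤
      · rw [if_pos hr, if_pos hr]
        exact EW_rel D lam ha hac haj hκ r hr.1 (b r) (hb r hr.1)
      · rw [if_neg hr, if_neg hr]
        ring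
    refine PD.of_mul (c := Nat.card (Psi π a).ker ^ (2 * (n' + 1))) ?_ ?_ ?_
    · intro h
      have h3 := hp.out.dvd_of_dvd_pow h
      rw [card_psi] at h3
      exact hap (hp.out.dvd_of_dvd_pow h3)
    · refine IsIntegral.sum _ fun r _ => ?_
      split_ifs
      · exact EW_integral _ _ _
      · exact isIntegral_zero
    · rw [h2]
      exact PD.mul_left ((int_nat _).pow _) h1
  · push Not at hex
    refine ⟨0, fun n' h0 hd => ?_⟩
    have h1 : (∑ r : Fin (n' + 1) → B × B,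
        if surfaceWord r = 1 ∧ Subgroup.closure (coords r) = ⊤ then
          EW π (WW Φ Φ.ker lam) ⊤ r else 0) = 0 := by
      refine Finset.sum_eq_zero fun r _ => ?_
      split_ifs with hr
      · exact hex n' r hr.1 hr.2
      · rfl
    rw [h1]
    exact PD.zero

end

end Pool.Agent.Helper15.QS
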