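import Pool.Agent.Helper15.QS.Stab

/-!
# The comparison of the sums for a subgroup
-/

open scoped Classical BigOperators
open Representation Pool.Agent.Helper884.IC Pool.Agent.Y63.AWC Pool.Agent.Helper15.AW

set_option linter.unusedSectionVars false
set_option linter.unusedVariables false
set_option linter.unusedSimpArgs false

attribute [-instance] MonoidHom.decidableMemKer

noncomputable section

namespace Pool.Agent.Helper15.QS

open Pool.Agent.Y63.KR (surfaceWord coords dg cod dg_spec cod_spec cod_pos DZ_iff unit_pow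
  two_mul_ge)

/-- `x` is `p ^ N` times an algebraic integer -/
def PD (p N : ℕ) (x : ℂ) : Prop := ∃ y : ℂ, IsIntegral ℤ y ∧ x = (p : ℂ) ^ N * y

lemma PD.add {p N : ℕ} {x y : ℂ} (hx : PD p N x) (hy : PD p N y) : PD p N (x + y) := by
  obtain ⟨a, ha, rfl⟩ := hx
  obtain ⟨b, hb, rfl⟩ := hy
  exact ⟨a + b, ha.add hb, by ring⟩

lemma PD.neg {p N : ℕ} {x : ℂ} (hx : PD p N x) : PD p N (-x) := by
  obtain ⟨a, ha, rfl⟩ := hx
  exact ⟨-a, ha.neg, by ring⟩

lemma PD.sub {p N : ℕ} {x y : ℂ} (hx : PD p N x) (hy : PD p N y) : PD p N (x - y) := by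
  rw [sub_eq_add_neg]
  exact hx.add hy.neg

lemma PD.zero {p N : ℕ} : PD p N 0 := ⟨0, isIntegral_zero, by simp⟩

lemma PD.mul_left {p N : ℕ} {x c : ℂ} (hc : IsIntegral ℤ c) (hx : PD p N x) : PD p N (c * x) := by
  obtain ⟨a, ha, rfl⟩ := hx
  exact ⟨c * a, hc.mul ha, by ring⟩

lemma PD.mul_right {p N : ℕ} {x c : ℂ} (hc : IsIntegral ℤ c) (hx : PD p N x) :
    PD p N (x * c) := by
  rw [mul_comm]
  exact hx.mul_left hc

lemma PD.sum {p N : ℕ} {ι : Type*} (s : Finset ι) (f : ι → ℂ) (h : ∀ i ∈ s, PD p N (f i)) :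
    PD p N (∑ i ∈ s, f i) := by
  induction s using Finset.induction_on with
  | empty => simpa using PD.zero
  | insert a s ha ih =>
    rw [Finset.sum_insert ha]
    exact (h a (Finset.mem_insert_self _ _)).add (ih fun i hi => h i (Finset.mem_insert_of_mem hi))

lemma int_nat (n : ℕ) : IsIntegral ℤ (n : ℂ) := by
  have := isIntegral_algebraMap (R := ℤ) (A := ℂ) (x := (n : ℤ))
  simpa using this

lemma int_int (n : ℤ) : IsIntegral ℤ (n : ℂ) := by
  have := isIntegral_algebraMap (R := ℤ) (A := ℂ) (x := n)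
  simpa using this

lemma PD.mono {p N M : ℕ} {x : ℂ} (h : M ≤ N) (hx : PD p N x) : PD p M x := by
  obtain ⟨a, ha, rfl⟩ := hx
  refine ⟨(p : ℂ) ^ (N - M) * a, ?_, ?_⟩
  · exact ((int_nat p).pow _).mul ha
  · rw [← mul_assoc, ← pow_add, Nat.add_sub_cancel' h]

lemma PD.of_dvd {p N : ℕ} {n : ℤ} (h : (p : ℤ) ^ N ∣ n) : PD p N (n : ℂ) := by
  obtain ⟨k, rfl⟩ := h
  exact ⟨k, int_int k, by push_cast; ring⟩

/-- the powers of an integer prime to `p` -/
lemma PD.unit_pow {p N n c : ℕ} [hp : Fact p.Prime] (hc : ¬ p ∣ c) (hd : p ^ N * (p - 1) ∣ n) :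
    PD p (N + 1) ((c : ℂ) ^ n - 1) := by
  have h3 := Pool.Agent.Y63.KR.unit_pow (p := p) (N := N) (n := n) hc hd
  have h4 : ((p ^ (N + 1) : ℕ) : ℤ) ∣ ((c ^ n : ℕ) : ℤ) - ((1 : ℕ) : ℤ) :=
    (Nat.modEq_iff_dvd.1 h3.symm)
  push_cast at h4
  have h5 := PD.of_dvd (p := p) (N := N + 1) h4
  push_cast at h5
  exact h5

/-- the sum over a fibre -/
lemma sum_fibre {G Q : Type} [Group G] [Fintype G] [Group Q] (f : G →* Q) [Fintype f.ker] {g : ℕ}
    (q : Fin g → G × G) (F : (Fin g → G × G) → ℂ) :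
    (∑ x : Fin g → G × G, if mapT f x = mapT f q then F x else 0) =
      ∑ m : Fin g → f.ker × f.ker, F (mulT q (mapT f.ker.subtype m)) := by
  rw [← Finset.sum_filter]
  symm
  refine Finset.sum_bij (fun m _ => mulT q (mapT f.ker.subtype m)) ?_ ?_ ?_ ?_
  · intro m _
    rw [Finset.mem_filter]
    refine ⟨Finset.mem_univ _, ?_⟩
    funext i
    refine Prod.ext ?_ ?_
    · change f ((q i).1 * ((m i).1 : G)) = f (q i).1
      rw [map_mul, (MonoidHom.mem_ker).1 (m i).1.2, mul_one]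
    · change f ((q i).2 * ((m i).2 : G)) = f (q i).2
      rw [map_mul, (MonoidHom.mem_ker).1 (m i).2.2, mul_one]
  · intro m _ m' _ h
    funext i
    have h1 := congrFun h i
    refine Prod.ext (Subtype.ext ?_) (Subtype.ext ?_)
    · exact mul_left_cancel (congrArg Prod.fst h1)
    · exact mul_left_cancel (congrArg Prod.snd h1)
  · intro x hx
    have h1 := (Finset.mem_filter.1 hx).2
    refine ⟨fun i => (⟨(q i).1⁻¹ * (x i).1, ?_⟩, ⟨(q i).2⁻¹ * (x i).2, ?_⟩), Finset.mem_univ _, ?_⟩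
    · have h2 : f (x i).1 = f (q i).1 := congrArg Prod.fst (congrFun h1 i)
      rw [MonoidHom.mem_ker, map_mul, map_inv, h2, inv_mul_cancel]
    · have h2 : f (x i).2 = f (q i).2 := congrArg Prod.snd (congrFun h1 i)
      rw [MonoidHom.mem_ker, map_mul, map_inv, h2, inv_mul_cancel]
    · funext i
      refine Prod.ext ?_ ?_
      · exact mul_inv_cancel_left _ _
      · exact mul_inv_cancel_left _ _
  · intro m _
    rfl

section

variable {B : Type} [Group B] [Finite B] {B1 : Subgroup B} {Γ : Type} [Group Γ] [Fintype Γ]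
  {π : Γ →* B1}

/-- the restriction of the projection -/
abbrev rpi (π : Γ →* B1) (L : Subgroup Γ) : L →* B1 := π.comp L.subtype

/-- the restriction of the linear character -/
def rkap (C : Subgroup Γ) (κ : C →* ℂˣ) (L : Subgroup Γ) : C.subgroupOf L →* ℂˣ where
  toFun x := κ ⟨((x : L) : Γ), x.2⟩
  map_one' := map_one κ
  map_mul' x y := map_mul κ ⟨((x : L) : Γ), x.2⟩ ⟨((y : L) : Γ), y.2⟩

lemma ext0_rkap (C : Subgroup Γ) (κ : C →* ℂˣ) (L : Subgroup Γ) (x : L) :
    ext0 (C.subgroupOf L) (rkap C κ L) x = ext0 C κ (x : Γ) := by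
  by_cases hx : (x : Γ) ∈ C
  · rw [ext0_of_mem _ hx, ext0_of_mem (x := x) (rkap C κ L) (show x ∈ C.subgroupOf L from hx)]
    rfl
  · rw [ext0_of_not_mem _ hx, ext0_of_not_mem (x := x) _ (show x ∉ C.subgroupOf L from hx)]

lemma rpi_surj {L : Subgroup Γ} (hπ : Function.Surjective π) (hL : ∀ γ : Γ, ∃ l ∈ L, π l = π γ) :
    Function.Surjective (rpi π L) := by
  intro b
  obtain ⟨γ, rfl⟩ := hπ b
  obtain ⟨l, hl, hlg⟩ := hL γ
  exact ⟨⟨l, hl⟩, hlg⟩

lemma card_rker (L : Subgroup Γ) : Nat.card (rpi π L).ker = Nat.card (L ⊓ π.ker : Subgroup Γ) := by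
  refine Nat.card_congr
    { toFun := fun x => ⟨((x : L) : Γ), Subgroup.mem_inf.2 ⟨(x : L).2, x.2⟩⟩
      invFun := fun x => ⟨⟨x, x.2.1⟩, x.2.2⟩
      left_inv := fun x => rfl
      right_inv := fun x => rfl }

lemma card_rC {C : Subgroup Γ} {L : Subgroup Γ} (h : C ≤ L) :
    Nat.card (C.subgroupOf L) = Nat.card C := Nat.card_congr (Subgroup.subgroupOfEquivOfLe h).toEquiv

/-- the inclusion of the induced groups -/
abbrev indInc (π : Γ →* B1) (L : Subgroup Γ) : Ind (rpi π L) →* Ind π :=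
  Ind.map L.subtype (fun _ => rfl)

lemma wt_inc (C : Subgroup Γ) (κ : C →* ℂˣ) (L : Subgroup Γ) (x : Ind (rpi π L)) :
    wt C κ (indInc π L x) = wt (C.subgroupOf L) (rkap C κ L) x := by
  have : Fintype (B ⧸ B1) := Fintype.ofFinite _
  rw [wt_eq, wt_eq]
  refine Finset.prod_congr rfl fun i _ => ?_
  rw [ext0_rkap]
  rfl

/-- the tuples in `indL L` -/
lemma sum_indL (C : Subgroup Γ) (κ : C →* ℂˣ) (L : Subgroup Γ) {g : ℕ} (r : Fin g → B × B) :
    (∑ q : Fin g → Ind π × Ind π, if mapT (Ind.fstHom π) q = r ∧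
        coords q ⊆ (indL (π := π) L : Set (Ind π)) then wt C κ (surfaceWord q) else 0) =
    ∑ q : Fin g → Ind (rpi π L) × Ind (rpi π L), if mapT (Ind.fstHom (rpi π L)) q = r then
        wt (C.subgroupOf L) (rkap C κ L) (surfaceWord q) else 0 := by
  rw [← Finset.sum_filter, ← Finset.sum_filter]
  symm
  refine Finset.sum_bij (fun q _ => mapT (indInc π L) q) ?_ ?_ ?_ ?_
  · intro q hq
    rw [Finset.mem_filter] at hq ⊢
    refine ⟨Finset.mem_univ _, hq.2, ?_⟩
    rw [coords_mapT]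
    rintro _ ⟨x, _, rfl⟩ i
    exact (x.snd i).2
  · intro q _ q' _ h
    have hinj : ∀ x y : Ind (rpi π L), indInc π L x = indInc π L y → x = y := by
      intro x y hxy
      have h1 := congrArg Ind.fst hxy
      refine Ind.ext h1 (funext fun i => Subtype.ext ?_)
      exact congrFun (congrArg Ind.snd hxy) i
    funext i
    exact Prod.ext (hinj _ _ (congrArg Prod.fst (congrFun h i)))
      (hinj _ _ (congrArg Prod.snd (congrFun h i)))
  · intro q hq
    rw [Finset.mem_filter] at hq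
    obtain ⟨_, h1, h2⟩ := hq
    refine ⟨fun i => (⟨(q i).1.fst, fun j => ⟨(q i).1.snd j, h2 (Or.inl ⟨i, rfl⟩) j⟩,
      fun j => (q i).1.prop j⟩, ⟨(q i).2.fst, fun j => ⟨(q i).2.snd j, h2 (Or.inr ⟨i, rfl⟩) j⟩,
      fun j => (q i).2.prop j⟩), ?_, rfl⟩
    rw [Finset.mem_filter]
    exact ⟨Finset.mem_univ _, h1⟩
  · intro q _
    rw [word_mapT, wt_inc]

/-- the sum over the lifts of `r` whose stabilizer has image in `L` -/
def VV (π : Γ →* B1) (C : Subgroup Γ) (κ : C →* ℂˣ) (L : Subgroup Γ) {g : ℕ} (r : Fin g → B × B) :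
    ℂ := ∑ q : Fin g → Ind π × Ind π, if mapT (Ind.fstHom π) q = r ∧
      st (Subgroup.closure (coords q)) ≤ L then wt C κ (surfaceWord q) else 0

/-- the sum over the lifts of `r` to `L` -/
def UU (π : Γ →* B1) (C : Subgroup Γ) (κ : C →* ℂˣ) (L : Subgroup Γ) {g : ℕ}
    (r : Fin g → B1 × B1) : ℂ := ∑ q : Fin g → Γ × Γ, if mapT π q = r ∧
      coords q ⊆ (L : Set Γ) then ext0 C κ (surfaceWord q) else 0

lemma UU_eq (C : Subgroup Γ) (κ : C →* ℂˣ) (L : Subgroup Γ) {g : ℕ} (r : Fin g → B1 × B1) :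
    UU π C κ L r = ∑ q : Fin g → L × L, if mapT (rpi π L) q = r then
      ext0 (C.subgroupOf L) (rkap C κ L) (surfaceWord q) else 0 := by
  unfold UU
  rw [← Finset.sum_filter, ← Finset.sum_filter]
  symm
  refine Finset.sum_bij (fun q _ => mapT L.subtype q) ?_ ?_ ?_ ?_
  · intro q hq
    rw [Finset.mem_filter] at hq ⊢
    refine ⟨Finset.mem_univ _, hq.2, ?_⟩
    rw [coords_mapT]
    rintro _ ⟨x, _, rfl⟩
    exact x.2
  · intro q _ q' _ h
    funext i
    exact Prod.ext (Subtype.ext (congrArg Prod.fst (congrFun h i)))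
      (Subtype.ext (congrArg Prod.snd (congrFun h i)))
  · intro q hq
    rw [Finset.mem_filter] at hq
    obtain ⟨_, h1, h2⟩ := hq
    refine ⟨fun i => (⟨(q i).1, h2 (Or.inl ⟨i, rfl⟩)⟩, ⟨(q i).2, h2 (Or.inr ⟨i, rfl⟩)⟩), ?_, rfl⟩
    rw [Finset.mem_filter]
    exact ⟨Finset.mem_univ _, h1⟩
  · intro q _
    rw [ext0_rkap, word_mapT]
    rfl

/-- the values of the characters of defect zero at `r` and `s` agree -/
def Compat (p : ℕ) (π : Γ →* B1) {g : ℕ} (r : Fin g → B × B) (s : Fin g → B1 × B1) : Prop :=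
  ∀ L : Subgroup Γ, Function.Surjective (rpi π L) → ∀ theta : (rpi π L).ker → ℂ,
    IsIrrChar theta → Invariant theta → ¬ p ∣ cod theta →
    ∀ (q : Fin g → Ind (rpi π L) × Ind (rpi π L)) (q' : Fin g → L × L),
      mapT (Ind.fstHom (rpi π L)) q = r → mapT (rpi π L) q' = s →
        zf q (powChar theta) = zf q' theta

/-- the values of the characters of defect zero at `r` and `r'` agree -/
def CompatQ (p : ℕ) (π : Γ →* B1) {g : ℕ} (r r' : Fin g → B × B) : Prop :=
  ∀ L : Subgroup Γ, Function.Surjective (rpi π L) → ∀ theta : (rpi π L).ker → ℂ,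
    IsIrrChar theta → Invariant theta → ¬ p ∣ cod theta →
    ∀ (q q' : Fin g → Ind (rpi π L) × Ind (rpi π L)),
      mapT (Ind.fstHom (rpi π L)) q = r → mapT (Ind.fstHom (rpi π L)) q' = r' →
        zf q (powChar theta) = zf q' (powChar theta)

/-- the limit value -/
def FL (p : ℕ) (π : Γ →* B1) (C : Subgroup Γ) (κ : C →* ℂˣ) (L : Subgroup Γ)
    (y : ((rpi π L).ker → ℂ) → ℂ) : ℂ :=
  (Nat.card π.ker : ℂ) ^ (B1.index - 1) * ((Nat.card C : ℂ) ^ B1.index *
    (Nat.card (L ⊓ π.ker : Subgroup Γ) : ℂ)) *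
    ∑ theta ∈ (DD (M := (rpi π L).ker) (C.subgroupOf L) (rkap C κ L)).filter
      (fun theta => ¬ p ∣ cod theta), y theta

lemma gen_lift {G Q : Type} [Group G] [Group Q] (f : G →* Q) (hf : Function.Surjective f)
    {k : ℕ} (x : Fin k → G × G) (hx : Subgroup.closure (coords (mapT f x)) = ⊤) :
    Subgroup.closure (coords x) ⊔ f.ker = ⊤ := by
  rw [closure_mapT] at hx
  have h3 := congrArg (Subgroup.comap f) hx
  rwa [Subgroup.comap_map_eq, Subgroup.comap_top] at h3

lemma exists_liftT {G Q : Type} (f : G → Q) (hf : Function.Surjective f) {k : ℕ}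
    (r : Fin k → Q × Q) : ∃ q : Fin k → G × G, mapT f q = r := by
  choose P hP using hf
  exact ⟨mapT P r, by funext i; simp only [mapT, hP]⟩

/-- reduction of a sum over the characters modulo a power of `p` -/
lemma sum_red {p : ℕ} [hp : Fact p.Prime] {N n m : ℕ} (hn : 0 < n)
    (hd : p ^ N * (p - 1) ∣ n) (hm : 2 * n ∣ m) (hm0 : m ≠ 0) {M : Subgroup Γ} (S : Finset (M → ℂ))
    (z : (M → ℂ) → ℂ) (hz : ∀ theta ∈ S, IsIntegral ℤ (z theta)) :
    PD p (N + 1) ((∑ theta ∈ S, z theta * (cod theta : ℂ) ^ m) -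
      ∑ theta ∈ S.filter (fun theta => ¬ p ∣ cod theta), z theta) := by
  rw [Finset.sum_filter, ← Finset.sum_sub_distrib]
  refine PD.sum _ _ fun theta ht => ?_
  have h8 : N + 1 ≤ 2 * n := two_mul_ge (p := p) hn.ne' hd
  by_cases hc : p ∣ cod theta
  · rw [if_neg (not_not.2 hc), sub_zero]
    obtain ⟨k, hk⟩ := hc
    have hmn : 2 * n ≤ m := Nat.le_of_dvd (Nat.pos_of_ne_zero hm0) hm
    refine PD.mul_left (hz theta ht) ⟨(p : ℂ) ^ (m - (N + 1)) * (k : ℂ) ^ m,
      ((int_nat _).pow _).mul ((int_nat _).pow _), ?_⟩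
    rw [hk]
    push_cast
    rw [mul_pow, ← mul_assoc, ← pow_add, Nat.add_sub_cancel' (h8.trans hmn)]
  · rw [if_pos hc]
    have h9 : z theta * (cod theta : ℂ) ^ m - z theta =
        z theta * ((cod theta : ℂ) ^ m - 1) := by ring
    rw [h9]
    exact PD.mul_left (hz theta ht) (PD.unit_pow hc ((hd.mul_left 2).trans hm))

section values

variable {p : ℕ} [hp : Fact p.Prime] (hπ : Function.Surjective π) (C : Subgroup Γ)
    (hC : C ≤ Subgroup.center Γ) (hCM : C ≤ π.ker) (κ : C →* ℂˣ) (L : Subgroup Γ) (hCL : C ≤ L)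
    {n N : ℕ} (hn : 0 < n) (hd : p ^ N * (p - 1) ∣ n) (hLs : Function.Surjective (rpi π L))
include hπ hC hCM hCL hn hd hLs

lemma surj_sup : ∀ γ : Γ, ∃ l ∈ L, π l = π γ := by
  intro γ
  obtain ⟨l, hl⟩ := hLs (π γ)
  exact ⟨l, l.2, hl⟩

lemma center_sub : C.subgroupOf L ≤ Subgroup.center L := by
  intro x hx
  rw [Subgroup.mem_center_iff]
  intro y
  exact Subtype.ext (Subgroup.mem_center_iff.1 (hC hx) y)

/-- the value of the sum over the lifts to the induced extension -/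
theorem VV_val (r : Fin (n + 1) → B × B) (hr1 : surfaceWord r = 1)
    (hr2 : Subgroup.closure (coords r) = ⊤) (q : Fin (n + 1) → Ind (rpi π L) × Ind (rpi π L))
    (hq : mapT (Ind.fstHom (rpi π L)) q = r) :
    PD p (N + 1) (VV π C κ L r - FL p π C κ L fun theta => zf q (powChar theta)) := by
  have hidx : 0 < B1.index := Nat.pos_of_ne_zero Subgroup.FiniteIndex.index_ne_zero
  have hw : surfaceWord q ∈ (Ind.fstHom (rpi π L)).ker := by
    rw [MonoidHom.mem_ker, ← word_mapT, hq, hr1]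
  have hg : Subgroup.closure (coords q) ⊔ (Ind.fstHom (rpi π L)).ker = ⊤ :=
    gen_lift _ (Ind.fstHom_surj hLs) q (by rw [hq, hr2])
  have hCl := center_sub hπ C hC hCM L hCL hn hd hLs
  have hCk : C.subgroupOf L ≤ (rpi π L).ker := fun x hx => hCM hx
  have h1 := double_count C hC κ L (surj_sup hπ C hC hCM L hCL hn hd hLs) r hr1 hr2
  rw [sum_indL, ← hq, sum_fibre, hq] at h1
  have h2 := Q_sum hLs (C.subgroupOf L) hCl hCk (rkap C κ L) q hw hg
  rw [card_rker, card_rC hCL] at h2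
  set L0 : ℂ := (Nat.card (L ⊓ π.ker : Subgroup Γ) : ℂ) with hL0
  have hL0n : L0 ≠ 0 := by
    rw [hL0]
    exact_mod_cast Nat.card_pos.ne'
  have h5 : VV π C κ L r = (Nat.card π.ker : ℂ) ^ (B1.index - 1) *
      ((Nat.card C : ℂ) ^ B1.index * L0) * ∑ theta ∈ DD (M := (rpi π L).ker)
        (C.subgroupOf L) (rkap C κ L), zf q (powChar theta) *
          (cod theta : ℂ) ^ (2 * n * B1.index) := by
    apply mul_left_cancel₀ (pow_ne_zero (B1.index - 1) hL0n)
    refine h1.trans ?_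
    have h6 : (∑ m : Fin (n + 1) → (Ind.fstHom (rpi π L)).ker × (Ind.fstHom (rpi π L)).ker,
        wt (C.subgroupOf L) (rkap C κ L) (surfaceWord (mulT q (mapT
          (Ind.fstHom (rpi π L)).ker.subtype m)))) = ((Nat.card C : ℂ) * L0) ^ B1.index *
        ∑ theta ∈ DD (M := (rpi π L).ker) (C.subgroupOf L) (rkap C κ L),
          zf q (powChar theta) * (cod theta : ℂ) ^ (2 * n * B1.index) := by
      rw [← h2]
    rw [h6]
    obtain ⟨t, ht⟩ : ∃ t, B1.index = t + 1 := ⟨B1.index - 1, by omega⟩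
    rw [ht, Nat.add_sub_cancel]
    ring
  rw [h5]
  unfold FL
  rw [← hL0, ← mul_sub]
  refine PD.mul_left ?_ ?_
  · exact ((int_nat _).pow _).mul (((int_nat _).pow _).mul (by rw [hL0]; exact int_nat _))
  · refine sum_red hn hd (Dvd.intro _ rfl) (Nat.mul_pos (by omega) hidx).ne' _
      (fun theta => zf q (powChar theta)) fun theta ht => ?_
    have hirr2 : IsIrrChar (powChar (B1 := B1) theta) := by
      have : Fintype (B ⧸ B1) := Fintype.ofFinite _
      rw [← prodChar_const]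
      exact prodChar_irr _ fun _ => mem_Irr.1 (Finset.mem_filter.1 ht).1
    exact (zf_spec hw hg hirr2).1

/-- the value of the sum over the lifts -/
theorem UU_val (s : Fin (n + 1) → B1 × B1) (hs1 : surfaceWord s = 1)
    (hs2 : Subgroup.closure (coords s) = ⊤) (q' : Fin (n + 1) → L × L)
    (hq' : mapT (rpi π L) q' = s) :
    PD p (N + 1) (((Nat.card π.ker : ℂ) * (Nat.card C : ℂ)) ^ (B1.index - 1) * UU π C κ L s -
      FL p π C κ L fun theta => zf q' theta) := by
  have hidx : 0 < B1.index := Nat.pos_of_ne_zero Subgroup.FiniteIndex.index_ne_zero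
  have hw' : surfaceWord q' ∈ (rpi π L).ker := by
    rw [MonoidHom.mem_ker, ← word_mapT, hq', hs1]
  have hg' : Subgroup.closure (coords q') ⊔ (rpi π L).ker = ⊤ :=
    gen_lift _ hLs q' (by rw [hq', hs2])
  have hCl := center_sub hπ C hC hCM L hCL hn hd hLs
  have hCk : C.subgroupOf L ≤ (rpi π L).ker := fun x hx => hCM hx
  have h3 := R_sum (C.subgroupOf L) hCl hCk (rkap C κ L) q' hw' hg'
  have h4 : UU π C κ L s = (Nat.card (C.subgroupOf L) : ℂ) * (Nat.card (rpi π L).ker : ℂ) *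
      ∑ theta ∈ DD (M := (rpi π L).ker) (C.subgroupOf L) (rkap C κ L),
        zf q' theta * (cod theta : ℂ) ^ (2 * n) := by
    rw [UU_eq, ← h3, ← hq']
    refine Eq.trans (Finset.sum_congr rfl fun x _ => ?_) (sum_fibre (rpi π L) q'
      (fun x => ext0 (C.subgroupOf L) (rkap C κ L) (surfaceWord x)))
    congr
  rw [card_rker, card_rC hCL] at h4
  rw [h4]
  unfold FL
  have h7 : ((Nat.card π.ker : ℂ) * (Nat.card C : ℂ)) ^ (B1.index - 1) *
      ((Nat.card C : ℂ) * (Nat.card (L ⊓ π.ker : Subgroup Γ) : ℂ) *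
        ∑ theta ∈ DD (M := (rpi π L).ker) (C.subgroupOf L) (rkap C κ L),
          zf q' theta * (cod theta : ℂ) ^ (2 * n)) =
      (Nat.card π.ker : ℂ) ^ (B1.index - 1) * ((Nat.card C : ℂ) ^ B1.index *
        (Nat.card (L ⊓ π.ker : Subgroup Γ) : ℂ)) *
        ∑ theta ∈ DD (M := (rpi π L).ker) (C.subgroupOf L) (rkap C κ L),
          zf q' theta * (cod theta : ℂ) ^ (2 * n) := by
    obtain ⟨t, ht⟩ : ∃ t, B1.index = t + 1 := ⟨B1.index - 1, by omega⟩
    rw [ht, Nat.add_sub_cancel]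
    ring
  rw [h7, ← mul_sub]
  refine PD.mul_left ?_ ?_
  · exact ((int_nat _).pow _).mul (((int_nat _).pow _).mul (int_nat _))
  · refine sum_red hn hd dvd_rfl (by omega) _ (fun theta => zf q' theta) fun theta ht => ?_
    exact (zf_spec hw' hg' (mem_Irr.1 (Finset.mem_filter.1 ht).1)).1

end values

lemma FL_congr {p : ℕ} (C : Subgroup Γ) (κ : C →* ℂˣ) (L : Subgroup Γ)
    (y y' : ((rpi π L).ker → ℂ) → ℂ) (h : ∀ theta, IsIrrChar theta → Invariant theta →
      ¬ p ∣ cod theta → y theta = y' theta) : FL p π C κ L y = FL p π C κ L y' := by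
  unfold FL
  congr 1
  refine Finset.sum_congr rfl fun theta ht => ?_
  obtain ⟨h1, h2⟩ := Finset.mem_filter.1 ht
  obtain ⟨h3, h4, _⟩ := Finset.mem_filter.1 h1
  exact h theta (mem_Irr.1 h3) h4 h2

lemma VV_zero (C : Subgroup Γ) (κ : C →* ℂˣ) (L : Subgroup Γ)
    (hL : ¬ Function.Surjective (rpi π L)) {g : ℕ} (r : Fin g → B × B)
    (hr2 : Subgroup.closure (coords r) = ⊤) (hπ : Function.Surjective π) : VV π C κ L r = 0 := by
  refine Finset.sum_eq_zero fun q _ => ?_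
  rw [if_neg]
  rintro ⟨h2, h3⟩
  apply hL
  refine rpi_surj hπ ?_
  intro γ
  obtain ⟨y, hy, hy1⟩ : ∃ y ∈ Subgroup.closure (coords q),
      y.fst = (i0 B1).out * (π γ : B) * ((i0 B1).out)⁻¹ := by
    have h4 : (Subgroup.closure (coords q)).map (Ind.fstHom π) = ⊤ := by
      rw [← closure_mapT, h2, hr2]
    have h5 : (i0 B1).out * (π γ : B) * ((i0 B1).out)⁻¹ ∈
        (Subgroup.closure (coords q)).map (Ind.fstHom π) := by
      rw [h4]; trivial
    exact h5
  have ho : (((i0 B1).out : B) : B ⧸ B1) = i0 B1 := Quotient.out_eq _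
  have h4 : y.fst • i0 B1 = i0 B1 := by
    conv_lhs => rw [← ho]
    change ((y.fst * (i0 B1).out : B) : B ⧸ B1) = _
    rw [hy1, inv_mul_cancel_right, QuotientGroup.mk_mul_of_mem _ (π γ).2, ho]
  refine ⟨y.snd (i0 B1), h3 ⟨y, hy, h4, rfl⟩, ?_⟩
  rw [y.prop]
  apply Subtype.ext
  rw [kp_coe, h4, hy1]
  group

lemma UU_zero (C : Subgroup Γ) (κ : C →* ℂˣ) (L : Subgroup Γ)
    (hL : ¬ Function.Surjective (rpi π L)) {g : ℕ} (s : Fin g → B1 × B1)
    (hs2 : Subgroup.closure (coords s) = ⊤) (hπ : Function.Surjective π) : UU π C κ L s = 0 := by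
  refine Finset.sum_eq_zero fun q _ => ?_
  rw [if_neg]
  rintro ⟨h2, h3⟩
  apply hL
  refine rpi_surj hπ ?_
  intro γ
  have h4 : (Subgroup.closure (coords q)).map π = ⊤ := by
    rw [← closure_mapT, h2, hs2]
  have h5 : π γ ∈ (Subgroup.closure (coords q)).map π := by rw [h4]; trivial
  obtain ⟨l, hl, hlg⟩ := h5
  exact ⟨l, (Subgroup.closure_le _).2 h3 hl, hlg⟩

/-- **The comparison for a subgroup.** -/
theorem compare {p : ℕ} [hp : Fact p.Prime] (hπ : Function.Surjective π) (C : Subgroup Γ)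
    (hC : C ≤ Subgroup.center Γ) (hCM : C ≤ π.ker) (κ : C →* ℂˣ) (L : Subgroup Γ) (hCL : C ≤ L)
    {n N : ℕ} (hn : 0 < n) (hd : p ^ N * (p - 1) ∣ n) (r : Fin (n + 1) → B × B)
    (s : Fin (n + 1) → B1 × B1) (hr1 : surfaceWord r = 1)
    (hr2 : Subgroup.closure (coords r) = ⊤) (hs1 : surfaceWord s = 1)
    (hs2 : Subgroup.closure (coords s) = ⊤) (hc : Compat p π r s) :
    PD p (N + 1) (VV π C κ L r -
      ((Nat.card π.ker : ℂ) * (Nat.card C : ℂ)) ^ (B1.index - 1) * UU π C κ L s) := by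
  by_cases hLs : Function.Surjective (rpi π L)
  · obtain ⟨q, hq⟩ := exists_liftT _ (Ind.fstHom_surj hLs) r
    obtain ⟨q', hq'⟩ := exists_liftT _ hLs s
    have h1 := VV_val hπ C hC hCM κ L hCL hn hd hLs r hr1 hr2 q hq
    have h2 := UU_val hπ C hC hCM κ L hCL hn hd hLs s hs1 hs2 q' hq'
    have h3 := FL_congr (p := p) C κ L (fun theta => zf q (powChar theta))
      (fun theta => zf q' theta) (fun theta h4 h5 h6 => hc L hLs theta h4 h5 h6 q q' hq hq')
    rw [h3] at h1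
    have h4 := h1.sub h2
    rwa [sub_sub_sub_cancel_right] at h4
  · rw [VV_zero C κ L hLs r hr2 hπ, UU_zero C κ L hLs s hs2 hπ, mul_zero, sub_zero]
    exact PD.zero

/-- **The comparison for a subgroup, for two tuples.** -/
theorem compareQ {p : ℕ} [hp : Fact p.Prime] (hπ : Function.Surjective π) (C : Subgroup Γ)
    (hC : C ≤ Subgroup.center Γ) (hCM : C ≤ π.ker) (κ : C →* ℂˣ) (L : Subgroup Γ) (hCL : C ≤ L)
    {n N : ℕ} (hn : 0 < n) (hd : p ^ N * (p - 1) ∣ n) (r r' : Fin (n + 1) → B × B)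
    (hr1 : surfaceWord r = 1) (hr2 : Subgroup.closure (coords r) = ⊤)
    (hr1' : surfaceWord r' = 1) (hr2' : Subgroup.closure (coords r') = ⊤)
    (hc : CompatQ p π r r') :
    PD p (N + 1) (VV π C κ L r - VV π C κ L r') := by
  by_cases hLs : Function.Surjective (rpi π L)
  · obtain ⟨q, hq⟩ := exists_liftT _ (Ind.fstHom_surj hLs) r
    obtain ⟨q', hq'⟩ := exists_liftT _ (Ind.fstHom_surj hLs) r'
    have h1 := VV_val hπ C hC hCM κ L hCL hn hd hLs r hr1 hr2 q hq
    have h2 := VV_val hπ C hC hCM κ L hCL hn hd hLs r' hr1' hr2' q' hq'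
    have h3 := FL_congr (p := p) C κ L (fun theta => zf q (powChar theta))
      (fun theta => zf q' (powChar theta))
      (fun theta h4 h5 h6 => hc L hLs theta h4 h5 h6 q q' hq hq')
    rw [h3] at h1
    have h4 := h1.sub h2
    rwa [sub_sub_sub_cancel_right] at h4
  · rw [VV_zero C κ L hLs r hr2 hπ, VV_zero C κ L hLs r' hr2' hπ, sub_zero]
    exact PD.zero

end

end Pool.Agent.Helper15.QS
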