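import Pool.Agent.Helper15.QS.Sums2

/-!
# The image of the stabilizer of a coset
-/

open scoped Classical BigOperators
open Representation Pool.Agent.Helper884.IC Pool.Agent.Y63.AWC Pool.Agent.Helper15.AW

set_option linter.unusedSectionVars false
set_option linter.unusedVariables false
set_option linter.unusedSimpArgs false

attribute [-instance] MonoidHom.decidableMemKer

noncomputable section

namespace Pool.Agent.Helper15.QS

open Pool.Agent.Y63.KR (surfaceWord coords dg cod dg_spec cod_spec cod_pos DZ_iff)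

section

variable {B : Type} [Group B] {B1 : Subgroup B} {Γ : Type} [Group Γ] {π : Γ →* B1}

/-- the base point -/
def i0 (B1 : Subgroup B) : B ⧸ B1 := ((1 : B) : B ⧸ B1)

/-- the values at the base point of the elements of `D` which fix it -/
def st (D : Subgroup (Ind π)) : Subgroup Γ where
  carrier := {γ | ∃ h ∈ D, h.fst • i0 B1 = i0 B1 ∧ h.snd (i0 B1) = γ}
  one_mem' := ⟨1, one_mem _, by simp, rfl⟩
  mul_mem' := by
    rintro _ _ ⟨h, hh, hh1, rfl⟩ ⟨k, hk, hk1, rfl⟩
    refine ⟨h * k, mul_mem hh hk, ?_, ?_⟩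
    · rw [Ind.mul_fst, mul_smul, hk1, hh1]
    · rw [Ind.mul_snd, hk1]
  inv_mem' := by
    rintro _ ⟨h, hh, hh1, rfl⟩
    have h1 : h.fst⁻¹ • i0 B1 = i0 B1 := by
      rw [inv_smul_eq_iff, hh1]
    refine ⟨h⁻¹, inv_mem hh, h1, ?_⟩
    rw [Ind.inv_snd, h1]

lemma mem_st {D : Subgroup (Ind π)} {γ : Γ} :
    γ ∈ st D ↔ ∃ h ∈ D, h.fst • i0 B1 = i0 B1 ∧ h.snd (i0 B1) = γ := Iff.rfl

/-- the elements with all coordinates in `L` -/
def indL (L : Subgroup Γ) : Subgroup (Ind π) where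
  carrier := {h | ∀ i, h.snd i ∈ L}
  one_mem' := fun i => one_mem _
  mul_mem' := fun hx hy i => mul_mem (hx _) (hy _)
  inv_mem' := fun hx i => inv_mem (hx _)

lemma mem_indL {L : Subgroup Γ} {h : Ind π} : h ∈ indL L ↔ ∀ i, h.snd i ∈ L := Iff.rfl

/-- conjugation with an element over `1` -/
lemma conj_inc_snd (s : B ⧸ B1 → π.ker) (h : Ind π) (i : B ⧸ B1) :
    (Ind.inc π s * h * (Ind.inc π s)⁻¹).snd i = (s (h.fst • i) : Γ) * h.snd i * (s i : Γ)⁻¹ := by
  simp only [Ind.mul_snd, Ind.inv_snd, Ind.inc_snd, Ind.inc_fst, Ind.mul_fst, Ind.inv_fst, inv_one,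
    one_smul]

lemma st_le_of_conj {D : Subgroup (Ind π)} {L : Subgroup Γ} (s : B ⧸ B1 → π.ker)
    (hs : s (i0 B1) = 1) (h : ∀ x ∈ D, Ind.inc π s * x * (Ind.inc π s)⁻¹ ∈ indL L) :
    st D ≤ L := by
  rintro _ ⟨x, hx, hx1, rfl⟩
  have h1 := h x hx (i0 B1)
  rw [conj_inc_snd, hx1, hs] at h1
  simpa using h1

lemma conj_iff {D : Subgroup (Ind π)} {L : Subgroup Γ} (hD : st D ≤ L) (s : B ⧸ B1 → π.ker)
    (hs : s (i0 B1) = 1) (y : B ⧸ B1 → Ind π) (hy : ∀ i, y i ∈ D)
    (hy1 : ∀ i, (y i).fst • i0 B1 = i) :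
    (∀ x ∈ D, Ind.inc π s * x * (Ind.inc π s)⁻¹ ∈ indL L) ↔
      ∀ i, i ≠ i0 B1 → (s i : Γ) * (y i).snd (i0 B1) ∈ L := by
  constructor
  · intro h i _
    have h1 := h (y i) (hy i) (i0 B1)
    rw [conj_inc_snd, hy1, hs] at h1
    simpa using h1
  · intro h x hx i
    rw [conj_inc_snd]
    have h0 : ∀ i, (s i : Γ) * (y i).snd (i0 B1) ∈ L := by
      intro i
      by_cases hi : i = i0 B1
      · subst hi
        rw [hs, OneMemClass.coe_one, one_mul]
        exact hD ⟨y (i0 B1), hy _, hy1 _, rfl⟩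
      · exact h i hi
    set j := x.fst • i with hj
    have h1 : (y j)⁻¹ * x * y i ∈ D := mul_mem (mul_mem (inv_mem (hy _)) hx) (hy _)
    have h2 : ((y j)⁻¹ * x * y i).fst • i0 B1 = i0 B1 := by
      rw [Ind.mul_fst, Ind.mul_fst, Ind.inv_fst, mul_smul, mul_smul, hy1, ← hj, inv_smul_eq_iff,
        hy1]
    have h3 : ((y j)⁻¹ * x * y i).snd (i0 B1) =
        ((y j).snd (i0 B1))⁻¹ * x.snd i * (y i).snd (i0 B1) := by
      rw [Ind.mul_snd, Ind.mul_snd, Ind.inv_snd, hy1, ← hj]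
      have h4 : (y j).fst⁻¹ • j = i0 B1 := by rw [inv_smul_eq_iff, hy1]
      rw [h4]
    have h4 : ((y j).snd (i0 B1))⁻¹ * x.snd i * (y i).snd (i0 B1) ∈ L := by
      rw [← h3]
      exact hD ⟨_, h1, h2, rfl⟩
    have h5 : (s j : Γ) * x.snd i * (s i : Γ)⁻¹ = ((s j : Γ) * (y j).snd (i0 B1)) *
        (((y j).snd (i0 B1))⁻¹ * x.snd i * (y i).snd (i0 B1)) *
        ((s i : Γ) * (y i).snd (i0 B1))⁻¹ := by group
    rw [h5]
    exact mul_mem (mul_mem (h0 _) h4) (inv_mem (h0 _))

lemma card_shift [Finite Γ] {L : Subgroup Γ} (y : Γ) (hL : ∃ l ∈ L, π l = π y) :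
    Nat.card {k : π.ker // (k : Γ) * y ∈ L} = Nat.card (L ⊓ π.ker : Subgroup Γ) := by
  obtain ⟨l, hl, hly⟩ := hL
  have hk0 : l * y⁻¹ ∈ π.ker := by rw [MonoidHom.mem_ker, map_mul, map_inv, hly, mul_inv_cancel]
  refine Nat.card_congr
    { toFun := fun k => ⟨(k.1 : Γ) * y * l⁻¹, Subgroup.mem_inf.2 ⟨mul_mem k.2 (inv_mem hl), ?_⟩⟩
      invFun := fun x => ⟨⟨(x : Γ) * (l * y⁻¹), mul_mem x.2.2 hk0⟩, ?_⟩
      left_inv := fun k => ?_
      right_inv := fun x => ?_ }
  · rw [MonoidHom.mem_ker, map_mul, map_mul, map_inv, hly, (MonoidHom.mem_ker).1 k.1.2, one_mul,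
      mul_inv_cancel]
  · have : (x : Γ) * (l * y⁻¹) * y = x * l := by group
    change (x : Γ) * (l * y⁻¹) * y ∈ L
    rw [this]
    exact mul_mem x.2.1 hl
  · apply Subtype.ext
    apply Subtype.ext
    change (k.1 : Γ) * y * l⁻¹ * (l * y⁻¹) = k.1
    group
  · apply Subtype.ext
    change (x : Γ) * (l * y⁻¹) * y * l⁻¹ = x
    group

end

section

variable {B : Type} [Group B] [Finite B] {B1 : Subgroup B} {Γ : Type} [Group Γ] [Fintype Γ]
  {π : Γ →* B1}

lemma card_pi (T : B ⧸ B1 → Finset π.ker) [Fintype (B ⧸ B1)] (h1 : (T (i0 B1)).card = 1)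
    (c : ℕ) (hc : ∀ i, i ≠ i0 B1 → (T i).card = c) :
    (Fintype.piFinset T).card = c ^ (B1.index - 1) := by
  rw [Fintype.card_piFinset, ← Finset.mul_prod_erase Finset.univ _ (Finset.mem_univ (i0 B1)), h1,
    one_mul, Finset.prod_congr rfl fun i hi => hc i (Finset.ne_of_mem_erase hi), Finset.prod_const,
    Finset.card_erase_of_mem (Finset.mem_univ _), Finset.card_univ, ← Nat.card_eq_fintype_card]
  rfl

/-- the sets of the functions with value `1` at the base point -/
def Sset (π : Γ →* B1) : Finset (B ⧸ B1 → π.ker) :=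
  haveI : Fintype (B ⧸ B1) := Fintype.ofFinite _
  Finset.univ.filter fun s => s (i0 B1) = 1

lemma mem_Sset {s : B ⧸ B1 → π.ker} : s ∈ Sset π ↔ s (i0 B1) = 1 := by
  have : Fintype (B ⧸ B1) := Fintype.ofFinite _
  simp [Sset]

lemma card_Sset : (Sset π).card = Nat.card π.ker ^ (B1.index - 1) := by
  have : Fintype (B ⧸ B1) := Fintype.ofFinite _
  rw [← card_pi (fun i => if i = i0 B1 then {(1 : π.ker)} else Finset.univ) (by simp)
    (Nat.card π.ker) (fun i hi => by rw [if_neg hi, Finset.card_univ, Nat.card_eq_fintype_card])]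
  congr 1
  ext s
  rw [mem_Sset, Fintype.mem_piFinset]
  constructor
  · intro h i
    by_cases hi : i = i0 B1
    · rw [if_pos hi, hi, h]
      simp
    · rw [if_neg hi]
      simp
  · intro h
    have h1 := h (i0 B1)
    rw [if_pos rfl] at h1
    simpa using h1

lemma card_good {D : Subgroup (Ind π)} {L : Subgroup Γ} (hD : st D ≤ L)
    (hL : ∀ γ : Γ, ∃ l ∈ L, π l = π γ)
    (htr : ∀ i : B ⧸ B1, ∃ y ∈ D, y.fst • i0 B1 = i) :
    ((Sset π).filter fun s => ∀ x ∈ D, Ind.inc π s * x * (Ind.inc π s)⁻¹ ∈ indL L).card =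
      Nat.card (L ⊓ π.ker : Subgroup Γ) ^ (B1.index - 1) := by
  have : Fintype (B ⧸ B1) := Fintype.ofFinite _
  choose y hy hy1 using htr
  rw [← card_pi (fun i => if i = i0 B1 then {(1 : π.ker)} else
    Finset.univ.filter fun k : π.ker => (k : Γ) * (y i).snd (i0 B1) ∈ L) (by simp)
    (Nat.card (L ⊓ π.ker : Subgroup Γ)) (fun i hi => by
      rw [if_neg hi, ← card_shift (π := π) ((y i).snd (i0 B1)) (hL _), Nat.card_eq_fintype_card,
        Fintype.card_subtype])]
  congr 1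
  ext s
  rw [Finset.mem_filter, mem_Sset, Fintype.mem_piFinset]
  constructor
  · rintro ⟨h1, h2⟩ i
    rw [conj_iff hD s h1 y hy hy1] at h2
    by_cases hi : i = i0 B1
    · rw [if_pos hi, hi, h1]
      simp
    · rw [if_neg hi, Finset.mem_filter]
      exact ⟨Finset.mem_univ _, h2 i hi⟩
  · intro h
    have h1 := h (i0 B1)
    rw [if_pos rfl, Finset.mem_singleton] at h1
    refine ⟨h1, ?_⟩
    rw [conj_iff hD s h1 y hy hy1]
    intro i hi
    have h2 := h i
    rw [if_neg hi, Finset.mem_filter] at h2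
    exact h2.2

/-- conjugation of tuples -/
def cjT {G : Type} [Group G] (x : G) {g : ℕ} : (Fin g → G × G) ≃ (Fin g → G × G) where
  toFun q := mapT (MulAut.conj x) q
  invFun q := mapT (MulAut.conj x⁻¹) q
  left_inv q := by
    funext i
    refine Prod.ext ?_ ?_
    · change x⁻¹ * (x * (q i).1 * x⁻¹) * x⁻¹⁻¹ = (q i).1
      group
    · change x⁻¹ * (x * (q i).2 * x⁻¹) * x⁻¹⁻¹ = (q i).2
      group
  right_inv q := by
    funext i
    refine Prod.ext ?_ ?_
    · change x * (x⁻¹ * (q i).1 * x⁻¹⁻¹) * x⁻¹ = (q i).1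
      group
    · change x * (x⁻¹ * (q i).2 * x⁻¹⁻¹) * x⁻¹ = (q i).2
      group

lemma cjT_word {G : Type} [Group G] (x : G) {g : ℕ} (q : Fin g → G × G) :
    surfaceWord (cjT x q) = x * surfaceWord q * x⁻¹ :=
  word_mapT (MulAut.conj x).toMonoidHom q

lemma cjT_coords {G : Type} [Group G] (x : G) {g : ℕ} (q : Fin g → G × G) (L : Subgroup G) :
    coords (cjT x q) ⊆ L ↔ ∀ h ∈ Subgroup.closure (coords q), x * h * x⁻¹ ∈ L := by
  have h1 : coords (cjT x q) = (MulAut.conj x) '' coords q := coords_mapT _ _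
  rw [h1]
  constructor
  · intro h
    have h2 : Subgroup.closure (coords q) ≤ L.comap (MulAut.conj x).toMonoidHom := by
      rw [Subgroup.closure_le]
      intro y hy
      exact h ⟨y, hy, rfl⟩
    exact fun y hy => h2 hy
  · rintro h _ ⟨y, hy, rfl⟩
    exact h y (Subgroup.subset_closure hy)

lemma wt_conj (C : Subgroup Γ) (hC : C ≤ Subgroup.center Γ) (κ : C →* ℂˣ)
    (s : B ⧸ B1 → π.ker) (x : Ind π) (hx : x.fst = 1) :
    wt C κ (Ind.inc π s * x * (Ind.inc π s)⁻¹) = wt C κ x := by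
  have : Fintype (B ⧸ B1) := Fintype.ofFinite _
  rw [wt_eq, wt_eq]
  refine Finset.prod_congr rfl fun i _ => ?_
  rw [conj_inc_snd, hx, one_smul]
  exact ext0_class C hC κ _ _

/-- the double counting -/
theorem double_count (C : Subgroup Γ) (hC : C ≤ Subgroup.center Γ) (κ : C →* ℂˣ)
    (L : Subgroup Γ) (hL : ∀ γ : Γ, ∃ l ∈ L, π l = π γ) {g : ℕ} (r : Fin g → B × B)
    (hr1 : surfaceWord r = 1) (hr2 : Subgroup.closure (coords r) = ⊤) :
    ((Nat.card (L ⊓ π.ker : Subgroup Γ) : ℂ) ^ (B1.index - 1)) *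
      (∑ q : Fin g → Ind π × Ind π, if mapT (Ind.fstHom π) q = r ∧
        st (Subgroup.closure (coords q)) ≤ L then wt C κ (surfaceWord q) else 0) =
    ((Nat.card π.ker : ℂ) ^ (B1.index - 1)) *
      ∑ q : Fin g → Ind π × Ind π, if mapT (Ind.fstHom π) q = r ∧
        coords q ⊆ (indL (π := π) L : Set (Ind π)) then wt C κ (surfaceWord q) else 0 := by
  have h1 : ∀ q : Fin g → Ind π × Ind π,
      ((Nat.card (L ⊓ π.ker : Subgroup Γ) : ℂ) ^ (B1.index - 1)) *
      (if mapT (Ind.fstHom π) q = r ∧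
        st (Subgroup.closure (coords q)) ≤ L then wt C κ (surfaceWord q) else 0) =
      ∑ s ∈ Sset π, if mapT (Ind.fstHom π) q = r ∧ (∀ x ∈ Subgroup.closure (coords q),
        Ind.inc π s * x * (Ind.inc π s)⁻¹ ∈ indL L) then wt C κ (surfaceWord q) else 0 := by
    intro q
    by_cases hq : mapT (Ind.fstHom π) q = r
    · simp only [hq, true_and]
      by_cases hst : st (Subgroup.closure (coords q)) ≤ L
      · rw [if_pos hst, ← Finset.sum_filter, Finset.sum_const, nsmul_eq_mul,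
          card_good hst hL]
        · push_cast
          rfl
        · intro i
          obtain ⟨b, rfl⟩ := QuotientGroup.mk_surjective i
          have h2 : (Subgroup.closure (coords q)).map (Ind.fstHom π) = ⊤ := by
            rw [← closure_mapT, hq, hr2]
          have h3 : b ∈ (Subgroup.closure (coords q)).map (Ind.fstHom π) := by
            rw [h2]; trivial
          obtain ⟨y, hy, hyb⟩ := h3
          refine ⟨y, hy, ?_⟩
          have h4 : y.fst = b := hyb
          rw [h4]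
          change ((b * 1 : B) : B ⧸ B1) = _
          rw [mul_one]
      · rw [if_neg hst, mul_zero]
        symm
        refine Finset.sum_eq_zero fun s hs => ?_
        rw [if_neg]
        intro h2
        exact hst (st_le_of_conj s (mem_Sset.1 hs) h2)
    · simp only [hq, false_and, if_false, mul_zero, Finset.sum_const_zero]
  rw [Finset.mul_sum, Finset.sum_congr rfl fun q _ => h1 q, Finset.sum_comm]
  have h2 : ∀ s ∈ Sset π, (∑ q : Fin g → Ind π × Ind π, if mapT (Ind.fstHom π) q = r ∧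
      (∀ x ∈ Subgroup.closure (coords q), Ind.inc π s * x * (Ind.inc π s)⁻¹ ∈ indL L)
        then wt C κ (surfaceWord q) else 0) =
      ∑ q : Fin g → Ind π × Ind π, if mapT (Ind.fstHom π) q = r ∧
        coords q ⊆ (indL (π := π) L : Set (Ind π)) then wt C κ (surfaceWord q) else 0 := by
    intro s _
    rw [← (cjT (g := g) (Ind.inc π s)).sum_comp (fun q : Fin g → Ind π × Ind π =>
      if mapT (Ind.fstHom π) q = r ∧ coords q ⊆ (indL (π := π) L : Set (Ind π)) then wt C κ (surfaceWord q) else 0)]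
    refine Finset.sum_congr rfl fun q _ => ?_
    have h3 : mapT (Ind.fstHom π) (cjT (Ind.inc π s) q) = mapT (Ind.fstHom π) q := by
      funext i
      refine Prod.ext ?_ ?_
      · change (Ind.inc π s * (q i).1 * (Ind.inc π s)⁻¹).fst = (q i).1.fst
        simp
      · change (Ind.inc π s * (q i).2 * (Ind.inc π s)⁻¹).fst = (q i).2.fst
        simp
    rw [h3, cjT_coords, cjT_word]
    by_cases hq : mapT (Ind.fstHom π) q = r
    · have h4 : (surfaceWord q).fst = 1 := by
        have h5 := word_mapT (Ind.fstHom π) q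
        rw [hq, hr1] at h5
        exact h5.symm
      rw [wt_conj C hC κ s _ h4]
      congr
    · rw [if_neg (fun h => hq h.1), if_neg (fun h => hq h.1)]
  rw [Finset.sum_congr rfl h2, Finset.sum_const, nsmul_eq_mul, card_Sset]
  push_cast
  rfl

end

end Pool.Agent.Helper15.QS
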