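import Pool.Agent.Helper15.QS.Tot

/-!
# The components of the smallest noncentral normal subgroup
-/

open scoped Classical BigOperators IsMulCommutative
open Representation Pool.Agent.Helper884.IC Pool.Agent.Y63.AWC Pool.Agent.Helper15.AW

set_option linter.unusedSectionVars false
set_option linter.unusedVariables false
set_option linter.unusedSimpArgs false

attribute [-instance] MonoidHom.decidableMemKer

noncomputable section

namespace Pool.Agent.Helper15.QS

section

variable {H : Type} [Group H] [Finite H]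

/-- the setting: `N` is perfect and is the smallest noncentral normal subgroup -/
structure Sett (N : Subgroup H) : Prop where
  normal : N.Normal
  nonc : ¬ N ≤ Subgroup.center H
  small : ∀ M : Subgroup H, M.Normal → M ≤ Subgroup.center H ∨ N ≤ M
  perf : ⁅N, N⁆ = N
  cent : Subgroup.center H ≤ N

/-- conjugates -/
def cjs (R : Subgroup H) (h : H) : Subgroup H := R.map (MulAut.conj h).toMonoidHom

lemma mem_cjs {R : Subgroup H} {h x : H} : x ∈ cjs R h ↔ ∃ r ∈ R, h * r * h⁻¹ = x := Iff.rfl

lemma cjs_mem {R : Subgroup H} (h : H) {r : H} (hr : r ∈ R) : h * r * h⁻¹ ∈ cjs R h := ⟨r, hr, rfl⟩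

lemma card_cjs (R : Subgroup H) (h : H) : Nat.card (cjs R h) = Nat.card R :=
  Subgroup.card_map_of_injective (MulAut.conj h).injective

variable {N : Subgroup H} (S : Sett N)

include S in
/-- an element of `N` which commutes with `N` is central -/
lemma Sett.cent_of {x : H} (hx : x ∈ N) (h : ∀ n ∈ N, x * n = n * x) : x ∈ Subgroup.center H := by
  have := S.normal
  have hM : (N ⊓ Subgroup.centralizer (N : Set H)).Normal := inferInstance
  have hxM : x ∈ N ⊓ Subgroup.centralizer (N : Set H) :=
    ⟨hx, Subgroup.mem_centralizer_iff.2 fun n hn => (h n hn).symm⟩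
  rcases S.small _ hM with h1 | h1
  · exact h1 hxM
  · exfalso
    have h2 : ⁅N, N⁆ = ⊥ := by
      rw [Subgroup.commutator_eq_bot_iff_le_centralizer]
      exact h1.trans inf_le_right
    rw [S.perf] at h2
    apply S.nonc
    rw [h2]
    exact bot_le

/-- the subgroups of `N` normalized by `N` which are not central -/
structure Nn (N R : Subgroup H) : Prop where
  le : R ≤ N
  inv : ∀ n ∈ N, ∀ r ∈ R, n * r * n⁻¹ ∈ R
  nonc : ¬ R ≤ Subgroup.center H

include S in
lemma Sett.exists_min : ∃ R : Subgroup H, Nn N R ∧ ∀ R' : Subgroup H, R' ≤ R → Nn N R' → R' = R := by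
  obtain ⟨R, hR, hmin⟩ := WellFounded.has_min (wellFounded_lt (α := Subgroup H))
    {R | Nn N R} ⟨N, le_rfl, fun n hn r hr => mul_mem (mul_mem hn hr) (inv_mem hn), S.nonc⟩
  refine ⟨R, hR, fun R' hR' hn => ?_⟩
  by_contra hne
  exact hmin R' hn (lt_of_le_of_ne hR' hne)

/-- a minimal noncentral subgroup -/
structure Mn (N R : Subgroup H) : Prop where
  nn : Nn N R
  min : ∀ R' : Subgroup H, R' ≤ R → Nn N R' → R' = R

lemma Nn.conj (S : Sett N) {R : Subgroup H} (h : Nn N R) (x : H) : Nn N (cjs R x) where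
  le := by
    rintro _ ⟨r, hr, rfl⟩
    exact S.normal.conj_mem _ (h.le hr) x
  inv := by
    rintro n hn _ ⟨r, hr, rfl⟩
    refine ⟨(x⁻¹ * n * x) * r * (x⁻¹ * n * x)⁻¹, ?_, ?_⟩
    · refine h.inv _ ?_ r hr
      have := S.normal.conj_mem n hn x⁻¹
      rwa [inv_inv] at this
    · change x * _ * x⁻¹ = n * (x * r * x⁻¹) * n⁻¹
      group
  nonc := by
    intro hc
    apply h.nonc
    intro r hr
    have h1 := Subgroup.mem_center_iff.1 (hc (cjs_mem x hr))
    rw [Subgroup.mem_center_iff]
    intro y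
    have h2 := h1 (x * y * x⁻¹)
    have h3 : x * (y * r) * x⁻¹ = x * (r * y) * x⁻¹ := by
      calc x * (y * r) * x⁻¹ = x * y * x⁻¹ * (x * r * x⁻¹) := by group
        _ = x * r * x⁻¹ * (x * y * x⁻¹) := h2
        _ = _ := by group
    exact mul_left_cancel (mul_right_cancel h3)

/-- the commutators with another subgroup -/
lemma comm_central {R T : Subgroup H} (hR : Mn N R) (hT : Nn N T)
    (hne : ¬ R ≤ T) : ⁅R, T⁆ ≤ Subgroup.center H := by
  have h1 : ⁅R, T⁆ ≤ R ⊓ T := by
    rw [Subgroup.commutator_le]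
    intro r hr t ht
    rw [commutatorElement_def]
    constructor
    · have h2 := hR.nn.inv t (hT.le ht) r⁻¹ (R.inv_mem hr)
      have h3 : r * t * r⁻¹ * t⁻¹ = r * (t * r⁻¹ * t⁻¹) := by group
      rw [h3]
      exact R.mul_mem hr h2
    · exact T.mul_mem (hT.inv r (hR.nn.le hr) t ht) (T.inv_mem ht)
  by_contra hcon
  have h2 : Nn N (R ⊓ T) := by
    refine ⟨inf_le_left.trans hR.nn.le, fun n hn r hr => ⟨hR.nn.inv n hn r hr.1,
      hT.inv n hn r hr.2⟩, fun h => hcon (h1.trans h)⟩
  exact hne (inf_eq_left.1 (hR.min _ inf_le_left h2))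

lemma cjs_eq_of_le {R : Subgroup H} (h : H) (hle : R ≤ cjs R h) : cjs R h = R :=
  (Subgroup.eq_of_le_of_card_ge hle (card_cjs R h).le).symm

/-- the normal closure of a minimal subgroup is `N` -/
lemma closure_conj (S : Sett N) {R : Subgroup H} (hR : Nn N R) :
    Subgroup.closure {x | ∃ h : H, ∃ r ∈ R, x = h * r * h⁻¹} = N := by
  set C := Subgroup.closure {x | ∃ h : H, ∃ r ∈ R, x = h * r * h⁻¹} with hC
  have hle : C ≤ N := by
    rw [hC, Subgroup.closure_le]
    rintro _ ⟨h, r, hr, rfl⟩
    exact S.normal.conj_mem _ (hR.le hr) h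
  have hn : C.Normal := by
    refine ⟨fun x hx g => ?_⟩
    rw [hC] at hx
    induction hx using Subgroup.closure_induction with
    | mem x hx =>
      obtain ⟨h, r, hr, rfl⟩ := hx
      exact Subgroup.subset_closure ⟨g * h, r, hr, by group⟩
    | one => rw [mul_one, mul_inv_cancel]; exact one_mem _
    | mul x y _ _ hx hy =>
      have : g * (x * y) * g⁻¹ = (g * x * g⁻¹) * (g * y * g⁻¹) := by group
      rw [this]
      exact mul_mem hx hy
    | inv x _ hx =>
      have : g * x⁻¹ * g⁻¹ = (g * x * g⁻¹)⁻¹ := by group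
      rw [this]
      exact inv_mem hx
  rcases S.small C hn with h1 | h1
  · exfalso
    apply hR.nonc
    intro r hr
    exact h1 (Subgroup.subset_closure ⟨1, r, hr, by simp⟩)
  · exact le_antisymm hle h1

lemma quot_comm {x y : H} (h : x * y * x⁻¹ * y⁻¹ ∈ Subgroup.center H) :
    (QuotientGroup.mk' (Subgroup.center H) x) * (QuotientGroup.mk' (Subgroup.center H) y) =
      (QuotientGroup.mk' (Subgroup.center H) y) * (QuotientGroup.mk' (Subgroup.center H) x) := by
  have h1 : QuotientGroup.mk' (Subgroup.center H) (x * y * x⁻¹ * y⁻¹) = 1 :=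
    (QuotientGroup.eq_one_iff _).2 h
  rw [map_mul, map_mul, map_mul, map_inv, map_inv, mul_inv_eq_one,
    mul_inv_eq_iff_eq_mul] at h1
  exact h1

lemma comm_quot {x y : H}
    (h : (QuotientGroup.mk' (Subgroup.center H) x) * (QuotientGroup.mk' (Subgroup.center H) y) =
      (QuotientGroup.mk' (Subgroup.center H) y) * (QuotientGroup.mk' (Subgroup.center H) x)) :
    x * y * x⁻¹ * y⁻¹ ∈ Subgroup.center H := by
  have h1 : QuotientGroup.mk' (Subgroup.center H) (x * y * x⁻¹ * y⁻¹) = 1 := by
    rw [map_mul, map_mul, map_mul, map_inv, map_inv, mul_inv_eq_one,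
      mul_inv_eq_iff_eq_mul]
    exact h
  exact (QuotientGroup.eq_one_iff _).1 h1

/-- a minimal subgroup is perfect -/
lemma Mn.perfect (S : Sett N) {R : Subgroup H} (hR : Mn N R) : ⁅R, R⁆ = R := by
  by_contra hne
  have h1 : ⁅R, R⁆ ≤ Subgroup.center H := by
    by_contra hcon
    refine hne (hR.min _ ?_ ⟨?_, ?_, hcon⟩)
    · exact Subgroup.commutator_le_self R
    · exact (Subgroup.commutator_le_self R).trans hR.nn.le
    · intro n hn r hr
      have h2 : cjs ⁅R, R⁆ n = ⁅cjs R n, cjs R n⁆ := Subgroup.map_commutator _ _ _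
      have h3 : cjs R n ≤ R := by
        rintro _ ⟨r, hr, rfl⟩
        exact hR.nn.inv n hn r hr
      exact Subgroup.commutator_mono h3 h3 (h2 ▸ cjs_mem n hr)
  -- then `R` commutes with all conjugates modulo the center
  have h2 : ∀ h : H, ⁅R, cjs R h⁆ ≤ Subgroup.center H := by
    intro h
    by_cases hle : R ≤ cjs R h
    · rw [cjs_eq_of_le h hle]
      exact h1
    · exact comm_central hR (hR.nn.conj S h) hle
  have h3 : ⁅R, N⁆ ≤ Subgroup.center H := by
    rw [Subgroup.commutator_le]
    intro r hr n hn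
    rw [← closure_conj S hR.nn] at hn
    rw [commutatorElement_def]
    apply comm_quot
    induction hn using Subgroup.closure_induction with
    | mem x hx =>
      obtain ⟨h, t, ht, rfl⟩ := hx
      have h5 := h2 h (Subgroup.commutator_mem_commutator hr (cjs_mem h ht))
      rw [commutatorElement_def] at h5
      exact quot_comm h5
    | one => rw [map_one, mul_one, one_mul]
    | mul x y _ _ hx hy =>
      rw [map_mul]
      rw [← mul_assoc, hx, mul_assoc, hy, ← mul_assoc]
    | inv x _ hx =>
      rw [map_inv, eq_inv_mul_iff_mul_eq, ← mul_assoc, ← hx, mul_inv_cancel_right]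
  -- three subgroups
  have hbot : ∀ T : Subgroup H, ⁅Subgroup.center H, T⁆ = ⊥ := by
    intro T
    rw [Subgroup.commutator_eq_bot_iff_le_centralizer]
    exact Subgroup.center_le_centralizer _
  have h4 : ⁅⁅N, N⁆, R⁆ = ⊥ := by
    refine Subgroup.commutator_commutator_eq_bot_of_rotate ?_ ?_
    · rw [eq_bot_iff, ← hbot N]
      refine Subgroup.commutator_mono ?_ le_rfl
      rw [Subgroup.commutator_comm]
      exact h3
    · rw [eq_bot_iff, ← hbot N]
      exact Subgroup.commutator_mono h3 le_rfl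
  rw [S.perf, Subgroup.commutator_eq_bot_iff_le_centralizer] at h4
  apply hR.nn.nonc
  intro r hr
  refine S.cent_of (hR.nn.le hr) fun n hn => ?_
  exact Subgroup.mem_centralizer_iff.1 (h4 hn) r hr

/-- distinct conjugates commute -/
lemma Mn.commute (S : Sett N) {R : Subgroup H} (hR : Mn N R) {h : H} (hne : cjs R h ≠ R) {x y : H}
    (hx : x ∈ R) (hy : y ∈ cjs R h) : x * y = y * x := by
  have h1 : ⁅R, cjs R h⁆ ≤ Subgroup.center H :=
    comm_central hR (hR.nn.conj S h) (fun hle => hne (cjs_eq_of_le h hle))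
  have hbot : ∀ T : Subgroup H, ⁅Subgroup.center H, T⁆ = ⊥ := by
    intro T
    rw [Subgroup.commutator_eq_bot_iff_le_centralizer]
    exact Subgroup.center_le_centralizer _
  have h4 : ⁅⁅R, R⁆, cjs R h⁆ = ⊥ := by
    refine Subgroup.commutator_commutator_eq_bot_of_rotate ?_ ?_
    · rw [eq_bot_iff, ← hbot R]
      exact Subgroup.commutator_mono h1 le_rfl
    · rw [eq_bot_iff, ← hbot R]
      refine Subgroup.commutator_mono ?_ le_rfl
      rw [Subgroup.commutator_comm]
      exact h1
  rw [hR.perfect S, Subgroup.commutator_eq_bot_iff_le_centralizer] at h4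
  exact (Subgroup.mem_centralizer_iff.1 (h4 hx) y hy).symm

end

end Pool.Agent.Helper15.QS
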