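import Pool.Agent.Helper15.QS.Str

/-!
# The decomposition of the smallest noncentral normal subgroup
-/

open scoped Classical BigOperators IsMulCommutative
open Representation Pool.Agent.Helper884.IC Pool.Agent.Y63.AWC Pool.Agent.Helper15.AW

set_option linter.unusedSectionVars false
set_option linter.unusedVariables false
set_option linter.unusedSimpArgs false

attribute [-instance] MonoidHom.decidableMemKer

noncomputable section

namespace Pool.Agent.Helper15.QS

section

variable {H : Type} [Group H] [Finite H] {N R : Subgroup H}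

/-- the subgroup generated by the conjugates of `R` by the elements of `T` -/
def KK (R : Subgroup H) (T : Set H) : Subgroup H :=
  Subgroup.closure {x | ∃ h ∈ T, ∃ r ∈ R, x = h * r * h⁻¹}

lemma KK_mem {T : Set H} {h : H} (hh : h ∈ T) {r : H} (hr : r ∈ R) : h * r * h⁻¹ ∈ KK R T :=
  Subgroup.subset_closure ⟨h, hh, r, hr, rfl⟩

lemma KK_conj {T T' : Set H} {g : H} (hT : ∀ h ∈ T, g * h ∈ T') {x : H} (hx : x ∈ KK R T) :
    g * x * g⁻¹ ∈ KK R T' := by
  unfold KK at hx
  induction hx using Subgroup.closure_induction with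
  | mem x hx =>
    obtain ⟨h, hh, r, hr, rfl⟩ := hx
    have : g * (h * r * h⁻¹) * g⁻¹ = (g * h) * r * (g * h)⁻¹ := by group
    rw [this]
    exact KK_mem (hT h hh) hr
  | one => rw [mul_one, mul_inv_cancel]; exact one_mem _
  | mul x y _ _ hx hy =>
    have : g * (x * y) * g⁻¹ = (g * x * g⁻¹) * (g * y * g⁻¹) := by group
    rw [this]
    exact mul_mem hx hy
  | inv x _ hx =>
    have : g * x⁻¹ * g⁻¹ = (g * x * g⁻¹)⁻¹ := by group
    rw [this]
    exact inv_mem hx

lemma KK_le (S : Sett N) (hR : R ≤ N) (T : Set H) : KK R T ≤ N := by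
  unfold KK
  rw [Subgroup.closure_le]
  rintro _ ⟨h, _, r, hr, rfl⟩
  exact S.normal.conj_mem _ (hR hr) h

lemma KK_comm (S : Sett N) (hR : Mn N R) {T T' : Set H}
    (hTT : ∀ h ∈ T, ∀ h' ∈ T', cjs R (h⁻¹ * h') ≠ R) {x y : H} (hx : x ∈ KK R T)
    (hy : y ∈ KK R T') : x * y = y * x := by
  have h1 : KK R T ≤ Subgroup.centralizer (KK R T' : Set H) := by
    unfold KK
    rw [Subgroup.closure_le]
    rintro _ ⟨h, hh, r, hr, rfl⟩
    rw [SetLike.mem_coe, Subgroup.mem_centralizer_iff]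
    intro y hy
    have h2 : Subgroup.closure {x | ∃ h ∈ T', ∃ r ∈ R, x = h * r * h⁻¹} ≤
        Subgroup.centralizer {h * r * h⁻¹} := by
      rw [Subgroup.closure_le]
      rintro _ ⟨h', hh', r', hr', rfl⟩
      rw [SetLike.mem_coe, Subgroup.mem_centralizer_iff]
      rintro _ rfl
      have h3 := hR.commute S (hTT h hh h' hh') hr (cjs_mem (h⁻¹ * h') hr')
      calc h * r * h⁻¹ * (h' * r' * h'⁻¹) =
          h * (r * ((h⁻¹ * h') * r' * (h⁻¹ * h')⁻¹)) * h⁻¹ := by group
        _ = h * (((h⁻¹ * h') * r' * (h⁻¹ * h')⁻¹) * r) * h⁻¹ := by rw [h3]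
        _ = _ := by group
    exact ((Subgroup.mem_centralizer_iff.1 (h2 hy)) _ rfl).symm
  exact (Subgroup.mem_centralizer_iff.1 (h1 hx) y hy).symm

lemma KK_perfect (S : Sett N) (hR : Mn N R) (T : Set H) : ⁅KK R T, KK R T⁆ = KK R T := by
  apply le_antisymm
  · exact Subgroup.commutator_le_self _
  · conv_lhs => unfold KK
    rw [Subgroup.closure_le]
    rintro _ ⟨h, hh, r, hr, rfl⟩
    have h1 : h * r * h⁻¹ ∈ cjs ⁅R, R⁆ h := by
      rw [hR.perfect S]
      exact cjs_mem h hr
    have h2 : cjs ⁅R, R⁆ h = ⁅cjs R h, cjs R h⁆ := Subgroup.map_commutator _ _ _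
    have h3 : cjs R h ≤ KK R T := by
      rintro _ ⟨r, hr, rfl⟩
      exact KK_mem hh hr
    exact Subgroup.commutator_mono h3 h3 (h2 ▸ h1)

lemma KK_sup (S : Sett N) (hR : Mn N R) (T : Set H) : KK R T ⊔ KK R Tᶜ = N := by
  apply le_antisymm
  · exact sup_le (KK_le S hR.nn.le _) (KK_le S hR.nn.le _)
  · conv_lhs => rw [← closure_conj S hR.nn]
    rw [Subgroup.closure_le]
    rintro _ ⟨h, r, hr, rfl⟩
    by_cases hh : h ∈ T
    · exact Subgroup.mem_sup_left (KK_mem hh hr)
    · exact Subgroup.mem_sup_right (KK_mem hh hr)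

/-- the stabilizer -/
def stR (R : Subgroup H) : Subgroup H where
  carrier := {h | cjs R h = R}
  one_mem' := by
    change cjs R 1 = R
    ext x
    rw [mem_cjs]
    constructor
    · rintro ⟨r, hr, rfl⟩
      simpa using hr
    · intro hx
      exact ⟨x, hx, by simp⟩
  mul_mem' := by
    intro a b ha hb
    have h1 : cjs R (a * b) = cjs (cjs R b) a := by
      ext x
      rw [mem_cjs, mem_cjs]
      constructor
      · rintro ⟨r, hr, rfl⟩
        exact ⟨b * r * b⁻¹, cjs_mem b hr, by group⟩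
      · rintro ⟨_, ⟨r, hr, rfl⟩, rfl⟩
        refine ⟨r, hr, ?_⟩
        change a * b * r * (a * b)⁻¹ = a * (b * r * b⁻¹) * a⁻¹
        group
    change cjs R (a * b) = R
    rw [h1]
    have hb' : cjs R b = R := hb
    rw [hb']
    exact ha
  inv_mem' := by
    intro a ha
    have ha' : cjs R a = R := ha
    change cjs R a⁻¹ = R
    ext x
    rw [mem_cjs]
    constructor
    · rintro ⟨r, hr, rfl⟩
      rw [← ha'] at hr
      obtain ⟨r', hr', rfl⟩ := hr
      change a⁻¹ * (a * r' * a⁻¹) * a⁻¹⁻¹ ∈ R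
      have : a⁻¹ * (a * r' * a⁻¹) * a⁻¹⁻¹ = r' := by group
      rw [this]
      exact hr'
    · intro hx
      refine ⟨a * x * a⁻¹, ?_, by group⟩
      have := cjs_mem a hx
      rwa [ha'] at this

lemma mem_stR {h : H} : h ∈ stR R ↔ cjs R h = R := Iff.rfl

lemma N_le_stR (S : Sett N) (hR : Mn N R) : N ≤ stR R := by
  intro n hn
  rw [mem_stR]
  apply Subgroup.eq_of_le_of_card_ge
  · rintro _ ⟨r, hr, rfl⟩
    exact hR.nn.inv n hn r hr
  · exact (card_cjs R n).ge

/-- the subgroup is normal exactly if it is everything -/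
lemma eq_of_stR_top (S : Sett N) (hR : Mn N R) (h : stR R = ⊤) : R = N := by
  have hn : R.Normal := by
    refine ⟨fun r hr g => ?_⟩
    have hg : g ∈ stR R := by rw [h]; trivial
    have := cjs_mem g hr
    rwa [mem_stR.1 hg] at this
  rcases S.small R hn with h1 | h1
  · exact absurd h1 hR.nn.nonc
  · exact le_antisymm hR.nn.le h1

lemma H1_ne {H1 : Subgroup H} (hH1 : stR R ≤ H1) : ∀ h ∈ (H1 : Set H), ∀ h' ∈ (H1 : Set H)ᶜ,
    cjs R (h⁻¹ * h') ≠ R := by
  intro h hh h' hh' heq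
  apply hh'
  have h1 : h⁻¹ * h' ∈ H1 := hH1 heq
  have h2 : h' = h * (h⁻¹ * h') := by group
  rw [SetLike.mem_coe, h2]
  exact mul_mem hh h1

end

end Pool.Agent.Helper15.QS
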