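import Pool.Agent.Helper15.QS.Str2

/-!
# The homomorphism to the induced group
-/

open scoped Classical BigOperators IsMulCommutative
open Representation Pool.Agent.Helper884.IC Pool.Agent.Y63.AWC Pool.Agent.Helper15.AW

set_option linter.unusedSectionVars false
set_option linter.unusedVariables false
set_option linter.unusedSimpArgs false

attribute [-instance] MonoidHom.decidableMemKer

noncomputable section

namespace Pool.Agent.Helper15.QS

section

variable {H : Type} [Group H] [Finite H] {N R H1 : Subgroup H}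

/-- the first factor -/
abbrev K1 (R H1 : Subgroup H) : Subgroup H := KK R (H1 : Set H)

/-- the second factor -/
abbrev K2 (R H1 : Subgroup H) : Subgroup H := KK R ((H1 : Set H)ᶜ)

/-- the second factor and the center -/
abbrev U2 (R H1 : Subgroup H) : Subgroup H := K2 R H1 ⊔ Subgroup.center H

lemma K1_conj {h x : H} (hh : h ∈ H1) (hx : x ∈ K1 R H1) : h * x * h⁻¹ ∈ K1 R H1 :=
  KK_conj (fun y hy => H1.mul_mem hh hy) hx

lemma K2_conj {h x : H} (hh : h ∈ H1) (hx : x ∈ K2 R H1) : h * x * h⁻¹ ∈ K2 R H1 := by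
  refine KK_conj (T := (H1 : Set H)ᶜ) (T' := (H1 : Set H)ᶜ) ?_ hx
  intro y hy hy'
  exact hy ((H1.mul_mem_cancel_left hh).1 hy')

/-- conjugates by elements outside `H₁` -/
lemma K1_conj2 {h x : H} (hh : h ∉ H1) (hx : x ∈ K1 R H1) : h * x * h⁻¹ ∈ K2 R H1 := by
  refine KK_conj (T := (H1 : Set H)) (T' := (H1 : Set H)ᶜ) ?_ hx
  intro y hy hy'
  exact hh ((H1.mul_mem_cancel_right hy).1 hy')

lemma U2_conj {h x : H} (hh : h ∈ H1) (hx : x ∈ U2 R H1) : h * x * h⁻¹ ∈ U2 R H1 := by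
  rw [Subgroup.mem_sup_of_normal_right] at hx
  obtain ⟨k, hk, z, hz, rfl⟩ := hx
  have h1 : h * (k * z) * h⁻¹ = (h * k * h⁻¹) * z := by
    have := Subgroup.mem_center_iff.1 hz h⁻¹
    calc h * (k * z) * h⁻¹ = h * k * (z * h⁻¹) := by group
      _ = h * k * (h⁻¹ * z) := by rw [this]
      _ = _ := by group
  rw [h1]
  exact mul_mem (Subgroup.mem_sup_left (K2_conj hh hk)) (Subgroup.mem_sup_right hz)

lemma K1_normal : ((K1 R H1).subgroupOf H1).Normal :=
  ⟨fun x hx g => K1_conj g.2 hx⟩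

lemma U2_normal : ((U2 R H1).subgroupOf H1).Normal :=
  ⟨fun x hx g => U2_conj g.2 hx⟩

instance : ((K1 R H1).subgroupOf H1).Normal := K1_normal
instance : ((U2 R H1).subgroupOf H1).Normal := U2_normal

/-- the hypotheses -/
structure Hyp (N R H1 : Subgroup H) : Prop where
  S : Sett N
  hR : Mn N R
  le : stR R ≤ H1

variable (X : Hyp N R H1)

include X

lemma Hyp.N_le : N ≤ H1 := (N_le_stR X.S X.hR).trans X.le

lemma Hyp.K1_le : K1 R H1 ≤ N := KK_le X.S X.hR.nn.le _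

lemma Hyp.K2_le : K2 R H1 ≤ N := KK_le X.S X.hR.nn.le _

lemma Hyp.U2_le : U2 R H1 ≤ N := sup_le X.K2_le X.S.cent

lemma Hyp.comm {x y : H} (hx : x ∈ K1 R H1) (hy : y ∈ K2 R H1) : x * y = y * x :=
  KK_comm X.S X.hR (H1_ne X.le) hx hy

lemma Hyp.commU {x y : H} (hx : x ∈ K1 R H1) (hy : y ∈ U2 R H1) : x * y = y * x := by
  rw [Subgroup.mem_sup_of_normal_right] at hy
  obtain ⟨k, hk, z, hz, rfl⟩ := hy
  rw [← mul_assoc, X.comm hx hk, mul_assoc, Subgroup.mem_center_iff.1 hz x, mul_assoc]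

lemma Hyp.sup : K1 R H1 ⊔ K2 R H1 = N := KK_sup X.S X.hR _

lemma Hyp.decomp {n : H} (hn : n ∈ N) : ∃ k ∈ K1 R H1, ∃ u ∈ K2 R H1, n = k * u := by
  rw [← X.sup, Subgroup.sup_eq_closure] at hn
  induction hn using Subgroup.closure_induction with
  | mem x hx =>
    rcases hx with h | h
    · exact ⟨x, h, 1, one_mem _, (mul_one x).symm⟩
    · exact ⟨1, one_mem _, x, h, (one_mul x).symm⟩
  | one => exact ⟨1, one_mem _, 1, one_mem _, (mul_one 1).symm⟩
  | mul x y _ _ hx hy =>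
    obtain ⟨k, hk, u, hu, rfl⟩ := hx
    obtain ⟨k', hk', u', hu', rfl⟩ := hy
    refine ⟨k * k', mul_mem hk hk', u * u', mul_mem hu hu', ?_⟩
    calc k * u * (k' * u') = k * (u * k') * u' := by group
      _ = k * (k' * u) * u' := by rw [X.comm hk' hu]
      _ = _ := by group
  | inv x _ hx =>
    obtain ⟨k, hk, u, hu, rfl⟩ := hx
    refine ⟨k⁻¹, inv_mem hk, u⁻¹, inv_mem hu, ?_⟩
    rw [X.comm hk hu, mul_inv_rev]

omit X

/-- the group `A` -/
abbrev At (R H1 : Subgroup H) : Type := H1 ⧸ (U2 R H1).subgroupOf H1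

/-- the image of `H₁` -/
abbrev B1t (N H1 : Subgroup H) [N.Normal] : Subgroup (H ⧸ N) := H1.map (QuotientGroup.mk' N)

variable [hN : N.Normal]

/-- the projection of `A` -/
def pi1 (X : Hyp N R H1) : At R H1 →* B1t N H1 :=
  QuotientGroup.lift _ ((QuotientGroup.mk' N).subgroupMap H1) (by
    intro x hx
    apply Subtype.ext
    exact (QuotientGroup.eq_one_iff _).2 (X.U2_le hx))

lemma pi1_mk (X : Hyp N R H1) (x : H1) :
    ((pi1 X (QuotientGroup.mk' _ x) : B1t N H1) : H ⧸ N) = QuotientGroup.mk' N (x : H) := rfl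

lemma pi1_surj (X : Hyp N R H1) : Function.Surjective (pi1 X) := by
  rintro ⟨_, x, hx, rfl⟩
  exact ⟨QuotientGroup.mk' _ ⟨x, hx⟩, rfl⟩

/-- the transversal -/
def tt (N H1 : Subgroup H) [N.Normal] (i : (H ⧸ N) ⧸ B1t N H1) : H :=
  Classical.choose (QuotientGroup.mk'_surjective N i.out)

lemma tt_spec (i : (H ⧸ N) ⧸ B1t N H1) : QuotientGroup.mk' N (tt N H1 i) = i.out :=
  Classical.choose_spec (QuotientGroup.mk'_surjective N i.out)

lemma mem_of_map (X : Hyp N R H1) {x : H} (hx : QuotientGroup.mk' N x ∈ B1t N H1) : x ∈ H1 := by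
  obtain ⟨y, hy, hyx⟩ := hx
  have h1 : y⁻¹ * x ∈ N := QuotientGroup.eq.1 hyx
  have h2 : x = y * (y⁻¹ * x) := by group
  rw [h2]
  exact mul_mem hy (X.N_le h1)

lemma tt_mem (X : Hyp N R H1) (h : H) (i : (H ⧸ N) ⧸ B1t N H1) :
    (tt N H1 (QuotientGroup.mk' N h • i))⁻¹ * h * tt N H1 i ∈ H1 := by
  apply mem_of_map X
  rw [map_mul, map_mul, map_inv, tt_spec, tt_spec]
  exact kp_mem _ _ _

/-- the coordinates -/
def co (X : Hyp N R H1) (h : H) (i : (H ⧸ N) ⧸ B1t N H1) : H1 :=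
  ⟨(tt N H1 (QuotientGroup.mk' N h • i))⁻¹ * h * tt N H1 i, tt_mem X h i⟩

lemma co_coe (X : Hyp N R H1) (h : H) (i : (H ⧸ N) ⧸ B1t N H1) :
    (co X h i : H) = (tt N H1 (QuotientGroup.mk' N h • i))⁻¹ * h * tt N H1 i := rfl

/-- the homomorphism to the induced group -/
def Phi1 (X : Hyp N R H1) : H →* Ind (pi1 X) where
  toFun h := ⟨QuotientGroup.mk' N h, fun i => QuotientGroup.mk' _ (co X h i), by
    intro i
    apply Subtype.ext
    rw [pi1_mk, co_coe, map_mul, map_mul, map_inv, tt_spec, tt_spec, kp_coe]⟩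
  map_one' := by
    refine Ind.ext (map_one _) (funext fun i => ?_)
    change QuotientGroup.mk' _ (co X 1 i) = 1
    rw [← map_one (QuotientGroup.mk' _)]
    congr 1
    apply Subtype.ext
    rw [co_coe, map_one, one_smul, mul_one, inv_mul_cancel]
    rfl
  map_mul' h h' := by
    refine Ind.ext (map_mul _ _ _) (funext fun i => ?_)
    rw [Ind.mul_snd]
    change QuotientGroup.mk' _ (co X (h * h') i) = QuotientGroup.mk' _ (co X h _) *
      QuotientGroup.mk' _ (co X h' i)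
    rw [← map_mul]
    congr 1
    apply Subtype.ext
    rw [Subgroup.coe_mul, co_coe, co_coe, co_coe, map_mul, mul_smul]
    group

lemma Phi1_fst (X : Hyp N R H1) (h : H) : (Phi1 X h).fst = QuotientGroup.mk' N h := rfl

lemma Phi1_snd (X : Hyp N R H1) (h : H) (i : (H ⧸ N) ⧸ B1t N H1) :
    (Phi1 X h).snd i = QuotientGroup.mk' _ (co X h i) := rfl

/-- the coordinates of the elements of `N` -/
lemma co_N (X : Hyp N R H1) {n : H} (hn : n ∈ N) (i : (H ⧸ N) ⧸ B1t N H1) :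
    (co X n i : H) = (tt N H1 i)⁻¹ * n * tt N H1 i := by
  rw [co_coe]
  have h1 : QuotientGroup.mk' N n = 1 := (QuotientGroup.eq_one_iff _).2 hn
  rw [h1, one_smul]

lemma tt_inj (X : Hyp N R H1) {i j : (H ⧸ N) ⧸ B1t N H1} (h : (tt N H1 i)⁻¹ * tt N H1 j ∈ H1) :
    i = j := by
  have h1 : (i.out)⁻¹ * j.out ∈ B1t N H1 := by
    rw [← tt_spec, ← tt_spec, ← map_inv, ← map_mul]
    exact ⟨_, h, rfl⟩
  have h2 : ((i.out : H ⧸ N) : (H ⧸ N) ⧸ B1t N H1) = ((j.out : H ⧸ N) : (H ⧸ N) ⧸ B1t N H1) :=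
    QuotientGroup.eq.2 h1
  have h3 : ((i.out : H ⧸ N) : (H ⧸ N) ⧸ B1t N H1) = i := Quotient.out_eq _
  have h4 : ((j.out : H ⧸ N) : (H ⧸ N) ⧸ B1t N H1) = j := Quotient.out_eq _
  rw [h3, h4] at h2
  exact h2

/-- the first factor as a subgroup of `H₁` -/
abbrev Kt (R H1 : Subgroup H) : Type := (K1 R H1).subgroupOf H1

/-- the homomorphism of the first factor to `A` -/
def dl1 (R H1 : Subgroup H) : Kt R H1 →* At R H1 :=
  (QuotientGroup.mk' _).comp ((K1 R H1).subgroupOf H1).subtype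

/-- the action -/
def ph1 (X : Hyp N R H1) : At R H1 →* MulAut (Kt R H1) :=
  QuotientGroup.lift _ (MulAut.conjNormal : H1 →* MulAut ((K1 R H1).subgroupOf H1)) (by
    intro u hu
    refine MulEquiv.ext fun x => ?_
    apply Subtype.ext
    apply Subtype.ext
    rw [MulAut.conjNormal_apply]
    change (u : H) * ((x : H1) : H) * (u : H)⁻¹ = ((x : H1) : H)
    have h1 : ((x : H1) : H) * (u : H) = (u : H) * ((x : H1) : H) := X.commU x.2 hu
    rw [← h1, mul_inv_cancel_right])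

/-- the factors -/
def fac (N R H1 : Subgroup H) [N.Normal] (i : (H ⧸ N) ⧸ B1t N H1) : Kt R H1 →* H :=
  ((MulAut.conj (tt N H1 i)).toMonoidHom.comp H1.subtype).comp ((K1 R H1).subgroupOf H1).subtype

lemma fac_apply (i : (H ⧸ N) ⧸ B1t N H1) (x : Kt R H1) :
    fac N R H1 i x = tt N H1 i * ((x : H1) : H) * (tt N H1 i)⁻¹ := rfl

lemma fac_comm (X : Hyp N R H1) : Pairwise fun i j : (H ⧸ N) ⧸ B1t N H1 =>
    ∀ x y, Commute (fac N R H1 i x) (fac N R H1 j y) := by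
  intro i j hij x y
  rw [fac_apply, fac_apply]
  have h1 : (tt N H1 i)⁻¹ * tt N H1 j ∉ H1 := fun h => hij (tt_inj X h)
  have h2 := X.comm x.2 (K1_conj2 h1 y.2)
  have h3 : ∀ t s a b : H, a * ((t⁻¹ * s) * b * (t⁻¹ * s)⁻¹) = ((t⁻¹ * s) * b * (t⁻¹ * s)⁻¹) * a →
      (t * a * t⁻¹) * (s * b * s⁻¹) = (s * b * s⁻¹) * (t * a * t⁻¹) := by
    intro t s a b h
    calc (t * a * t⁻¹) * (s * b * s⁻¹) = t * (a * ((t⁻¹ * s) * b * (t⁻¹ * s)⁻¹)) * t⁻¹ := by group
      _ = t * (((t⁻¹ * s) * b * (t⁻¹ * s)⁻¹) * a) * t⁻¹ := by rw [h]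
      _ = _ := by group
  exact h3 _ _ _ _ h2

/-- the product of the factors -/
def psi1 (X : Hyp N R H1) [Fintype ((H ⧸ N) ⧸ B1t N H1)] :
    ((H ⧸ N) ⧸ B1t N H1 → Kt R H1) →* H :=
  MonoidHom.noncommPiCoprod (fac N R H1) (fac_comm X)

lemma psi1_single (X : Hyp N R H1) [Fintype ((H ⧸ N) ⧸ B1t N H1)] (i : (H ⧸ N) ⧸ B1t N H1)
    (x : Kt R H1) : psi1 X (sg (B1t N H1) i x) = fac N R H1 i x :=
  MonoidHom.noncommPiCoprod_mulSingle (fac N R H1) i x

end

end Pool.Agent.Helper15.QS
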