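import Pool.Agent.Helper15.QS.Str3

/-!
# The data of the induced group
-/

open scoped Classical BigOperators IsMulCommutative
open Representation Pool.Agent.Helper884.IC Pool.Agent.Y63.AWC Pool.Agent.Helper15.AW

set_option linter.unusedSectionVars false
set_option linter.unusedVariables false
set_option linter.unusedSimpArgs false

attribute [-instance] MonoidHom.decidableMemKer

noncomputable section

namespace Pool.Agent.Helper15.QS

section

variable {H : Type} [Group H] [Fintype H] {N R H1 : Subgroup H} (X : Hyp N R H1)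
  [hN : N.Normal] [hfq : Fintype ((H ⧸ N) ⧸ B1t N H1)]

/-- the inclusion of the first factor -/
abbrev incK (R H1 : Subgroup H) : Kt R H1 →* H :=
  H1.subtype.comp ((K1 R H1).subgroupOf H1).subtype

include X in
lemma Kt_perfect : commutator (Kt R H1) = ⊤ := by
  have hinj : Function.Injective (incK R H1) :=
    H1.subtype_injective.comp ((K1 R H1).subgroupOf H1).subtype_injective
  apply Subgroup.map_injective hinj
  have h1 : (⊤ : Subgroup (Kt R H1)).map (incK R H1) = K1 R H1 := by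
    ext x
    constructor
    · rintro ⟨y, _, rfl⟩
      exact y.2
    · intro hx
      exact ⟨⟨⟨x, X.N_le (X.K1_le hx)⟩, hx⟩, trivial, rfl⟩
  rw [commutator_def, Subgroup.map_commutator, h1]
  exact KK_perfect X.S X.hR _

lemma psi1_mem (k : (H ⧸ N) ⧸ B1t N H1 → Kt R H1) : psi1 X k ∈ N := by
  have h1 : (QuotientGroup.mk' N).comp (psi1 X) = 1 := by
    refine MonoidHom.pi_ext fun i x => ?_
    change QuotientGroup.mk' N (psi1 X (sg (B1t N H1) i x)) = 1
    rw [psi1_single, fac_apply]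
    exact (QuotientGroup.eq_one_iff _).2 (hN.conj_mem _ (X.K1_le x.2) _)
  exact (QuotientGroup.eq_one_iff _).1 (congrArg (fun F => F k) h1)

/-- the coordinates of the product -/
lemma psi1_snd (k : (H ⧸ N) ⧸ B1t N H1 → Kt R H1) (i : (H ⧸ N) ⧸ B1t N H1) :
    (Phi1 X (psi1 X k)).snd i = dl1 R H1 (k i) := by
  let f : ((H ⧸ N) ⧸ B1t N H1 → Kt R H1) →* At R H1 :=
    { toFun := fun k => (Phi1 X (psi1 X k)).snd i
      map_one' := by
        rw [map_one, map_one]
        rfl
      map_mul' := by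
        intro k k'
        rw [map_mul, map_mul, Ind.mul_snd, Phi1_fst]
        have h1 : QuotientGroup.mk' N (psi1 X k') = 1 :=
          (QuotientGroup.eq_one_iff _).2 (psi1_mem X k')
        rw [h1, one_smul] }
  have h1 : f = (dl1 R H1).comp (Pi.evalMonoidHom (fun _ => Kt R H1) i) := by
    refine MonoidHom.pi_ext fun l x => ?_
    change (Phi1 X (psi1 X (sg (B1t N H1) l x))).snd i = dl1 R H1 (sg (B1t N H1) l x i)
    rw [psi1_single, Phi1_snd]
    have hm : fac N R H1 l x ∈ N := hN.conj_mem _ (X.K1_le x.2) _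
    by_cases hl : i = l
    · subst hl
      rw [sg_same]
      change _ = QuotientGroup.mk' _ (x : H1)
      congr 1
      apply Subtype.ext
      rw [co_N X hm, fac_apply]
      group
    · rw [sg_ne hl, map_one]
      refine (QuotientGroup.eq_one_iff _).2 ?_
      rw [Subgroup.mem_subgroupOf, co_N X hm, fac_apply]
      have h2 : (tt N H1 i)⁻¹ * tt N H1 l ∉ H1 := fun h => hl (tt_inj X h)
      have h3 : (tt N H1 i)⁻¹ * (tt N H1 l * ((x : H1) : H) * (tt N H1 l)⁻¹) * tt N H1 i =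
          ((tt N H1 i)⁻¹ * tt N H1 l) * ((x : H1) : H) * ((tt N H1 i)⁻¹ * tt N H1 l)⁻¹ := by
        group
      rw [h3]
      exact Subgroup.mem_sup_left (K1_conj2 h2 x.2)
  exact congrArg (fun F => F k) h1

lemma psi1_onto {n : H} (hn : n ∈ N) : ∃ k, psi1 X k = n := by
  change n ∈ (psi1 X).range
  rw [← closure_conj X.S X.hR.nn] at hn
  refine (Subgroup.closure_le _).2 ?_ hn
  rintro _ ⟨h, r, hr, rfl⟩
  -- the coset
  set i : (H ⧸ N) ⧸ B1t N H1 := ((QuotientGroup.mk' N h : H ⧸ N) : (H ⧸ N) ⧸ B1t N H1) with hi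
  have h1 : (tt N H1 i)⁻¹ * h ∈ H1 := by
    apply mem_of_map X
    rw [map_mul, map_inv, tt_spec]
    refine QuotientGroup.eq.1 ?_
    exact Quotient.out_eq _
  have h2 : ((tt N H1 i)⁻¹ * h) * r * ((tt N H1 i)⁻¹ * h)⁻¹ ∈ K1 R H1 := KK_mem h1 hr
  refine ⟨sg (B1t N H1) i ⟨⟨_, X.N_le (X.K1_le h2)⟩, h2⟩, ?_⟩
  rw [psi1_single, fac_apply]
  change tt N H1 i * (((tt N H1 i)⁻¹ * h) * r * ((tt N H1 i)⁻¹ * h)⁻¹) * (tt N H1 i)⁻¹ = _
  group

include X in
/-- the kernel of the homomorphism to `A` -/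
lemma dl1_ker {x : Kt R H1} (hx : dl1 R H1 x = 1) : ((x : H1) : H) ∈ Subgroup.center H := by
  have hxU' : (x : H1) ∈ (U2 R H1).subgroupOf H1 := (QuotientGroup.eq_one_iff _).1 hx
  have hxU : ((x : H1) : H) ∈ U2 R H1 := Subgroup.mem_subgroupOf.1 hxU'
  refine X.S.cent_of (X.K1_le x.2) fun n hn => ?_
  obtain ⟨k, hk, u, hu, rfl⟩ := X.decomp hn
  have h1 : k * ((x : H1) : H) = ((x : H1) : H) * k := X.commU hk hxU
  have h2 : ((x : H1) : H) * u = u * ((x : H1) : H) := X.comm x.2 hu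
  rw [← mul_assoc, ← h1, mul_assoc, h2, mul_assoc]

lemma Phi1_ker : (Phi1 X).ker = Subgroup.center H := by
  apply le_antisymm
  · intro h hh
    have h0 : Phi1 X h = 1 := hh
    have hhN : h ∈ N := (QuotientGroup.eq_one_iff _).1 (congrArg Ind.fst h0)
    refine X.S.cent_of hhN fun n hn => ?_
    obtain ⟨k, rfl⟩ := psi1_onto X hn
    have h1 : (MulAut.conj h).toMonoidHom.comp (psi1 X) = psi1 X := by
      refine MonoidHom.pi_ext fun i x => ?_
      change h * psi1 X (sg (B1t N H1) i x) * h⁻¹ = psi1 X (sg (B1t N H1) i x)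
      rw [psi1_single, fac_apply]
      have h2 : (Phi1 X h).snd i = 1 := by rw [h0]; rfl
      have h3' : co X h i ∈ (U2 R H1).subgroupOf H1 := (QuotientGroup.eq_one_iff _).1 h2
      have h3 : ((co X h i : H1) : H) ∈ U2 R H1 := Subgroup.mem_subgroupOf.1 h3'
      rw [co_N X hhN] at h3
      have h4 := X.commU x.2 h3
      have h5 : ∀ t a : H, a * (t⁻¹ * h * t) = (t⁻¹ * h * t) * a →
          h * (t * a * t⁻¹) * h⁻¹ = t * a * t⁻¹ := by
        intro t a h6
        calc h * (t * a * t⁻¹) * h⁻¹ = t * ((t⁻¹ * h * t) * a) * (t⁻¹ * h * t)⁻¹ * t⁻¹ := by group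
          _ = t * (a * (t⁻¹ * h * t)) * (t⁻¹ * h * t)⁻¹ * t⁻¹ := by rw [h6]
          _ = _ := by group
      exact h5 _ _ h4
    have h2 := congrArg (fun F => F k) h1
    change h * psi1 X k * h⁻¹ = psi1 X k at h2
    rwa [mul_inv_eq_iff_eq_mul] at h2
  · intro z hz
    rw [MonoidHom.mem_ker]
    have hzN := X.S.cent hz
    refine Ind.ext ((QuotientGroup.eq_one_iff _).2 hzN) (funext fun i => ?_)
    rw [Phi1_snd, Ind.one_snd]
    refine (QuotientGroup.eq_one_iff _).2 ?_
    rw [Subgroup.mem_subgroupOf, co_N X hzN]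
    have h1 := Subgroup.mem_center_iff.1 hz (tt N H1 i)⁻¹
    rw [h1, inv_mul_cancel_right]
    exact Subgroup.mem_sup_right hz

lemma dl1_onto {a : At R H1} (ha : pi1 X a = 1) : ∃ x, dl1 R H1 x = a := by
  obtain ⟨h, rfl⟩ := QuotientGroup.mk'_surjective _ a
  have h1 : (h : H) ∈ N := by
    have h2 := congrArg Subtype.val ha
    rw [pi1_mk] at h2
    exact (QuotientGroup.eq_one_iff _).1 h2
  obtain ⟨k, hk, u, hu, hku⟩ := X.decomp h1
  refine ⟨⟨⟨k, X.N_le (X.K1_le hk)⟩, hk⟩, ?_⟩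
  change QuotientGroup.mk' _ (⟨k, X.N_le (X.K1_le hk)⟩ : H1) = QuotientGroup.mk' _ h
  refine QuotientGroup.eq.2 ?_
  rw [Subgroup.mem_subgroupOf]
  change k⁻¹ * (h : H) ∈ _
  rw [hku, inv_mul_cancel_left]
  exact Subgroup.mem_sup_left hu

/-- **The data.** -/
theorem dat1 : Dat (pi1 X) (Phi1 X) (dl1 R H1) (ph1 X) (psi1 X) where
  surj := by
    intro y
    obtain ⟨h, hh⟩ := QuotientGroup.mk'_surjective N y.fst
    set z := (Phi1 X h)⁻¹ * y with hz
    have hz1 : z.fst = 1 := by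
      rw [hz, Ind.mul_fst, Ind.inv_fst, Phi1_fst, hh, inv_mul_cancel]
    have h1 : ∀ i, ∃ x, dl1 R H1 x = z.snd i := fun i =>
      dl1_onto X (MonoidHom.mem_ker.1 (Ind.snd_mem_ker hz1 i))
    choose k hk using h1
    refine ⟨h * psi1 X k, ?_⟩
    have h2 : Phi1 X (psi1 X k) = z := by
      refine Ind.ext ?_ (funext fun i => ?_)
      · rw [hz1, Phi1_fst]
        exact (QuotientGroup.eq_one_iff _).2 (psi1_mem X k)
      · rw [psi1_snd, hk]
    rw [map_mul, h2, hz, mul_inv_cancel_left]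
  central := (Phi1_ker X).le
  d1 := by
    intro a x
    obtain ⟨h, rfl⟩ := QuotientGroup.mk'_surjective _ a
    rfl
  d2 := by
    intro x y
    rfl
  perfect := Kt_perfect X
  fst := fun k => (QuotientGroup.eq_one_iff _).2 (psi1_mem X k)
  snd := psi1_snd X
  onto := fun h hh => psi1_onto X ((QuotientGroup.eq_one_iff _).1 hh)
  single := by
    intro x i hx
    have hc := dl1_ker X hx
    rw [psi1_single, psi1_single, fac_apply, fac_apply]
    rw [Subgroup.mem_center_iff.1 hc, mul_inv_cancel_right, Subgroup.mem_center_iff.1 hc,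
      mul_inv_cancel_right]
  conj := by
    intro h hh x
    rw [psi1_single, psi1_single, fac_apply, fac_apply]
    set i := i0 (B1t N H1) with hi
    have h1 : QuotientGroup.mk' N h • i = i := hh
    have h2 : ((co X h i : H1) : H) = (tt N H1 i)⁻¹ * h * tt N H1 i := by
      rw [co_coe, h1]
    have h3 : (((ph1 X ((Phi1 X h).snd i) x : Kt R H1) : H1) : H) =
        ((co X h i : H1) : H) * ((x : H1) : H) * ((co X h i : H1) : H)⁻¹ := rfl
    rw [h3, h2]
    group

end

end Pool.Agent.Helper15.QS
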