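import Pool.Agent.Helper15.QS.Class

/-!
# Sums of a linear character of a central subgroup over the lifts
-/

open scoped Classical BigOperators
open Representation Pool.Agent.Helper884.IC Pool.Agent.Y63.AWC Pool.Agent.Helper15.AW

set_option linter.unusedSectionVars false
set_option linter.unusedVariables false
set_option linter.unusedSimpArgs false

noncomputable section

namespace Pool.Agent.Helper15.QS

open Pool.Agent.Y63.KR (surfaceWord coords dg cod dg_spec cod_spec cod_pos DZ_iff)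

section

variable {Γ : Type} [Group Γ] [Fintype Γ]

/-- the character `theta` lies over the linear character `κ` -/
def Over {M : Subgroup Γ} (C : Subgroup Γ) (κ : C →* ℂˣ) (theta : M → ℂ) : Prop :=
  ∀ (x : M) (hx : (x : Γ) ∈ C), theta x = ((κ ⟨x, hx⟩ : ℂˣ) : ℂ) * theta 1

lemma ext0_of_mem {C : Subgroup Γ} (κ : C →* ℂˣ) {x : Γ} (hx : x ∈ C) :
    ext0 C κ x = ((κ ⟨x, hx⟩ : ℂˣ) : ℂ) := by
  unfold ext0
  rw [dif_pos hx]

lemma ext0_of_not_mem {C : Subgroup Γ} (κ : C →* ℂˣ) {x : Γ} (hx : x ∉ C) : ext0 C κ x = 0 := by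
  unfold ext0
  rw [dif_neg hx]

/-- the coefficient of a character -/
theorem coeff_val {M : Subgroup Γ} (C : Subgroup Γ) (hC : C ≤ Subgroup.center Γ) (hCM : C ≤ M)
    (κ : C →* ℂˣ) {theta : M → ℂ} (ht : IsIrrChar theta) :
    B (fun x : M => ext0 C κ (x : Γ)) theta =
      if Over C κ theta then (Nat.card C : ℂ) * theta 1 / (Nat.card M : ℂ) else 0 := by
  unfold B
  have h1 : ∑ x : M, ext0 C κ (x : Γ) * theta x⁻¹ =
      ∑ c : C, ((κ c : ℂˣ) : ℂ) * theta (⟨c, hCM c.2⟩ : M)⁻¹ := by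
    have h2 : ∀ x : M, x ∉ (Finset.univ.filter fun x : M => (x : Γ) ∈ C) →
        ext0 C κ (x : Γ) * theta x⁻¹ = 0 := by
      intro x hx
      have h3 : (x : Γ) ∉ C := fun h => hx (Finset.mem_filter.2 ⟨Finset.mem_univ _, h⟩)
      rw [ext0_of_not_mem κ h3, zero_mul]
    rw [← Finset.sum_subset (Finset.subset_univ (Finset.univ.filter fun x : M => (x : Γ) ∈ C))
      (fun x _ hx => h2 x hx)]
    symm
    refine Finset.sum_bij (fun c _ => (⟨c, hCM c.2⟩ : M)) ?_ ?_ ?_ ?_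
    · intro c _
      exact Finset.mem_filter.2 ⟨Finset.mem_univ _, c.2⟩
    · intro c _ c' _ h
      exact Subtype.ext (congrArg (fun x : M => (x : Γ)) h)
    · intro x hx
      exact ⟨⟨x, (Finset.mem_filter.1 hx).2⟩, Finset.mem_univ _, rfl⟩
    · intro c _
      rw [ext0_of_mem κ c.2]
  rw [h1]
  by_cases h : Over C κ theta
  · rw [if_pos h]
    have h2 : ∀ c : C, ((κ c : ℂˣ) : ℂ) * theta (⟨c, hCM c.2⟩ : M)⁻¹ = theta 1 := by
      intro c
      have h3 := h (⟨c, hCM c.2⟩ : M)⁻¹ (inv_mem c.2)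
      rw [h3]
      have h4 : (⟨(((⟨c, hCM c.2⟩ : M)⁻¹ : M) : Γ), inv_mem c.2⟩ : C) = c⁻¹ := rfl
      rw [h4, map_inv, ← mul_assoc, Units.mul_inv, one_mul]
    rw [Finset.sum_congr rfl fun c _ => h2 c, Finset.sum_const, Finset.card_univ, nsmul_eq_mul,
      ← Nat.card_eq_fintype_card]
    ring
  · rw [if_neg h]
    obtain ⟨V, _, _, _, rho, hr, rfl⟩ := ht
    unfold Over at h
    push Not at h
    obtain ⟨x0, hx0, hne⟩ := h
    obtain ⟨w, hw⟩ := scalar_of_comm rho hr (rho x0) (by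
      intro m
      rw [← map_mul, ← map_mul]
      congr 1
      exact Subtype.ext (Subgroup.mem_center_iff.1 (hC hx0) m).symm)
    have hw0 : rho x0⁻¹ * (w • (1 : Module.End ℂ V)) = 1 := by
      rw [← hw, ← map_mul, inv_mul_cancel, map_one]
    have hnt := irr_nontrivial rho hr
    have hwne : w ≠ 0 := by
      rintro rfl
      rw [zero_smul, mul_zero] at hw0
      exact zero_ne_one hw0
    have hw1 : rho x0⁻¹ = w⁻¹ • (1 : Module.End ℂ V) := by
      rw [mul_smul_comm, mul_one] at hw0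
      rw [← hw0, smul_smul, inv_mul_cancel₀ hwne, one_smul]
    have hth : rho.character x0 = w * rho.character 1 := by
      change LinearMap.trace ℂ V (rho x0) = w * LinearMap.trace ℂ V (rho 1)
      have e1 : rho 1 = 1 := map_one rho
      rw [hw, e1, map_smul, smul_eq_mul]
    have hκ : ((κ ⟨x0, hx0⟩ : ℂˣ) : ℂ) ≠ w := by
      intro h
      apply hne
      rw [hth, h]
    set S := ∑ c : C, ((κ c : ℂˣ) : ℂ) * rho.character (⟨c, hCM c.2⟩ : M)⁻¹ with hS
    have h2 : S = ((κ ⟨x0, hx0⟩ : ℂˣ) : ℂ) * w⁻¹ * S := by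
      conv_lhs => rw [hS, ← Equiv.sum_comp (Equiv.mulRight (⟨x0, hx0⟩ : C))]
      rw [hS, Finset.mul_sum]
      refine Finset.sum_congr rfl fun c _ => ?_
      rw [Equiv.coe_mulRight, map_mul, Units.val_mul]
      have h3 : rho.character (⟨((c * ⟨x0, hx0⟩ : C) : Γ), hCM (c * ⟨x0, hx0⟩ : C).2⟩ : M)⁻¹ =
          w⁻¹ * rho.character (⟨c, hCM c.2⟩ : M)⁻¹ := by
        have h4 : (⟨((c * ⟨x0, hx0⟩ : C) : Γ), hCM (c * ⟨x0, hx0⟩ : C).2⟩ : M)⁻¹ =
            x0⁻¹ * (⟨c, hCM c.2⟩ : M)⁻¹ := by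
          rw [← mul_inv_rev]
          rfl
        rw [h4]
        change LinearMap.trace ℂ V (rho (x0⁻¹ * (⟨c, hCM c.2⟩ : M)⁻¹)) = _
        rw [map_mul, hw1, smul_mul_assoc, one_mul, map_smul, smul_eq_mul]
        rfl
      rw [h3]
      ring
    have h3 : (1 - ((κ ⟨x0, hx0⟩ : ℂˣ) : ℂ) * w⁻¹) * S = 0 := by
      rw [sub_mul, one_mul, ← h2, sub_self]
    rcases mul_eq_zero.1 h3 with h4 | h4
    · exfalso
      apply hκ
      have h5 := sub_eq_zero.1 h4
      field_simp at h5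
      exact h5.symm
    · rw [h4, mul_zero]

lemma class_ext0 {M : Subgroup Γ} (C : Subgroup Γ) (hC : C ≤ Subgroup.center Γ)
    (κ : C →* ℂˣ) : IsClass (fun x : M => ext0 C κ (x : Γ)) := by
  intro x y
  exact ext0_class C hC κ (x : Γ) (y : Γ)

/-- the characters which contribute -/
def DD {M : Subgroup Γ} (C : Subgroup Γ) (κ : C →* ℂˣ) : Finset (M → ℂ) :=
  (Irr M).filter fun theta => Invariant theta ∧ Over C κ theta

lemma card_dg {M : Subgroup Γ} {theta : M → ℂ} (ht : IsIrrChar theta) :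
    theta 1 ≠ 0 ∧ (Nat.card M : ℂ) = theta 1 * (cod theta : ℂ) := by
  obtain ⟨h4, h5⟩ := dg_spec ht
  have h6 : (Nat.card M : ℂ) = (dg theta : ℂ) * (cod theta : ℂ) := by
    rw [← cod_spec ht]
    push_cast
    ring
  refine ⟨?_, ?_⟩
  · rw [h4]
    exact_mod_cast h5.ne'
  · rw [h4, h6]

lemma coeff_power {M : Subgroup Γ} (C : Subgroup Γ) {theta : M → ℂ} (ht : IsIrrChar theta)
    (n : ℕ) : (Nat.card C : ℂ) * theta 1 / (Nat.card M : ℂ) *
      (theta 1 * (((Nat.card M : ℂ) / theta 1) ^ 2) ^ (n + 1)) =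
      (Nat.card C : ℂ) * (Nat.card M : ℂ) * (cod theta : ℂ) ^ (2 * n) := by
  obtain ⟨h1, h2⟩ := card_dg ht
  have h3 : (cod theta : ℂ) ≠ 0 := by
    intro h
    rw [h, mul_zero] at h2
    exact cardG_ne h2
  have h4 : (Nat.card M : ℂ) / theta 1 = (cod theta : ℂ) := by
    rw [h2, mul_div_cancel_left₀ _ h1]
  rw [h4, h2]
  field_simp
  ring

/-- the sum over the lifts -/
theorem R_sum {M : Subgroup Γ} [M.Normal] (C : Subgroup Γ) (hC : C ≤ Subgroup.center Γ)
    (hCM : C ≤ M) (κ : C →* ℂˣ) {n : ℕ} (q : Fin (n + 1) → Γ × Γ) (hw : surfaceWord q ∈ M)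
    (hq : Subgroup.closure (coords q) ⊔ M = ⊤) :
    ∑ m : Fin (n + 1) → M × M, ext0 C κ (surfaceWord (mulT q (mapT M.subtype m))) =
      (Nat.card C : ℂ) * (Nat.card M : ℂ) *
        ∑ theta ∈ DD (M := M) C κ, zf q theta * (cod theta : ℂ) ^ (2 * n) := by
  have h1 : ∀ m : Fin (n + 1) → M × M, ext0 C κ (surfaceWord (mulT q (mapT M.subtype m))) =
      ∑ theta ∈ Irr M, B (fun x : M => ext0 C κ (x : Γ)) theta *
        theta ⟨_, word_lift_mem hw m⟩ := by
    intro m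
    have h2 := congrFun (expand (fun x : M => ext0 C κ (x : Γ)) (class_ext0 C hC κ))
      ⟨_, word_lift_mem hw m⟩
    rw [Finset.sum_apply] at h2
    exact h2
  rw [Finset.sum_congr rfl fun m _ => h1 m, Finset.sum_comm, Finset.mul_sum]
  unfold DD
  rw [Finset.sum_filter]
  refine Finset.sum_congr rfl fun theta ht => ?_
  have hirr := mem_Irr.1 ht
  obtain ⟨h3, h4, h5⟩ := zf_spec hw hq hirr
  rw [← Finset.mul_sum, h5, coeff_val C hC hCM κ hirr]
  by_cases hinv : Invariant theta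
  · by_cases ho : Over C κ theta
    · rw [if_pos ho, if_pos ⟨hinv, ho⟩]
      have h6 := coeff_power C hirr n
      calc _ = zf q theta * ((Nat.card C : ℂ) * theta 1 / (Nat.card M : ℂ) *
          (theta 1 * (((Nat.card M : ℂ) / theta 1) ^ 2) ^ (n + 1))) := by ring
        _ = _ := by rw [h6]; ring
    · rw [if_neg ho, if_neg (fun h => ho h.2), zero_mul]
  · rw [if_neg (fun h : _ ∧ _ => hinv h.1), h4 hinv, zero_mul, zero_mul, mul_zero]

end

end Pool.Agent.Helper15.QS
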