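import Pool.Agent.Helper15.QS.Sums

/-!
# Sums of a linear character of a central subgroup over the lifts to an induced extension
-/

open scoped Classical BigOperators
open Representation Pool.Agent.Helper884.IC Pool.Agent.Y63.AWC Pool.Agent.Helper15.AW

set_option linter.unusedSectionVars false
set_option linter.unusedVariables false
set_option linter.unusedSimpArgs false

attribute [-instance] MonoidHom.decidableMemKer

noncomputable section

namespace Pool.Agent.Helper15.QS

open Pool.Agent.Y63.KR (surfaceWord coords dg cod dg_spec cod_spec cod_pos DZ_iff)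

section

variable {B : Type} [Group B] [Finite B] {B1 : Subgroup B} {Γ : Type} [Group Γ] [Fintype Γ]
  {π : Γ →* B1}

/-- the product of the values of a linear character at the coordinates -/
def wt (C : Subgroup Γ) (κ : C →* ℂˣ) (x : Ind π) : ℂ :=
  haveI : Fintype (B ⧸ B1) := Fintype.ofFinite _
  ∏ i : B ⧸ B1, ext0 C κ (x.snd i)

lemma wt_eq (C : Subgroup Γ) (κ : C →* ℂˣ) [Fintype (B ⧸ B1)] (x : Ind π) :
    wt C κ x = ∏ i : B ⧸ B1, ext0 C κ (x.snd i) := by
  unfold wt
  congr
  exact Subsingleton.elim _ _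

/-- products of characters -/
def prodChar [Fintype (B ⧸ B1)] (θ : B ⧸ B1 → π.ker → ℂ) (x : (Ind.fstHom π).ker) : ℂ :=
  ∏ i : B ⧸ B1, θ i ((Ind.kerEquiv π).symm x i)

lemma prodChar_irr [Fintype (B ⧸ B1)] (θ : B ⧸ B1 → π.ker → ℂ) (h : ∀ i, IsIrrChar (θ i)) :
    IsIrrChar (prodChar θ) := irr_prod (Ind.kerEquiv π) θ h

lemma prodChar_const [Fintype (B ⧸ B1)] (θ : π.ker → ℂ) :
    prodChar (fun _ : B ⧸ B1 => θ) = powChar θ := by
  funext x
  rw [powChar_eq]
  rfl

lemma prodChar_one [Fintype (B ⧸ B1)] (θ : B ⧸ B1 → π.ker → ℂ) :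
    prodChar θ 1 = ∏ i, θ i 1 := by
  unfold prodChar
  simp only [map_one, Pi.one_apply]

lemma prodChar_single [Fintype (B ⧸ B1)] (θ : B ⧸ B1 → π.ker → ℂ) (i : B ⧸ B1)
    (v : B ⧸ B1 → π.ker) (hv : ∀ l, l ≠ i → v l = 1) :
    prodChar θ (Ind.kerEquiv π v) * θ i 1 = θ i (v i) * prodChar θ 1 := by
  rw [prodChar_one]
  unfold prodChar
  simp only [MulEquiv.symm_apply_apply]
  rw [← Finset.mul_prod_erase Finset.univ (fun l => θ l (v l)) (Finset.mem_univ i),
    ← Finset.mul_prod_erase Finset.univ (fun l => θ l 1) (Finset.mem_univ i)]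
  have h1 : ∏ l ∈ Finset.univ.erase i, θ l (v l) =
      ∏ l ∈ Finset.univ.erase i, θ l 1 := by
    refine Finset.prod_congr rfl fun l hl => ?_
    rw [hv l (Finset.ne_of_mem_erase hl)]
  rw [h1]
  ring

/-- the invariance of a product of characters -/
lemma inv_prod_aux [Fintype (B ⧸ B1)] (hπ : Function.Surjective π) (θ : B ⧸ B1 → π.ker → ℂ)
    (hθ : ∀ i, IsIrrChar (θ i)) (h : Invariant (prodChar θ)) (i j : B ⧸ B1) (γ : Γ) (k k' : π.ker)
    (hk : (k' : Γ) = γ * k * γ⁻¹) : θ j k' * θ i 1 = θ i k * θ j 1 := by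
  choose s hs using hπ
  let b : B := j.out * (π γ : B) * (i.out)⁻¹
  have hj : ((j.out : B) : B ⧸ B1) = j := Quotient.out_eq _
  have hi : ((i.out : B) : B ⧸ B1) = i := Quotient.out_eq _
  have hb : b • i = j := by
    have h1 : b • i = ((b * i.out : B) : B ⧸ B1) := by
      conv_lhs => rw [← hi]
      rfl
    rw [h1]
    have h2 : b * i.out = j.out * (π γ : B) := by
      change j.out * (π γ : B) * (i.out)⁻¹ * i.out = _
      rw [inv_mul_cancel_right]
    rw [h2, QuotientGroup.mk_mul_of_mem _ (π γ).2, hj]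
  have hkp : kp B1 b i = π γ := by
    apply Subtype.ext
    rw [kp_coe, hb]
    change (j.out)⁻¹ * (j.out * (π γ : B) * (i.out)⁻¹) * i.out = _
    group
  let x : Ind π := ⟨b, fun l => if l = i then γ else s (kp B1 b l), by
    intro l
    by_cases hl : l = i
    · rw [if_pos hl, hl, hkp]
    · rw [if_neg hl, hs]⟩
  have hxi : x.snd i = γ := if_pos rfl
  let v : B ⧸ B1 → π.ker := fun l => if l = i then k else 1
  let v' : B ⧸ B1 → π.ker := fun l => if l = j then k' else 1
  have hv : v i = k := if_pos rfl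
  have hv' : v' j = k' := if_pos rfl
  have hv1 : ∀ l, l ≠ i → v l = 1 := fun l hl => if_neg hl
  have hv1' : ∀ l, l ≠ j → v' l = 1 := fun l hl => if_neg hl
  have h1 := h x (Ind.kerEquiv π v) (Ind.kerEquiv π v') (by
    refine Ind.ext ?_ (funext fun l => ?_)
    · rw [Ind.conj_fst]
      · rfl
      · rfl
    · have hfst : ((Ind.kerEquiv π v : (Ind.fstHom π).ker) : Ind π).fst = 1 := rfl
      by_cases hl : l = j
      · subst hl
        have h2 := Ind.conj_snd x _ hfst i
        have h3 : x.fst • i = l := hb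
        rw [h3, hxi] at h2
        rw [h2, Ind.kerEquiv_snd, Ind.kerEquiv_snd, hv, hv', hk]
      · rw [Ind.conj_snd' x _ hfst, Ind.kerEquiv_snd, Ind.kerEquiv_snd,
          hv1' l hl, hv1]
        · simp
        · intro h2
          apply hl
          rw [← hb, ← h2]
          exact (smul_inv_smul _ _).symm)
  have h2 := prodChar_single θ i v hv1
  have h3 := prodChar_single θ j v' hv1'
  rw [hv] at h2
  rw [hv'] at h3
  rw [h1] at h3
  have h4 : prodChar θ 1 ≠ 0 := by
    rw [prodChar_one]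
    exact Finset.prod_ne_zero_iff.2 fun l _ => (card_dg (hθ l)).1
  apply mul_right_cancel₀ h4
  calc θ j k' * θ i 1 * prodChar θ 1 = (θ j k' * prodChar θ 1) * θ i 1 := by ring
    _ = (prodChar θ (Ind.kerEquiv π v) * θ i 1) * θ j 1 := by rw [← h3]; ring
    _ = _ := by rw [h2]; ring

lemma inv_prod_eq [Fintype (B ⧸ B1)] (hπ : Function.Surjective π) (θ : B ⧸ B1 → π.ker → ℂ)
    (hθ : ∀ i, IsIrrChar (θ i)) (h : Invariant (prodChar θ)) (i j : B ⧸ B1) : θ i = θ j := by
  by_contra hne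
  have h1 : ∀ k, θ j k * θ i 1 = θ i k * θ j 1 := fun k =>
    inv_prod_aux hπ θ hθ h i j 1 k k (by simp)
  have h2 : (θ i 1) • θ j = (θ j 1) • θ i := by
    funext k
    rw [Pi.smul_apply, Pi.smul_apply, smul_eq_mul, smul_eq_mul, mul_comm, h1, mul_comm]
  have h3 := congrArg (fun f => Pool.Agent.Helper884.IC.B f (θ j)) h2
  simp only [B_smul_left] at h3
  rw [B_irr (hθ j) (hθ j), if_pos rfl, B_irr (hθ i) (hθ j), if_neg hne, mul_one, mul_zero] at h3
  exact (card_dg (hθ i)).1 h3

lemma inv_prod_inv [Fintype (B ⧸ B1)] (hπ : Function.Surjective π) (θ : B ⧸ B1 → π.ker → ℂ)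
    (hθ : ∀ i, IsIrrChar (θ i)) (h : Invariant (prodChar θ)) (i : B ⧸ B1) :
    Invariant (θ i) := by
  intro γ k k' hk
  have h1 := inv_prod_aux hπ θ hθ h i i γ k k' hk
  exact mul_right_cancel₀ (card_dg (hθ i)).1 h1

/-- the sum over the lifts to the induced extension -/
theorem Q_sum (hπ : Function.Surjective π) (C : Subgroup Γ) (hC : C ≤ Subgroup.center Γ)
    (hCM : C ≤ π.ker) (κ : C →* ℂˣ) {n : ℕ} (q : Fin (n + 1) → Ind π × Ind π)
    (hw : surfaceWord q ∈ (Ind.fstHom π).ker)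
    (hq : Subgroup.closure (coords q) ⊔ (Ind.fstHom π).ker = ⊤) :
    ∑ m : Fin (n + 1) → (Ind.fstHom π).ker × (Ind.fstHom π).ker,
      wt C κ (surfaceWord (mulT q (mapT (Ind.fstHom π).ker.subtype m))) =
      ((Nat.card C : ℂ) * (Nat.card π.ker : ℂ)) ^ B1.index *
        ∑ theta ∈ DD (M := π.ker) C κ, zf q (powChar theta) *
          (cod theta : ℂ) ^ (2 * n * B1.index) := by
  have hfin : Fintype (B ⧸ B1) := Fintype.ofFinite _
  have hcard : Fintype.card (B ⧸ B1) = B1.index := by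
    rw [← Nat.card_eq_fintype_card]
    rfl
  set c : (π.ker → ℂ) → ℂ := fun theta =>
    Pool.Agent.Helper884.IC.B (fun x : π.ker => ext0 C κ (x : Γ)) theta with hc
  have h1 : ∀ m : Fin (n + 1) → (Ind.fstHom π).ker × (Ind.fstHom π).ker,
      wt C κ (surfaceWord (mulT q (mapT (Ind.fstHom π).ker.subtype m))) =
      ∑ f ∈ Fintype.piFinset (fun _ : B ⧸ B1 => Irr π.ker),
        (∏ i, c (f i)) * prodChar f ⟨_, word_lift_mem hw m⟩ := by
    intro m
    rw [wt_eq]
    have h2 : ∀ i : B ⧸ B1, ext0 C κ ((surfaceWord (mulT q (mapT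
        (Ind.fstHom π).ker.subtype m))).snd i) = ∑ theta ∈ Irr π.ker, c theta *
        theta ((Ind.kerEquiv π).symm ⟨_, word_lift_mem hw m⟩ i) := by
      intro i
      have h3 := congrFun (expand (fun x : π.ker => ext0 C κ (x : Γ)) (class_ext0 C hC κ))
        ((Ind.kerEquiv π).symm ⟨_, word_lift_mem hw m⟩ i)
      rw [Finset.sum_apply] at h3
      exact h3
    rw [Finset.prod_congr rfl fun i _ => h2 i, Finset.prod_univ_sum]
    refine Finset.sum_congr rfl fun f _ => ?_
    rw [Finset.prod_mul_distrib]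
    rfl
  rw [Finset.sum_congr rfl fun m _ => h1 m, Finset.sum_comm]
  have h2 : ∀ f ∈ Fintype.piFinset (fun _ : B ⧸ B1 => Irr π.ker),
      ∑ m : Fin (n + 1) → (Ind.fstHom π).ker × (Ind.fstHom π).ker,
        (∏ i, c (f i)) * prodChar f ⟨_, word_lift_mem hw m⟩ =
      (∏ i, c (f i)) * (zf q (prodChar f) * prodChar f 1 *
        (((Nat.card (Ind.fstHom π).ker : ℂ) / prodChar f 1) ^ 2) ^ (n + 1)) := by
    intro f hf
    rw [← Finset.mul_sum, (zf_spec hw hq (prodChar_irr f fun i =>
      mem_Irr.1 (Fintype.mem_piFinset.1 hf i))).2.2]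
  rw [Finset.sum_congr rfl h2, Finset.mul_sum]
  symm
  unfold DD
  refine Finset.sum_of_injOn (fun theta => fun _ : B ⧸ B1 => theta) ?_ ?_ ?_ ?_
  · intro a _ b _ hab
    exact congrFun hab ((1 : B) : B ⧸ B1)
  · intro theta ht
    rw [Finset.mem_coe, Fintype.mem_piFinset]
    intro _
    exact (Finset.mem_filter.1 ht).1
  · intro f hf hnot
    have hirr : ∀ i, IsIrrChar (f i) := fun i => mem_Irr.1 (Fintype.mem_piFinset.1 hf i)
    by_cases hinv : Invariant (prodChar f)
    · have h3 := inv_prod_eq hπ f hirr hinv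
      have h4 := inv_prod_inv hπ f hirr hinv ((1 : B) : B ⧸ B1)
      have h5 : ¬ Over C κ (f ((1 : B) : B ⧸ B1)) := by
        intro ho
        apply hnot
        refine ⟨f ((1 : B) : B ⧸ B1), ?_, ?_⟩
        · rw [Finset.mem_coe, Finset.mem_filter]
          exact ⟨Fintype.mem_piFinset.1 hf _, h4, ho⟩
        · funext i
          exact h3 _ _
      have h6 : ∏ i, c (f i) = 0 := by
        refine Finset.prod_eq_zero (Finset.mem_univ ((1 : B) : B ⧸ B1)) ?_
        rw [hc]
        change Pool.Agent.Helper884.IC.B _ _ = 0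
        rw [coeff_val C hC hCM κ (hirr _), if_neg h5]
      rw [h6, zero_mul]
    · rw [(zf_spec hw hq (prodChar_irr f hirr)).2.1 hinv]
      simp
  · intro theta ht
    obtain ⟨ht1, ht2, ht3⟩ := Finset.mem_filter.1 ht
    have hirr := mem_Irr.1 ht1
    have h3 := coeff_power C hirr n
    have h4 : c theta = (Nat.card C : ℂ) * theta 1 / (Nat.card π.ker : ℂ) := by
      rw [hc]
      change Pool.Agent.Helper884.IC.B _ _ = _
      rw [coeff_val C hC hCM κ hirr, if_pos ht3]
    rw [prodChar_const]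
    have h5 : powChar (B1 := B1) theta 1 = theta 1 ^ B1.index := by
      rw [← prodChar_const, prodChar_one, Finset.prod_const, Finset.card_univ, hcard]
    have h6 : (Nat.card (Ind.fstHom π).ker : ℂ) = (Nat.card π.ker : ℂ) ^ B1.index := by
      rw [← Nat.card_congr (Ind.kerEquiv π).toEquiv, Nat.card_fun]
      push_cast
      rfl
    rw [Finset.prod_const, Finset.card_univ, hcard, h5, h6]
    have h7 : (Nat.card C : ℂ) * (Nat.card π.ker : ℂ) * (cod theta : ℂ) ^ (2 * n) =
        c theta * (theta 1 * (((Nat.card π.ker : ℂ) / theta 1) ^ 2) ^ (n + 1)) := by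
      rw [h4, h3]
    have h8 : ((Nat.card C : ℂ) * (Nat.card π.ker : ℂ)) ^ B1.index * (zf q (powChar theta) *
        (cod theta : ℂ) ^ (2 * n * B1.index)) = zf q (powChar theta) *
        ((Nat.card C : ℂ) * (Nat.card π.ker : ℂ) * (cod theta : ℂ) ^ (2 * n)) ^ B1.index := by
      rw [mul_pow _ ((cod theta : ℂ) ^ (2 * n)), ← pow_mul]
      ring
    rw [h8, h7, mul_pow, mul_pow, ← div_pow, ← pow_mul, ← pow_mul, ← pow_mul, ← pow_mul]
    have h9 : B1.index * 2 * (n + 1) = 2 * (n + 1) * B1.index := by ring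
    have h10 : 2 * ((n + 1) * B1.index) = 2 * (n + 1) * B1.index := by ring
    ring_nf

end

end Pool.Agent.Helper15.QS
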