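import Pool.Agent.Helper15.QS.Cp

/-!
# The tensor induced representation
-/

open scoped Classical BigOperators
open Representation Pool.Agent.Helper884.IC Pool.Agent.Y63.AWC Pool.Agent.Helper15.AW

set_option linter.unusedSectionVars false
set_option linter.unusedVariables false
set_option linter.unusedSimpArgs false

noncomputable section

namespace Pool.Agent.Helper15.QS

open Pool.Agent.Y63.KR (surfaceWord coords dg cod dg_spec cod_spec cod_pos DZ_iff)

section tp

variable {B : Type} [Group B] {X : Type} [Fintype X] [DecidableEq X] [MulAction B X] {n : ℕ}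

/-- the tensor product of matrices composed with a permutation of the factors -/
def tp (b : B) (T : X → Matrix (Fin n) (Fin n) ℂ) : Matrix (X → Fin n) (X → Fin n) ℂ :=
  fun a c => ∏ i, T i (a (b • i)) (c i)

lemma tp_mul (b c : B) (T U : X → Matrix (Fin n) (Fin n) ℂ) :
    tp b T * tp c U = tp (b * c) fun i => T (c • i) * U i := by
  ext a d
  rw [Matrix.mul_apply]
  unfold tp
  simp only [Matrix.mul_apply]
  rw [Fintype.prod_sum]
  have h1 : ∀ e : X → Fin n, (∏ i, T i (a (b • i)) (e i)) * ∏ i, U i (e (c • i)) (d i) =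
      ∏ i, T (c • i) (a ((b * c) • i)) (e (c • i)) * U i (e (c • i)) (d i) := by
    intro e
    rw [Finset.prod_mul_distrib]
    congr 1
    rw [← (MulAction.toPerm c : Equiv.Perm X).prod_comp Finset.univ _ (by simp)]
    refine Finset.prod_congr rfl fun i _ => ?_
    rw [MulAction.toPerm_apply, mul_smul]
  rw [Finset.sum_congr rfl fun e _ => h1 e]
  let E : (X → Fin n) ≃ (X → Fin n) := (MulAction.toPerm c⁻¹ : Equiv.Perm X).arrowCongr (Equiv.refl _)
  rw [← E.symm.sum_comp]
  refine Finset.sum_congr rfl fun e _ => ?_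
  refine Finset.prod_congr rfl fun i _ => ?_
  have h2 : E.symm e (c • i) = e i := by
    change e ((MulAction.toPerm c⁻¹ : Equiv.Perm X) (c • i)) = e i
    rw [MulAction.toPerm_apply, inv_smul_smul]
  rw [h2]

lemma tp_one : tp (1 : B) (fun _ : X => (1 : Matrix (Fin n) (Fin n) ℂ)) = 1 := by
  ext a b
  unfold tp
  by_cases h : a = b
  · subst h
    rw [Matrix.one_apply_eq]
    refine Finset.prod_eq_one fun i _ => ?_
    rw [one_smul]
    exact Matrix.one_apply_eq _
  · rw [Matrix.one_apply_ne h]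
    obtain ⟨i, hi⟩ := Function.ne_iff.1 h
    refine Finset.prod_eq_zero (Finset.mem_univ i) ?_
    rw [one_smul]
    exact Matrix.one_apply_ne hi

lemma trace_tp (T : X → Matrix (Fin n) (Fin n) ℂ) :
    (tp (1 : B) T).trace = ∏ i, (T i).trace := by
  unfold Matrix.trace tp
  simp only [Matrix.diag_apply, one_smul]
  rw [Fintype.prod_sum]
  try rfl

lemma tp_smul (b : B) (z : X → ℂ) (T : X → Matrix (Fin n) (Fin n) ℂ) :
    tp b (fun i => z i • T i) = (∏ i, z i) • tp b T := by
  ext a c
  have h1 : ((∏ i, z i) • tp b T) a c = (∏ i, z i) * ∏ i, T i (a (b • i)) (c i) := rfl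
  rw [h1, ← Finset.prod_mul_distrib]
  rfl

end tp

section

variable {G : Type} [Group G] [Fintype G] {M : Subgroup G} [M.Normal]
  {V : Type} [AddCommGroup V] [Module ℂ V] [FiniteDimensional ℂ V]

/-- the construction of the central extension, with the embedding -/
theorem exists_ext3 {p : ℕ} [hp : Fact p.Prime] (rho : Representation ℂ M V)
    (hr : rho.IsIrreducible) (hsurj : Function.Surjective (fstH rho)) (t : Khat rho →* ℂˣ) (m : ℕ)
    (hm : ¬ p ∣ m) (ht1 : ∀ x : M, t (jhat rho x) = 1) (ht2 : ∀ z : ℂˣ, t (scal rho z) = z ^ m) :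
    ∃ (E : Type) (_ : Group E) (_ : Fintype E) (j : E →* Ehat rho)
      (kap : ((pihat rho).comp j).ker →* ℂˣ),
      Function.Surjective ((pihat rho).comp j) ∧
      ((pihat rho).comp j).ker ≤ Subgroup.center E ∧ ¬ p ∣ Nat.card ((pihat rho).comp j).ker ∧
      Function.Injective kap ∧ ∀ x, iota rho (kap x) = (j x)⁻¹ := by
  have hm0 : 0 < m := Nat.pos_of_ne_zero (by rintro rfl; exact hm (dvd_zero _))
  let tb : Ehat rho →* ℂˣ := QuotientGroup.lift (jhat rho).range t (by
    rintro _ ⟨x, rfl⟩
    exact ht1 x)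
  have htb : ∀ z, tb (iota rho z) = z ^ m := ht2
  let pi : tb.ker →* G ⧸ M := (pihat rho).comp tb.ker.subtype
  have hker : ∀ x : pi.ker, ∃ z : ℂˣ, iota rho z = ((x : tb.ker) : Ehat rho) := by
    intro x
    exact pihat_ker rho hr _ x.2
  -- the projection is surjective
  have hpi : Function.Surjective pi := by
    intro y
    obtain ⟨y, rfl⟩ := QuotientGroup.mk'_surjective M y
    obtain ⟨x, hx⟩ := hsurj y
    obtain ⟨z, hz⟩ := IsAlgClosed.exists_pow_nat_eq (((tb ((QuotientGroup.mk'
      (jhat rho).range) x))⁻¹ : ℂˣ) : ℂ) hm0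
    have hz0 : z ≠ 0 := by
      rintro rfl
      rw [zero_pow hm0.ne'] at hz
      exact (Units.ne_zero _) hz.symm
    refine ⟨⟨(QuotientGroup.mk' (jhat rho).range) x * iota rho (Units.mk0 z hz0), ?_⟩, ?_⟩
    · rw [MonoidHom.mem_ker, map_mul, htb]
      apply Units.ext
      rw [Units.val_mul, Units.val_pow_eq_pow_val, Units.val_mk0, hz, Units.val_one,
        Units.mul_inv]
    · change pihat rho ((QuotientGroup.mk' (jhat rho).range) x * iota rho (Units.mk0 z hz0)) = _
      rw [map_mul, pihat_iota, mul_one, pihat_mk, hx]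
  -- the character of the kernel
  let e : ℂˣ ≃* (iota rho).range := MonoidHom.ofInjective (iota_inj rho hr)
  let j : pi.ker →* (iota rho).range :=
    (tb.ker.subtype.comp pi.ker.subtype).codRestrict (iota rho).range hker
  let kap0 : pi.ker →* ℂˣ := e.symm.toMonoidHom.comp j
  have hk0 : ∀ x : pi.ker, iota rho (kap0 x) = ((x : tb.ker) : Ehat rho) := by
    intro x
    have h1 : e (kap0 x) = j x := e.apply_symm_apply _
    exact congrArg Subtype.val h1
  have hinj0 : Function.Injective kap0 := by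
    intro x y h
    apply Subtype.ext
    apply Subtype.ext
    rw [← hk0, ← hk0, h]
  have hpow : ∀ x : pi.ker, kap0 x ^ m = 1 := by
    intro x
    rw [← htb, hk0]
    exact (x : tb.ker).2
  have hfin1 : Finite pi.ker := by
    have h1 : ∀ x : pi.ker, kap0 x ∈ rootsOfUnity m ℂ := fun x => hpow x
    have : NeZero m := ⟨hm0.ne'⟩
    exact Finite.of_injective (fun x : pi.ker => (⟨kap0 x, h1 x⟩ : rootsOfUnity m ℂ))
      (fun x y h => hinj0 (congrArg Subtype.val h))
  have hfin2 : Finite (tb.ker ⧸ pi.ker) :=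
    Finite.of_equiv _ (QuotientGroup.quotientKerEquivOfSurjective pi hpi).symm.toEquiv
  have hfin : Finite tb.ker := by
    exact Finite.of_equiv _ (Subgroup.groupEquivQuotientProdSubgroup (s := pi.ker)).symm
  refine ⟨tb.ker, inferInstance, Fintype.ofFinite _, tb.ker.subtype, kap0⁻¹, hpi, ?_, ?_, ?_, ?_⟩
  · intro x hx
    rw [Subgroup.mem_center_iff]
    intro y
    apply Subtype.ext
    obtain ⟨z, hz⟩ := hker ⟨x, hx⟩
    have hz' : iota rho z = (x : Ehat rho) := hz
    rw [Subgroup.coe_mul, Subgroup.coe_mul, ← hz', iota_central]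
  · intro h
    obtain ⟨x, hx⟩ := exists_prime_orderOf_dvd_card' p h
    have h1 : kap0 x ^ p = 1 := by rw [← map_pow, ← hx, pow_orderOf_eq_one, map_one]
    have h2 : orderOf (kap0 x) ∣ 1 := by
      have h3 := orderOf_dvd_of_pow_eq_one h1
      have h4 := orderOf_dvd_of_pow_eq_one (hpow x)
      have h5 : Nat.Coprime p m := (Nat.Prime.coprime_iff_not_dvd hp.out).2 hm
      rw [← h5.gcd_eq_one]
      exact Nat.dvd_gcd h3 h4
    have h3 : kap0 x = 1 := orderOf_eq_one_iff.1 (Nat.dvd_one.1 h2)
    have h4 : x = 1 := hinj0 (by rw [h3, map_one])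
    rw [h4, orderOf_one] at hx
    exact hp.out.one_lt.ne hx
  · intro x y h
    apply hinj0
    rw [MonoidHom.inv_apply, MonoidHom.inv_apply, inv_inj] at h
    exact h
  · intro x
    rw [MonoidHom.inv_apply, map_inv, hk0]
    rfl

end

section

variable {B : Type} [Group B] [Finite B] {B1 : Subgroup B} {Γ : Type} [Group Γ] [Fintype Γ]
  {π : Γ →* B1} {V : Type} [AddCommGroup V] [Module ℂ V] [FiniteDimensional ℂ V]

/-- the power of a character of the kernel -/
def powChar (θ : π.ker → ℂ) (x : (Ind.fstHom π).ker) : ℂ :=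
  haveI : Fintype (B ⧸ B1) := Fintype.ofFinite _
  ∏ i : B ⧸ B1, θ ((Ind.kerEquiv π).symm x i)

lemma powChar_eq (θ : π.ker → ℂ) [Fintype (B ⧸ B1)] (x : (Ind.fstHom π).ker) :
    powChar θ x = ∏ i : B ⧸ B1, θ ((Ind.kerEquiv π).symm x i) := by
  unfold powChar
  congr
  exact Subsingleton.elim _ _

/-- the matrices of the representation -/
def matV (V : Type) [AddCommGroup V] [Module ℂ V] [FiniteDimensional ℂ V] :
    Module.End ℂ V ≃ₐ[ℂ] Matrix (Fin (Module.finrank ℂ V)) (Fin (Module.finrank ℂ V)) ℂ :=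
  LinearMap.toMatrixAlgEquiv (Module.finBasis ℂ V)

/-- the power of a representation of the kernel -/
def powMat [Fintype (B ⧸ B1)] (rho : Representation ℂ π.ker V) : (Ind.fstHom π).ker →*
    Matrix (B ⧸ B1 → Fin (Module.finrank ℂ V)) (B ⧸ B1 → Fin (Module.finrank ℂ V)) ℂ where
  toFun x := tp (1 : B) fun i => matV V (rho ((Ind.kerEquiv π).symm x i))
  map_one' := by
    simp only [map_one, Pi.one_apply]
    exact tp_one
  map_mul' x y := by
    rw [tp_mul, mul_one]
    simp only [map_mul, Pi.mul_apply, one_smul]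

lemma powMat_apply [Fintype (B ⧸ B1)] (rho : Representation ℂ π.ker V)
    (x : (Ind.fstHom π).ker) : powMat rho x =
      tp (1 : B) fun i => matV V (rho ((Ind.kerEquiv π).symm x i)) := rfl

lemma powMat_char [Fintype (B ⧸ B1)] (rho : Representation ℂ π.ker V) :
    (mrep (powMat rho)).character = powChar rho.character := by
  funext x
  rw [mrep_char, powMat_apply, trace_tp, powChar_eq]
  refine Finset.prod_congr rfl fun i _ => ?_
  exact (LinearMap.trace_eq_matrix_trace ℂ (Module.finBasis ℂ V) _).symm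

lemma powMat_irr [Fintype (B ⧸ B1)] (rho : Representation ℂ π.ker V) (hr : rho.IsIrreducible) :
    (mrep (powMat rho)).IsIrreducible := by
  refine irr_of_norm _ ?_
  have h1 : IsIrrChar fun x : (Ind.fstHom π).ker =>
      ∏ i : B ⧸ B1, rho.character ((Ind.kerEquiv π).symm x i) :=
    irr_prod (Ind.kerEquiv π) (fun _ => rho.character) (fun _ => ⟨V, _, _, ‹_›, rho, hr, rfl⟩)
  have h2 : (mrep (powMat rho)).character = fun x : (Ind.fstHom π).ker =>
      ∏ i : B ⧸ B1, rho.character ((Ind.kerEquiv π).symm x i) := by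
    rw [powMat_char]
    funext x
    rw [powChar_eq]
  rw [h2]
  exact Pool.Agent.Y63.KR.sum_char_inv h1

end

end Pool.Agent.Helper15.QS
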