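import Pool.Agent.Helper15.QS.Tens

/-!
# The sums over the lifts, for the power of a character
-/

open scoped Classical BigOperators
open Representation Pool.Agent.Helper884.IC Pool.Agent.Y63.AWC Pool.Agent.Helper15.AW

set_option linter.unusedSectionVars false
set_option linter.unusedVariables false
set_option linter.unusedSimpArgs false

noncomputable section

namespace Pool.Agent.Helper15.QS

open Pool.Agent.Y63.KR (surfaceWord coords dg cod dg_spec cod_spec cod_pos DZ_iff)

section

variable {B : Type} [Group B] [Finite B] {B1 : Subgroup B} {Γ : Type} [Group Γ] [Fintype Γ]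
  {π : Γ →* B1} {V : Type} [AddCommGroup V] [Module ℂ V] [FiniteDimensional ℂ V]
  [Fintype (B ⧸ B1)]

/-- the projection of the group of pairs -/
abbrev pik (rho : Representation ℂ π.ker V) : Khat rho →* B1 := π.comp (fstH rho)

/-- the tensor induced operators -/
def taum (rho : Representation ℂ π.ker V) : Ind (pik rho) →*
    Matrix (B ⧸ B1 → Fin (Module.finrank ℂ V)) (B ⧸ B1 → Fin (Module.finrank ℂ V)) ℂ where
  toFun u := tp u.fst fun i => matV V ((sndH rho (u.snd i) : (Module.End ℂ V)ˣ) : Module.End ℂ V)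
  map_one' := by
    simp only [Ind.one_fst, Ind.one_snd, map_one, Units.val_one]
    exact tp_one
  map_mul' u v := by
    rw [tp_mul]
    simp only [Ind.mul_fst, Ind.mul_snd, map_mul, Units.val_mul]

lemma taum_apply (rho : Representation ℂ π.ker V) (u : Ind (pik rho)) : taum rho u =
    tp u.fst fun i => matV V ((sndH rho (u.snd i) : (Module.End ℂ V)ˣ) : Module.End ℂ V) := rfl

/-- the operators as endomorphisms -/
def tau (rho : Representation ℂ π.ker V) : Ind (pik rho) →*
    Module.End ℂ ((B ⧸ B1 → Fin (Module.finrank ℂ V)) → ℂ) :=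
  (Matrix.toLinAlgEquiv' : Matrix _ _ ℂ ≃ₐ[ℂ] _).toAlgHom.toRingHom.toMonoidHom.comp (taum rho)

lemma tau_apply (rho : Representation ℂ π.ker V) (u : Ind (pik rho)) :
    tau rho u = Matrix.toLinAlgEquiv' (taum rho u) := rfl

lemma mrep_apply {P : Type} [Group P] {m : Type} [Fintype m] [DecidableEq m]
    (R : P →* Matrix m m ℂ) (x : P) : mrep R x = Matrix.toLinAlgEquiv' (R x) := rfl

/-- the projection to the induced group -/
abbrev down (rho : Representation ℂ π.ker V) : Ind (pik rho) →* Ind π :=
  Ind.map (fstH rho) (fun _ => rfl)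

lemma taum_rel (rho : Representation ℂ π.ker V) (u : Ind (pik rho)) (m : (Ind.fstHom π).ker) :
    taum rho u * powMat rho m = powMat rho (MulAut.conjNormal (down rho u) m) * taum rho u := by
  rw [taum_apply, powMat_apply, powMat_apply, tp_mul, tp_mul, mul_one, one_mul]
  congr 1
  funext i
  rw [one_smul, ← map_mul, ← map_mul]
  congr 1
  have h1 := (u.snd i).2 ((Ind.kerEquiv π).symm m i)
  refine Eq.trans h1 ?_
  congr 3
  apply Subtype.ext
  rw [MulAut.conjNormal_apply]
  have h2 : ((((Ind.kerEquiv π).symm (MulAut.conjNormal (down rho u) m)) (u.fst • i) : π.ker) : Γ) =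
      (down rho u * (m : Ind π) * (down rho u)⁻¹).snd ((down rho u).fst • i) := rfl
  rw [h2, Ind.conj_snd _ _ m.2]
  rfl

/-- the homomorphism to the group of pairs of the power -/
def Tt (rho : Representation ℂ π.ker V) : Ind (pik rho) →* Khat (mrep (powMat rho)) where
  toFun u := ⟨(down rho u, (tau rho).toHomUnits u), by
    intro m
    change tau rho u * mrep (powMat rho) m = _ * tau rho u
    rw [tau_apply, mrep_apply, mrep_apply, ← map_mul, ← map_mul, taum_rel]⟩
  map_one' := by
    apply Subtype.ext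
    refine Prod.ext ?_ ?_
    · exact map_one (down rho)
    · exact map_one (tau rho).toHomUnits
  map_mul' u v := by
    apply Subtype.ext
    refine Prod.ext ?_ ?_
    · exact map_mul (down rho) u v
    · exact map_mul (tau rho).toHomUnits u v

lemma Tt_fst (rho : Representation ℂ π.ker V) (u : Ind (pik rho)) :
    fstH (mrep (powMat rho)) (Tt rho u) = down rho u := rfl

lemma Tt_snd (rho : Representation ℂ π.ker V) (u : Ind (pik rho)) :
    ((sndH (mrep (powMat rho)) (Tt rho u) : (Module.End ℂ _)ˣ) : Module.End ℂ _) =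
      tau rho u := rfl

/-- the projection of the quotient `Ehat` -/
def pF (hπ : Function.Surjective π) (rho : Representation ℂ π.ker V) : Ehat rho →* B1 :=
  (QuotientGroup.quotientKerEquivOfSurjective π hπ).toMonoidHom.comp (pihat rho)

lemma pF_mk (hπ : Function.Surjective π) (rho : Representation ℂ π.ker V) (x : Khat rho) :
    pF hπ rho (QuotientGroup.mk' _ x) = pik rho x := rfl

lemma pF_eq_one (hπ : Function.Surjective π) (rho : Representation ℂ π.ker V) (x : Ehat rho) :
    pF hπ rho x = 1 ↔ pihat rho x = 1 := by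
  unfold pF
  rw [MonoidHom.comp_apply]
  exact map_eq_one_iff _ (MulEquiv.injective _)

lemma pF_iota (hπ : Function.Surjective π) (rho : Representation ℂ π.ker V) (z : ℂˣ) :
    pF hπ rho (iota rho z) = 1 := by
  rw [pF_eq_one, pihat_iota]

/-- the value of the scalars -/
def delta (hπ : Function.Surjective π) (rho : Representation ℂ π.ker V)
    (hr : rho.IsIrreducible) : (pF hπ rho).ker →* ℂˣ :=
  (MonoidHom.ofInjective (iota_inj rho hr)).symm.toMonoidHom.comp
    ((pF hπ rho).ker.subtype.codRestrict (iota rho).range (fun x =>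
      pihat_ker rho hr _ ((pF_eq_one hπ rho _).1 x.2)))

lemma iota_delta (hπ : Function.Surjective π) (rho : Representation ℂ π.ker V)
    (hr : rho.IsIrreducible) (x : (pF hπ rho).ker) : iota rho (delta hπ rho hr x) = x := by
  have h1 := (MonoidHom.ofInjective (iota_inj rho hr)).apply_symm_apply
    ((pF hπ rho).ker.subtype.codRestrict (iota rho).range (fun x =>
      pihat_ker rho hr _ ((pF_eq_one hπ rho _).1 x.2)) x)
  exact congrArg Subtype.val h1

lemma pF_central (hπ : Function.Surjective π) (rho : Representation ℂ π.ker V)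
    (hr : rho.IsIrreducible) : (pF hπ rho).ker ≤ Subgroup.center (Ehat rho) := by
  intro x hx
  rw [Subgroup.mem_center_iff]
  intro y
  have h1 : iota rho (delta hπ rho hr ⟨x, hx⟩) = x := iota_delta hπ rho hr ⟨x, hx⟩
  rw [← h1, iota_central]

/-- the sum over the lifts -/
theorem pow_sum (hπ : Function.Surjective π) (rho : Representation ℂ π.ker V)
    (hr : rho.IsIrreducible) (hsurj : Function.Surjective (fstH rho)) {g : ℕ}
    (q : Fin g → Ind π × Ind π) (hw : surfaceWord q ∈ (Ind.fstHom π).ker)
    (e : Fin g → Ind (pF hπ rho) × Ind (pF hπ rho))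
    (h : mapT (Ind.fstHom (pF hπ rho)) e = mapT (Ind.fstHom π) q)
    (hwe : surfaceWord e ∈ (Ind.fstHom (pF hπ rho)).ker) :
    zf q (powChar rho.character) =
      ((dprod (pF hπ rho) (delta hπ rho hr) ⟨_, hwe⟩ : ℂˣ) : ℂ)⁻¹ := by
  choose P hP using hsurj
  -- the lift to the pairs
  let lift : Ind π → Ind (pik rho) := fun x => ⟨x.fst, fun i => P (x.snd i), fun i => by
    change π (fstH rho (P (x.snd i))) = _
    rw [hP, x.prop]⟩
  have hlift : ∀ x, down rho (lift x) = x := by
    intro x
    exact Ind.ext rfl (funext fun i => hP _)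
  let u := mapT lift q
  have hu : mapT (down rho) u = q := by
    funext i
    simp only [u, mapT, hlift]
  have hwu : surfaceWord (mapT (fstH (mrep (powMat rho))) (mapT (Tt rho) u)) ∈
      (Ind.fstHom π).ker := by
    have : mapT (fstH (mrep (powMat rho))) (mapT (Tt rho) u) = q := hu
    rw [this]
    exact hw
  obtain ⟨c, hc0, hc1, hc2⟩ := sum_lifts (mrep (powMat rho)) (powMat_irr rho hr)
    (mapT (Tt rho) u) hwu
  have hq' : mapT (fstH (mrep (powMat rho))) (mapT (Tt rho) u) = q := hu
  have hirr : IsIrrChar (powChar rho.character) :=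
    ⟨_, _, _, inferInstance, mrep (powMat rho), powMat_irr rho hr, (powMat_char rho).symm⟩
  -- the normalized sum is `c⁻¹`
  have h1 : zf q (powChar rho.character) = c⁻¹ := by
    refine zf_eq hw hirr _ (Eq.trans ?_ (Eq.trans (congrArg (LinearMap.trace ℂ _) hc2) ?_))
    · rw [map_sum]
      refine Finset.sum_congr rfl fun m _ => ?_
      rw [hq', trace_rho0 _ (word_lift_mem hw m), powMat_char]
    · rw [map_smul, LinearMap.trace_one, smul_eq_mul, ← (mrep (powMat rho)).char_one, powMat_char]
      ring
  rw [h1]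
  congr 1
  -- the word in the pairs
  set w : Ind (pik rho) := surfaceWord u with hwdef
  have hdw : down rho w = surfaceWord q := by rw [hwdef, ← word_mapT, hu]
  have hw1 : w.fst = 1 := by
    have h2 : (down rho w).fst = 1 := by rw [hdw]; exact hw
    exact h2
  have hw2 : ∀ i, fstH rho (w.snd i) = (surfaceWord q).snd i := fun i =>
    congrFun (congrArg Ind.snd hdw) i
  have hz : ∀ i, ∃ z : ℂˣ, w.snd i =
      jhat rho ((Ind.kerEquiv π).symm ⟨_, hw⟩ i) * scal rho z := by
    intro i
    refine khat_of_mem rho hr (w.snd i) ((Ind.kerEquiv π).symm ⟨_, hw⟩ i) ?_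
    exact hw2 i
  choose z hz using hz
  have h3 : tau rho w = (∏ i, (z i : ℂ)) • mrep (powMat rho) ⟨_, hw⟩ := by
    rw [tau_apply, mrep_apply, ← map_smul, taum_apply, powMat_apply, hw1, ← tp_smul]
    congr 2
    funext i
    rw [← map_smul]
    congr 1
    rw [hz i, map_mul, Units.val_mul, scal_snd, jhat_snd, mul_smul_comm, mul_one]
  have h4 : ((surfaceWord (mapT (sndH (mrep (powMat rho))) (mapT (Tt rho) u)) :
      (Module.End ℂ _)ˣ) : Module.End ℂ _) = tau rho w := by
    rw [word_mapT, word_mapT, Tt_snd]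
  have h5 : c • mrep (powMat rho) ⟨_, hw⟩ = (∏ i, (z i : ℂ)) • mrep (powMat rho) ⟨_, hw⟩ := by
    rw [← h3, ← h4, hc1]
    congr 2
    exact Subtype.ext (congrArg surfaceWord hq').symm
  have h6 : c = ∏ i, (z i : ℂ) := by
    have hnt := irr_nontrivial _ (powMat_irr rho hr)
    obtain ⟨v, hv⟩ := exists_ne (0 : (B ⧸ B1 → Fin (Module.finrank ℂ V)) → ℂ)
    have h7 := congrArg (fun S : Module.End ℂ _ => S (mrep (powMat rho)
      (⟨_, hw⟩ : (Ind.fstHom π).ker)⁻¹ v)) h5
    simp only [LinearMap.smul_apply] at h7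
    rw [← Module.End.mul_apply, ← map_mul, mul_inv_cancel, map_one, Module.End.one_apply] at h7
    have h8 : (c - ∏ i, (z i : ℂ)) • v = 0 := by rw [sub_smul, h7, sub_self]
    rcases smul_eq_zero.1 h8 with h9 | h9
    · exact sub_eq_zero.1 h9
    · exact absurd h9 hv
  rw [h6]
  -- the word in the quotient
  let f : Ind (pik rho) →* Ind (pF hπ rho) := Ind.map (QuotientGroup.mk' (jhat rho).range)
    (fun x => pF_mk hπ rho x)
  have h7 : mapT (Ind.fstHom (pF hπ rho)) e = mapT (Ind.fstHom (pF hπ rho)) (mapT f u) := by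
    rw [h]
    rfl
  have hwf : surfaceWord (mapT f u) ∈ (Ind.fstHom (pF hπ rho)).ker := by
    rw [word_mapT]
    exact hw1
  rw [dprod_lift (pF hπ rho) (pF_central hπ rho hr) (delta hπ rho hr) e (mapT f u) h7 hwe hwf,
    dprod_eq, Units.coe_prod]
  refine Finset.prod_congr rfl fun i _ => ?_
  congr 1
  apply iota_inj rho hr
  rw [iota_delta]
  have h8 : ((((Ind.kerEquiv (pF hπ rho)).symm ⟨_, hwf⟩ i : (pF hπ rho).ker)) : Ehat rho) =
      (surfaceWord (mapT f u)).snd i := rfl
  rw [h8, word_mapT]
  change _ = (QuotientGroup.mk' (jhat rho).range) (w.snd i)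
  rw [hz i, map_mul]
  have h9 : (QuotientGroup.mk' (jhat rho).range) (jhat rho ((Ind.kerEquiv π).symm ⟨_, hw⟩ i)) = 1 :=
    (QuotientGroup.eq_one_iff _).2 ⟨_, rfl⟩
  rw [h9, one_mul]
  rfl

end

end Pool.Agent.Helper15.QS
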