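import Pool.Agent.Helper15.QS.Rel

/-!
# The number of surjections onto a central extension of an induced group
-/

open scoped Classical BigOperators IsMulCommutative
open Representation Pool.Agent.Helper884.IC Pool.Agent.Y63.AWC Pool.Agent.Helper15.AW

set_option linter.unusedSectionVars false
set_option linter.unusedVariables false
set_option linter.unusedSimpArgs false

attribute [-instance] MonoidHom.decidableMemKer

noncomputable section

namespace Pool.Agent.Helper15.QS

open Pool.Agent.Y63.KR (surfaceWord coords dg cod dg_spec cod_spec cod_pos DZ_iff)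

section

variable {E : Type} [Group E] [Fintype E]

/-- the tuples which generate `L` modulo `C` -/
lemma sumGen_sub (C : Subgroup E) (kap : C →* ℂˣ) (g : ℕ) (L : Subgroup E) (hCL : C ≤ L) :
    sumGen C kap g L = sumGen (C.subgroupOf L) (rkap C kap L) g ⊤ := by
  unfold sumGen
  rw [← Finset.sum_filter, ← Finset.sum_filter]
  have key : ∀ q : Fin g → L × L, Subgroup.closure (coords (mapT L.subtype q)) ⊔ C = L ↔
      Subgroup.closure (coords q) ⊔ C.subgroupOf L = ⊤ := by
    intro q
    rw [closure_mapT]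
    have h1 : (C.subgroupOf L).map L.subtype = C := by
      rw [Subgroup.subgroupOf_map_subtype, inf_eq_left.2 hCL]
    have h2 : (Subgroup.closure (coords q)).map L.subtype ⊔ C =
        (Subgroup.closure (coords q) ⊔ C.subgroupOf L).map L.subtype := by
      rw [Subgroup.map_sup, h1]
    rw [h2]
    constructor
    · intro h
      apply Subgroup.map_injective L.subtype_injective
      rw [h, ← MonoidHom.range_eq_map, Subgroup.range_subtype]
    · intro h
      rw [h, ← MonoidHom.range_eq_map, Subgroup.range_subtype]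
  symm
  refine Finset.sum_bij (fun q _ => mapT L.subtype q) ?_ ?_ ?_ ?_
  · intro q hq
    rw [Finset.mem_filter] at hq ⊢
    exact ⟨Finset.mem_univ _, (key q).2 hq.2⟩
  · intro q _ q' _ h
    funext i
    exact Prod.ext (Subtype.ext (congrArg Prod.fst (congrFun h i)))
      (Subtype.ext (congrArg Prod.snd (congrFun h i)))
  · intro q hq
    rw [Finset.mem_filter] at hq
    have h2 : coords q ⊆ (L : Set E) := by
      intro y hy
      rw [← hq.2]
      exact Subgroup.mem_sup_left (Subgroup.subset_closure hy)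
    refine ⟨fun i => (⟨(q i).1, h2 (Or.inl ⟨i, rfl⟩)⟩, ⟨(q i).2, h2 (Or.inr ⟨i, rfl⟩)⟩), ?_, rfl⟩
    rw [Finset.mem_filter]
    refine ⟨Finset.mem_univ _, (key _).1 ?_⟩
    exact hq.2
  · intro q _
    rw [ext0_rkap, word_mapT]
    rfl

theorem sumGen_small' {p : ℕ} [hp : Fact p.Prime] (C : Subgroup E) (hC : C ≤ Subgroup.center E)
    [hn : C.Normal] (hpr : ¬ p ∣ Nat.card C) (hS : Small p (E ⧸ C)) {n g b : ℕ}
    (hB : Nat.card C < p ^ b) (hg : 2 ≤ g) (hd : p ^ (n + b) * (p - 1) ∣ g - 1)
    (kap : C →* ℂˣ) : PD p (n + 1) (sumGen C kap g ⊤) := by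
  have hk : (QuotientGroup.mk' C).ker = C := QuotientGroup.ker_mk' C
  have hcard : Nat.card (QuotientGroup.mk' C).ker = Nat.card C :=
    Nat.card_congr (MulEquiv.subgroupCongr hk).toEquiv
  have h1 := sumGen_small (p := p) (QuotientGroup.mk' C) (QuotientGroup.mk'_surjective C)
    (by rw [hk]; exact hC) (by rw [hcard]; exact hpr) hS (n := n) (g := g) (B := b)
    (by rw [hcard]; exact hB) hg hd (kap.comp (MulEquiv.subgroupCongr hk).toMonoidHom)
  have h2 : sumGen (QuotientGroup.mk' C).ker (kap.comp (MulEquiv.subgroupCongr hk).toMonoidHom) g ⊤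
      = sumGen C kap g ⊤ := by
    unfold sumGen
    refine Finset.sum_congr rfl fun q _ => ?_
    have e0 : Subgroup.closure (coords q) ⊔ (QuotientGroup.mk' C).ker = ⊤ ↔
        Subgroup.closure (coords q) ⊔ C = ⊤ := by rw [hk]
    by_cases h3 : Subgroup.closure (coords q) ⊔ C = ⊤
    · rw [if_pos h3, if_pos (e0.2 h3)]
      by_cases h4 : surfaceWord q ∈ C
      · rw [ext0_of_mem kap h4, ext0_of_mem (C := (QuotientGroup.mk' C).ker) _ (hk.symm ▸ h4)]
        rfl
      · rw [ext0_of_not_mem kap h4, ext0_of_not_mem (C := (QuotientGroup.mk' C).ker) _ (by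
          rw [hk]; exact h4)]
    · rw [if_neg h3, if_neg (fun h => h3 (e0.1 h))]
  rwa [h2] at h1

end

section

variable {B : Type} [Group B] [Fintype B] {B1 : Subgroup B} [Fintype (B ⧸ B1)]
  {A : Type} [Group A] [Fintype A]
  {π : A →* B1} {H : Type} [Group H] [Fintype H] {K : Type} [Group K] [Finite K]
  {Φ : H →* Ind π} {dl : K →* A} {φ : A →* MulAut K} {ψ : (B ⧸ B1 → K) →* H}

/-- **The sum over the tuples which generate the group modulo the center.** -/
theorem main_gen {p : ℕ} [hp : Fact p.Prime] (hπ : Function.Surjective π)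
    (D : Dat π Φ dl φ ψ) (hpr : ¬ p ∣ Nat.card Φ.ker)
    (P : Subgroup B) [hPn : P.Normal] (hP : IsPGroup p P) (hPi : ¬ p ∣ P.index)
    (hcov : (∀ x ∈ P, ∀ y ∈ P, x * y = y * x) → (∀ x ∈ P, x ^ p = 1) →
      Small p A ∧ ∃ (A' : Subgroup B) (A1' : Subgroup B1), P.IsComplement' A' ∧
        (P.subgroupOf B1).IsComplement' A1' ∧ Cover p B1 A' A1')
    (hD : ∀ L : Subgroup H, Φ.ker ≤ L → L ≠ ⊤ → L.map ((Ind.fstHom π).comp Φ) = ⊤ →
      st (L.map Φ) = ⊤ → Small p (L ⧸ Φ.ker.subgroupOf L)) (lam : Φ.ker →* ℂˣ) (n : ℕ) :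
    ∃ N0 : ℕ, ∀ n' : ℕ, 0 < n' → p ^ N0 * (p - 1) ∣ n' →
      PD p (n + 1) (sumGen Φ.ker lam (n' + 1) ⊤) := by
  have hfs : Fintype (Subgroup H) := Fintype.ofFinite _
  obtain ⟨N1, hN1⟩ := main_sum hπ D hpr lam P hP hPi hcov n
  obtain ⟨b, hb⟩ := exists_bound (p := p) (Nat.card Φ.ker)
  refine ⟨N1 + (n + b), fun n' h0 hd => ?_⟩
  have h1 := hN1 n' h0 ((Nat.mul_dvd_mul (Nat.pow_dvd_pow p (by omega)) dvd_rfl).trans hd)
  have hd2 : p ^ (n + b) * (p - 1) ∣ (n' + 1) - 1 := by
    rw [Nat.add_sub_cancel]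
    exact (Nat.mul_dvd_mul (Nat.pow_dvd_pow p (by omega)) dvd_rfl).trans hd
  -- the condition for a subgroup
  let Q : Subgroup H → Prop := fun L => L.map ((Ind.fstHom π).comp Φ) = ⊤ ∧ st (L.map Φ) = ⊤
  have hQ : ∀ x : Fin (n' + 1) → H × H, Q (Subgroup.closure (coords x)) ↔
      Q (Subgroup.closure (coords x) ⊔ Φ.ker) := by
    intro x
    have e1 : (Subgroup.closure (coords x) ⊔ Φ.ker).map Φ = (Subgroup.closure (coords x)).map Φ := by
      rw [Subgroup.map_sup, (Subgroup.map_eq_bot_iff _).2 le_rfl, sup_bot_eq]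
    have e2 : (Subgroup.closure (coords x) ⊔ Φ.ker).map ((Ind.fstHom π).comp Φ) =
        (Subgroup.closure (coords x)).map ((Ind.fstHom π).comp Φ) := by
      rw [← Subgroup.map_map, e1, Subgroup.map_map]
    change _ ∧ _ ↔ _ ∧ _
    rw [e1, e2]
  -- the sum as a sum over the tuples of `H`
  have h2 : (∑ r : Fin (n' + 1) → B × B,
        if surfaceWord r = 1 ∧ Subgroup.closure (coords r) = ⊤ then
          EW π (WW Φ Φ.ker lam) ⊤ r else 0) =
      ∑ x : Fin (n' + 1) → H × H, if Q (Subgroup.closure (coords x) ⊔ Φ.ker) then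
        ext0 Φ.ker lam (surfaceWord x) else 0 := by
    have e1 : ∀ r : Fin (n' + 1) → B × B, (if surfaceWord r = 1 ∧
        Subgroup.closure (coords r) = ⊤ then EW π (WW Φ Φ.ker lam) ⊤ r else 0) =
        ∑ x : Fin (n' + 1) → H × H, if mapT ((Ind.fstHom π).comp Φ) x = r then
          (if Q (Subgroup.closure (coords x) ⊔ Φ.ker) then
            ext0 Φ.ker lam (surfaceWord x) else 0) else 0 := by
      intro r
      by_cases hr : surfaceWord r = 1 ∧ Subgroup.closure (coords r) = ⊤
      · rw [if_pos hr]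
        unfold EW WW
        have e2 : ∀ q : Fin (n' + 1) → Ind π × Ind π, (if mapT (Ind.fstHom π) q = r ∧
            st (Subgroup.closure (coords q)) = ⊤ then (∑ x : Fin (n' + 1) → H × H,
              if mapT Φ x = q then ext0 Φ.ker lam (surfaceWord x) else 0) else 0) =
            ∑ x : Fin (n' + 1) → H × H, if mapT Φ x = q then (if mapT (Ind.fstHom π) q = r ∧
              st (Subgroup.closure (coords q)) = ⊤ then
                ext0 Φ.ker lam (surfaceWord x) else 0) else 0 := by
          intro q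
          split_ifs with h5
          · rfl
          · simp
        rw [Finset.sum_congr rfl fun q _ => e2 q, Finset.sum_comm]
        refine Finset.sum_congr rfl fun x _ => ?_
        rw [Finset.sum_ite_eq, if_pos (Finset.mem_univ _)]
        have e3 : mapT (Ind.fstHom π) (mapT Φ x) = mapT ((Ind.fstHom π).comp Φ) x := rfl
        rw [e3]
        by_cases hx : mapT ((Ind.fstHom π).comp Φ) x = r
        · rw [if_pos hx]
          have e4 : (mapT ((Ind.fstHom π).comp Φ) x = r ∧
              st (Subgroup.closure (coords (mapT Φ x))) = ⊤) ↔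
              Q (Subgroup.closure (coords x) ⊔ Φ.ker) := by
            rw [← hQ, closure_mapT]
            constructor
            · rintro ⟨_, h6⟩
              refine ⟨?_, h6⟩
              rw [← closure_mapT, hx, hr.2]
            · rintro ⟨_, h6⟩
              exact ⟨hx, h6⟩
          simp only [e4]
        · rw [if_neg hx, if_neg (fun h => hx h.1)]
      · rw [if_neg hr]
        symm
        refine Finset.sum_eq_zero fun x _ => ?_
        by_cases hx : mapT ((Ind.fstHom π).comp Φ) x = r
        · rw [if_pos hx]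
          by_cases hq : Q (Subgroup.closure (coords x) ⊔ Φ.ker)
          · rw [if_pos hq]
            apply ext0_of_not_mem
            intro hw
            apply hr
            rw [← hQ] at hq
            refine ⟨?_, ?_⟩
            · rw [← hx, word_mapT]
              change (Φ (surfaceWord x)).fst = 1
              have e5 : Φ (surfaceWord x) = 1 := hw
              rw [e5]
              rfl
            · rw [← hx, closure_mapT]
              exact hq.1
          · rw [if_neg hq]
        · rw [if_neg hx]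
    rw [Finset.sum_congr rfl fun r _ => e1 r, Finset.sum_comm]
    refine Finset.sum_congr rfl fun x _ => ?_
    rw [Finset.sum_ite_eq, if_pos (Finset.mem_univ _)]
  -- the decomposition by the subgroups
  have h3 : (∑ x : Fin (n' + 1) → H × H, if Q (Subgroup.closure (coords x) ⊔ Φ.ker) then
        ext0 Φ.ker lam (surfaceWord x) else 0) =
      ∑ L : Subgroup H, if Q L then sumGen Φ.ker lam (n' + 1) L else 0 := by
    have e1 : ∀ L : Subgroup H, (if Q L then sumGen Φ.ker lam (n' + 1) L else 0) =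
        ∑ x : Fin (n' + 1) → H × H, if Subgroup.closure (coords x) ⊔ Φ.ker = L then
          (if Q L then ext0 Φ.ker lam (surfaceWord x) else 0) else 0 := by
      intro L
      unfold sumGen
      split_ifs with h5
      · rfl
      · simp
    rw [Finset.sum_congr rfl fun L _ => e1 L, Finset.sum_comm]
    refine Finset.sum_congr rfl fun x _ => ?_
    rw [Finset.sum_ite_eq, if_pos (Finset.mem_univ _)]
  have hQt : Q ⊤ := by
    constructor
    · rw [← MonoidHom.range_eq_map, MonoidHom.range_eq_top]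
      exact (Ind.fstHom_surj hπ).comp D.surj
    · rw [← MonoidHom.range_eq_map, MonoidHom.range_eq_top.2 D.surj, eq_top_iff]
      intro γ _
      let b : B := (i0 B1).out * (π γ : B) * ((i0 B1).out)⁻¹
      have ho : (((i0 B1).out : B) : B ⧸ B1) = i0 B1 := Quotient.out_eq _
      have hb : b • i0 B1 = i0 B1 := by
        conv_lhs => rw [← ho]
        change ((b * (i0 B1).out : B) : B ⧸ B1) = _
        have : b * (i0 B1).out = (i0 B1).out * (π γ : B) := inv_mul_cancel_right _ _
        rw [this, QuotientGroup.mk_mul_of_mem _ (π γ).2, ho]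
      have hkp : kp B1 b (i0 B1) = π γ := by
        apply Subtype.ext
        rw [kp_coe, hb]
        change ((i0 B1).out)⁻¹ * ((i0 B1).out * (π γ : B) * ((i0 B1).out)⁻¹) * (i0 B1).out = _
        group
      choose s hs using hπ
      let x0 : Ind π := ⟨b, fun i => if i = i0 B1 then γ else s (kp B1 b i), by
        intro i
        by_cases hi : i = i0 B1
        · rw [if_pos hi, hi, hkp]
        · rw [if_neg hi, hs]⟩
      exact ⟨x0, trivial, hb, if_pos rfl⟩
  rw [h2, h3, ← Finset.add_sum_erase _ _ (Finset.mem_univ (⊤ : Subgroup H)), if_pos hQt] at h1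
  have h4 : PD p (n + 1) (∑ L ∈ Finset.univ.erase (⊤ : Subgroup H),
      if Q L then sumGen Φ.ker lam (n' + 1) L else 0) := by
    refine PD.sum _ _ fun L hL => ?_
    split_ifs with hq
    · by_cases hZL : Φ.ker ≤ L
      · rw [sumGen_sub Φ.ker lam _ L hZL]
        have hc : Φ.ker.subgroupOf L ≤ Subgroup.center L := by
          intro x hx
          rw [Subgroup.mem_center_iff]
          intro y
          exact Subtype.ext (Subgroup.mem_center_iff.1 (D.central hx) y)
        have hcard : Nat.card (Φ.ker.subgroupOf L) = Nat.card Φ.ker := card_rC hZL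
        exact sumGen_small' (p := p) (Φ.ker.subgroupOf L) hc (by rw [hcard]; exact hpr)
          (hD L hZL (Finset.ne_of_mem_erase hL) hq.1 hq.2) (b := b) (by rw [hcard]; exact hb)
          (by omega) hd2 _
      · rw [sumGen_zero Φ.ker lam _ L hZL]
        exact PD.zero
    · exact PD.zero
  have h5 := h1.sub h4
  rwa [add_sub_cancel_right] at h5

/-- **The number of surjections.** -/
theorem main_surj {p : ℕ} [hp : Fact p.Prime] (hπ : Function.Surjective π)
    (D : Dat π Φ dl φ ψ) (hpr : ¬ p ∣ Nat.card Φ.ker) (hst : Φ.ker ≤ commutator H)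
    (P : Subgroup B) [hPn : P.Normal] (hP : IsPGroup p P) (hPi : ¬ p ∣ P.index)
    (hcov : (∀ x ∈ P, ∀ y ∈ P, x * y = y * x) → (∀ x ∈ P, x ^ p = 1) →
      Small p A ∧ ∃ (A' : Subgroup B) (A1' : Subgroup B1), P.IsComplement' A' ∧
        (P.subgroupOf B1).IsComplement' A1' ∧ Cover p B1 A' A1')
    (hD : ∀ L : Subgroup H, Φ.ker ≤ L → L ≠ ⊤ → L.map ((Ind.fstHom π).comp Φ) = ⊤ →
      st (L.map Φ) = ⊤ → Small p (L ⧸ Φ.ker.subgroupOf L)) (n : ℕ) :
    ∃ g : ℕ, 2 ≤ g ∧ p ^ n * (p - 1) ∣ g - 1 ∧ (p : ℤ) ^ (n + 1) ∣ (numSurj g H : ℤ) := by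
  have hfin : Fintype (Φ.ker →* ℂˣ) := Fintype.ofFinite _
  have h1 := main_gen hπ D hpr P hP hPi hcov hD
  choose N0 hN0 using fun lam => h1 lam n
  obtain ⟨g, hg, hd⟩ := exists_genus (p := p) (n + ∑ lam, N0 lam)
  refine ⟨g, hg, (Nat.mul_dvd_mul (Nat.pow_dvd_pow p (by omega)) dvd_rfl).trans hd, ?_⟩
  obtain ⟨n', rfl⟩ : ∃ n', g = n' + 1 := ⟨g - 1, by omega⟩
  rw [Nat.add_sub_cancel] at hd
  have h2 : (Nat.card Φ.ker : ℂ) * (cw Φ.ker (n' + 1) 1 : ℂ) =
      ∑ kap : Φ.ker →* ℂˣ, (((kap 1)⁻¹ : ℂˣ) : ℂ) * sumGen Φ.ker kap (n' + 1) ⊤ :=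
    cw_eq Φ.ker D.central (n' + 1) 1
  have h3 : PD p (n + 1) ((Nat.card Φ.ker : ℂ) * (cw Φ.ker (n' + 1) 1 : ℂ)) := by
    rw [h2]
    refine PD.sum _ _ fun lam _ => ?_
    rw [map_one, inv_one, Units.val_one, one_mul]
    refine hN0 lam n' (by omega) ((Nat.mul_dvd_mul (Nat.pow_dvd_pow p ?_) dvd_rfl).trans hd)
    have := Finset.single_le_sum (f := N0) (fun _ _ => Nat.zero_le _) (Finset.mem_univ lam)
    omega
  have h4 := PD.of_mul hpr (int_nat _) h3
  have h5 : cw Φ.ker (n' + 1) 1 = numSurj (n' + 1) H := by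
    unfold cw numSurj
    refine Nat.card_congr (Equiv.subtypeEquivRight fun q => ?_)
    constructor
    · rintro ⟨h6, h7⟩
      refine ⟨h7, ?_⟩
      -- the center lies in the Frattini subgroup
      set L := Subgroup.closure (coords q) with hL
      have h8 : commutator H ≤ L := by
        rw [commutator_def, Subgroup.commutator_le]
        intro x _ y _
        have hx : x ∈ L ⊔ Φ.ker := by rw [h6]; trivial
        have hy : y ∈ L ⊔ Φ.ker := by rw [h6]; trivial
        rw [Subgroup.mem_sup_of_normal_right] at hx hy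
        obtain ⟨l, hl, z, hz, rfl⟩ := hx
        obtain ⟨l', hl', z', hz', rfl⟩ := hy
        have hzc : ∀ w, w * z = z * w := Subgroup.mem_center_iff.1 (D.central hz)
        have hzc' : ∀ w, w * z' = z' * w := Subgroup.mem_center_iff.1 (D.central hz')
        have e1 : l * z * (l' * z') * (l * z)⁻¹ * (l' * z')⁻¹ = l * l' * l⁻¹ * l'⁻¹ := by
          calc l * z * (l' * z') * (l * z)⁻¹ * (l' * z')⁻¹ =
              l * (z * (l' * z')) * z⁻¹ * l⁻¹ * z'⁻¹ * l'⁻¹ := by group
            _ = l * ((l' * z') * z) * z⁻¹ * l⁻¹ * z'⁻¹ * l'⁻¹ := by rw [hzc]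
            _ = l * l' * (z' * l⁻¹) * z'⁻¹ * l'⁻¹ := by group
            _ = l * l' * (l⁻¹ * z') * z'⁻¹ * l'⁻¹ := by rw [hzc']
            _ = _ := by group
        rw [commutatorElement_def, e1]
        exact mul_mem (mul_mem (mul_mem hl hl') (inv_mem hl)) (inv_mem hl')
      rw [← h6]
      exact (sup_eq_left.2 (hst.trans h8)).symm
    · rintro ⟨h6, h7⟩
      exact ⟨by rw [h7, top_sup_eq], h6⟩
  rw [h5] at h4
  have h6 : ((numSurj (n' + 1) H : ℕ) : ℂ) = ((numSurj (n' + 1) H : ℤ) : ℂ) := by push_cast; rfl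
  rw [h6] at h4
  exact PD.dvd h4

end

end Pool.Agent.Helper15.QS
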