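import Pool.Agent.Helper15.QS.Fib

/-!
# The sums over the tuples with a given class
-/

open scoped Classical BigOperators
open Representation Pool.Agent.Helper884.IC Pool.Agent.Y63.AWC Pool.Agent.Helper15.AW

set_option linter.unusedSectionVars false
set_option linter.unusedVariables false
set_option linter.unusedSimpArgs false

attribute [-instance] MonoidHom.decidableMemKer

noncomputable section

namespace Pool.Agent.Helper15.QS

open Pool.Agent.Y63.KR (surfaceWord coords dg cod dg_spec cod_spec cod_pos DZ_iff)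

section

variable {R : Type} [Group R] {Γ : Type} [Group Γ] {E : Type} [Group E]

/-- the fibre product of two extensions -/
def F2 (π : Γ →* R) (pe : E →* R) : Subgroup (Γ × E) where
  carrier := {x | π x.1 = pe x.2}
  one_mem' := by
    change π 1 = pe 1
    rw [map_one, map_one]
  mul_mem' := by
    intro x y hx hy
    change π (x.1 * y.1) = pe (x.2 * y.2)
    rw [map_mul, map_mul, hx, hy]
  inv_mem' := by
    intro x hx
    change π x.1⁻¹ = pe x.2⁻¹
    rw [map_inv, map_inv, hx]

/-- the first projection -/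
def f21 (π : Γ →* R) (pe : E →* R) : F2 π pe →* Γ :=
  (MonoidHom.fst Γ E).comp (F2 π pe).subtype

/-- the second projection -/
def f22 (π : Γ →* R) (pe : E →* R) : F2 π pe →* E :=
  (MonoidHom.snd Γ E).comp (F2 π pe).subtype

lemma f2_spec {π : Γ →* R} {pe : E →* R} (x : F2 π pe) : π (f21 π pe x) = pe (f22 π pe x) := x.2

lemma f2_ext {π : Γ →* R} {pe : E →* R} {x y : F2 π pe} (h1 : f21 π pe x = f21 π pe y)
    (h2 : f22 π pe x = f22 π pe y) : x = y := Subtype.ext (Prod.ext h1 h2)

lemma f21_surj {π : Γ →* R} {pe : E →* R} (hpe : Function.Surjective pe) :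
    Function.Surjective (f21 π pe) := by
  intro γ
  obtain ⟨x, hx⟩ := hpe (π γ)
  exact ⟨⟨(γ, x), hx.symm⟩, rfl⟩

lemma f21_ker {π : Γ →* R} {pe : E →* R} : Nat.card (f21 π pe).ker = Nat.card pe.ker := by
  refine Nat.card_congr
    { toFun := fun x => ⟨f22 π pe x, ?_⟩
      invFun := fun k => ⟨⟨(1, (k : E)), ?_⟩, rfl⟩
      left_inv := fun x => Subtype.ext (f2_ext ((MonoidHom.mem_ker).1 x.2).symm rfl)
      right_inv := fun k => rfl }
  · rw [MonoidHom.mem_ker, ← f2_spec, (MonoidHom.mem_ker).1 x.2, map_one]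
  · change π 1 = pe k
    rw [map_one]
    exact ((MonoidHom.mem_ker).1 k.2).symm

end

section

variable {B : Type} [Group B] [Fintype B] {B1 : Subgroup B} {Γ : Type} [Group Γ] [Fintype Γ]
  {E : Type} [Group E] [Fintype E] {A : Type} [Group A] {p : ℕ} [hp : Fact p.Prime]

/-- the sum over the tuples with class `c` -/
def US (π : Γ →* B1) (C : Subgroup Γ) (κ : C →* ℂˣ) (pe : E →* B1) (g : ℕ) (c : E) : ℂ :=
  ∑ s : Fin g → B1 × B1, if (surfaceWord s = 1 ∧ Subgroup.closure (coords s) = ⊤) ∧
    (∀ e : Fin g → E × E, mapT pe e = s → surfaceWord e = c) then UE π C κ ⊤ s else 0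

lemma US_eq {π : Γ →* B1} (hπ : Function.Surjective π) (C : Subgroup Γ) (hCπ : C ≤ π.ker)
    (κ : C →* ℂˣ) (pe : E →* B1) (g : ℕ) (c : E) : US π C κ pe g c =
    ∑ z : C, ((κ z : ℂˣ) : ℂ) * (Nat.card {q : Fin g → Γ × Γ //
      (Subgroup.closure (coords q) ⊔ C = ⊤ ∧ surfaceWord q = z) ∧
        (∀ e : Fin g → E × E, mapT pe e = mapT π q → surfaceWord e = c)} : ℂ) := by
  have h1 : US π C κ pe g c = ∑ q : Fin g → Γ × Γ, if Subgroup.closure (coords q) ⊔ C = ⊤ ∧
      (∀ e : Fin g → E × E, mapT pe e = mapT π q → surfaceWord e = c) then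
        ext0 C κ (surfaceWord q) else 0 := by
    unfold US UE
    have h2 : ∀ s : Fin g → B1 × B1, (if (surfaceWord s = 1 ∧ Subgroup.closure (coords s) = ⊤) ∧
        (∀ e : Fin g → E × E, mapT pe e = s → surfaceWord e = c) then
        ∑ q : Fin g → Γ × Γ, (if mapT π q = s ∧ Subgroup.closure (coords q) ⊔ C = ⊤ then
          ext0 C κ (surfaceWord q) else 0) else 0) = ∑ q : Fin g → Γ × Γ, if mapT π q = s then
        (if Subgroup.closure (coords q) ⊔ C = ⊤ ∧
      (∀ e : Fin g → E × E, mapT pe e = mapT π q → surfaceWord e = c) then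
        ext0 C κ (surfaceWord q) else 0) else 0 := by
      intro s
      split_ifs with hs
      · refine Finset.sum_congr rfl fun q _ => ?_
        by_cases hq : mapT π q = s
        · simp only [hq, true_and, if_true]
          by_cases h3 : Subgroup.closure (coords q) ⊔ C = ⊤
          · rw [if_pos h3, if_pos ⟨h3, hs.2⟩]
          · rw [if_neg h3, if_neg (fun h => h3 h.1)]
        · simp only [hq, false_and, if_false]
      · symm
        refine Finset.sum_eq_zero fun q _ => ?_
        split_ifs with h3 h4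
        · by_contra hne
          apply hs
          have h5 : surfaceWord q ∈ C := by
            by_contra h6
            exact hne (ext0_of_not_mem κ h6)
          refine ⟨⟨?_, ?_⟩, ?_⟩
          · rw [← h3, word_mapT]
            exact hCπ h5
          · have h6 := congrArg (Subgroup.map π) h4.1
            rw [Subgroup.map_sup, Subgroup.map_top_of_surjective _ hπ, ← closure_mapT] at h6
            have h7 : C.map π = ⊥ := by
              rw [Subgroup.map_eq_bot_iff]
              exact hCπ
            rw [h7, sup_bot_eq, h3] at h6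
            exact h6
          · rw [← h3]
            exact h4.2
        · rfl
        · rfl
    rw [Finset.sum_congr rfl fun s _ => h2 s, Finset.sum_comm]
    refine Finset.sum_congr rfl fun q _ => ?_
    rw [Finset.sum_ite_eq Finset.univ (mapT π q), if_pos (Finset.mem_univ _)]
  have h2 : ∀ q : Fin g → Γ × Γ, (if Subgroup.closure (coords q) ⊔ C = ⊤ ∧
      (∀ e : Fin g → E × E, mapT pe e = mapT π q → surfaceWord e = c) then
        ext0 C κ (surfaceWord q) else 0) = ∑ z : C, if (Subgroup.closure (coords q) ⊔ C = ⊤ ∧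
        surfaceWord q = z) ∧ (∀ e : Fin g → E × E, mapT pe e = mapT π q → surfaceWord e = c) then
        ((κ z : ℂˣ) : ℂ) else 0 := by
    intro q
    by_cases h3 : surfaceWord q ∈ C
    · rw [Finset.sum_eq_single (⟨surfaceWord q, h3⟩ : C)]
      · rw [ext0_of_mem κ h3]
        simp only [and_true]
      · intro z _ hz
        rw [if_neg]
        rintro ⟨⟨_, h4⟩, _⟩
        exact hz (Subtype.ext h4.symm)
      · intro h
        exact absurd (Finset.mem_univ _) h
    · rw [ext0_of_not_mem κ h3, ite_self]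
      symm
      refine Finset.sum_eq_zero fun z _ => ?_
      rw [if_neg]
      rintro ⟨⟨_, h4⟩, _⟩
      exact h3 (h4 ▸ z.2)
  rw [h1, Finset.sum_congr rfl fun q _ => h2 q, Finset.sum_comm]
  refine Finset.sum_congr rfl fun z _ => ?_
  rw [← Finset.sum_filter, Finset.sum_const, nsmul_eq_mul, mul_comm]
  congr 2
  rw [Nat.card_eq_fintype_card, Fintype.card_subtype]

/-- **The sums over the tuples with a given class are small.** -/
theorem US_small (π : Γ →* B1) (hπ : Function.Surjective π) (a : Γ →* A)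
    (ha : Function.Surjective a) (hac : a.ker ≤ Subgroup.center Γ) (haπ : a.ker ≤ π.ker)
    (hap : ¬ p ∣ Nat.card a.ker) (κ : a.ker →* ℂˣ) (pe : E →* B1)
    (hpe : Function.Surjective pe) (hc : pe.ker ≤ Subgroup.center E)
    (hpr : ¬ p ∣ Nat.card pe.ker) (hS : Small p A) :
    ∃ b : ℕ, ∀ n g : ℕ, 2 ≤ g → p ^ (n + b) * (p - 1) ∣ g - 1 → ∀ c : pe.ker,
      PD p (n + 1) (US π a.ker κ pe g c) := by
  let f : F2 π pe →* A := a.comp (f21 π pe)
  have hf : Function.Surjective f := ha.comp (f21_surj hpe)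
  have hmem : ∀ x : F2 π pe, x ∈ f.ker ↔ f21 π pe x ∈ a.ker ∧ f22 π pe x ∈ pe.ker := by
    intro x
    constructor
    · intro hx
      refine ⟨hx, ?_⟩
      rw [MonoidHom.mem_ker, ← f2_spec]
      exact haπ hx
    · intro hx
      exact hx.1
  have hfc : f.ker ≤ Subgroup.center (F2 π pe) := by
    intro x hx
    rw [Subgroup.mem_center_iff]
    intro y
    obtain ⟨h1, h2⟩ := (hmem x).1 hx
    refine f2_ext ?_ ?_
    · rw [map_mul, map_mul]
      exact Subgroup.mem_center_iff.1 (hac h1) _
    · rw [map_mul, map_mul]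
      exact Subgroup.mem_center_iff.1 (hc h2) _
  have hcard : Nat.card f.ker = Nat.card a.ker * Nat.card pe.ker := by
    rw [← Nat.card_prod]
    refine Nat.card_congr
      { toFun := fun x => (⟨f21 π pe x, ((hmem x).1 x.2).1⟩, ⟨f22 π pe x, ((hmem x).1 x.2).2⟩)
        invFun := fun k => ⟨⟨((k.1 : Γ), (k.2 : E)), ?_⟩, k.1.2⟩
        left_inv := fun x => rfl
        right_inv := fun k => rfl }
    change π k.1 = pe k.2
    rw [(MonoidHom.mem_ker).1 (haπ k.1.2), (MonoidHom.mem_ker).1 k.2.2]
  have hfp : ¬ p ∣ Nat.card f.ker := by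
    rw [hcard]
    intro h
    rcases (Nat.Prime.dvd_mul hp.out).1 h with h | h
    · exact hap h
    · exact hpr h
  obtain ⟨b, hb⟩ := exists_bound (p := p) (Nat.card f.ker)
  refine ⟨b, fun n g hg hd c => ?_⟩
  rw [US_eq hπ a.ker haπ κ pe g c]
  refine PD.sum _ _ fun z _ => PD.mul_left (unit_integral κ z) ?_
  have hzc : (⟨((z : Γ), (c : E)), by
      change π z = pe c
      rw [(MonoidHom.mem_ker).1 (haπ z.2), (MonoidHom.mem_ker).1 c.2]⟩ : F2 π pe) ∈ f.ker :=
    z.2
  have h1 := cw_small f hf hfc hfp hS hb hg hd ⟨_, hzc⟩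
  have h2 : cw f.ker g (⟨((z : Γ), (c : E)), by
      change π z = pe c
      rw [(MonoidHom.mem_ker).1 (haπ z.2), (MonoidHom.mem_ker).1 c.2]⟩ : F2 π pe) =
      Nat.card (f21 π pe).ker ^ (2 * g) * Nat.card {q : Fin g → Γ × Γ //
      (Subgroup.closure (coords q) ⊔ a.ker = ⊤ ∧ surfaceWord q = z) ∧
        (∀ e : Fin g → E × E, mapT pe e = mapT π q → surfaceWord e = c)} := by
    unfold cw
    rw [← card_fib (f21 π pe) (f21_surj hpe) g (fun q =>
      (Subgroup.closure (coords q) ⊔ a.ker = ⊤ ∧ surfaceWord q = z) ∧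
        (∀ e : Fin g → E × E, mapT pe e = mapT π q → surfaceWord e = c))]
    refine Nat.card_congr (Equiv.subtypeEquivRight fun q => ?_)
    have hgen : Subgroup.closure (coords q) ⊔ f.ker = ⊤ ↔
        Subgroup.closure (coords (mapT (f21 π pe) q)) ⊔ a.ker = ⊤ := by
      constructor
      · intro h
        have h3 := congrArg (Subgroup.map f) h
        rw [Subgroup.map_sup, Subgroup.map_top_of_surjective _ hf, ← closure_mapT] at h3
        have h4 : f.ker.map f = ⊥ := by rw [Subgroup.map_eq_bot_iff]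
        rw [h4, sup_bot_eq] at h3
        exact gen_lift a ha (mapT (f21 π pe) q) h3
      · intro h
        have h3 := congrArg (Subgroup.map a) h
        rw [Subgroup.map_sup, Subgroup.map_top_of_surjective _ ha, ← closure_mapT] at h3
        have h4 : a.ker.map a = ⊥ := by rw [Subgroup.map_eq_bot_iff]
        rw [h4, sup_bot_eq] at h3
        exact gen_lift f hf q h3
    have hbase : mapT pe (mapT (f22 π pe) q) = mapT π (mapT (f21 π pe) q) := by
      funext i
      exact Prod.ext (f2_spec _).symm (f2_spec _).symm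
    constructor
    · rintro ⟨h3, h4⟩
      have h5 : surfaceWord (mapT (f21 π pe) q) = z := by
        rw [word_mapT, h4]
        rfl
      have h6 : surfaceWord (mapT (f22 π pe) q) = c := by
        rw [word_mapT, h4]
        rfl
      refine ⟨⟨hgen.1 h3, h5⟩, fun e he => ?_⟩
      rw [← h6]
      exact word_lifts pe hc _ _ (by rw [he, hbase])
    · rintro ⟨⟨h3, h4⟩, h5⟩
      refine ⟨hgen.2 h3, f2_ext ?_ ?_⟩
      · rw [← word_mapT]
        exact h4
      · rw [← word_mapT]
        exact h5 _ hbase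
  rw [h2] at h1
  push_cast at h1
  rw [f21_ker] at h1
  have hpg : ¬ p ∣ Nat.card pe.ker ^ (2 * g) := fun h => hpr (hp.out.dvd_of_dvd_pow h)
  refine PD.of_mul hpg (int_nat _) ?_
  push_cast
  exact h1

end

end Pool.Agent.Helper15.QS
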